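import Mathlib
import Pool.Agent.Lib.MP_bae66e_nt.Mg.G034
import Pool.Agent.Lib.MP_bae66e_nt.MG.B2
import Pool.Agent.Lib.MP_9cfc0a_nt.An3

/-!
# Maier's phenomenon for Goldbach's problem, uniformly in the scale: definitions
-/

set_option autoImplicit false

namespace Pool.Agent.MU

open Pool.Agent.GM Pool.Agent.MG

/-- the primes in `(√z, z]` except `p₁` -/
def PP (z p₁ : ℕ) : Finset ℕ := (Pz z).erase p₁

/-- the modulus -/
def MM (z p₁ : ℕ) : ℕ := 2 * ∏ p ∈ PP z p₁, p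

lemma mem_Pz {z p : ℕ} : p ∈ Pz z ↔ p ≤ z ∧ p.Prime ∧ z < p ^ 2 := by
  unfold Pz
  rw [Finset.mem_filter, Finset.mem_range, Nat.lt_succ_iff]

lemma mem_PP {z p₁ p : ℕ} : p ∈ PP z p₁ ↔ p ≠ p₁ ∧ p ≤ z ∧ p.Prime ∧ z < p ^ 2 := by
  unfold PP
  rw [Finset.mem_erase, mem_Pz]

lemma MM_pos (z p₁ : ℕ) : 0 < MM z p₁ := by
  unfold MM
  apply Nat.mul_pos (by norm_num)
  apply Finset.prod_pos
  intro p hp
  exact (mem_PP.mp hp).2.2.1.pos

instance MM_neZero (z p₁ : ℕ) : NeZero (MM z p₁) := ⟨(MM_pos z p₁).ne'⟩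

lemma two_dvd_MM (z p₁ : ℕ) : 2 ∣ MM z p₁ := Dvd.intro _ rfl

/-- the sum of `p ^ (-1 + ξ / log z)` over the odd primes of the modulus -/
noncomputable def ff (z p₁ : ℕ) (ξ : ℝ) : ℝ := ∑ p ∈ PP z p₁, (p : ℝ) ^ (-1 + ξ / Real.log z)

/-- the number of `n ≤ t` coprime to `M` -/
noncomputable def Ph (M : ℕ) (t : ℝ) : ℝ :=
  (((Finset.Icc 1 ⌊t⌋₊).filter (fun n => n.Coprime M)).card : ℝ)

/-- the normalised error term of the sifting function -/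
noncomputable def Del (M : ℕ) (t : ℝ) : ℝ := (M : ℝ) / (M.totient : ℝ) * Ph M t - t

/-- the weight `t ^ (-σ - 1) (1 + cos (φ - π log t / log z))` -/
noncomputable def kap (z : ℕ) (σ φ t : ℝ) : ℝ :=
  t ^ (-σ - 1) * (1 + Real.cos (φ - Real.pi * Real.log t / Real.log z))

/-- the even numbers in `(A₁, A]` -/
noncomputable def rows (A₁ A : ℝ) : Finset ℕ := (Finset.Ioc ⌊A₁⌋₊ ⌊A⌋₊).filter Even

/-- the odd primes `≤ y` -/
noncomputable def oddP (y : ℝ) : Finset ℕ :=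
  (Finset.range (⌊y⌋₊ + 1)).filter (fun p => p.Prime ∧ p ≠ 2)

/-- actual count, row `a` -/
noncomputable def TAy (θ : ℝ) (k M : ℕ) (y : ℝ) (a : ℕ) : ℝ :=
  ∑ m ∈ (cenSet θ k).filter (fun m => m ≡ a [MOD M]),
    wk k m * Real.log m * (repCount m y : ℝ)

/-- expected count, row `a` -/
noncomputable def TEy (θ : ℝ) (k M : ℕ) (y : ℝ) (a : ℕ) : ℝ :=
  ∑ m ∈ (cenSet θ k).filter (fun m => m ≡ a [MOD M]), wk k m * (sing m * piR y)

end Pool.Agent.MU
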