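import Mathlib
import Pool.Agent.Lib.MP_bae66e_nt.MU.Defs
import Pool.Agent.Lib.MP_bae66e_nt.Mertens

/-!
# Maier matrices, uniformly in the scale: P1, reciprocals of the primes in (√z, z]
-/

set_option autoImplicit false

namespace Pool.Agent.MU

open Pool.Agent.GM Pool.Agent.MG

/-- P1. PROOF. For `p ∈ Pz z` (`z < p ^ 2`) `log p ≥ (log z)/2`, so
`∑ 1/p ≤ (2/log z) ∑_{p ≤ z} (log p)/p ≤ (2/log z) (log z + log 4)`
(`Pool.Agent.Lib.MP_bae66e_nt.sum_log_div_le`, `prms z` are the primes `≤ z`), at most `4` for `z ≥ 4`;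
for `z ≤ 3` the sum is at most `1/2 + 1/3`. -/
theorem sum_inv_Pz : ∃ C : ℝ, 1 ≤ C ∧ ∀ z : ℕ, ∑ p ∈ Pz z, 1 / (p : ℝ) ≤ C := by
  refine ⟨6, by norm_num, fun z => ?_⟩
  by_cases hz : z ≤ 1
  · have he : Pz z = ∅ := by
      rw [Finset.eq_empty_iff_forall_notMem]
      intro p hp
      rw [mem_Pz] at hp
      have := hp.2.1.two_le
      omega
    rw [he, Finset.sum_empty]
    norm_num
  · push Not at hz
    have hz2 : (2 : ℝ) ≤ z := by exact_mod_cast hz
    have hl2 : Real.log 2 ≤ Real.log z := Real.log_le_log (by norm_num) hz2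
    have hl20 : 0 < Real.log 2 := Real.log_pos (by norm_num)
    have hlz : 0 < Real.log z := by linarith
    have h4 : Real.log 4 ≤ 2 * Real.log z := by
      have : Real.log 4 = 2 * Real.log 2 := by
        rw [show (4 : ℝ) = 2 ^ 2 by norm_num, Real.log_pow]
        norm_num
      linarith
    have h1 : ∑ p ∈ Pz z, 1 / (p : ℝ) ≤
        ∑ p ∈ Pz z, (2 / Real.log z) * (Real.log p / p) := by
      apply Finset.sum_le_sum
      intro p hp
      rw [mem_Pz] at hp
      have hp0 : (0 : ℝ) < p := by exact_mod_cast hp.2.1.pos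
      have h2 : Real.log z ≤ 2 * Real.log p := by
        have h3 : (z : ℝ) ≤ (p : ℝ) ^ 2 := by exact_mod_cast hp.2.2.le
        have h5 := Real.log_le_log (by linarith) h3
        rw [Real.log_pow] at h5
        exact_mod_cast h5
      have h6 : (2 / Real.log z) * (Real.log p / p) = (2 * Real.log p / Real.log z) * (1 / p) := by
        field_simp
      rw [h6]
      have h7 : 1 ≤ 2 * Real.log p / Real.log z := by
        rw [le_div_iff₀ hlz, one_mul]
        exact h2
      have h8 : 0 ≤ 1 / (p : ℝ) := by positivity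
      nlinarith
    have h2 : ∑ p ∈ Pz z, (2 / Real.log z) * (Real.log p / p) ≤
        ∑ p ∈ Pool.Agent.Lib.MP_bae66e_nt.prms z, (2 / Real.log z) * (Real.log p / p) := by
      apply Finset.sum_le_sum_of_subset_of_nonneg
      · intro p hp
        rw [mem_Pz] at hp
        exact Pool.Agent.Lib.MP_bae66e_nt.mem_prms.2 ⟨hp.1, hp.2.1⟩
      · intro p hp _
        have hp2 := (Pool.Agent.Lib.MP_bae66e_nt.mem_prms.1 hp).2.one_lt
        have h3 : 0 ≤ Real.log p := Real.log_nonneg (by exact_mod_cast hp2.le)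
        positivity
    have h3 := Pool.Agent.Lib.MP_bae66e_nt.sum_log_div_le z (by omega)
    have h2' : ∑ p ∈ Pool.Agent.Lib.MP_bae66e_nt.prms z, (2 / Real.log z) * (Real.log p / p) =
        (2 / Real.log z) * ∑ p ∈ Pool.Agent.Lib.MP_bae66e_nt.prms z, Real.log p / p := by
      rw [Finset.mul_sum]
    rw [h2'] at h2
    have h5 : (2 / Real.log z) * ∑ p ∈ Pool.Agent.Lib.MP_bae66e_nt.prms z, Real.log p / p ≤
        (2 / Real.log z) * (3 * Real.log z) := by
      apply mul_le_mul_of_nonneg_left _ (by positivity)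
      linarith
    have h6 : (2 / Real.log z) * (3 * Real.log z) = 6 := by
      field_simp
      norm_num
    linarith

end Pool.Agent.MU
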