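import Mathlib
import Pool.Agent.Lib.MP_bae66e_nt.MU.P1

/-!
# Maier matrices, uniformly in the scale: P8, the modulus
-/

set_option autoImplicit false

namespace Pool.Agent.MU

open Pool.Agent.GM Pool.Agent.MG

private lemma P8_two_notMem (z p₁ : ℕ) (hz : 4 ≤ z) : 2 ∉ PP z p₁ := by
  intro h
  have := (mem_PP.mp h).2.2.2
  omega

private lemma P8_MM_eq (z p₁ : ℕ) (hz : 4 ≤ z) : MM z p₁ = ∏ p ∈ insert 2 (PP z p₁), p := by
  rw [Finset.prod_insert (P8_two_notMem z p₁ hz)]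
  rfl

private lemma P8_prime (z p₁ : ℕ) : ∀ p ∈ insert 2 (PP z p₁), p.Prime := by
  intro p hp
  rcases Finset.mem_insert.mp hp with rfl | hp
  · exact Nat.prime_two
  · exact (mem_PP.mp hp).2.2.1

/-- P8a. PROOF. The elements of `PP z p₁` are primes with `4 ≤ z < p ^ 2`, so `p ≠ 2`; `MM z p₁` is a product of
distinct primes. -/
theorem MM_primeFactors (z p₁ : ℕ) (hz : 4 ≤ z) :
    2 ∉ PP z p₁ ∧ (MM z p₁).primeFactors = insert 2 (PP z p₁) := by
  refine ⟨P8_two_notMem z p₁ hz, ?_⟩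
  rw [P8_MM_eq z p₁ hz]
  exact Nat.primeFactors_prod (P8_prime z p₁)

/-- P8b. -/
theorem MM_squarefree (z p₁ : ℕ) (hz : 4 ≤ z) : Squarefree (MM z p₁) := by
  rw [P8_MM_eq z p₁ hz]
  apply Finset.squarefree_prod_of_pairwise_isCoprime
  · intro p hp q hq hpq
    have h := (Nat.coprime_primes (P8_prime z p₁ p hp) (P8_prime z p₁ q hq)).mpr hpq
    exact Nat.coprime_iff_isRelPrime.mp h
  · intro p hp
    exact (P8_prime z p₁ p hp).squarefree

/-- P8c. PROOF. `MM z p₁ ∣ primorial z` (squarefree, all prime factors `≤ z`), `primorial_le_four_pow`,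
`log 4 ≤ 2` (see `GM.log_Mz_le`). -/
theorem log_MM_le (z p₁ : ℕ) (hz : 4 ≤ z) : Real.log (MM z p₁) ≤ 2 * z := by
  have h1 : MM z p₁ ∣ primorial z := by
    rw [P8_MM_eq z p₁ hz]
    unfold primorial
    apply Finset.prod_dvd_prod_of_subset
    intro p hp
    rw [Finset.mem_filter, Finset.mem_range]
    refine ⟨?_, P8_prime z p₁ p hp⟩
    rcases Finset.mem_insert.mp hp with rfl | hp
    · omega
    · have := (mem_PP.mp hp).2.1
      omega
  have h2 : MM z p₁ ≤ 4 ^ z :=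
    (Nat.le_of_dvd (primorial_pos z) h1).trans (primorial_le_four_pow z)
  have h3 : (MM z p₁ : ℝ) ≤ (4 : ℝ) ^ z := by exact_mod_cast h2
  have hpos : (0 : ℝ) < MM z p₁ := by exact_mod_cast MM_pos z p₁
  have h4 : Real.log (MM z p₁) ≤ z * Real.log 4 := by
    have := Real.log_le_log hpos h3
    rwa [Real.log_pow] at this
  have h5 : Real.log 4 ≤ 2 := by
    have : Real.log 4 = 2 * Real.log 2 := by
      rw [show (4 : ℝ) = 2 ^ 2 by norm_num, Real.log_pow]
      norm_num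
    have := Real.log_two_lt_d9
    linarith
  have h6 : (0 : ℝ) ≤ z := Nat.cast_nonneg z
  nlinarith

/-- P8d. -/
theorem MM_card (z p₁ : ℕ) (hz : 4 ≤ z) : ((MM z p₁).primeFactors.card : ℝ) ≤ z := by
  rw [(MM_primeFactors z p₁ hz).2]
  have h : insert 2 (PP z p₁) ⊆ Finset.Icc 1 z := by
    intro p hp
    have hpp := P8_prime z p₁ p hp
    rw [Finset.mem_Icc]
    refine ⟨hpp.pos, ?_⟩
    rcases Finset.mem_insert.mp hp with rfl | hp
    · omega
    · exact (mem_PP.mp hp).2.1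
  have h2 := Finset.card_le_card h
  rw [Nat.card_Icc] at h2
  have h3 : (insert 2 (PP z p₁)).card ≤ z := by omega
  exact_mod_cast h3

private lemma P8_inv_le {x : ℝ} (h0 : 0 ≤ x) (h1 : x ≤ 1 / 2) : (1 - x)⁻¹ ≤ Real.exp (2 * x) := by
  have h2 : 0 < 1 - x := by linarith
  rw [inv_le_comm₀ h2 (Real.exp_pos _), ← Real.exp_neg]
  have h3 : Real.exp (-(2 * x)) ≤ 1 / (1 + 2 * x) := by
    rw [Real.exp_neg, one_div]
    apply inv_anti₀ (by linarith)
    have := Real.add_one_le_exp (2 * x)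
    linarith
  refine h3.trans ?_
  rw [div_le_iff₀ (by linarith)]
  nlinarith

/-- P8e. PROOF. `M/φ(M) = 2 ∏_{p ∈ PP} (1 - 1/p)⁻¹` (`Nat.totient_eq_mul_prod_factors`), each factor is
`≤ exp (2/p)` for `p ≥ 2`; `sum_inv_Pz`. -/
theorem MM_ratio : ∃ C : ℝ, 1 ≤ C ∧ ∀ z p₁ : ℕ, 4 ≤ z →
    1 ≤ (MM z p₁ : ℝ) / ((MM z p₁).totient : ℝ) ∧
      (MM z p₁ : ℝ) / ((MM z p₁).totient : ℝ) ≤ C := by
  obtain ⟨C, hC, h⟩ := sum_inv_Pz
  refine ⟨2 * Real.exp (2 * C), ?_, ?_⟩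
  · have := Real.add_one_le_exp (2 * C)
    linarith
  intro z p₁ hz
  have hM : (0 : ℝ) < MM z p₁ := by exact_mod_cast MM_pos z p₁
  have hφ0 : 0 < (MM z p₁).totient := Nat.totient_pos.mpr (MM_pos z p₁)
  have hφ : (0 : ℝ) < (MM z p₁).totient := by exact_mod_cast hφ0
  refine ⟨?_, ?_⟩
  · rw [le_div_iff₀ hφ, one_mul]
    exact_mod_cast Nat.totient_le _
  have e : ((MM z p₁).totient : ℝ) = (MM z p₁ : ℝ) * ∏ p ∈ (MM z p₁).primeFactors, (1 - (p : ℝ)⁻¹) := by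
    have := Nat.totient_eq_mul_prod_factors (MM z p₁)
    have h2 : (((MM z p₁).totient : ℚ) : ℝ) =
        (((MM z p₁ : ℚ) * ∏ p ∈ (MM z p₁).primeFactors, (1 - (p : ℚ)⁻¹) : ℚ) : ℝ) := by rw [this]
    push_cast at h2
    exact h2
  have hpos : ∀ p ∈ insert 2 (PP z p₁), 0 < 1 - (p : ℝ)⁻¹ := by
    intro p hp
    have h2 := (P8_prime z p₁ p hp).two_le
    have h3 : (2 : ℝ) ≤ p := by exact_mod_cast h2
    have h4 : (p : ℝ)⁻¹ ≤ 2⁻¹ := inv_anti₀ (by norm_num) h3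
    have h5 : (2 : ℝ)⁻¹ = 1 / 2 := by norm_num
    linarith
  have e2 : (MM z p₁ : ℝ) / ((MM z p₁).totient : ℝ) = ∏ p ∈ insert 2 (PP z p₁), (1 - (p : ℝ)⁻¹)⁻¹ := by
    rw [e, (MM_primeFactors z p₁ hz).2, Finset.prod_inv_distrib]
    have h3 := (Finset.prod_pos hpos).ne'
    field_simp
  rw [e2, Finset.prod_insert (P8_two_notMem z p₁ hz)]
  have e3 : (1 - ((2 : ℕ) : ℝ)⁻¹)⁻¹ = 2 := by norm_num
  rw [e3]
  apply mul_le_mul_of_nonneg_left _ (by norm_num)
  calc ∏ p ∈ PP z p₁, (1 - (p : ℝ)⁻¹)⁻¹ ≤ ∏ p ∈ PP z p₁, Real.exp (2 * (1 / (p : ℝ))) := by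
        apply Finset.prod_le_prod
        · intro p hp
          exact (inv_pos.mpr (hpos p (Finset.mem_insert_of_mem hp))).le
        · intro p hp
          have h2 := (mem_PP.mp hp).2.2.1.two_le
          have h3 : (2 : ℝ) ≤ p := by exact_mod_cast h2
          have h4 : 1 / (p : ℝ) ≤ 1 / 2 := one_div_le_one_div_of_le (by norm_num) h3
          rw [← one_div (p : ℝ)]
          exact P8_inv_le (by positivity) h4
    _ = Real.exp (∑ p ∈ PP z p₁, 2 * (1 / (p : ℝ))) := by rw [Real.exp_sum]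
    _ ≤ Real.exp (2 * C) := by
        apply Real.exp_le_exp.mpr
        rw [← Finset.mul_sum]
        apply mul_le_mul_of_nonneg_left _ (by norm_num)
        refine le_trans ?_ (h z)
        apply Finset.sum_le_sum_of_subset_of_nonneg
        · exact Finset.erase_subset _ _
        · intro p _ _
          positivity

end Pool.Agent.MU
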