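import Mathlib
import Pool.Agent.Lib.MP_bae66e_nt.MU.P8
import Pool.Agent.Lib.MP_bae66e_nt.GM.S1
import Pool.Agent.Lib.MP_bae66e_nt.GM.Z8
import Pool.Agent.Lib.MP_bae66e_nt.GM.S2
import Pool.Agent.Lib.MP_bae66e_nt.GM.S3b

/-!
# Maier matrices, uniformly in the scale: A2, the exceptional prime
-/

set_option autoImplicit false

namespace Pool.Agent.MU

open Pool.Agent.GM Pool.Agent.MG MeasureTheory

private lemma A2_dvd (z p₁ : ℕ) : MM z p₁ ∣ MM z 0 := by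
  unfold MM
  apply Nat.mul_dvd_mul_left
  apply Finset.prod_dvd_prod_of_subset
  intro p hp
  rw [mem_PP] at hp ⊢
  exact ⟨hp.2.2.1.ne_zero, hp.2⟩

private lemma A2_lift (z p₁ : ℕ) (κ : ℝ) (χ : DirichletCharacter ℂ (MM z p₁)) (hχ : χ ≠ 1)
    (h : NearZero (MM z p₁) χ κ) : ∃ χ' : DirichletCharacter ℂ (MM z 0), χ' ≠ 1 ∧
      NearZero (MM z 0) χ' κ ∧ χ'.conductor ∣ MM z p₁ := by
  have hd := A2_dvd z p₁
  refine ⟨DirichletCharacter.changeLevel hd χ, ?_, ?_, ?_⟩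
  · intro h2
    exact hχ ((DirichletCharacter.changeLevel_eq_one_iff hd).1 h2)
  · obtain ⟨ρ, hρ, hle⟩ := h
    exact ⟨ρ, zero_changeLevel _ _ hd _ hχ ρ hρ, hle⟩
  · rw [DirichletCharacter.conductor_changeLevel]
    exact DirichletCharacter.conductor_dvd_level χ

/-- A2. PROOF. Let `c₀` be the constant of `GM.zfr` and `c = min (c₀/8) (1/40)`; `z` large, `M₀ = MM z 0`
(so `PP z 0 = Pz z`), `log (M₀ + 2) ≤ 2 z + 1 ≤ 4 z` (`log_MM_le`). If `χ ≠ 1` mod `M₀` has `NearZero M₀ χ (c/z)`, by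
`GM.nearZero_re_im` it has a zero `ρ`, `1 - c/z ≤ re ρ < 1`, `|im ρ| ≤ 1`, `c/z ≤ c₀/(8z) < c₀/log (M₀+2)`; by
`zfr` `χ² = 1` and `ρ` is real, and any two such characters coincide. If there is such a `χ₁`, its conductor
`d₁ ∣ M₀` is `> 2` (the only characters of conductor `1` or `2` are trivial), squarefree, so it has a prime factor
`p₁ ≠ 2`, `p₁ ∈ PP z 0 = Pz z`. If there is none take any `p₁ ∈ Pz z` (nonempty for large `z`, Bertrand:
`Nat.exists_prime_lt_and_le_two_mul`). Then `MM z p₁ ∣ M₀`. A `χ ≠ 1` mod `MM z p₁` with `NearZero .. (c/z)`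
lifts (`DirichletCharacter.changeLevel`, `GM.zero_changeLevel`) to a character mod `M₀` with the same property, so
to `χ₁`; its conductor divides `MM z p₁` (`DirichletCharacter.conductor_changeLevel`,
`DirichletCharacter.conductor_dvd_level`), but `p₁` does not divide `MM z p₁`. Contradiction. -/
theorem exists_p₁ : ∃ (c : ℝ) (z₀ : ℕ), 0 < c ∧ c ≤ 1 ∧ ∀ z : ℕ, z₀ ≤ z → ∃ p₁ ∈ Pz z,
    ∀ χ : DirichletCharacter ℂ (MM z p₁), χ ≠ 1 → ¬ NearZero (MM z p₁) χ (c / z) := by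
  obtain ⟨c₀, hc₀, hb⟩ := bad_unique
  obtain ⟨η, hη, hη', hp⟩ := bad_prime 3
  refine ⟨min (c₀ / 8) 1, ⌈1 / η⌉₊ + 16, lt_min (by positivity) one_pos, min_le_right _ _, ?_⟩
  intro z hz
  set c : ℝ := min (c₀ / 8) 1 with hc
  have hc0 : 0 < c := lt_min (by positivity) one_pos
  have hc1 : c ≤ c₀ / 8 := min_le_left _ _
  have hc2 : c ≤ 1 := min_le_right _ _
  have hz4 : 4 ≤ z := by omega
  have hz16 : (16 : ℝ) ≤ z := by exact_mod_cast (by omega : 16 ≤ z)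
  have hz0 : (0 : ℝ) < z := by linarith
  have hzη : 1 / η ≤ z := by
    refine le_trans (Nat.le_ceil _) ?_
    exact_mod_cast (by omega : ⌈1 / η⌉₊ ≤ z)
  have hκ0 : 0 < c / z := by positivity
  have hκη : c / z ≤ η := by
    rw [div_le_iff₀ hz0]
    rw [div_le_iff₀ hη] at hzη
    linarith
  have hκ12 : c / z ≤ 1 / 12 := by
    rw [div_le_iff₀ hz0]; linarith
  have hcond : ∀ χ : DirichletCharacter ℂ (MM z 0), Real.log (χ.conductor + 2) < c₀ / (c / z) := by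
    intro χ
    have h1 : (χ.conductor : ℝ) ≤ MM z 0 := by
      exact_mod_cast Nat.le_of_dvd (MM_pos z 0) χ.conductor_dvd_level
    have hM : (1 : ℝ) ≤ MM z 0 := by exact_mod_cast MM_pos z 0
    have h2 : Real.log ((χ.conductor : ℝ) + 2) ≤ Real.log (3 * (MM z 0 : ℝ)) := by
      apply Real.log_le_log
      · have : (0 : ℝ) ≤ χ.conductor := Nat.cast_nonneg _
        linarith
      · linarith
    rw [Real.log_mul (by norm_num) (by linarith)] at h2
    have h3 := log_MM_le z 0 hz4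
    have h4 : Real.log 3 ≤ 2 := by
      have := Real.log_le_sub_one_of_pos (show (0 : ℝ) < 3 by norm_num)
      linarith
    have h5 : 8 * z ≤ c₀ / (c / z) := by
      rw [le_div_iff₀ hκ0]
      have h6 : 8 * (z : ℝ) * (c / z) = 8 * c := by
        field_simp
      rw [h6]
      linarith
    linarith
  have hmono : ∀ χ : DirichletCharacter ℂ (MM z 0), NearZero (MM z 0) χ (c / z) →
      NearZero (MM z 0) χ η := by
    rintro χ ⟨ρ, hρ, hle⟩
    exact ⟨ρ, hρ, by linarith⟩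
  by_cases hex : ∃ χ₀ : DirichletCharacter ℂ (MM z 0), χ₀ ≠ 1 ∧ NearZero (MM z 0) χ₀ (c / z)
  · obtain ⟨χ₀, hχ₀, hn₀⟩ := hex
    obtain ⟨p₁, hp₁, hKp, hpd⟩ := hp (MM z 0) (MM_squarefree z 0 hz4) χ₀ hχ₀ (hmono _ hn₀)
    have hpM : p₁ ∈ (MM z 0).primeFactors :=
      Nat.mem_primeFactors.mpr ⟨hp₁, hpd.trans χ₀.conductor_dvd_level, (MM_pos z 0).ne'⟩
    rw [(MM_primeFactors z 0 hz4).2, Finset.mem_insert] at hpM
    have hpP : p₁ ∈ PP z 0 := hpM.resolve_left (by omega)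
    refine ⟨p₁, Finset.mem_of_mem_erase hpP, ?_⟩
    intro χ hχ hn
    obtain ⟨χ', hχ', hn', hd'⟩ := A2_lift z p₁ _ χ hχ hn
    have heq := hb (MM z 0) (c / z) hκ0 hκ12 χ' χ₀ hχ' hχ₀ hn' hn₀ (hcond _) (hcond _)
    rw [← heq] at hpd
    have hpM' : p₁ ∈ (MM z p₁).primeFactors :=
      Nat.mem_primeFactors.mpr ⟨hp₁, hpd.trans hd', (MM_pos z p₁).ne'⟩
    rw [(MM_primeFactors z p₁ hz4).2, Finset.mem_insert] at hpM'
    rcases hpM' with h | h
    · omega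
    · exact (mem_PP.mp h).1 rfl
  · obtain ⟨p₁, hp₁, h3, h4⟩ := Nat.exists_prime_lt_and_le_two_mul (z / 2) (by omega)
    have hpz : p₁ ∈ Pz z := by
      rw [mem_Pz]
      refine ⟨by omega, hp₁, ?_⟩
      have h5 : z < 2 * p₁ := by omega
      nlinarith
    refine ⟨p₁, hpz, ?_⟩
    intro χ hχ hn
    obtain ⟨χ', hχ', hn', _⟩ := A2_lift z p₁ _ χ hχ hn
    exact hex ⟨χ', hχ', hn'⟩

end Pool.Agent.MU
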