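import Mathlib
import Pool.Agent.Lib.MP_bae66e_nt.MU.A1
import Pool.Agent.Lib.MP_bae66e_nt.MU.A2
import Pool.Agent.Lib.MP_bae66e_nt.GM.D5

/-!
# Maier matrices, uniformly in the scale: A3, primes in the classes
-/

set_option autoImplicit false

namespace Pool.Agent.MU

open Pool.Agent.GM Pool.Agent.MG MeasureTheory

private lemma A3_exp_half (x : ℝ) (h0 : 0 ≤ x) (h1 : x ≤ 1) : Real.exp (x / 2) ≤ 1 + x := by
  have h2 := Real.add_one_le_exp (-(x / 2))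
  have h3 : Real.exp (x / 2) * Real.exp (-(x / 2)) = 1 := by
    rw [← Real.exp_add, add_neg_cancel, Real.exp_zero]
  have h4 : 0 < Real.exp (x / 2) := Real.exp_pos _
  have h5 : Real.exp (x / 2) * (-(x / 2) + 1) ≤ 1 := by
    have h8 := mul_le_mul_of_nonneg_left h2 h4.le
    rw [h3] at h8
    exact h8
  by_contra hcon
  push Not at hcon
  have h6 : (1 + x) * (-(x / 2) + 1) < Real.exp (x / 2) * (-(x / 2) + 1) :=
    mul_lt_mul_of_pos_right hcon (by linarith)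
  have h7 : 1 ≤ (1 + x) * (-(x / 2) + 1) := by
    have : 0 ≤ x * (1 - x) := mul_nonneg h0 (by linarith)
    nlinarith
  linarith

private lemma A3_unit (q : ℕ) [NeZero q] (c : ℕ) (hc : c.Coprime q) :
    (1 : DirichletCharacter ℂ q) ((c : ZMod q)⁻¹) = 1 := by
  obtain ⟨u, hu⟩ := (ZMod.isUnit_iff_coprime c q).2 hc
  rw [← hu, ZMod.inv_coe_unit, MulChar.one_apply_coe]

private lemma A3_log (q k : ℕ) [NeZero q] (hk : 3 ≤ k) (h : Real.log q ≤ k / 80) :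
    Real.log (q + 2) ≤ k := by
  have hq : (1 : ℝ) ≤ q := by exact_mod_cast NeZero.one_le
  have h1 : Real.log (q + 2) ≤ Real.log (3 * q) := Real.log_le_log (by linarith) (by linarith)
  rw [Real.log_mul (by norm_num) (by linarith)] at h1
  have h2 : Real.log 3 ≤ 2 := by
    have := Real.log_le_sub_one_of_pos (show (0 : ℝ) < 3 by norm_num)
    linarith
  have hk' : (3 : ℝ) ≤ k := by exact_mod_cast hk
  linarith

private lemma A3_pow (κ : ℝ) (h0 : 0 < κ) (h1 : κ ≤ 1 / 10) (k : ℕ) :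
    ((1 + κ)⁻¹) ^ k + (10 / 17 : ℝ) ^ k ≤ 2 * Real.exp (-(κ / 2 * k)) := by
  have h3 : (10 / 17 : ℝ) ^ k ≤ ((1 + κ)⁻¹) ^ k := by
    refine pow_le_pow_left₀ (by norm_num) ?_ k
    rw [le_inv_comm₀ (by norm_num) (by linarith)]
    norm_num
    linarith
  have h4 : ((1 + κ)⁻¹) ^ k ≤ Real.exp (-(κ / 2 * k)) := by
    have h5 := A3_exp_half κ h0.le (by linarith)
    have h6 : (1 + κ)⁻¹ ≤ Real.exp (-(κ / 2)) := by
      rw [Real.exp_neg]
      exact inv_anti₀ (Real.exp_pos _) h5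
    have h7 : Real.exp (-(κ / 2 * k)) = Real.exp (-(κ / 2)) ^ k := by
      rw [← Real.exp_nat_mul]
      congr 1
      ring
    rw [h7]
    exact pow_le_pow_left₀ (by positivity) h6 k
  linarith

/-- one modulus -/
private lemma A3_main (D : ℝ) (k : ℕ) (q : ℕ) [NeZero q] (S₁ : ℝ)
    (a5 : ‖Sk q 1 k - 1‖ ≤ D)
    (a1 : ∀ s : Finset (DirichletCharacter ℂ q), (∀ χ ∈ s, χ ≠ 1) → ∑ χ ∈ s, ‖Sk q χ k‖ ≤ S₁) :
    GoodM (D + S₁) k q := by
  intro c hc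
  have a6 := orth q k c hc
  set T : ℝ := ∑' n : ℕ, (if n ≡ c [MOD q] then vM n * wk k n else 0) with hT
  have a7 : |(q.totient : ℝ) * T - 1| = ‖(q.totient : ℂ) * (T : ℂ) - 1‖ := by
    rw [← Real.norm_eq_abs, ← Complex.norm_real]
    push_cast
    rfl
  rw [a7, a6]
  classical
  have a8 : (∑ χ : DirichletCharacter ℂ q, χ ((c : ZMod q)⁻¹) * Sk q χ k) - 1 =
      (Sk q 1 k - 1) + ∑ χ ∈ Finset.univ.erase (1 : DirichletCharacter ℂ q),
        χ ((c : ZMod q)⁻¹) * Sk q χ k := by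
    rw [← Finset.add_sum_erase Finset.univ _ (Finset.mem_univ (1 : DirichletCharacter ℂ q)),
      A3_unit q c hc]
    ring
  rw [a8]
  have a9 : ‖∑ χ ∈ Finset.univ.erase (1 : DirichletCharacter ℂ q),
        χ ((c : ZMod q)⁻¹) * Sk q χ k‖ ≤ S₁ := by
    refine (norm_sum_le _ _).trans (le_trans ?_
      (a1 (Finset.univ.erase (1 : DirichletCharacter ℂ q)) fun χ hχ => Finset.ne_of_mem_erase hχ))
    refine Finset.sum_le_sum (g := fun χ => ‖Sk q χ k‖) ?_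
    intro χ _
    rw [norm_mul]
    have := DirichletCharacter.norm_le_one χ ((c : ZMod q)⁻¹)
    calc ‖χ ((c : ZMod q)⁻¹)‖ * ‖Sk q χ k‖ ≤ 1 * ‖Sk q χ k‖ :=
          mul_le_mul_of_nonneg_right this (norm_nonneg _)
      _ = ‖Sk q χ k‖ := one_mul _
  exact (norm_add_le _ _).trans (add_le_add a5 a9)

/-- A3. PROOF. `p₁` from `exists_p₁`; `q = MM z p₁`, `log q ≤ 2 z ≤ k/80` (`log_MM_le`). `κ₀ = c₁/z ≤ 1/40` (`z ≥ √k`
large). `GM.orth`, `‖χ‖ ≤ 1`, the term `χ = 1` by `GM.Sk_one` (`log (q+2) ≤ k`; its error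
`≤ C k ((1+κ)⁻¹^k + (10/17)^k) ≤ e^(-c₂ k) ≤ e^(-c₂ k/z)`) and the others by `sum_nonprincipal_q`, total
`≤ C k^9 exp (-(3/8) c₁ k/z) + C k e^(-c₂ k)`. See the proof of `GM.ap_sum` (file `GM/D5.lean`). -/
theorem ap_quant : ∃ (c C : ℝ) (k₀ : ℕ), 0 < c ∧ 1 ≤ C ∧ ∀ k : ℕ, k₀ ≤ k → ∀ z : ℕ,
    Real.sqrt k ≤ z → (z : ℝ) ≤ k / 160 → ∃ p₁ ∈ Pz z,
      GoodM (C * (k : ℝ) ^ 9 * Real.exp (-(c * k / z))) k (MM z p₁) := by
  classical
  obtain ⟨C₁, k₁, hC₁, h₁⟩ := sum_nonprincipal_q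
  obtain ⟨C₃, κ, hC₃, hκ0, hκ1, hS⟩ := Sk_one
  obtain ⟨c₁, z₀, hc₁, hc₁1, h₂⟩ := exists_p₁
  refine ⟨min (3 / 8 * c₁) (κ / 2), C₁ + 2 * C₃, max k₁ (max 1600 (z₀ ^ 2)),
    lt_min (by positivity) (by positivity), by linarith, ?_⟩
  intro k hk z hz1 hz2
  have hk1 : k₁ ≤ k := le_trans (le_max_left _ _) hk
  have hk2 : 1600 ≤ k := le_trans (le_trans (le_max_left _ _) (le_max_right _ _)) hk
  have hk3 : z₀ ^ 2 ≤ k := le_trans (le_trans (le_max_right _ _) (le_max_right _ _)) hk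
  have hkr : (1600 : ℝ) ≤ k := by exact_mod_cast hk2
  have hz3 : (40 : ℝ) ≤ z := by
    refine le_trans ?_ hz1
    rw [Real.le_sqrt (by norm_num) (by linarith)]
    linarith
  have hz4 : z₀ ≤ z := by
    have h3 : (z₀ : ℝ) ≤ z := by
      refine le_trans ?_ hz1
      rw [Real.le_sqrt (by positivity) (by linarith)]
      exact_mod_cast hk3
    exact_mod_cast h3
  have hz5 : 4 ≤ z := by
    have h3 : ((4 : ℕ) : ℝ) ≤ z := by push_cast; linarith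
    exact_mod_cast h3
  have hz0 : (0 : ℝ) < z := by linarith
  obtain ⟨p₁, hp₁, hχ⟩ := h₂ z hz4
  refine ⟨p₁, hp₁, ?_⟩
  have hq : Real.log (MM z p₁ : ℕ) ≤ k / 80 := by
    have h3 := log_MM_le z p₁ hz5
    linarith
  have hκ : c₁ / z ≤ 1 / 40 := by
    rw [div_le_iff₀ hz0]
    linarith
  have hκ' : 0 ≤ c₁ / z := by positivity
  have a1 := h₁ k hk1 (MM z p₁) hq (c₁ / z) hκ' hκ hχ
  have a4 := A3_log (MM z p₁) k (by omega) hq
  have a3 := hS (MM z p₁) k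
  have a2 := A3_pow κ hκ0 hκ1 k
  obtain ⟨E, hE⟩ : ∃ E : ℝ, E = Real.exp (-(min (3 / 8 * c₁) (κ / 2) * k / z)) := ⟨_, rfl⟩
  have hE0 : 0 < E := by rw [hE]; exact Real.exp_pos _
  have b1 : Real.exp (-(3 / 8 * (c₁ / z) * k)) ≤ E := by
    rw [hE]
    refine Real.exp_le_exp.mpr (neg_le_neg ?_)
    have h5 : 3 / 8 * (c₁ / z) * k = 3 / 8 * c₁ * k / z := by ring
    rw [h5]
    refine div_le_div_of_nonneg_right ?_ hz0.le
    exact mul_le_mul_of_nonneg_right (min_le_left _ _) (Nat.cast_nonneg k)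
  have b2 : Real.exp (-(κ / 2 * k)) ≤ E := by
    rw [hE]
    refine Real.exp_le_exp.mpr (neg_le_neg ?_)
    rw [div_le_iff₀ hz0]
    have h5 : min (3 / 8 * c₁) (κ / 2) * k ≤ κ / 2 * k :=
      mul_le_mul_of_nonneg_right (min_le_right _ _) (Nat.cast_nonneg k)
    have h6 : 0 ≤ κ / 2 * k := by positivity
    have h7 : κ / 2 * k * 1 ≤ κ / 2 * k * z := mul_le_mul_of_nonneg_left (by linarith) h6
    linarith
  have e1 : (k : ℝ) ≤ (k : ℝ) ^ 9 := by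
    calc (k : ℝ) = (k : ℝ) ^ 1 := (pow_one _).symm
      _ ≤ (k : ℝ) ^ 9 := pow_le_pow_right₀ (by linarith) (by norm_num)
  have c1 : ‖Sk (MM z p₁) 1 k - 1‖ ≤ 2 * C₃ * (k : ℝ) ^ 9 * E := by
    calc ‖Sk (MM z p₁) 1 k - 1‖
        ≤ C₃ * Real.log ((MM z p₁ : ℕ) + 2) * (((1 + κ)⁻¹) ^ k + (10 / 17 : ℝ) ^ k) := a3
      _ ≤ C₃ * k * (2 * E) := by
          refine mul_le_mul (mul_le_mul_of_nonneg_left a4 (by linarith)) (a2.trans (by linarith))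
            (by positivity) (by positivity)
      _ = 2 * C₃ * k * E := by ring
      _ ≤ 2 * C₃ * (k : ℝ) ^ 9 * E :=
          mul_le_mul_of_nonneg_right (mul_le_mul_of_nonneg_left e1 (by positivity)) hE0.le
  have c2 : ∀ s : Finset (DirichletCharacter ℂ (MM z p₁)), (∀ χ ∈ s, χ ≠ 1) →
      ∑ χ ∈ s, ‖Sk (MM z p₁) χ k‖ ≤ C₁ * (k : ℝ) ^ 9 * E := by
    intro s hs
    have h5 : C₁ * (k : ℝ) ^ 9 * Real.exp (-(3 / 8 * (c₁ / z) * k)) ≤ C₁ * (k : ℝ) ^ 9 * E :=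
      mul_le_mul_of_nonneg_left b1 (by positivity)
    refine le_trans ?_ (a1.trans h5)
    refine Finset.sum_le_sum_of_subset_of_nonneg ?_ fun _ _ _ => norm_nonneg _
    intro χ hχ'
    rw [Finset.mem_filter]
    exact ⟨Finset.mem_univ _, hs χ hχ'⟩
  have hfin := A3_main (2 * C₃ * (k : ℝ) ^ 9 * E) k (MM z p₁) (C₁ * (k : ℝ) ^ 9 * E) c1 c2
  have h6 : 2 * C₃ * (k : ℝ) ^ 9 * E + C₁ * (k : ℝ) ^ 9 * E =
      (C₁ + 2 * C₃) * (k : ℝ) ^ 9 * Real.exp (-(min (3 / 8 * c₁) (κ / 2) * k / z)) := by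
    rw [← hE]
    ring
  rw [h6] at hfin
  exact hfin

end Pool.Agent.MU
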