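import Mathlib
import Pool.Agent.Lib.MP_bae66e_nt.MU.A4
import Pool.Agent.Lib.MP_bae66e_nt.MG.A1a

/-!
# Maier matrices, uniformly in the scale: A5, one prime p
-/

set_option autoImplicit false

namespace Pool.Agent.MU

open Pool.Agent.GM Pool.Agent.MG MeasureTheory

private lemma A5_wk_nonneg (k n : ℕ) : 0 ≤ wk k n := by
  unfold wk
  have := Real.log_natCast_nonneg n
  positivity

private lemma A5_ev {c A ε : ℝ} (hc : 0 < c) (hε : 0 < ε) :
    ∃ k₀ : ℕ, ∀ k : ℕ, k₀ ≤ k → A * Real.exp (-(c * k)) ≤ ε := by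
  have h1 : Filter.Tendsto (fun k : ℕ => A * Real.exp (-(c * k))) Filter.atTop (nhds 0) := by
    have h2 : Filter.Tendsto (fun k : ℕ => c * (k : ℝ)) Filter.atTop Filter.atTop :=
      Filter.Tendsto.const_mul_atTop hc tendsto_natCast_atTop_atTop
    have h3 := (Real.tendsto_exp_neg_atTop_nhds_zero.comp h2).const_mul A
    simpa [Function.comp_def] using h3
  obtain ⟨k₀, hk⟩ := Filter.eventually_atTop.mp (h1.eventually (gt_mem_nhds hε))
  exact ⟨k₀, fun k h => (hk k h).le⟩

/-- basic sizes -/
private lemma A5_size (θ e₀ : ℝ) (h0 : 0 < θ) (h1 : θ < 1 / 4) : ∃ k₀ : ℕ, ∀ k : ℕ, k₀ ≤ k →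
    1 ≤ k ∧ Real.exp ((k : ℝ) / 2) + Real.exp ((k : ℝ) / 8) ≤ Real.exp ((1 - θ) * k) ∧
      e₀ * k < Real.exp ((k : ℝ) / 2) ∧ 2 / θ ≤ k := by
  obtain ⟨k₁, hk1⟩ := A5_ev (c := 1 / 4) (A := 2) (ε := 1) (by norm_num) one_pos
  have h2 : Filter.Tendsto (fun k : ℕ => (k : ℝ) ^ 1 * Real.exp (-((1 / 2 : ℝ) * (k : ℝ))))
      Filter.atTop (nhds 0) := by
    have h3 := (Real.tendsto_pow_mul_exp_neg_atTop_nhds_zero 1)
    have h4 : Filter.Tendsto (fun k : ℕ => (1 / 2 : ℝ) * (k : ℝ)) Filter.atTop Filter.atTop :=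
      Filter.Tendsto.const_mul_atTop (by norm_num) tendsto_natCast_atTop_atTop
    have h5 := (h3.comp h4).const_mul 2
    rw [mul_zero] at h5
    refine h5.congr fun k => ?_
    simp only [Function.comp_def, pow_one]
    ring
  obtain ⟨k₂, hk2⟩ := Filter.eventually_atTop.mp
    (h2.eventually (gt_mem_nhds (show (0 : ℝ) < 1 / (|e₀| + 1) by positivity)))
  refine ⟨k₁ + k₂ + ⌈2 / θ⌉₊ + 1, fun k hk => ?_⟩
  have hkpos : (1 : ℝ) ≤ k := by exact_mod_cast (by omega : 1 ≤ k)
  have ha := hk1 k (by omega)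
  have hb := hk2 k (by omega)
  refine ⟨by omega, ?_, ?_, ?_⟩
  · have h3 : Real.exp ((k : ℝ) / 8) ≤ Real.exp ((k : ℝ) / 2) :=
      Real.exp_le_exp.mpr (by linarith)
    have h4 : 2 * Real.exp ((k : ℝ) / 2) ≤ Real.exp (3 / 4 * (k : ℝ)) := by
      have h5 : Real.exp ((k : ℝ) / 2) = Real.exp (3 / 4 * (k : ℝ)) * Real.exp (-(1 / 4 * (k : ℝ))) := by
        rw [← Real.exp_add]; congr 1; ring
      rw [h5]
      have h6 := mul_le_mul_of_nonneg_left ha (Real.exp_pos (3 / 4 * (k : ℝ))).le
      linarith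
    have h5 : Real.exp (3 / 4 * (k : ℝ)) ≤ Real.exp ((1 - θ) * k) :=
      Real.exp_le_exp.mpr (by nlinarith)
    linarith
  · have h3 : (k : ℝ) * Real.exp (-(1 / 2 * (k : ℝ))) < 1 / (|e₀| + 1) := by simpa using hb
    have h4 : (k : ℝ) < 1 / (|e₀| + 1) * Real.exp ((k : ℝ) / 2) := by
      have h5 := mul_lt_mul_of_pos_right h3 (Real.exp_pos ((k : ℝ) / 2))
      rwa [mul_assoc, ← Real.exp_add, show -(1 / 2 * (k : ℝ)) + (k : ℝ) / 2 = 0 by ring,
        Real.exp_zero, mul_one] at h5
    have h5 : (|e₀| + 1) * (k : ℝ) < Real.exp ((k : ℝ) / 2) := by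
      have h6 := mul_lt_mul_of_pos_left h4 (show 0 < |e₀| + 1 by positivity)
      rwa [← mul_assoc, mul_one_div_cancel (by positivity), one_mul] at h6
    have h6 : e₀ * k ≤ (|e₀| + 1) * k :=
      mul_le_mul_of_nonneg_right (by have := le_abs_self e₀; linarith) (by linarith)
    linarith
  · have h3 : (⌈2 / θ⌉₊ : ℝ) ≤ k := by exact_mod_cast (by omega : ⌈2 / θ⌉₊ ≤ k)
    exact le_trans (Nat.le_ceil _) h3

/-- A5. See `MG.one_prime` (file `MG/A1a.lean`; its auxiliary lemmas may be used).
PROOF. Let `n = m - p` (`m ≥ exp ((1-θ)k) > 2 p`); `m ≡ a` iff `n ≡ a - p` mod `M` (`p < a`).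
(i) Suppose `(a-p, M) = 1`; let `S = ∑_{n ≡ a-p} Λ(n) wk k n`, so `|φ(M) S - 1| ≤ δ` (`GoodM`). Replace
`wk k m log m` by `wk k n log n` (`shift_q`, relative error `e^(-k/4)`; `n ≥ exp (k/2)`). The sum over the primes
`n = m - p`, `m` central, of `wk k n log n` differs from `S` by at most the prime powers (`MG.prime_powers`,
`≤ e^(-k/4)`) and the `n ∉ cenSet (θ/2) k` (`MG.tail_bound (θ/2)`, `≤ e^(-c₁ k)`; if `n ∈ cenSet (θ/2) k` then
`n + p ∈ cenSet θ k` for large `k`). Multiply by `φ(M) ≤ M ≤ e^(e₀ k)`, `e₀ = min (1/16) (c₁/4)`: total error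
`≤ δ + e^(-k/4) (1 + δ) + e^(e₀ k) (e^(-k/4) + e^(-c₁ k))`.
(ii) If `(a-p, M) > 1` and `n = m - p` is a prime with `n ≡ a - p` mod `M`, then `n ∣ M`, so
`n ≤ M ≤ e^(e₀ k)`, but `n ≥ exp (k/2)`. So the sum is empty. -/
theorem one_prime_q (θ : ℝ) (h0 : 0 < θ) (h1 : θ < 1 / 4) : ∃ (e₀ c : ℝ) (k₀ : ℕ),
    0 < e₀ ∧ 0 < c ∧ ∀ k : ℕ, k₀ ≤ k → ∀ M : ℕ, 1 ≤ M → Real.log M ≤ e₀ * k →
      ∀ δ : ℝ, 0 ≤ δ → GoodM δ k M → ∀ a p : ℕ, p < a → (p : ℝ) ≤ Real.exp ((k : ℝ) / 8) →
        ((a - p).Coprime M → |(M.totient : ℝ) * UU θ k M a p - 1|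
          ≤ 2 * δ + Real.exp (-(c * k))) ∧
        (¬ (a - p).Coprime M → UU θ k M a p = 0) := by
  obtain ⟨c₁, hc₁, k₁, hk1⟩ := tail_bound (θ / 2) (by positivity) (by linarith)
  obtain ⟨k₂, hk2⟩ := prime_powers
  set e₀ : ℝ := min (1 / 16) (c₁ / 4) with he0
  have he0pos : 0 < e₀ := lt_min (by norm_num) (by positivity)
  have he1 : e₀ ≤ 1 / 16 := min_le_left _ _
  have he2 : e₀ ≤ c₁ / 4 := min_le_right _ _
  obtain ⟨k₃, hk3⟩ := A5_size θ e₀ h0 h1
  set c : ℝ := min (1 / 8) (c₁ / 2) with hcdef
  have hcpos : 0 < c := lt_min (by norm_num) (by positivity)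
  have hcle1 : c ≤ 1 / 8 := min_le_left _ _
  have hcle2 : c ≤ c₁ / 2 := min_le_right _ _
  obtain ⟨k₄, hk4⟩ := shift_q
  obtain ⟨k₅, hk5⟩ := A5_ev (c := 1 / 16) (A := 1) (ε := 1 / 3) (by norm_num) (by norm_num)
  obtain ⟨k₆, hk6⟩ := A5_ev (c := c₁ / 4) (A := 1) (ε := 1 / 3) (by positivity) (by norm_num)
  refine ⟨e₀, c, k₁ + k₂ + k₃ + k₄ + k₅ + k₆, he0pos, hcpos, fun k hk M hM1 hMlog δ hδ hgood a p hpa hp => ?_⟩
  have ht1 := hk1 k (by omega)
  obtain ⟨ht2s, ht2⟩ := hk2 k (by omega)
  obtain ⟨hkone, hsz1, hsz2, hsz3⟩ := hk3 k (by omega)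
  have hshift := hk4 k (by omega)
  have ht5 := hk5 k (by omega)
  have ht6 := hk6 k (by omega)
  have hkpos : (1 : ℝ) ≤ k := by exact_mod_cast hkone
  have hMpos : 0 < M := hM1
  have hMR : (0 : ℝ) < M := by exact_mod_cast hMpos
  have hφR : (0 : ℝ) < (M.totient : ℝ) := by exact_mod_cast Nat.totient_pos.mpr hMpos
  have hMe : (M : ℝ) ≤ Real.exp (e₀ * k) := by
    rw [← Real.log_le_iff_le_exp hMR]; exact hMlog
  have hφM : (M.totient : ℝ) ≤ Real.exp (e₀ * k) := by
    have h3 : (M.totient : ℝ) ≤ M := by exact_mod_cast Nat.totient_le M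
    linarith
  set ε : ℝ := Real.exp (-((k : ℝ) / 4)) with hε
  have hε0 : 0 < ε := Real.exp_pos _
  have hε1 : ε ≤ 1 := by
    rw [hε, Real.exp_le_one_iff]; linarith
  have hthird : ∀ x y : ℝ, x ≤ -(c * k) + y → Real.exp y ≤ 1 / 3 →
      Real.exp x ≤ Real.exp (-(c * k)) / 3 := by
    intro x y hx hy
    calc Real.exp x ≤ Real.exp (-(c * k) + y) := Real.exp_le_exp.mpr hx
      _ = Real.exp (-(c * k)) * Real.exp y := Real.exp_add _ _
      _ ≤ Real.exp (-(c * k)) * (1 / 3) := mul_le_mul_of_nonneg_left hy (Real.exp_pos _).le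
      _ = _ := by ring
  have hε3 : ε ≤ Real.exp (-(c * k)) / 3 := by
    rw [hε]
    refine hthird _ (-(1 / 16 * (k : ℝ))) ?_ (by simpa using ht5)
    nlinarith
  have hE1 : (M.totient : ℝ) * Real.exp (-((k : ℝ) / 4)) ≤ Real.exp (-(c * k)) / 3 := by
    refine le_trans (mul_le_mul_of_nonneg_right hφM (Real.exp_pos _).le) ?_
    rw [← Real.exp_add]
    refine hthird _ (-(1 / 16 * (k : ℝ))) ?_ (by simpa using ht5)
    nlinarith
  have hE2 : (M.totient : ℝ) * Real.exp (-(c₁ * k)) ≤ Real.exp (-(c * k)) / 3 := by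
    refine le_trans (mul_le_mul_of_nonneg_right hφM (Real.exp_pos _).le) ?_
    rw [← Real.exp_add]
    refine hthird _ (-(c₁ / 4 * (k : ℝ))) ?_ (by simpa using ht6)
    nlinarith
  have hp4 : (p : ℝ) ≤ Real.exp ((k : ℝ) / 8) := hp
  -- facts about members of the sum
  set S := (cenSet θ k).filter (fun m => m ≡ a [MOD M]) with hS
  have hmem : ∀ m ∈ S, p < m ∧ Real.exp ((k : ℝ) / 2) ≤ ((m - p : ℕ) : ℝ) ∧
      (m - p) ≡ (a - p) [MOD M] := by
    intro m hm
    rw [hS, Finset.mem_filter, mem_cenSet hkone (by linarith)] at hm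
    obtain ⟨⟨h3, h4⟩, h5⟩ := hm
    have hmpos : 0 < m := by
      rcases Nat.eq_zero_or_pos m with h | h
      · rw [h] at h3; simp at h3; nlinarith
      · exact h
    have hmR : (0 : ℝ) < m := by exact_mod_cast hmpos
    have h6 : Real.exp ((1 - θ) * k) ≤ m := (Real.le_log_iff_exp_le hmR).mp h3
    have h7 : (p : ℝ) < m := by
      have := Real.exp_pos ((k : ℝ) / 2); linarith
    have h7' : p < m := by exact_mod_cast h7
    refine ⟨h7', ?_, ?_⟩
    · rw [Nat.cast_sub h7'.le]; linarith
    · have h8 : (m - p) + p ≡ (a - p) + p [MOD M] := by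
        rw [Nat.sub_add_cancel h7'.le, Nat.sub_add_cancel hpa.le]; exact h5
      exact Nat.ModEq.add_right_cancel' p h8
  have hUU : UU θ k M a p = ∑ m ∈ S, if (m - p).Prime then wk k m * Real.log m else 0 := rfl
  constructor
  · intro hcop
    have hgm := hgood (a - p) hcop
    set f : ℕ → ℝ := fun n => if n ≡ (a - p) [MOD M] then vM n * wk k n else 0 with hf
    have hf0 : ∀ n, 0 ≤ f n := by
      intro n
      rw [hf]
      dsimp only
      split_ifs
      · exact mul_nonneg ArithmeticFunction.vonMangoldt_nonneg (A5_wk_nonneg k n)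
      · exact le_refl _
    have hfle : ∀ n, f n ≤ Real.log n * wk k n := by
      intro n
      rw [hf]
      dsimp only
      split_ifs
      · exact mul_le_mul_of_nonneg_right ArithmeticFunction.vonMangoldt_le_log
          (A5_wk_nonneg k n)
      · exact mul_nonneg (Real.log_natCast_nonneg n) (A5_wk_nonneg k n)
    have hsw := summable_log_wk k
    have hfs : Summable f := Summable.of_nonneg_of_le hf0 hfle hsw
    have hF1 : (M.totient : ℝ) * ∑' n, f n ≤ 1 + δ := by
      have := (abs_le.mp hgm).2; linarith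
    have hF2 : 1 - δ ≤ (M.totient : ℝ) * ∑' n, f n := by
      have := (abs_le.mp hgm).1; linarith
    have hfprime : ∀ n : ℕ, n.Prime → n ≡ (a - p) [MOD M] → f n = Real.log n * wk k n := by
      intro n hn hmod
      rw [hf]
      dsimp only
      rw [if_pos hmod]
      congr 1
      exact ArithmeticFunction.vonMangoldt_apply_prime hn
    rw [abs_le]
    constructor
    · -- lower bound
      set T := (cenSet (θ / 2) k).filter (fun n => n.Prime ∧ n ≡ (a - p) [MOD M]) with hT
      -- the tail functions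
      set t₁ : ℕ → ℝ := fun n => if n.Prime then (0 : ℝ) else vM n * wk k n with ht1d
      set t₂ : ℕ → ℝ := fun n => if n ∈ cenSet (θ / 2) k then 0 else Real.log n * wk k n
        with ht2d
      set t₃ : ℕ → ℝ := fun n => if n ∈ T then Real.log n * wk k n else 0 with ht3d
      have ht2n : ∀ n, 0 ≤ t₂ n := by
        intro n
        rw [ht2d]
        dsimp only
        split_ifs
        · exact le_refl _
        · exact mul_nonneg (Real.log_natCast_nonneg n) (A5_wk_nonneg k n)
      have ht2sum : Summable t₂ := by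
        refine Summable.of_nonneg_of_le ht2n (fun n => ?_) hsw
        rw [ht2d]
        dsimp only
        split_ifs
        · exact mul_nonneg (Real.log_natCast_nonneg n) (A5_wk_nonneg k n)
        · exact le_refl _
      have ht3has : HasSum t₃ (∑ n ∈ T, Real.log n * wk k n) := by
        have h3 : HasSum t₃ (∑ n ∈ T, t₃ n) := hasSum_sum_of_ne_finset_zero (fun n hn => by
          rw [ht3d]; dsimp only; rw [if_neg hn])
        have h4 : ∑ n ∈ T, t₃ n = ∑ n ∈ T, Real.log n * wk k n :=
          Finset.sum_congr rfl fun n hn => by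
            rw [ht3d]; dsimp only; rw [if_pos hn]
        rwa [h4] at h3
      have hpt : ∀ n, f n ≤ t₁ n + t₂ n + t₃ n := by
        intro n
        have h3 := hf0 n
        have h4 := hfle n
        have hn1 : 0 ≤ t₁ n := by
          rw [ht1d]; dsimp only; split_ifs
          · exact le_refl _
          · exact mul_nonneg ArithmeticFunction.vonMangoldt_nonneg (A5_wk_nonneg k n)
        have hn3 : 0 ≤ t₃ n := by
          rw [ht3d]; dsimp only; split_ifs
          · exact mul_nonneg (Real.log_natCast_nonneg n) (A5_wk_nonneg k n)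
          · exact le_refl _
        by_cases hmod : n ≡ (a - p) [MOD M]
        · by_cases hpr : n.Prime
          · by_cases hcen : n ∈ cenSet (θ / 2) k
            · have hnT : n ∈ T := by rw [hT, Finset.mem_filter]; exact ⟨hcen, hpr, hmod⟩
              have h5 : t₃ n = Real.log n * wk k n := by rw [ht3d]; dsimp only; rw [if_pos hnT]
              have := ht2n n
              linarith
            · have h5 : t₂ n = Real.log n * wk k n := by rw [ht2d]; dsimp only; rw [if_neg hcen]
              linarith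
          · have h5 : t₁ n = vM n * wk k n := by rw [ht1d]; dsimp only; rw [if_neg hpr]
            have h6 : f n = vM n * wk k n := by rw [hf]; dsimp only; rw [if_pos hmod]
            have := ht2n n
            linarith
        · have h6 : f n = 0 := by rw [hf]; dsimp only; rw [if_neg hmod]
          have := ht2n n
          linarith
      have hsumle : ∑' n, f n ≤ Real.exp (-((k : ℝ) / 4)) + Real.exp (-(c₁ * k)) +
          ∑ n ∈ T, Real.log n * wk k n := by
        have h3 : Summable fun n => t₁ n + t₂ n + t₃ n := (ht2s.add ht2sum).add ht3has.summable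
        have h4 := hfs.tsum_le_tsum hpt h3
        rw [(ht2s.add ht2sum).tsum_add ht3has.summable, ht2s.tsum_add ht2sum,
          ht3has.tsum_eq] at h4
        linarith
      -- comparison of the finite sums
      have hcmp : (1 - ε) * ∑ n ∈ T, Real.log n * wk k n ≤ UU θ k M a p := by
        rw [hUU, Finset.mul_sum]
        have hinj : Set.InjOn (fun n : ℕ => n + p) (T : Set ℕ) := fun x _ y _ h => by
          simpa using h
        have himg : T.image (fun n => n + p) ⊆ S := by
          intro m hm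
          rw [Finset.mem_image] at hm
          obtain ⟨n, hn, rfl⟩ := hm
          rw [hT, Finset.mem_filter, mem_cenSet hkone (by linarith)] at hn
          obtain ⟨⟨h3, h4⟩, h5, h6⟩ := hn
          have hnpos : 0 < n := h5.pos
          have hnR : (0 : ℝ) < n := by exact_mod_cast hnpos
          rw [hS, Finset.mem_filter, mem_cenSet hkone (by linarith)]
          have h7 : Real.exp ((1 - θ / 2) * k) ≤ n := (Real.le_log_iff_exp_le hnR).mp h3
          have h8 : (p : ℝ) ≤ n := by
            refine le_trans hp (le_trans (Real.exp_le_exp.mpr ?_) h7)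
            nlinarith
          have hnp : (0 : ℝ) < (n : ℝ) + p := by positivity
          have h9 : Real.log ((n : ℝ) + p) ≤ Real.log n + 1 := by
            have h10 : Real.log ((n : ℝ) + p) ≤ Real.log (n * Real.exp 1) := by
              apply Real.log_le_log hnp
              have h11 : (2 : ℝ) ≤ Real.exp 1 := by
                have := Real.add_one_le_exp (1 : ℝ); linarith
              nlinarith
            rwa [Real.log_mul hnR.ne' (Real.exp_pos _).ne', Real.log_exp] at h10
          have h10 : Real.log n ≤ Real.log ((n : ℝ) + p) := by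
            apply Real.log_le_log hnR
            have : (0 : ℝ) ≤ p := by positivity
            linarith
          have h11 : 1 ≤ θ / 2 * k := by
            have h12 := mul_le_mul_of_nonneg_left hsz3 h0.le
            rw [mul_div_cancel₀ _ h0.ne'] at h12
            linarith
          push_cast
          refine ⟨⟨by nlinarith, by nlinarith⟩, ?_⟩
          have h12 : n + p ≡ (a - p) + p [MOD M] := Nat.ModEq.add_right p h6
          rwa [Nat.sub_add_cancel hpa.le] at h12
        have hstep : ∑ n ∈ T, (1 - ε) * (Real.log n * wk k n) ≤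
            ∑ n ∈ T, (if ((n + p) - p).Prime then wk k (n + p) * Real.log ((n + p : ℕ) : ℝ)
              else 0) := by
          refine Finset.sum_le_sum fun n hn => ?_
          rw [hT, Finset.mem_filter, mem_cenSet hkone (by linarith)] at hn
          obtain ⟨⟨h3, h4⟩, h5, h6⟩ := hn
          have hnR : (0 : ℝ) < n := by exact_mod_cast h5.pos
          rw [Nat.add_sub_cancel, if_pos h5]
          have h7 : Real.exp ((1 - θ / 2) * k) ≤ n := (Real.le_log_iff_exp_le hnR).mp h3
          have h8 : Real.exp ((k : ℝ) / 2) ≤ n :=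
            le_trans (Real.exp_le_exp.mpr (by nlinarith)) h7
          have h9 := (abs_le.mp (hshift n p h8 hp4)).1
          linarith
        refine le_trans hstep ?_
        rw [← Finset.sum_image (f := fun m => if (m - p).Prime then wk k m * Real.log (m : ℝ)
          else 0) (g := fun n => n + p) hinj]
        refine Finset.sum_le_sum_of_subset_of_nonneg himg fun m _ _ => ?_
        split_ifs
        · exact mul_nonneg (A5_wk_nonneg k m) (Real.log_natCast_nonneg m)
        · exact le_refl _
      have hX : 1 - δ - 2 * (Real.exp (-(c * k)) / 3) ≤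
          (M.totient : ℝ) * ∑ n ∈ T, Real.log n * wk k n := by
        have h3 := mul_le_mul_of_nonneg_left hsumle hφR.le
        rw [mul_add, mul_add] at h3
        linarith
      have h3 := mul_le_mul_of_nonneg_left hcmp hφR.le
      have hε4 : 0 ≤ 1 - ε := by linarith
      have h4 : (1 - ε) * (1 - δ - 2 * (Real.exp (-(c * k)) / 3)) ≤
          (M.totient : ℝ) * UU θ k M a p := by
        refine le_trans ?_ h3
        have h5 := mul_le_mul_of_nonneg_left hX hε4
        calc (1 - ε) * (1 - δ - 2 * (Real.exp (-(c * k)) / 3)) ≤ (1 - ε) *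
              ((M.totient : ℝ) * ∑ n ∈ T, Real.log n * wk k n) := h5
          _ = _ := by ring
      have h5 : 0 ≤ ε * (δ + 2 * (Real.exp (-(c * k)) / 3)) := by positivity
      nlinarith
    · -- upper bound
      have hcmp : UU θ k M a p ≤ (1 + ε) * ∑' n, f n := by
        rw [hUU]
        have hstep : ∑ m ∈ S, (if (m - p).Prime then wk k m * Real.log m else 0)
            ≤ ∑ m ∈ S, (1 + ε) * f (m - p) := by
          refine Finset.sum_le_sum fun m hm => ?_
          obtain ⟨h3, h4, h5⟩ := hmem m hm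
          split_ifs with hpr
          · rw [hfprime _ hpr h5]
            have h6 := (abs_le.mp (hshift (m - p) p h4 hp4)).2
            rw [Nat.sub_add_cancel h3.le] at h6
            linarith
          · exact mul_nonneg (by linarith) (hf0 _)
        refine le_trans hstep ?_
        rw [← Finset.mul_sum]
        refine mul_le_mul_of_nonneg_left ?_ (by linarith)
        have hinj : Set.InjOn (fun m : ℕ => m - p) (S : Set ℕ) := fun x hx y hy h => by
          have hx' := (hmem x hx).1
          have hy' := (hmem y hy).1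
          dsimp only at h
          omega
        rw [← Finset.sum_image (f := f) (g := fun m => m - p) hinj]
        exact hfs.sum_le_tsum _ fun n _ => hf0 n
      have h3 := mul_le_mul_of_nonneg_left hcmp hφR.le
      have h4 : (M.totient : ℝ) * UU θ k M a p ≤ (1 + ε) * (1 + δ) := by
        refine le_trans h3 ?_
        have h5 := mul_le_mul_of_nonneg_left hF1 (show 0 ≤ 1 + ε by linarith)
        calc (M.totient : ℝ) * ((1 + ε) * ∑' n, f n)
            = (1 + ε) * ((M.totient : ℝ) * ∑' n, f n) := by ring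
          _ ≤ _ := h5
      have h6 := Real.exp_pos (-(c * k))
      nlinarith
  · intro hncop
    rw [hUU]
    refine Finset.sum_eq_zero fun m hm => ?_
    rw [if_neg]
    intro hpr
    obtain ⟨h3, h4, h5⟩ := hmem m hm
    have h6 : ¬ (m - p).Coprime M := by
      intro h7
      apply hncop
      unfold Nat.Coprime at h7 ⊢
      rw [← h7]
      exact h5.symm.gcd_eq
    have h7 : (m - p) ∣ M := by
      by_contra h8
      exact h6 ((Nat.Prime.coprime_iff_not_dvd hpr).mpr h8)
    have h8 : ((m - p : ℕ) : ℝ) ≤ M := by exact_mod_cast Nat.le_of_dvd hMpos h7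
    have h9 : Real.exp (e₀ * k) < Real.exp ((k : ℝ) / 2) := Real.exp_lt_exp.mpr (by nlinarith)
    linarith

end Pool.Agent.MU
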