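import Mathlib
import Pool.Agent.Lib.MP_bae66e_nt.MU.A5

/-!
# Maier matrices, uniformly in the scale: A6, one row
-/

set_option autoImplicit false

namespace Pool.Agent.MU

open Pool.Agent.GM Pool.Agent.MG MeasureTheory

private lemma A6_rep (m : ℕ) (y : ℝ) : (repCount m y : ℝ) =
    ∑ p ∈ (Finset.range (⌊y⌋₊ + 1)).filter Nat.Prime, (if (m - p).Prime then (1 : ℝ) else 0) := by
  rw [← Finset.sum_filter, Finset.sum_const, nsmul_eq_mul, mul_one]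
  unfold repCount
  congr 2
  ext p
  rw [Finset.mem_filter, Finset.mem_filter, Finset.mem_filter, Finset.mem_range, Finset.mem_range]
  constructor
  · rintro ⟨_, h2, h3, h4⟩
    exact ⟨⟨Nat.lt_succ_of_le (Nat.le_floor h4), h2⟩, h3⟩
  · rintro ⟨⟨h1, h2⟩, h3⟩
    have h4 : (p : ℝ) ≤ y := (Nat.le_floor_iff' h2.ne_zero).1 (Nat.lt_succ_iff.1 h1)
    have h5 := h3.pos
    exact ⟨by omega, h2, h3, h4⟩

private lemma A6_swap (θ : ℝ) (k M a : ℕ) (S : Finset ℕ) :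
    ∑ m ∈ (cenSet θ k).filter (fun m => m ≡ a [MOD M]), wk k m * Real.log m *
      (∑ p ∈ S, (if (m - p).Prime then (1 : ℝ) else 0)) = ∑ p ∈ S, UU θ k M a p := by
  unfold UU
  rw [Finset.sum_comm]
  apply Finset.sum_congr rfl
  intro m _
  rw [Finset.mul_sum]
  apply Finset.sum_congr rfl
  intro p _
  split_ifs
  · rw [mul_one]
  · rw [mul_zero]

private lemma A6_RR (M a : ℕ) (Y : ℝ) : (RR M a Y : ℝ) =
    ∑ p ∈ (Finset.range (⌊Y⌋₊ + 1)).filter Nat.Prime,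
      (if (a - p).Coprime M then (1 : ℝ) else 0) := by
  unfold RR
  rw [← Finset.sum_filter, Finset.sum_const, nsmul_eq_mul, mul_one, Finset.filter_filter]

/-- A6. PROOF. For central `m` one has `y < m` (`m ≥ exp ((1-θ)k)`, `y ≤ e^(k/8)`), so
`repCount m y = #{p ≤ y prime : m - p prime}` and `TAy = ∑_{p ≤ y} UU θ k M a p`; use `one_prime_q`
(`p ≤ y < a`): the `p` with `(a-p, M) = 1` are counted by `RR M a y` (`MG/Defs.lean`), the others give `0`. -/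
theorem TAy_near (θ : ℝ) (h0 : 0 < θ) (h1 : θ < 1 / 4) : ∃ (e₀ c : ℝ) (k₀ : ℕ),
    0 < e₀ ∧ 0 < c ∧ ∀ k : ℕ, k₀ ≤ k → ∀ M : ℕ, 1 ≤ M → Real.log M ≤ e₀ * k →
      ∀ δ : ℝ, 0 ≤ δ → GoodM δ k M → ∀ y : ℝ, 1 ≤ y → y ≤ Real.exp ((k : ℝ) / 8) →
        ∀ a : ℕ, y < a →
          |(M.totient : ℝ) * TAy θ k M y a - (RR M a y : ℝ)|
            ≤ (2 * δ + Real.exp (-(c * k))) * (RR M a y : ℝ) := by
  obtain ⟨e₀, c, k₀, he₀, hc, h⟩ := one_prime_q θ h0 h1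
  refine ⟨e₀, c, k₀, he₀, hc, ?_⟩
  intro k hk M hM hMe δ hδ hG y _ hy2 a ha
  have hone := h k hk M hM hMe δ hδ hG
  have hT : TAy θ k M y a = ∑ p ∈ (Finset.range (⌊y⌋₊ + 1)).filter Nat.Prime, UU θ k M a p := by
    rw [← A6_swap]
    unfold TAy
    apply Finset.sum_congr rfl
    intro m _
    rw [A6_rep]
  rw [hT, A6_RR, Finset.mul_sum, ← Finset.sum_sub_distrib, Finset.mul_sum]
  refine (Finset.abs_sum_le_sum_abs _ _).trans ?_
  apply Finset.sum_le_sum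
  intro p hp
  rw [Finset.mem_filter, Finset.mem_range] at hp
  have h4 : (p : ℝ) ≤ y := (Nat.le_floor_iff' hp.2.ne_zero).1 (Nat.lt_succ_iff.1 hp.1)
  have h5 : p < a := by exact_mod_cast lt_of_le_of_lt h4 ha
  have h6 := hone a p h5 (h4.trans hy2)
  by_cases hcp : (a - p).Coprime M
  · rw [if_pos hcp, mul_one]
    exact h6.1 hcp
  · rw [if_neg hcp, h6.2 hcp]
    simp

end Pool.Agent.MU
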