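import Mathlib
import Pool.Agent.Lib.MP_bae66e_nt.MU.Defs

/-!
# Maier matrices, uniformly in the scale: A7, sums over the rows
-/

set_option autoImplicit false

namespace Pool.Agent.MU

open Pool.Agent.GM Pool.Agent.MG MeasureTheory

private lemma A7_ph_sub (M : ℕ) {m n : ℕ} (h : m ≤ n) :
    (((Finset.Icc 1 n).filter (fun b => b.Coprime M)).card : ℝ) -
      (((Finset.Icc 1 m).filter (fun b => b.Coprime M)).card : ℝ) =
      (((Finset.Ioc m n).filter (fun b => b.Coprime M)).card : ℝ) := by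
  have h1 : (Finset.Icc 1 n).filter (fun b => b.Coprime M) =
      (Finset.Icc 1 m).filter (fun b => b.Coprime M) ∪
        (Finset.Ioc m n).filter (fun b => b.Coprime M) := by
    rw [← Finset.filter_union]
    congr 1
    ext b
    rw [Finset.mem_union, Finset.mem_Icc, Finset.mem_Icc, Finset.mem_Ioc]
    omega
  have h2 : Disjoint ((Finset.Icc 1 m).filter (fun b => b.Coprime M))
      ((Finset.Ioc m n).filter (fun b => b.Coprime M)) := by
    rw [Finset.disjoint_left]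
    intro b hb hb'
    rw [Finset.mem_filter, Finset.mem_Icc] at hb
    rw [Finset.mem_filter, Finset.mem_Ioc] at hb'
    omega
  rw [h1, Finset.card_union_of_disjoint h2]
  push_cast
  ring

private lemma A7_count (M p : ℕ) (h2 : 2 ∣ M) (hp : ¬ Even p) {B₁ B : ℕ} (hp1 : p ≤ B₁) :
    (((Finset.Ioc B₁ B).filter Even).filter (fun a => (a - p).Coprime M)).card =
      ((Finset.Ioc (B₁ - p) (B - p)).filter (fun b => b.Coprime M)).card := by
  refine Finset.card_nbij' (fun a => a - p) (fun b => b + p) ?_ ?_ ?_ ?_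
  · intro a ha
    rw [Finset.mem_coe, Finset.mem_filter, Finset.mem_filter, Finset.mem_Ioc] at ha
    rw [Finset.mem_coe, Finset.mem_filter, Finset.mem_Ioc]
    change (B₁ - p < a - p ∧ a - p ≤ B - p) ∧ (a - p).Coprime M
    exact ⟨by omega, ha.2⟩
  · intro b hb
    rw [Finset.mem_coe, Finset.mem_filter, Finset.mem_Ioc] at hb
    rw [Finset.mem_coe, Finset.mem_filter, Finset.mem_filter, Finset.mem_Ioc]
    have hodd : ¬ Even b := by
      intro he
      have h3 : 2 ∣ Nat.gcd b M := Nat.dvd_gcd he.two_dvd h2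
      have h4 : Nat.gcd b M = 1 := hb.2
      rw [h4] at h3
      omega
    change ((B₁ < b + p ∧ b + p ≤ B) ∧ Even (b + p)) ∧ (b + p - p).Coprime M
    refine ⟨⟨by omega, ?_⟩, ?_⟩
    · rw [Nat.even_add]
      tauto
    · rw [Nat.add_sub_cancel]
      exact hb.2
  · intro a ha
    rw [Finset.mem_coe, Finset.mem_filter, Finset.mem_filter, Finset.mem_Ioc] at ha
    change a - p + p = a
    omega
  · intro b hb
    change b + p - p = b
    omega

private lemma A7_two (M : ℕ) (h2 : 2 ∣ M) {B₁ B : ℕ} (hB : 3 ≤ B₁) :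
    (((Finset.Ioc B₁ B).filter Even).filter (fun a => (a - 2).Coprime M)).card = 0 := by
  rw [Finset.card_eq_zero, Finset.filter_eq_empty_iff]
  intro a ha hcop
  rw [Finset.mem_filter, Finset.mem_Ioc] at ha
  obtain ⟨⟨ha1, _⟩, c, hc⟩ := ha
  have h3 : 2 ∣ Nat.gcd (a - 2) M := Nat.dvd_gcd ⟨c - 1, by omega⟩ h2
  have h4 : Nat.gcd (a - 2) M = 1 := hcop
  rw [h4] at h3
  omega

private lemma A7_floor (A : ℝ) (p : ℕ) : ⌊A - p⌋₊ = ⌊A⌋₊ - p := Nat.floor_sub_natCast A p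

/-- A7a. PROOF. Exchange the sums. For `p = 2`: `a - 2` is even and `≥ 2` for even `a > A₁ ≥ 3`, so never coprime
to the even `M`. For odd `p`: `(a - p, M) = 1` forces `a` even, so
`∑_{a ∈ rows} [(a-p, M) = 1] = #{a ∈ (⌊A₁⌋, ⌊A⌋] : (a-p, M) = 1} = #{b ∈ (⌊A₁⌋ - p, ⌊A⌋ - p] : (b, M) = 1}`, and
`⌊A - p⌋ = ⌊A⌋ - p` (`Nat.floor_sub_natCast`), `p ≤ y ≤ A₁`. -/
theorem sum_RR_rows (M : ℕ) (hM : 1 ≤ M) (h2 : 2 ∣ M) (y A₁ A : ℝ) (hy : 2 ≤ y)
    (h1 : y + 1 ≤ A₁) (hA : A₁ ≤ A) :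
    ∑ a ∈ rows A₁ A, (RR M a y : ℝ) = ∑ p ∈ oddP y, (Ph M (A - p) - Ph M (A₁ - p)) := by
  have hA1 : ⌊A₁⌋₊ ≤ ⌊A⌋₊ := Nat.floor_le_floor hA
  have hB3 : 3 ≤ ⌊A₁⌋₊ := by
    apply Nat.le_floor
    push_cast
    linarith
  have hyB : ⌊y⌋₊ ≤ ⌊A₁⌋₊ := Nat.floor_le_floor (by linarith)
  have hcast : ∀ a, (RR M a y : ℝ) = ∑ p ∈ (Finset.range (⌊y⌋₊ + 1)).filter Nat.Prime,
      (if (a - p).Coprime M then (1 : ℝ) else 0) := by
    intro a
    unfold RR
    rw [← Finset.filter_filter, Finset.card_filter]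
    push_cast
    rfl
  rw [Finset.sum_congr rfl (fun a _ => hcast a), Finset.sum_comm]
  have hin : ∀ p : ℕ, ∑ a ∈ rows A₁ A, (if (a - p).Coprime M then (1 : ℝ) else 0) =
      ((((Finset.Ioc ⌊A₁⌋₊ ⌊A⌋₊).filter Even).filter
        (fun a => (a - p).Coprime M)).card : ℝ) := by
    intro p
    rw [Finset.card_filter]
    push_cast
    rfl
  rw [Finset.sum_congr rfl (fun p _ => hin p)]
  have hsub : oddP y ⊆ (Finset.range (⌊y⌋₊ + 1)).filter Nat.Prime := by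
    intro p hp
    unfold oddP at hp
    rw [Finset.mem_filter] at hp ⊢
    exact ⟨hp.1, hp.2.1⟩
  rw [← Finset.sum_subset hsub]
  · refine Finset.sum_congr rfl fun p hp => ?_
    unfold oddP at hp
    rw [Finset.mem_filter, Finset.mem_range] at hp
    obtain ⟨hpy, hpp, hp2⟩ := hp
    have hodd : ¬ Even p := by
      intro he
      exact hp2 (hpp.even_iff.mp he)
    rw [A7_count M p h2 hodd (by omega)]
    unfold Ph
    rw [A7_floor, A7_floor, A7_ph_sub M (by omega)]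
  · intro p hp hnot
    rw [Finset.mem_filter] at hp
    have hp2 : p = 2 := by
      by_contra hne
      apply hnot
      unfold oddP
      rw [Finset.mem_filter]
      exact ⟨hp.1, hp.2, hne⟩
    rw [hp2, A7_two M h2 hB3, Nat.cast_zero]

/-- A7b. PROOF. A7a and the definition of `Del`. -/
theorem sum_RR_Del (M : ℕ) (hM : 1 ≤ M) (h2 : 2 ∣ M) (y A₁ A : ℝ) (hy : 2 ≤ y)
    (h1 : y + 1 ≤ A₁) (hA : A₁ ≤ A) :
    (M : ℝ) / (M.totient : ℝ) * ∑ a ∈ rows A₁ A, (RR M a y : ℝ)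
      = ∑ p ∈ oddP y, ((A - A₁) + (Del M (A - p) - Del M (A₁ - p))) := by
  rw [sum_RR_rows M hM h2 y A₁ A hy h1 hA, Finset.mul_sum]
  refine Finset.sum_congr rfl fun p _ => ?_
  unfold Del
  ring

/-- A7d. -/
theorem card_oddP (y : ℝ) (hy : 2 ≤ y) : ((oddP y).card : ℝ) = piR y - 1 := by
  have h2 : 2 ≤ ⌊y⌋₊ := Nat.le_floor (by exact_mod_cast hy)
  have h3 : oddP y = ((Finset.range (⌊y⌋₊ + 1)).filter Nat.Prime).erase 2 := by
    ext p
    unfold oddP
    rw [Finset.mem_erase, Finset.mem_filter, Finset.mem_filter]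
    tauto
  have h4 : 2 ∈ (Finset.range (⌊y⌋₊ + 1)).filter Nat.Prime := by
    rw [Finset.mem_filter, Finset.mem_range]
    exact ⟨by omega, Nat.prime_two⟩
  have h5 : ((Finset.range (⌊y⌋₊ + 1)).filter Nat.Prime).card = Nat.primeCounting ⌊y⌋₊ := by
    unfold Nat.primeCounting Nat.primeCounting'
    rw [Nat.count_eq_card_filter_range]
  rw [h3, Finset.card_erase_of_mem h4, h5]
  unfold piR
  have h6 : 1 ≤ Nat.primeCounting ⌊y⌋₊ := by
    rw [← h5]
    exact Finset.card_pos.mpr ⟨2, h4⟩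
  rw [Nat.cast_sub h6, Nat.cast_one]

/-- A7c. PROOF. A7a, `0 ≤ Ph M t ≤ t`, `#(oddP y) ≤ piR y`. -/
theorem sum_RR_le (M : ℕ) (hM : 1 ≤ M) (h2 : 2 ∣ M) (y A₁ A : ℝ) (hy : 2 ≤ y)
    (h1 : y + 1 ≤ A₁) (hA : A₁ ≤ A) :
    ∑ a ∈ rows A₁ A, (RR M a y : ℝ) ≤ piR y * A := by
  rw [sum_RR_rows M hM h2 y A₁ A hy h1 hA]
  have hA0 : 0 ≤ A := by linarith
  have h3 : ∀ p ∈ oddP y, Ph M (A - p) - Ph M (A₁ - p) ≤ A := by
    intro p hp
    unfold oddP at hp
    rw [Finset.mem_filter, Finset.mem_range] at hp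
    have hpy : (p : ℝ) ≤ y := by
      have h4 : p ≤ ⌊y⌋₊ := by omega
      exact (Nat.le_floor_iff (by linarith)).mp h4
    have h5 : 0 ≤ Ph M (A₁ - p) := by
      unfold Ph
      exact Nat.cast_nonneg _
    have h6 : Ph M (A - p) ≤ A - p := by
      unfold Ph
      calc (((Finset.Icc 1 ⌊A - (p : ℝ)⌋₊).filter (fun n => n.Coprime M)).card : ℝ)
          ≤ ((Finset.Icc 1 ⌊A - (p : ℝ)⌋₊).card : ℝ) := by
            exact_mod_cast Finset.card_filter_le _ _
        _ = (⌊A - (p : ℝ)⌋₊ : ℝ) := by rw [Nat.card_Icc, Nat.add_sub_cancel]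
        _ ≤ A - p := Nat.floor_le (by linarith)
    have h7 : (0 : ℝ) ≤ p := Nat.cast_nonneg p
    linarith
  calc ∑ p ∈ oddP y, (Ph M (A - p) - Ph M (A₁ - p)) ≤ ∑ p ∈ oddP y, A := Finset.sum_le_sum h3
    _ = ((oddP y).card : ℝ) * A := by rw [Finset.sum_const, nsmul_eq_mul]
    _ = (piR y - 1) * A := by rw [card_oddP y hy]
    _ ≤ piR y * A := by nlinarith

end Pool.Agent.MU
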