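import Mathlib
import Pool.Agent.Lib.MP_bae66e_nt.MU.A6
import Pool.Agent.Lib.MP_bae66e_nt.MU.A7

/-!
# Maier matrices, uniformly in the scale: A8, the actual count
-/

set_option autoImplicit false

namespace Pool.Agent.MU

open Pool.Agent.GM Pool.Agent.MG MeasureTheory

/-- A8. PROOF. Sum `TAy_near` over `a ∈ rows A₁ A` (`y < A₁`, so `y < a`), multiply by `M/φ(M)`; A7b, A7c. -/
theorem actual (θ : ℝ) (h0 : 0 < θ) (h1 : θ < 1 / 4) : ∃ (e₀ c : ℝ) (k₀ : ℕ),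
    0 < e₀ ∧ 0 < c ∧ ∀ k : ℕ, k₀ ≤ k → ∀ M : ℕ, 1 ≤ M → 2 ∣ M → Real.log M ≤ e₀ * k →
      ∀ δ : ℝ, 0 ≤ δ → GoodM δ k M → ∀ y A₁ A : ℝ, 2 ≤ y → y ≤ Real.exp ((k : ℝ) / 8) →
        y + 1 ≤ A₁ → A₁ ≤ A →
          |(M : ℝ) * ∑ a ∈ rows A₁ A, TAy θ k M y a
            - ∑ p ∈ oddP y, ((A - A₁) + (Del M (A - p) - Del M (A₁ - p)))|
            ≤ (2 * δ + Real.exp (-(c * k))) * ((M : ℝ) / (M.totient : ℝ)) * (piR y * A) := by
  obtain ⟨e₀, c, k₀, he₀, hc, hmain⟩ := TAy_near θ h0 h1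
  refine ⟨e₀, c, k₀, he₀, hc, ?_⟩
  intro k hk M hM h2M hMk δ hδ hgood y A₁ A hy hyk hyA hAA
  have hφ : (0 : ℝ) < M.totient := by exact_mod_cast Nat.totient_pos.2 hM
  have hM0 : (0 : ℝ) < M := by exact_mod_cast hM
  have hb := sum_RR_Del M hM h2M y A₁ A hy hyA hAA
  have hc' := sum_RR_le M hM h2M y A₁ A hy hyA hAA
  have hrow : ∀ a ∈ rows A₁ A, |(M.totient : ℝ) * TAy θ k M y a - (RR M a y : ℝ)|
      ≤ (2 * δ + Real.exp (-(c * k))) * (RR M a y : ℝ) := by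
    intro a ha
    apply hmain k hk M hM hMk δ hδ hgood y (by linarith) hyk a
    unfold rows at ha
    rw [Finset.mem_filter, Finset.mem_Ioc] at ha
    have h3 : A₁ < a := Nat.lt_of_floor_lt ha.1.1
    linarith
  have hsum : |(M.totient : ℝ) * ∑ a ∈ rows A₁ A, TAy θ k M y a
      - ∑ a ∈ rows A₁ A, (RR M a y : ℝ)|
        ≤ (2 * δ + Real.exp (-(c * k))) * ∑ a ∈ rows A₁ A, (RR M a y : ℝ) := by
    rw [Finset.mul_sum, ← Finset.sum_sub_distrib, Finset.mul_sum]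
    exact (Finset.abs_sum_le_sum_abs _ _).trans (Finset.sum_le_sum hrow)
  rw [← hb]
  have e1 : (M : ℝ) * ∑ a ∈ rows A₁ A, TAy θ k M y a
      - (M : ℝ) / (M.totient : ℝ) * ∑ a ∈ rows A₁ A, (RR M a y : ℝ)
      = (M : ℝ) / (M.totient : ℝ) * ((M.totient : ℝ) * ∑ a ∈ rows A₁ A, TAy θ k M y a
      - ∑ a ∈ rows A₁ A, (RR M a y : ℝ)) := by
    field_simp
  rw [e1, abs_mul, abs_of_pos (div_pos hM0 hφ)]
  have hE : 0 ≤ 2 * δ + Real.exp (-(c * k)) := by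
    have := Real.exp_pos (-(c * k))
    linarith
  calc (M : ℝ) / (M.totient : ℝ) * |(M.totient : ℝ) * ∑ a ∈ rows A₁ A, TAy θ k M y a
      - ∑ a ∈ rows A₁ A, (RR M a y : ℝ)|
      ≤ (M : ℝ) / (M.totient : ℝ) *
        ((2 * δ + Real.exp (-(c * k))) * ∑ a ∈ rows A₁ A, (RR M a y : ℝ)) :=
        mul_le_mul_of_nonneg_left hsum (div_pos hM0 hφ).le
    _ ≤ (M : ℝ) / (M.totient : ℝ) * ((2 * δ + Real.exp (-(c * k))) * (piR y * A)) :=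
        mul_le_mul_of_nonneg_left (mul_le_mul_of_nonneg_left hc' hE) (div_pos hM0 hφ).le
    _ = (2 * δ + Real.exp (-(c * k))) * ((M : ℝ) / (M.totient : ℝ)) * (piR y * A) := by ring

end Pool.Agent.MU
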