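import Mathlib
import Pool.Agent.Lib.MP_bae66e_nt.MU.Defs
import Pool.Agent.Lib.MP_bae66e_nt.MG.S0

/-!
# Maier matrices, uniformly in the scale: E1, the coefficients of the singular series
-/

set_option autoImplicit false

namespace Pool.Agent.MU

open Pool.Agent.GM Pool.Agent.MG MeasureTheory

private lemma E1_hco_mul {m n : ℕ} (h : Nat.Coprime m n) : hco (m * n) = hco m * hco n := by
  unfold hco
  have h1 : Squarefree (m * n) ↔ Squarefree m ∧ Squarefree n := Nat.squarefree_mul h
  have h2 : Odd (m * n) ↔ Odd m ∧ Odd n := Nat.odd_mul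
  by_cases hm : Squarefree m ∧ Odd m
  · by_cases hn : Squarefree n ∧ Odd n
    · rw [if_pos ⟨h1.mpr ⟨hm.1, hn.1⟩, h2.mpr ⟨hm.2, hn.2⟩⟩, if_pos hm, if_pos hn,
        h.primeFactors_mul, Finset.prod_union h.disjoint_primeFactors]
    · rw [if_neg hn, mul_zero, if_neg]
      rintro ⟨h3, h4⟩
      exact hn ⟨(h1.mp h3).2, (h2.mp h4).2⟩
  · rw [if_neg hm, zero_mul, if_neg]
    rintro ⟨h3, h4⟩
    exact hm ⟨(h1.mp h3).1, (h2.mp h4).1⟩

private lemma E1_bound (d : ℕ) : ‖hco d / d‖ ≤ 2 * (d : ℝ) ^ (-(3 / 2) : ℝ) := by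
  unfold hco
  by_cases hd : Squarefree d ∧ Odd d
  · rw [if_pos hd]
    have hprod : (d : ℝ) = ∏ p ∈ d.primeFactors, (p : ℝ) := by
      rw [← Nat.cast_prod, Nat.prod_primeFactors_of_squarefree hd.1]
    have h3 : ∀ p ∈ d.primeFactors, (3 : ℝ) ≤ p := by
      intro p hp
      have hpp := Nat.prime_of_mem_primeFactors hp
      have h2 : p ≠ 2 := by
        rintro rfl
        have := Nat.dvd_of_mem_primeFactors hp
        exact (Nat.not_even_iff_odd.mpr hd.2) (even_iff_two_dvd.mpr this)
      have := hpp.two_le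
      have h3 : 3 ≤ p := by omega
      exact_mod_cast h3
    have hnn : 0 ≤ (∏ p ∈ d.primeFactors, (1 / ((p : ℝ) - 2))) / d := by
      apply div_nonneg _ (Nat.cast_nonneg _)
      apply Finset.prod_nonneg
      intro p hp
      have := h3 p hp
      apply div_nonneg zero_le_one
      linarith
    rw [Real.norm_of_nonneg hnn]
    have hstep : (∏ p ∈ d.primeFactors, (1 / ((p : ℝ) - 2))) / d
        = ∏ p ∈ d.primeFactors, (1 / ((p : ℝ) - 2) / p) := by
      conv_rhs => rw [Finset.prod_div_distrib, ← hprod]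
    have hd32 : (d : ℝ) ^ (-(3 / 2) : ℝ) = ∏ p ∈ d.primeFactors, ((p : ℝ) ^ (-(3 / 2) : ℝ)) := by
      rw [hprod, Real.finsetProd_rpow]
      intro p _
      exact Nat.cast_nonneg _
    have hg : ∏ p ∈ d.primeFactors, (if p = 3 then (2 : ℝ) else 1) ≤ 2 := by
      rw [Finset.prod_ite_eq' d.primeFactors 3 (fun _ => (2 : ℝ))]
      split_ifs <;> norm_num
    have hd0 : 0 ≤ (d : ℝ) ^ (-(3 / 2) : ℝ) := Real.rpow_nonneg (Nat.cast_nonneg _) _
    calc (∏ p ∈ d.primeFactors, (1 / ((p : ℝ) - 2))) / d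
        = ∏ p ∈ d.primeFactors, (1 / ((p : ℝ) - 2) / p) := hstep
      _ ≤ ∏ p ∈ d.primeFactors, ((if p = 3 then (2 : ℝ) else 1) * (p : ℝ) ^ (-(3 / 2) : ℝ)) := by
          apply Finset.prod_le_prod
          · intro p hp
            have := h3 p hp
            apply div_nonneg (div_nonneg zero_le_one (by linarith)) (by linarith)
          · intro p hp
            have h3' := h3 p hp
            have hp0 : (0 : ℝ) < p := by linarith
            have hsq : (0 : ℝ) < Real.sqrt p := Real.sqrt_pos.mpr hp0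
            have hsq2 : Real.sqrt p * Real.sqrt p = p := Real.mul_self_sqrt hp0.le
            have hrp : (p : ℝ) ^ (-(3 / 2) : ℝ) = 1 / (p * Real.sqrt p) := by
              rw [Real.rpow_neg hp0.le, show (3 / 2 : ℝ) = 1 + 1 / 2 by norm_num,
                Real.rpow_add hp0, Real.rpow_one, ← Real.sqrt_eq_rpow, one_div]
            rw [hrp]
            have hpn : 0 < (p : ℝ) - 2 := by linarith
            by_cases hp3 : p = 3
            · rw [if_pos hp3]
              have hps : Real.sqrt p ≤ 2 * ((p : ℝ) - 2) := by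
                have : (p : ℝ) = 3 := by exact_mod_cast hp3
                rw [this, Real.sqrt_le_left (by norm_num)]
                norm_num
              rw [div_div, ← mul_div_assoc, mul_one, div_le_div_iff₀ (by positivity) (by positivity)]
              nlinarith
            · rw [if_neg hp3, one_mul]
              have hp5 : (5 : ℝ) ≤ p := by
                have hpp := Nat.prime_of_mem_primeFactors hp
                have h3n : 3 ≤ p := by exact_mod_cast h3'
                have h4 : p ≠ 4 := by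
                  rintro rfl
                  exact absurd hpp (by norm_num)
                have : 5 ≤ p := by omega
                exact_mod_cast this
              have hps : Real.sqrt p ≤ (p : ℝ) - 2 := by
                rw [Real.sqrt_le_left (by linarith)]
                nlinarith
              rw [div_div, div_le_div_iff₀ (by positivity) (by positivity)]
              nlinarith
      _ = (∏ p ∈ d.primeFactors, (if p = 3 then (2 : ℝ) else 1)) *
            ∏ p ∈ d.primeFactors, ((p : ℝ) ^ (-(3 / 2) : ℝ)) := Finset.prod_mul_distrib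
      _ = (∏ p ∈ d.primeFactors, (if p = 3 then (2 : ℝ) else 1)) * (d : ℝ) ^ (-(3 / 2) : ℝ) := by
          rw [hd32]
      _ ≤ 2 * (d : ℝ) ^ (-(3 / 2) : ℝ) := mul_le_mul_of_nonneg_right hg hd0
  · rw [if_neg hd, zero_div, norm_zero]
    have hd0 : 0 ≤ (d : ℝ) ^ (-(3 / 2) : ℝ) := Real.rpow_nonneg (Nat.cast_nonneg _) _
    linarith


theorem hco_nonneg (d : ℕ) : 0 ≤ hco d := by
  unfold hco
  split_ifs with hd
  · apply Finset.prod_nonneg
    intro p hp
    have hpp := Nat.prime_of_mem_primeFactors hp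
    have h2 : (2 : ℝ) ≤ p := by exact_mod_cast hpp.two_le
    apply div_nonneg zero_le_one
    linarith
  · exact le_rfl

/-- E1b. PROOF. For odd squarefree `d`: `hco d * √d = ∏_{p ∣ d} √p/(p - 2)`, the factor of `p = 3` is
`√3 ≤ 2`, the factors of `p ≥ 5` are `≤ 1`. -/
theorem hco_le (d : ℕ) (hd : 1 ≤ d) : hco d ≤ 2 / Real.sqrt d := by
  have h := E1_bound d
  have hd0 : (0 : ℝ) < d := by exact_mod_cast hd
  rw [Real.norm_of_nonneg (div_nonneg (hco_nonneg d) hd0.le), div_le_iff₀ hd0] at h
  have h1 : (d : ℝ) ^ (-(3 / 2) : ℝ) * d = 1 / Real.sqrt d := by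
    have h2 : (d : ℝ) ^ (-(3 / 2) : ℝ) * d = (d : ℝ) ^ (-(1 / 2) : ℝ) := by
      conv_lhs => rw [← Real.rpow_one (d : ℝ), ← Real.rpow_mul hd0.le, ← Real.rpow_add hd0]
      norm_num
    rw [h2, Real.rpow_neg hd0.le, ← Real.sqrt_eq_rpow, one_div]
  calc hco d ≤ 2 * (d : ℝ) ^ (-(3 / 2) : ℝ) * d := h
    _ = 2 * ((d : ℝ) ^ (-(3 / 2) : ℝ) * d) := by ring
    _ = 2 / Real.sqrt d := by rw [h1]; ring

/-- E1c. PROOF. `hco` is multiplicative on coprime arguments. -/
theorem hco_mul (d e : ℕ) (h : d.Coprime e) : hco (d * e) = hco d * hco e := E1_hco_mul h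

end Pool.Agent.MU
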