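import Mathlib
import Pool.Agent.Lib.MP_bae66e_nt.MU.Defs
import Pool.Agent.Lib.MP_bae66e_nt.MG.T3

/-!
# Maier matrices, uniformly in the scale: E2, the weight in a class and its multiples
-/

set_option autoImplicit false

namespace Pool.Agent.MU

open Pool.Agent.GM Pool.Agent.MG MeasureTheory

/-- E2. PROOF. If `gcd(d, M) ∣ a` the conditions `m ≡ a [MOD M]`, `d ∣ m` are equivalent to `m ≡ c [MOD q]`,
`q = lcm(d, M)`, for some `c` (`Nat.chineseRemainder'`), and `MG.smooth_ap` gives `|q S - 1| ≤ 4 q/2^k`, so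
`|S - 1/q| ≤ 4/2^k`, `1/q = gcd(d,M)/(d M)`. If `gcd(d, M) ∤ a` no `m` satisfies both. -/
theorem class_sum (k M d a : ℕ) (hk : 1 ≤ k) (hM : 1 ≤ M) (hd : 1 ≤ d) :
    (Nat.gcd d M ∣ a → |∑' m : ℕ, (if m ≡ a [MOD M] ∧ d ∣ m then wk k m else 0)
      - (Nat.gcd d M : ℝ) / ((d : ℝ) * M)| ≤ 4 / 2 ^ k) ∧
    (¬ Nat.gcd d M ∣ a →
      ∑' m : ℕ, (if m ≡ a [MOD M] ∧ d ∣ m then wk k m else 0) = 0) := by
  constructor
  · intro hdvd
    have hcompat : (0 : ℕ) ≡ a [MOD Nat.gcd d M] := (Nat.modEq_zero_iff_dvd.mpr hdvd).symm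
    obtain ⟨c, hc1, hc2⟩ := Nat.chineseRemainder' hcompat
    set q : ℕ := Nat.lcm d M with hq
    have hqpos : 1 ≤ q := Nat.lcm_pos hd hM
    have hiff : ∀ m : ℕ, (m ≡ a [MOD M] ∧ d ∣ m) ↔ m ≡ c [MOD q] := by
      intro m
      rw [← Nat.modEq_zero_iff_dvd]
      constructor
      · rintro ⟨h1, h2⟩
        have h3 : m ≡ c [MOD d] := h2.trans hc1.symm
        have h4 : m ≡ c [MOD M] := h1.trans hc2.symm
        exact Nat.mod_lcm h3 h4
      · intro h
        have h3 : m ≡ c [MOD d] := h.of_dvd (Nat.dvd_lcm_left d M)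
        have h4 : m ≡ c [MOD M] := h.of_dvd (Nat.dvd_lcm_right d M)
        exact ⟨h4.trans hc2, h3.trans hc1⟩
    have hsum : ∑' m : ℕ, (if m ≡ a [MOD M] ∧ d ∣ m then wk k m else 0) =
        ∑' m : ℕ, (if m ≡ c [MOD q] then wk k m else 0) := by
      apply tsum_congr
      intro m
      simp only [hiff m]
    have hsm := smooth_ap k q c hk hqpos
    rw [hsum]
    set S : ℝ := ∑' m : ℕ, (if m ≡ c [MOD q] then wk k m else 0) with hS
    have hq0 : (0 : ℝ) < q := by exact_mod_cast hqpos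
    have hd0 : (0 : ℝ) < d := by exact_mod_cast hd
    have hM0 : (0 : ℝ) < M := by exact_mod_cast hM
    have hgl : (Nat.gcd d M : ℝ) * q = d * M := by
      rw [hq]
      exact_mod_cast Nat.gcd_mul_lcm d M
    have e1 : (Nat.gcd d M : ℝ) / ((d : ℝ) * M) = 1 / q := by
      rw [← hgl]
      have hg0 : (Nat.gcd d M : ℝ) ≠ 0 := by
        intro h0
        rw [h0, zero_mul] at hgl
        exact (mul_pos hd0 hM0).ne' hgl.symm
      field_simp
    rw [e1]
    have e2 : S - 1 / q = ((q : ℝ) * S - 1) / q := by field_simp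
    rw [e2, abs_div, abs_of_pos hq0, div_le_iff₀ hq0]
    refine hsm.trans (le_of_eq ?_)
    ring
  · intro hdvd
    have hz : ∀ m : ℕ, (if m ≡ a [MOD M] ∧ d ∣ m then wk k m else 0) = 0 := by
      intro m
      rw [if_neg]
      rintro ⟨h1, h2⟩
      apply hdvd
      have h3 : m ≡ a [MOD Nat.gcd d M] := h1.of_dvd (Nat.gcd_dvd_right d M)
      have h4 : Nat.gcd d M ∣ m := (Nat.gcd_dvd_left d M).trans h2
      exact (h3.dvd_iff (dvd_refl _)).mp h4
    simp only [hz, tsum_zero]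

end Pool.Agent.MU
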