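import Mathlib
import Pool.Agent.Lib.MP_bae66e_nt.MU.Defs
import Pool.Agent.Lib.MP_bae66e_nt.MG.T1a

/-!
# Maier matrices, uniformly in the scale: E3, multiples of large d
-/

set_option autoImplicit false

namespace Pool.Agent.MU

open Pool.Agent.GM Pool.Agent.MG MeasureTheory

/-- E3. PROOF. `MG.wk_le` with `c = 9/10`: `wk k n ≤ (10/9)^k n^(-11/10)`; the multiples `n = d j`, `j ≥ 1` (`wk k 0 = 0`
for `k ≥ 1`, and for `k = 0` too since `0^2 = 0` in the denominator), give `(10/9)^k d^(-11/10) ∑ j^(-11/10)`. -/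
theorem mult_sum_le : ∃ C : ℝ, 0 < C ∧ ∀ k d : ℕ, 1 ≤ d →
    Summable (fun m : ℕ => if d ∣ m then wk k m else 0) ∧
    ∑' m : ℕ, (if d ∣ m then wk k m else 0)
      ≤ C * (10 / 9 : ℝ) ^ k * (d : ℝ) ^ (-(11 / 10) : ℝ) := by
  have hs : Summable (fun n : ℕ => (n : ℝ) ^ (-(11 / 10) : ℝ)) :=
    Real.summable_nat_rpow.mpr (by norm_num)
  have hnn : 0 ≤ ∑' j : ℕ, (j : ℝ) ^ (-(11 / 10) : ℝ) := tsum_nonneg fun j => by positivity
  refine ⟨∑' j : ℕ, (j : ℝ) ^ (-(11 / 10) : ℝ) + 1, by linarith, ?_⟩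
  intro k d hd
  have hd0 : (0 : ℝ) < d := by exact_mod_cast hd
  have hwk0 : ∀ n : ℕ, 0 ≤ wk k n := by
    intro n
    have h1 : 0 ≤ Real.log n := Real.log_natCast_nonneg n
    unfold wk
    positivity
  have hle : ∀ j : ℕ, wk k (d * j) ≤ ((10 / 9 : ℝ) ^ k * (d : ℝ) ^ (-(11 / 10) : ℝ)) *
      (j : ℝ) ^ (-(11 / 10) : ℝ) := by
    intro j
    have h1 := wk_le (9 / 10) (by norm_num) k (d * j)
    have e1 : ((9 / 10 : ℝ)⁻¹) = 10 / 9 := by norm_num
    have e2 : (9 / 10 : ℝ) - 2 = -(11 / 10) := by norm_num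
    rw [e1, e2, Nat.cast_mul, Real.mul_rpow hd0.le (Nat.cast_nonneg j)] at h1
    linarith
  have hs2 : Summable (fun j : ℕ => wk k (d * j)) :=
    Summable.of_nonneg_of_le (fun j => hwk0 _) hle (hs.mul_left _)
  have hinj : Function.Injective (fun j : ℕ => d * j) := fun a b h => by
    exact Nat.eq_of_mul_eq_mul_left hd h
  have hsupp : ∀ m, m ∉ Set.range (fun j : ℕ => d * j) →
      (if d ∣ m then wk k m else 0) = 0 := by
    intro m hm
    rw [if_neg]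
    rintro ⟨j, rfl⟩
    exact hm ⟨j, rfl⟩
  have hcomp : ((fun m : ℕ => if d ∣ m then wk k m else 0) ∘ fun j : ℕ => d * j) =
      fun j : ℕ => wk k (d * j) := by
    funext j
    simp
  have hsum : Summable (fun m : ℕ => if d ∣ m then wk k m else 0) := by
    rw [← hinj.summable_iff hsupp, hcomp]
    exact hs2
  refine ⟨hsum, ?_⟩
  have htsum : ∑' m : ℕ, (if d ∣ m then wk k m else 0) = ∑' j : ℕ, wk k (d * j) := by
    have hsub : Function.support (fun m : ℕ => if d ∣ m then wk k m else 0) ⊆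
        Set.range (fun j : ℕ => d * j) := by
      intro m hm
      by_contra hcon
      exact hm (hsupp m hcon)
    have h2 := hinj.tsum_eq hsub
    rw [← h2]
    exact tsum_congr fun j => by simp
  rw [htsum]
  calc ∑' j : ℕ, wk k (d * j) ≤ ∑' j : ℕ, ((10 / 9 : ℝ) ^ k * (d : ℝ) ^ (-(11 / 10) : ℝ)) *
        (j : ℝ) ^ (-(11 / 10) : ℝ) := hs2.tsum_le_tsum hle (hs.mul_left _)
    _ = ((10 / 9 : ℝ) ^ k * (d : ℝ) ^ (-(11 / 10) : ℝ)) * ∑' j : ℕ, (j : ℝ) ^ (-(11 / 10) : ℝ) :=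
        tsum_mul_left
    _ ≤ ((10 / 9 : ℝ) ^ k * (d : ℝ) ^ (-(11 / 10) : ℝ)) *
        (∑' j : ℕ, (j : ℝ) ^ (-(11 / 10) : ℝ) + 1) := by
        apply mul_le_mul_of_nonneg_left (by linarith) (by positivity)
    _ = _ := by ring

end Pool.Agent.MU
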