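import Mathlib
import Pool.Agent.Lib.MP_bae66e_nt.MU.E1
import Pool.Agent.Lib.MP_bae66e_nt.Mg.G034
import Pool.Agent.Lib.MP_bae66e_nt.MG.S1b
import Pool.Agent.Lib.MP_bae66e_nt.MG.S1c
import Pool.Agent.Lib.MP_bae66e_nt.Mg.G126

/-!
# Maier matrices, uniformly in the scale: E4, the gcd sum
-/

set_option autoImplicit false

namespace Pool.Agent.MU

open Pool.Agent.GM Pool.Agent.MG MeasureTheory

/-- E4. PROOF. For squarefree `d` write `d = g d'`, `g = gcd(d, M)`, `gcd(g, d') = 1`: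
`hco d gcd(d,M)/d = hco g * (hco d'/d')` (`hco_mul`). The map `d ↦ (g, d')` is injective, so the sum is at most
`(∑_{g ∣ M} hco g) (∑_{d'} hco d'/d')`. The second factor is `≤ 1/twinConst` (`MG.hco_sum`), the first is
`∏_{p ∣ M, p > 2} (1 + 1/(p-2)) = ∏ (p-1)/(p-2) ≤ #(M.primeFactors) + 1` (as in `MG.sing_eq_sum`, or from it;
`MG.prod_le_card`). -/
theorem hco_gcd_sum (M : ℕ) (hM : 1 ≤ M) (D : Finset ℕ) (hD : ∀ d ∈ D, 1 ≤ d) :
    ∑ d ∈ D, hco d * (Nat.gcd d M : ℝ) / d
      ≤ ((M.primeFactors.card : ℝ) + 1) * (1 / twinConst) := by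
  classical
  have hM0 : M ≠ 0 := by omega
  obtain ⟨hs, hprod⟩ := hco_sum
  have htc : 0 < twinConst := twinConst_pos.1
  have hsum : ∑' d : ℕ, hco d / d = 1 / twinConst := by
    rw [eq_div_iff htc.ne', mul_comm]
    exact hprod
  have hg : ∑ g ∈ M.divisors, hco g ≤ (M.primeFactors.card : ℝ) + 1 := by
    have h1 := sing_eq_sum M hM0
    unfold sing at h1
    have h2 := mul_left_cancel₀ (by positivity : (2 * twinConst) ≠ 0) h1
    rw [← h2]
    refine (prod_le_card _ ?_).trans ?_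
    · intro p hp
      have hpp := Nat.prime_of_mem_primeFactors (Finset.mem_of_mem_erase hp)
      have hp2 : p ≠ 2 := Finset.ne_of_mem_erase hp
      have := hpp.two_le
      exact ⟨hpp.odd_of_ne_two hp2, by omega⟩
    · have : (M.primeFactors.erase 2).card ≤ M.primeFactors.card :=
        Finset.card_le_card (Finset.erase_subset _ _)
      have h3 : ((M.primeFactors.erase 2).card : ℝ) ≤ (M.primeFactors.card : ℝ) := by
        exact_mod_cast this
      linarith
  have hnn : ∀ e : ℕ, 0 ≤ hco e / e := fun e => div_nonneg (hco_nonneg e) (Nat.cast_nonneg e)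
  have hE : ∀ E : Finset ℕ, ∑ e ∈ E, hco e / e ≤ 1 / twinConst := fun E => by
    rw [← hsum]
    exact hs.sum_le_tsum E fun e _ => hnn e
  set D' := D.filter (fun d => hco d ≠ 0) with hD'
  let F : ℕ × ℕ → ℝ := fun x => hco x.1 * (hco x.2 / x.2)
  have hF0 : ∀ x, 0 ≤ F x := fun x => mul_nonneg (hco_nonneg _) (hnn _)
  have hsq : ∀ d ∈ D', Squarefree d ∧ 1 ≤ d := fun d hd => by
    obtain ⟨h1, h2⟩ := Finset.mem_filter.1 hd
    refine ⟨?_, hD d h1⟩
    by_contra hc
    exact h2 (if_neg fun h => hc h.1)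
  have hkey : ∀ d ∈ D', hco d * (Nat.gcd d M : ℝ) / d = F (d.gcd M, d / d.gcd M) := by
    intro d hd
    obtain ⟨h1, h2⟩ := hsq d hd
    have hgd : d.gcd M ∣ d := Nat.gcd_dvd_left d M
    have hmul : d.gcd M * (d / d.gcd M) = d := Nat.mul_div_cancel' hgd
    have hg0 : 0 < d.gcd M := Nat.gcd_pos_of_pos_left M (by omega)
    have he0 : 0 < d / d.gcd M := Nat.div_pos (Nat.le_of_dvd (by omega) hgd) hg0
    have hcop : (d.gcd M).Coprime (d / d.gcd M) := by
      rw [← hmul] at h1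
      exact Nat.coprime_of_squarefree_mul h1
    have hh : hco d = hco (d.gcd M) * hco (d / d.gcd M) := by
      conv_lhs => rw [← hmul]
      exact hco_mul _ _ hcop
    have hdR : (d : ℝ) = (d.gcd M : ℝ) * ((d / d.gcd M : ℕ) : ℝ) := by
      rw [← Nat.cast_mul, hmul]
    have hg0' : (d.gcd M : ℝ) ≠ 0 := by exact_mod_cast hg0.ne'
    have he0' : ((d / d.gcd M : ℕ) : ℝ) ≠ 0 := by exact_mod_cast he0.ne'
    dsimp only [F]
    rw [hh, hdR]
    field_simp
  have hinj : Set.InjOn (fun d : ℕ => (d.gcd M, d / d.gcd M)) (D' : Set ℕ) := by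
    intro a _ b _ hab
    have h1 : a.gcd M = b.gcd M := congrArg Prod.fst hab
    have h2 : a / a.gcd M = b / b.gcd M := congrArg Prod.snd hab
    calc a = a.gcd M * (a / a.gcd M) := (Nat.mul_div_cancel' (Nat.gcd_dvd_left a M)).symm
      _ = b.gcd M * (b / b.gcd M) := by rw [h2, h1]
      _ = b := Nat.mul_div_cancel' (Nat.gcd_dvd_left b M)
  calc ∑ d ∈ D, hco d * (Nat.gcd d M : ℝ) / d
      = ∑ d ∈ D', hco d * (Nat.gcd d M : ℝ) / d := by
        rw [hD', Finset.sum_filter_of_ne]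
        intro d _ hne h0
        exact hne (by rw [h0]; simp)
    _ = ∑ d ∈ D', F (d.gcd M, d / d.gcd M) := Finset.sum_congr rfl hkey
    _ = ∑ x ∈ D'.image (fun d : ℕ => (d.gcd M, d / d.gcd M)), F x :=
        (Finset.sum_image fun a ha b hb h => hinj ha hb h).symm
    _ ≤ ∑ x ∈ M.divisors ×ˢ (D'.image fun d : ℕ => d / d.gcd M), F x := by
        apply Finset.sum_le_sum_of_subset_of_nonneg
        · intro x hx
          obtain ⟨d, hd, rfl⟩ := Finset.mem_image.1 hx
          exact Finset.mem_product.2 ⟨Nat.mem_divisors.2 ⟨Nat.gcd_dvd_right d M, hM0⟩,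
            Finset.mem_image_of_mem _ hd⟩
        · intro x _ _
          exact hF0 x
    _ = (∑ g ∈ M.divisors, hco g) * ∑ e ∈ D'.image (fun d : ℕ => d / d.gcd M), hco e / e := by
        rw [Finset.sum_product, Finset.sum_mul_sum]
    _ ≤ ((M.primeFactors.card : ℝ) + 1) * (1 / twinConst) :=
        mul_le_mul hg (hE _) (Finset.sum_nonneg fun e _ => hnn e) (by positivity)

end Pool.Agent.MU
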