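import Mathlib
import Pool.Agent.Lib.MP_bae66e_nt.MU.Defs

/-!
# Maier matrices, uniformly in the scale: E5, multiples among the rows
-/

set_option autoImplicit false

namespace Pool.Agent.MU

open Pool.Agent.GM Pool.Agent.MG MeasureTheory

lemma E5_card (q a b : ℕ) (h : a ≤ b) :
    ((Finset.Ioc a b).filter (fun n => q ∣ n)).card + a / q = b / q := by
  have h1 := Nat.Ioc_filter_dvd_card_eq_div a q
  have h2 := Nat.Ioc_filter_dvd_card_eq_div b q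
  have h3 : Finset.Ioc 0 b = Finset.Ioc 0 a ∪ Finset.Ioc a b :=
    (Finset.Ioc_union_Ioc_eq_Ioc (Nat.zero_le _) h).symm
  have h4 : Disjoint ((Finset.Ioc 0 a).filter (fun n => q ∣ n))
      ((Finset.Ioc a b).filter (fun n => q ∣ n)) := by
    refine Finset.disjoint_filter_filter ?_
    rw [Finset.disjoint_left]
    intro x hx hx'
    rw [Finset.mem_Ioc] at hx hx'
    omega
  rw [← h1, ← h2, h3, Finset.filter_union, Finset.card_union_of_disjoint h4]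
  omega

/-- E5. PROOF. For odd `g` the even multiples of `g` are the multiples of `2 g`; their number in `(⌊A₁⌋, ⌊A⌋]` is
`⌊A/(2g)⌋ - ⌊A₁/(2g)⌋` (`Nat.Ioc_filter_dvd_card_eq_div`, `Nat.floor_div_natCast`). -/
theorem rows_div (g : ℕ) (hg : Odd g) (A₁ A : ℝ) (h0 : 0 ≤ A₁) (h : A₁ ≤ A) :
    |(((rows A₁ A).filter (fun a => g ∣ a)).card : ℝ) - (A - A₁) / (2 * g)| ≤ 1 := by
  have hg0 : 0 < g := hg.pos
  have hset : (rows A₁ A).filter (fun a => g ∣ a) =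
      (Finset.Ioc ⌊A₁⌋₊ ⌊A⌋₊).filter (fun a => (2 * g) ∣ a) := by
    unfold rows
    rw [Finset.filter_filter]
    refine Finset.filter_congr fun a _ => ?_
    constructor
    · rintro ⟨h1, h2⟩
      exact Nat.Coprime.mul_dvd_of_dvd_of_dvd (Nat.coprime_two_left.2 hg) (even_iff_two_dvd.1 h1) h2
    · intro h1
      exact ⟨even_iff_two_dvd.2 ((Dvd.intro _ rfl).trans h1), (Dvd.intro_left _ rfl).trans h1⟩
  have hfl : ⌊A₁⌋₊ ≤ ⌊A⌋₊ := Nat.floor_le_floor h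
  have hcard := E5_card (2 * g) _ _ hfl
  rw [← hset] at hcard
  have hA : 0 ≤ A := h0.trans h
  have e1 : ⌊A / ((2 * g : ℕ) : ℝ)⌋₊ = ⌊A⌋₊ / (2 * g) := Nat.floor_div_natCast A (2 * g)
  have e2 : ⌊A₁ / ((2 * g : ℕ) : ℝ)⌋₊ = ⌊A₁⌋₊ / (2 * g) := Nat.floor_div_natCast A₁ (2 * g)
  rw [← e1, ← e2] at hcard
  have hcard' : (((rows A₁ A).filter (fun a => g ∣ a)).card : ℝ) +
      (⌊A₁ / ((2 * g : ℕ) : ℝ)⌋₊ : ℝ) = (⌊A / ((2 * g : ℕ) : ℝ)⌋₊ : ℝ) := by
    exact_mod_cast hcard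
  have hq : (0 : ℝ) < ((2 * g : ℕ) : ℝ) := by positivity
  have a1 := Nat.floor_le (div_nonneg hA hq.le)
  have a2 := Nat.lt_floor_add_one (A / ((2 * g : ℕ) : ℝ))
  have b1 := Nat.floor_le (div_nonneg h0 hq.le)
  have b2 := Nat.lt_floor_add_one (A₁ / ((2 * g : ℕ) : ℝ))
  have hcast : ((2 * g : ℕ) : ℝ) = 2 * (g : ℝ) := by push_cast; ring
  rw [sub_div]
  rw [hcast] at a1 a2 b1 b2 hcard'
  rw [abs_le]
  constructor <;> linarith

end Pool.Agent.MU
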