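import Mathlib
import Pool.Agent.Lib.MP_bae66e_nt.MU.E1
import Pool.Agent.Lib.MP_bae66e_nt.MU.E2
import Pool.Agent.Lib.MP_bae66e_nt.MU.E3
import Pool.Agent.Lib.MP_bae66e_nt.Mg.G034
import Pool.Agent.Lib.MP_bae66e_nt.MG.S1b
import Pool.Agent.Lib.MP_bae66e_nt.Mg.G126

/-!
# Maier matrices, uniformly in the scale: E6a, the mean of the singular series over a row
-/

set_option autoImplicit false

namespace Pool.Agent.MU

open Pool.Agent.GM Pool.Agent.MG MeasureTheory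

private lemma E6a_wk_nonneg (k n : ℕ) : 0 ≤ wk k n := by
  unfold wk
  have : 0 ≤ Real.log n := Real.log_natCast_nonneg n
  positivity

private lemma E6a_wk_zero (k : ℕ) : wk k 0 = 0 := by
  unfold wk
  simp

/-- sum of `d^(-1/2)` -/
private lemma E6a_sum_sqrt (Z : ℕ) : ∑ d ∈ Finset.Icc 1 Z, 1 / Real.sqrt d ≤ 2 * Real.sqrt Z := by
  induction Z with
  | zero => simp
  | succ n ih =>
    rw [Finset.sum_Icc_succ_top (by omega)]
    have h1 : 0 < Real.sqrt ((n + 1 : ℕ) : ℝ) := Real.sqrt_pos.2 (by positivity)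
    have h2 : 0 ≤ Real.sqrt (n : ℝ) := Real.sqrt_nonneg _
    have h3 : Real.sqrt ((n + 1 : ℕ) : ℝ) ^ 2 = n + 1 := by
      rw [Real.sq_sqrt (by positivity)]
      push_cast
      ring
    have h4 : Real.sqrt (n : ℝ) ^ 2 = n := Real.sq_sqrt (by positivity)
    have h5 : 1 / Real.sqrt ((n + 1 : ℕ) : ℝ) ≤
        2 * Real.sqrt ((n + 1 : ℕ) : ℝ) - 2 * Real.sqrt (n : ℝ) := by
      rw [div_le_iff₀ h1]
      nlinarith [sq_nonneg (Real.sqrt ((n + 1 : ℕ) : ℝ) - Real.sqrt (n : ℝ))]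
    linarith

/-- sum of `d^(-8/5)` over `d > Z` -/
private lemma E6a_tail_step (n : ℕ) (hn : 1 ≤ n) :
    ((n + 1 : ℕ) : ℝ) ^ (-(8 / 5) : ℝ) ≤
      5 / 3 * ((n : ℝ) ^ (-(3 / 5) : ℝ) - ((n + 1 : ℕ) : ℝ) ^ (-(3 / 5) : ℝ)) := by
  have hn0 : (0 : ℝ) < n := by exact_mod_cast hn
  have hn1 : (0 : ℝ) < ((n + 1 : ℕ) : ℝ) := by positivity
  set y : ℝ := ((n + 1 : ℕ) : ℝ) with hy
  have hny : (n : ℝ) = y - 1 := by
    rw [hy]
    push_cast
    ring
  have hlog : Real.log n ≤ Real.log y - 1 / y := by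
    have h1 : Real.log (n / y) ≤ n / y - 1 := Real.log_le_sub_one_of_pos (div_pos hn0 hn1)
    rw [Real.log_div hn0.ne' hn1.ne'] at h1
    have h2 : (n : ℝ) / y - 1 = -(1 / y) := by
      rw [hny]
      field_simp
      ring
    rw [h2] at h1
    linarith
  have h3 : y ^ (-(3 / 5) : ℝ) * (1 + 3 / 5 * (1 / y)) ≤ (n : ℝ) ^ (-(3 / 5) : ℝ) := by
    rw [Real.rpow_def_of_pos hn1, Real.rpow_def_of_pos hn0]
    have h4 : 1 + 3 / 5 * (1 / y) ≤ Real.exp (3 / 5 * (1 / y)) := by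
      have := Real.add_one_le_exp (3 / 5 * (1 / y))
      linarith
    refine (mul_le_mul_of_nonneg_left h4 (Real.exp_pos _).le).trans ?_
    rw [← Real.exp_add]
    apply Real.exp_le_exp.2
    linarith
  have h5 : y ^ (-(8 / 5) : ℝ) = y ^ (-(3 / 5) : ℝ) * (1 / y) := by
    have : (-(8 / 5) : ℝ) = -(3 / 5) + (-1) := by norm_num
    rw [this, Real.rpow_add hn1, Real.rpow_neg_one, one_div]
  rw [h5]
  linarith

private lemma E6a_tail (Z N : ℕ) (hZ : 1 ≤ Z) (hN : Z ≤ N) :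
    ∑ d ∈ Finset.Ioc Z N, (d : ℝ) ^ (-(8 / 5) : ℝ) ≤
      5 / 3 * ((Z : ℝ) ^ (-(3 / 5) : ℝ) - (N : ℝ) ^ (-(3 / 5) : ℝ)) := by
  induction N, hN using Nat.le_induction with
  | base => simp
  | succ n hn ih =>
    rw [Finset.sum_Ioc_succ_top (by omega)]
    have := E6a_tail_step n (by omega)
    linarith

/-- the contribution of the large divisors -/
private lemma E6a_large (C : ℝ) (hC0 : 0 < C) (hC : ∀ k d : ℕ, 1 ≤ d →
    Summable (fun m : ℕ => if d ∣ m then wk k m else 0) ∧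
    ∑' m : ℕ, (if d ∣ m then wk k m else 0)
      ≤ C * (10 / 9 : ℝ) ^ k * (d : ℝ) ^ (-(11 / 10) : ℝ)) (k Z : ℕ) (hZ : 1 ≤ Z) (s : Finset ℕ) :
    ∑ m ∈ s, wk k m * ∑ d ∈ m.divisors.filter (fun d => Z < d), hco d ≤
      2 * C * (10 / 9 : ℝ) ^ k * (5 / 3 * (Z : ℝ) ^ (-(3 / 5) : ℝ)) := by
  classical
  set N := max Z (s.sup id) with hN
  have h1 : ∀ m ∈ s, wk k m * ∑ d ∈ m.divisors.filter (fun d => Z < d), hco d ≤
      ∑ d ∈ Finset.Ioc Z N, hco d * (if d ∣ m then wk k m else 0) := by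
    intro m hm
    rw [Finset.mul_sum]
    have h2 : ∀ d ∈ m.divisors.filter (fun d => Z < d), wk k m * hco d =
        hco d * (if d ∣ m then wk k m else 0) := by
      intro d hd
      rw [Finset.mem_filter, Nat.mem_divisors] at hd
      rw [if_pos hd.1.1, mul_comm]
    rw [Finset.sum_congr rfl h2]
    refine Finset.sum_le_sum_of_subset_of_nonneg ?_ ?_
    · intro d hd
      rw [Finset.mem_filter, Nat.mem_divisors] at hd
      rw [Finset.mem_Ioc]
      refine ⟨hd.2, ?_⟩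
      have h3 : d ≤ m := Nat.le_of_dvd (Nat.pos_of_ne_zero hd.1.2) hd.1.1
      have h4 : m ≤ s.sup id := Finset.le_sup (f := id) hm
      exact h3.trans (h4.trans (le_max_right _ _))
    · intro d _ _
      refine mul_nonneg (hco_nonneg d) ?_
      split_ifs
      · exact E6a_wk_nonneg k m
      · exact le_rfl
  refine (Finset.sum_le_sum h1).trans ?_
  rw [Finset.sum_comm]
  have h5 : ∀ d ∈ Finset.Ioc Z N, ∑ m ∈ s, hco d * (if d ∣ m then wk k m else 0) ≤
      2 * C * (10 / 9 : ℝ) ^ k * (d : ℝ) ^ (-(8 / 5) : ℝ) := by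
    intro d hd
    rw [Finset.mem_Ioc] at hd
    have hd1 : 1 ≤ d := by omega
    have hd0 : (0 : ℝ) < d := by exact_mod_cast hd1
    obtain ⟨hs1, hs2⟩ := hC k d hd1
    rw [← Finset.mul_sum]
    have h6 : ∑ m ∈ s, (if d ∣ m then wk k m else 0) ≤
        C * (10 / 9 : ℝ) ^ k * (d : ℝ) ^ (-(11 / 10) : ℝ) := by
      refine (hs1.sum_le_tsum s ?_).trans hs2
      intro m _
      split_ifs
      · exact E6a_wk_nonneg k m
      · exact le_rfl
    have h7 : 0 ≤ C * (10 / 9 : ℝ) ^ k * (d : ℝ) ^ (-(11 / 10) : ℝ) := by positivity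
    refine (mul_le_mul_of_nonneg_left h6 (hco_nonneg d)).trans ?_
    refine (mul_le_mul_of_nonneg_right (hco_le d hd1) h7).trans (le_of_eq ?_)
    have h8 : (d : ℝ) ^ (-(8 / 5) : ℝ) = (d : ℝ) ^ (-(1 / 2) : ℝ) * (d : ℝ) ^ (-(11 / 10) : ℝ) := by
      rw [← Real.rpow_add hd0]
      norm_num
    have h9 : 2 / Real.sqrt d = 2 * (d : ℝ) ^ (-(1 / 2) : ℝ) := by
      rw [Real.sqrt_eq_rpow, Real.rpow_neg hd0.le, div_eq_mul_inv]
    rw [h9, h8]
    ring
  refine (Finset.sum_le_sum h5).trans ?_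
  rw [← Finset.mul_sum]
  refine mul_le_mul_of_nonneg_left ?_ (by positivity)
  refine (E6a_tail Z N hZ (le_max_left _ _)).trans ?_
  have : 0 ≤ (N : ℝ) ^ (-(3 / 5) : ℝ) := by positivity
  linarith

/-- E6a. PROOF. `sing m = 2 C₂ ∑_{d ∣ m} hco d` (`MG.sing_eq_sum`, `m ≠ 0`; `wk k 0 = 0`). All terms are nonnegative,
exchange the sums: the left side is `2 C₂ ∑'_d hco d S(d)`, `S(d) = ∑'_{m ≡ a, d ∣ m} wk k m`. Take
`Z = ⌊2^(k/2)⌋`. For `d ≤ Z` use `class_sum`: the total error is at most `2 ∑_{d ≤ Z} (2/√d) 4/2^k ≤ 32 √Z/2^k`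
(`hco_le`, `∑_{d ≤ Z} d^(-1/2) ≤ 2 √Z`, `twinConst ≤ 1`). For `d > Z`
`S(d) ≤ C (10/9)^k d^(-11/10)` (`mult_sum_le`), so the contribution is at most
`4 C (10/9)^k ∑_{d > Z} d^(-8/5) ≤ C' (10/9)^k Z^(-3/5) ≤ C'' e^(-k/10)`
(`Z ≥ 2^(k/2)/2`, `log (10/9) ≤ 0.1054`, `(3/10) log 2 ≥ 0.2079`). -/
theorem sing_row : ∃ k₀ : ℕ, ∀ k : ℕ, k₀ ≤ k → ∃ Z : ℕ, 1 ≤ Z ∧ Real.exp ((k : ℝ) / 3) ≤ 2 * Z ∧
    (Z : ℝ) ≤ Real.exp (k : ℝ) ∧ ∀ M a : ℕ, 1 ≤ M →
      |∑' m : ℕ, (if m ≡ a [MOD M] then wk k m * sing m else 0)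
        - 2 * twinConst * ∑ d ∈ (Finset.Icc 1 Z).filter (fun d => Nat.gcd d M ∣ a),
          hco d * (Nat.gcd d M : ℝ) / ((d : ℝ) * M)| ≤ Real.exp (-((k : ℝ) / 12)) := by
  classical
  obtain ⟨C, hC0, hC⟩ := mult_sum_le
  obtain ⟨htc0, htc1⟩ := twinConst_pos
  refine ⟨max 1 ⌈100 * (32 + 14 * C)⌉₊, fun k hk => ?_⟩
  have hk1 : 1 ≤ k := (le_max_left _ _).trans hk
  have hk2 : 100 * (32 + 14 * C) ≤ k := by
    refine (Nat.le_ceil _).trans ?_
    exact_mod_cast (le_max_right _ _).trans hk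
  have hk0 : (0 : ℝ) ≤ k := by positivity
  have hl2 := Real.log_two_gt_d9
  have hl2' := Real.log_two_lt_d9
  set x : ℝ := Real.exp ((k : ℝ) / 2 * Real.log 2) with hx
  have hx1 : 1 ≤ x := by
    rw [hx]
    apply Real.one_le_exp
    positivity
  set Z : ℕ := ⌊x⌋₊ with hZdef
  have hZ1 : 1 ≤ Z := by
    rw [hZdef]
    exact Nat.le_floor (by exact_mod_cast hx1)
  have hZx : (Z : ℝ) ≤ x := Nat.floor_le (by linarith)
  have hxZ : x ≤ 2 * Z := by
    have h1 : x < Z + 1 := Nat.lt_floor_add_one x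
    have h2 : (1 : ℝ) ≤ Z := by exact_mod_cast hZ1
    linarith
  have hZ0 : (0 : ℝ) < Z := by exact_mod_cast hZ1
  refine ⟨Z, hZ1, ?_, ?_, ?_⟩
  · refine le_trans ?_ hxZ
    rw [hx]
    apply Real.exp_le_exp.2
    nlinarith
  · refine hZx.trans ?_
    rw [hx]
    apply Real.exp_le_exp.2
    nlinarith
  intro M a hM
  have hM0 : (0 : ℝ) < M := by exact_mod_cast hM
  -- summability of the pieces
  have hsumm : ∀ d ∈ Finset.Icc 1 Z,
      Summable (fun m : ℕ => if m ≡ a [MOD M] ∧ d ∣ m then wk k m else 0) := by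
    intro d hd
    rw [Finset.mem_Icc] at hd
    refine Summable.of_nonneg_of_le ?_ ?_ (hC k d hd.1).1
    · intro m
      split_ifs
      · exact E6a_wk_nonneg k m
      · exact le_rfl
    · intro m
      by_cases h1 : d ∣ m
      · rw [if_pos h1]
        split_ifs
        · exact le_rfl
        · exact E6a_wk_nonneg k m
      · rw [if_neg h1, if_neg (fun h => h1 h.2)]
  set R : ℕ → ℝ := fun m => if m ≡ a [MOD M] then
    wk k m * ∑ d ∈ m.divisors.filter (fun d => Z < d), hco d else 0 with hR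
  have hR0 : ∀ m, 0 ≤ R m := by
    intro m
    simp only [hR]
    split_ifs
    · exact mul_nonneg (E6a_wk_nonneg k m) (Finset.sum_nonneg fun d _ => hco_nonneg d)
    · exact le_rfl
  set BR : ℝ := 2 * C * (10 / 9 : ℝ) ^ k * (5 / 3 * (Z : ℝ) ^ (-(3 / 5) : ℝ)) with hBR
  have hRsum : ∀ s : Finset ℕ, ∑ m ∈ s, R m ≤ BR := by
    intro s
    refine le_trans (Finset.sum_le_sum fun m _ => ?_) (E6a_large C hC0 hC k Z hZ1 s)
    simp only [hR]
    split_ifs
    · exact le_rfl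
    · exact mul_nonneg (E6a_wk_nonneg k m) (Finset.sum_nonneg fun d _ => hco_nonneg d)
  have hRs : Summable R := summable_of_sum_le hR0 hRsum
  have hRt : ∑' m, R m ≤ BR := hRs.tsum_le_of_sum_le hRsum
  have hRt0 : 0 ≤ ∑' m, R m := tsum_nonneg hR0
  have hpt : ∀ m : ℕ, (if m ≡ a [MOD M] then wk k m * sing m else 0) =
      2 * twinConst * (∑ d ∈ Finset.Icc 1 Z,
        hco d * (if m ≡ a [MOD M] ∧ d ∣ m then wk k m else 0) + R m) := by
    intro m
    by_cases hma : m ≡ a [MOD M]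
    · rw [if_pos hma]
      rcases Nat.eq_zero_or_pos m with hm0 | hm0
      · subst hm0
        simp only [hR, E6a_wk_zero, zero_mul, ite_self, mul_zero, Finset.sum_const_zero, add_zero]
      · rw [sing_eq_sum m hm0.ne']
        have h1 : ∑ d ∈ m.divisors, hco d = ∑ d ∈ m.divisors.filter (fun d => ¬ Z < d), hco d +
            ∑ d ∈ m.divisors.filter (fun d => Z < d), hco d := by
          rw [add_comm, Finset.sum_filter_add_sum_filter_not]
        have h2 : ∑ d ∈ m.divisors.filter (fun d => ¬ Z < d), hco d * wk k m =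
            ∑ d ∈ Finset.Icc 1 Z, hco d * (if m ≡ a [MOD M] ∧ d ∣ m then wk k m else 0) := by
          have h3 : m.divisors.filter (fun d => ¬ Z < d) =
              (Finset.Icc 1 Z).filter (fun d => m ≡ a [MOD M] ∧ d ∣ m) := by
            ext d
            rw [Finset.mem_filter, Finset.mem_filter, Nat.mem_divisors, Finset.mem_Icc, not_lt]
            constructor
            · rintro ⟨⟨h4, h5⟩, h6⟩
              exact ⟨⟨Nat.pos_of_dvd_of_pos h4 hm0, h6⟩, hma, h4⟩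
            · rintro ⟨⟨h4, h5⟩, -, h6⟩
              exact ⟨⟨h6, hm0.ne'⟩, h5⟩
          rw [h3, Finset.sum_filter]
          refine Finset.sum_congr rfl fun d _ => ?_
          split_ifs
          · rfl
          · rw [mul_zero]
        have h4 : R m = wk k m * ∑ d ∈ m.divisors.filter (fun d => Z < d), hco d := by
          simp only [hR, if_pos hma]
        rw [← h2, h4, h1, ← Finset.sum_mul]
        ring
    · rw [if_neg hma]
      have h1 : R m = 0 := by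
        simp only [hR, if_neg hma]
      rw [h1]
      have h2 : ∀ d ∈ Finset.Icc 1 Z,
          hco d * (if m ≡ a [MOD M] ∧ d ∣ m then wk k m else 0) = 0 := by
        intro d _
        rw [if_neg (fun h => hma h.1), mul_zero]
      rw [Finset.sum_congr rfl h2, Finset.sum_const_zero, add_zero, mul_zero]
  have htot : ∑' m : ℕ, (if m ≡ a [MOD M] then wk k m * sing m else 0) =
      2 * twinConst * (∑ d ∈ Finset.Icc 1 Z,
        hco d * ∑' m : ℕ, (if m ≡ a [MOD M] ∧ d ∣ m then wk k m else 0) + ∑' m, R m) := by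
    have h1 : ∀ d ∈ Finset.Icc 1 Z, Summable
        (fun m : ℕ => hco d * (if m ≡ a [MOD M] ∧ d ∣ m then wk k m else 0)) :=
      fun d hd => (hsumm d hd).mul_left _
    rw [tsum_congr hpt, tsum_mul_left]
    rw [Summable.tsum_add (summable_sum h1) hRs, Summable.tsum_finsetSum h1]
    congr 2
    refine Finset.sum_congr rfl fun d _ => ?_
    rw [tsum_mul_left]
  rw [htot]
  have hmain : ∑ d ∈ (Finset.Icc 1 Z).filter (fun d => Nat.gcd d M ∣ a),
      hco d * (Nat.gcd d M : ℝ) / ((d : ℝ) * M) =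
      ∑ d ∈ Finset.Icc 1 Z, hco d *
        (if Nat.gcd d M ∣ a then (Nat.gcd d M : ℝ) / ((d : ℝ) * M) else 0) := by
    rw [Finset.sum_filter]
    refine Finset.sum_congr rfl fun d _ => ?_
    split_ifs
    · rw [mul_div_assoc]
    · rw [mul_zero]
  rw [hmain]
  have hdiff : |∑ d ∈ Finset.Icc 1 Z,
        hco d * ∑' m : ℕ, (if m ≡ a [MOD M] ∧ d ∣ m then wk k m else 0) -
      ∑ d ∈ Finset.Icc 1 Z, hco d *
        (if Nat.gcd d M ∣ a then (Nat.gcd d M : ℝ) / ((d : ℝ) * M) else 0)| ≤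
      16 * Real.sqrt Z / 2 ^ k := by
    rw [← Finset.sum_sub_distrib]
    refine (Finset.abs_sum_le_sum_abs _ _).trans ?_
    have h1 : ∀ d ∈ Finset.Icc 1 Z,
        |hco d * ∑' m : ℕ, (if m ≡ a [MOD M] ∧ d ∣ m then wk k m else 0) -
          hco d * (if Nat.gcd d M ∣ a then (Nat.gcd d M : ℝ) / ((d : ℝ) * M) else 0)| ≤
        8 / 2 ^ k * (1 / Real.sqrt d) := by
      intro d hd
      rw [Finset.mem_Icc] at hd
      rw [← mul_sub, abs_mul, abs_of_nonneg (hco_nonneg d)]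
      have h2 : |∑' m : ℕ, (if m ≡ a [MOD M] ∧ d ∣ m then wk k m else 0) -
          (if Nat.gcd d M ∣ a then (Nat.gcd d M : ℝ) / ((d : ℝ) * M) else 0)| ≤ 4 / 2 ^ k := by
        by_cases hg : Nat.gcd d M ∣ a
        · rw [if_pos hg]
          exact (class_sum k M d a hk1 hM hd.1).1 hg
        · rw [if_neg hg, (class_sum k M d a hk1 hM hd.1).2 hg, sub_zero, abs_zero]
          positivity
      calc hco d * |∑' m : ℕ, (if m ≡ a [MOD M] ∧ d ∣ m then wk k m else 0) -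
            (if Nat.gcd d M ∣ a then (Nat.gcd d M : ℝ) / ((d : ℝ) * M) else 0)|
          ≤ 2 / Real.sqrt d * (4 / 2 ^ k) :=
            mul_le_mul (hco_le d hd.1) h2 (abs_nonneg _) (by positivity)
        _ = 8 / 2 ^ k * (1 / Real.sqrt d) := by ring
    refine (Finset.sum_le_sum h1).trans ?_
    rw [← Finset.mul_sum]
    have h3 := E6a_sum_sqrt Z
    have h4 : (0 : ℝ) ≤ 8 / 2 ^ k := by positivity
    calc 8 / 2 ^ k * ∑ d ∈ Finset.Icc 1 Z, 1 / Real.sqrt d
        ≤ 8 / 2 ^ k * (2 * Real.sqrt Z) := mul_le_mul_of_nonneg_left h3 h4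
      _ = 16 * Real.sqrt Z / 2 ^ k := by ring
  -- sizes
  have hexp2 : (2 : ℝ) ^ k = Real.exp ((k : ℝ) * Real.log 2) := by
    rw [mul_comm, Real.exp_mul, Real.exp_log (by norm_num), Real.rpow_natCast]
  have hsize1 : 16 * Real.sqrt Z / 2 ^ k ≤ 16 * Real.exp (-((k : ℝ) / 12)) *
      Real.exp (-((k : ℝ) / 100)) := by
    have h1 : Real.sqrt Z ≤ Real.exp ((k : ℝ) / 4 * Real.log 2) := by
      rw [Real.sqrt_le_left (Real.exp_pos _).le, ← Real.exp_nat_mul]
      refine hZx.trans (le_of_eq ?_)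
      rw [hx]
      congr 1
      push_cast
      ring
    rw [hexp2, mul_div_assoc, mul_assoc]
    refine mul_le_mul_of_nonneg_left ?_ (by norm_num)
    rw [div_le_iff₀ (Real.exp_pos _), ← Real.exp_add, ← Real.exp_add]
    refine h1.trans (Real.exp_le_exp.2 ?_)
    nlinarith
  have hsize2 : BR ≤ 7 * C * Real.exp (-((k : ℝ) / 12)) * Real.exp (-((k : ℝ) / 100)) := by
    have h1 : (10 / 9 : ℝ) ^ k ≤ Real.exp ((k : ℝ) / 9) := by
      have h2 : (10 / 9 : ℝ) ≤ Real.exp (1 / 9) := by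
        have := Real.add_one_le_exp (1 / 9 : ℝ)
        linarith
      calc (10 / 9 : ℝ) ^ k ≤ (Real.exp (1 / 9)) ^ k := pow_le_pow_left₀ (by norm_num) h2 k
        _ = Real.exp ((k : ℝ) / 9) := by
          rw [← Real.exp_nat_mul]
          congr 1
          ring
    have h2 : (Z : ℝ) ^ (-(3 / 5) : ℝ) ≤ 2 * Real.exp (-(3 / 10 * (k * Real.log 2))) := by
      have h3 : (Z : ℝ) ^ (-(3 / 5) : ℝ) ≤ (x / 2) ^ (-(3 / 5) : ℝ) :=
        Real.rpow_le_rpow_of_nonpos (by linarith) (by linarith) (by norm_num)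
      refine h3.trans ?_
      have h4 : (x / 2) ^ (-(3 / 5) : ℝ) = x ^ (-(3 / 5) : ℝ) * (2 : ℝ) ^ (3 / 5 : ℝ) := by
        rw [Real.div_rpow (by linarith) (by norm_num), Real.rpow_neg (by norm_num : (0 : ℝ) ≤ 2),
          div_inv_eq_mul]
      have h5 : (2 : ℝ) ^ (3 / 5 : ℝ) ≤ 2 := by
        calc (2 : ℝ) ^ (3 / 5 : ℝ) ≤ (2 : ℝ) ^ (1 : ℝ) :=
              Real.rpow_le_rpow_of_exponent_le (by norm_num) (by norm_num)
          _ = 2 := Real.rpow_one 2
      have h6 : x ^ (-(3 / 5) : ℝ) = Real.exp (-(3 / 10 * (k * Real.log 2))) := by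
        rw [hx, ← Real.exp_mul]
        congr 1
        ring
      rw [h4, h6, mul_comm]
      exact mul_le_mul_of_nonneg_right h5 (Real.exp_pos _).le
    have h7 : BR ≤ 2 * C * Real.exp ((k : ℝ) / 9) *
        (5 / 3 * (2 * Real.exp (-(3 / 10 * (k * Real.log 2))))) := by
      rw [hBR]
      refine mul_le_mul ?_ ?_ (by positivity) (by positivity)
      · exact mul_le_mul_of_nonneg_left h1 (by positivity)
      · exact mul_le_mul_of_nonneg_left h2 (by norm_num)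
    refine h7.trans ?_
    have h8 : Real.exp ((k : ℝ) / 9) * Real.exp (-(3 / 10 * (k * Real.log 2))) ≤
        Real.exp (-((k : ℝ) / 12)) * Real.exp (-((k : ℝ) / 100)) := by
      rw [← Real.exp_add, ← Real.exp_add]
      apply Real.exp_le_exp.2
      nlinarith
    have h9 : 0 ≤ Real.exp (-((k : ℝ) / 12)) * Real.exp (-((k : ℝ) / 100)) := by positivity
    have h10 : 2 * C * Real.exp ((k : ℝ) / 9) *
        (5 / 3 * (2 * Real.exp (-(3 / 10 * (k * Real.log 2))))) =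
        20 / 3 * C * (Real.exp ((k : ℝ) / 9) * Real.exp (-(3 / 10 * (k * Real.log 2)))) := by ring
    rw [h10]
    have h11 : 20 / 3 * C * (Real.exp ((k : ℝ) / 9) * Real.exp (-(3 / 10 * (k * Real.log 2)))) ≤
        20 / 3 * C * (Real.exp (-((k : ℝ) / 12)) * Real.exp (-((k : ℝ) / 100))) :=
      mul_le_mul_of_nonneg_left h8 (by positivity)
    have h12 : 0 ≤ C * (Real.exp (-((k : ℝ) / 12)) * Real.exp (-((k : ℝ) / 100))) :=
      mul_nonneg hC0.le h9
    linarith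
  have hfin : (32 + 14 * C) * Real.exp (-((k : ℝ) / 100)) ≤ 1 := by
    rw [Real.exp_neg, ← div_eq_mul_inv, div_le_one (Real.exp_pos _)]
    have := Real.add_one_le_exp ((k : ℝ) / 100)
    linarith
  rw [← mul_sub, abs_mul, abs_of_nonneg (by linarith : 0 ≤ 2 * twinConst)]
  have e1 : |∑ d ∈ Finset.Icc 1 Z,
        hco d * ∑' m : ℕ, (if m ≡ a [MOD M] ∧ d ∣ m then wk k m else 0) + ∑' m, R m -
      ∑ d ∈ Finset.Icc 1 Z, hco d *
        (if Nat.gcd d M ∣ a then (Nat.gcd d M : ℝ) / ((d : ℝ) * M) else 0)| ≤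
      16 * Real.sqrt Z / 2 ^ k + BR := by
    have h1 : ∀ u v w : ℝ, u + v - w = (u - w) + v := fun u v w => by ring
    rw [h1]
    refine (abs_add_le _ _).trans (add_le_add hdiff ?_)
    rw [abs_of_nonneg hRt0]
    exact hRt
  have e2 : (0 : ℝ) < Real.exp (-((k : ℝ) / 12)) := Real.exp_pos _
  calc 2 * twinConst * |∑ d ∈ Finset.Icc 1 Z,
        hco d * ∑' m : ℕ, (if m ≡ a [MOD M] ∧ d ∣ m then wk k m else 0) + ∑' m, R m -
      ∑ d ∈ Finset.Icc 1 Z, hco d *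
        (if Nat.gcd d M ∣ a then (Nat.gcd d M : ℝ) / ((d : ℝ) * M) else 0)|
      ≤ 2 * (16 * Real.sqrt Z / 2 ^ k + BR) :=
        mul_le_mul (by linarith) e1 (abs_nonneg _) (by norm_num)
    _ ≤ 2 * (16 * Real.exp (-((k : ℝ) / 12)) * Real.exp (-((k : ℝ) / 100)) +
          7 * C * Real.exp (-((k : ℝ) / 12)) * Real.exp (-((k : ℝ) / 100))) := by linarith
    _ = (32 + 14 * C) * Real.exp (-((k : ℝ) / 100)) * Real.exp (-((k : ℝ) / 12)) := by ring
    _ ≤ 1 * Real.exp (-((k : ℝ) / 12)) := mul_le_mul_of_nonneg_right hfin e2.le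
    _ = Real.exp (-((k : ℝ) / 12)) := one_mul _

end Pool.Agent.MU
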