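import Mathlib
import Pool.Agent.Lib.MP_bae66e_nt.MU.E1
import Pool.Agent.Lib.MP_bae66e_nt.MG.S1c
import Pool.Agent.Lib.MP_bae66e_nt.Mg.G034

/-!
# Maier matrices, uniformly in the scale: E6b, the tail of the singular series
-/

set_option autoImplicit false

namespace Pool.Agent.MU

open Pool.Agent.GM Pool.Agent.MG MeasureTheory

lemma E6b_term (d : ℕ) (hd : 1 ≤ d) :
    hco (d + 1) / ((d + 1 : ℕ) : ℝ) ≤ 4 / Real.sqrt d - 4 / Real.sqrt ((d + 1 : ℕ) : ℝ) := by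
  have h1 := hco_le (d + 1) (by omega)
  have hd0 : (0 : ℝ) < d := by exact_mod_cast hd
  have hd1 : (0 : ℝ) < ((d + 1 : ℕ) : ℝ) := by positivity
  set a := Real.sqrt d with ha
  set b := Real.sqrt ((d + 1 : ℕ) : ℝ) with hb
  have ha0 : 0 < a := Real.sqrt_pos.2 hd0
  have hb0 : 0 < b := Real.sqrt_pos.2 hd1
  have ha2 : a ^ 2 = d := Real.sq_sqrt hd0.le
  have hb2 : b ^ 2 = ((d + 1 : ℕ) : ℝ) := Real.sq_sqrt hd1.le
  have hba : b ^ 2 = a ^ 2 + 1 := by rw [hb2, ha2]; push_cast; ring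
  have hab : a < b := by nlinarith
  rw [div_le_iff₀ hd1, ← hb2]
  refine h1.trans ?_
  have h2 : (4 / a - 4 / b) * b ^ 2 = 4 * b * (b - a) / a := by
    field_simp
  rw [h2, div_le_div_iff₀ hb0 ha0]
  have h3 : (b - a) * (b + a) = 1 := by nlinarith
  nlinarith [mul_pos hb0 hb0, mul_pos ha0 hb0]

lemma E6b_sum (Z n : ℕ) (hZ : 1 ≤ Z) :
    ∑ d ∈ Finset.Ioc Z (Z + n), hco d / d ≤ 4 / Real.sqrt Z - 4 / Real.sqrt ((Z + n : ℕ) : ℝ) := by
  induction n with
  | zero => simp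
  | succ n ih =>
    have h1 : Finset.Ioc Z (Z + (n + 1)) = insert (Z + n + 1) (Finset.Ioc Z (Z + n)) := by
      ext x
      simp only [Finset.mem_Ioc, Finset.mem_insert]
      omega
    rw [h1, Finset.sum_insert (by simp)]
    have h2 := E6b_term (Z + n) (by omega)
    have h3 : Z + (n + 1) = Z + n + 1 := by ring
    rw [h3]
    linarith

/-- E6b. PROOF. `twinConst ∑' hco d/d = 1` (`MG.hco_sum`), and
`∑_{d > Z} hco d/d ≤ ∑_{d > Z} 2 d^(-3/2) ≤ 4/√Z ≤ ...` (`hco_le`). -/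
theorem hco_tail (Z : ℕ) (hZ : 1 ≤ Z) :
    |twinConst * ∑ d ∈ Finset.Icc 1 Z, hco d / d - 1| ≤ 6 / Real.sqrt Z := by
  obtain ⟨hs, h1⟩ := hco_sum
  obtain ⟨ht0, ht1⟩ := twinConst_pos
  have hnn : ∀ d : ℕ, 0 ≤ hco d / (d : ℝ) := fun d => div_nonneg (hco_nonneg d) (Nat.cast_nonneg _)
  have hle : ∑ d ∈ Finset.Icc 1 Z, hco d / (d : ℝ) ≤ ∑' d : ℕ, hco d / (d : ℝ) :=
    hs.sum_le_tsum _ fun d _ => hnn d
  have hge : ∑' d : ℕ, hco d / (d : ℝ) ≤
      ∑ d ∈ Finset.Icc 1 Z, hco d / (d : ℝ) + 4 / Real.sqrt Z := by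
    refine hs.tsum_le_of_sum_le fun s => ?_
    obtain ⟨N, hN⟩ : ∃ N, s ⊆ Finset.range (Z + N + 1) := by
      obtain ⟨N, hN⟩ := s.exists_nat_subset_range
      exact ⟨N, hN.trans (Finset.range_subset_range.2 (by omega))⟩
    have h2 : ∑ d ∈ s, hco d / (d : ℝ) ≤ ∑ d ∈ Finset.range (Z + N + 1), hco d / (d : ℝ) :=
      Finset.sum_le_sum_of_subset_of_nonneg hN fun d _ _ => hnn d
    have h3 : Finset.range (Z + N + 1) = insert 0 (Finset.Icc 1 Z ∪ Finset.Ioc Z (Z + N)) := by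
      ext x
      simp only [Finset.mem_range, Finset.mem_insert, Finset.mem_union, Finset.mem_Icc,
        Finset.mem_Ioc]
      omega
    have h4 : Disjoint (Finset.Icc 1 Z) (Finset.Ioc Z (Z + N)) := by
      rw [Finset.disjoint_left]
      intro x hx hx'
      rw [Finset.mem_Icc] at hx
      rw [Finset.mem_Ioc] at hx'
      omega
    rw [h3, Finset.sum_insert (by simp), Finset.sum_union h4] at h2
    have h5 := E6b_sum Z N hZ
    have h6 : 0 ≤ 4 / Real.sqrt ((Z + N : ℕ) : ℝ) := by positivity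
    simp only [Nat.cast_zero, div_zero, zero_add] at h2
    linarith
  have hsq : 0 < Real.sqrt Z := Real.sqrt_pos.2 (by exact_mod_cast hZ)
  have h46 : 4 / Real.sqrt Z ≤ 6 / Real.sqrt Z := by
    apply div_le_div_of_nonneg_right _ hsq.le
    norm_num
  rw [abs_le]
  constructor
  · have h2 := mul_le_mul_of_nonneg_left hge ht0.le
    rw [h1, mul_add] at h2
    have h3 : twinConst * (4 / Real.sqrt Z) ≤ 1 * (4 / Real.sqrt Z) :=
      mul_le_mul_of_nonneg_right ht1 (by positivity)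
    linarith
  · have h2 := mul_le_mul_of_nonneg_left hle ht0.le
    rw [h1] at h2
    have : 0 ≤ 6 / Real.sqrt Z := by positivity
    linarith

end Pool.Agent.MU
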