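import Mathlib
import Pool.Agent.Lib.MP_bae66e_nt.MU.E4
import Pool.Agent.Lib.MP_bae66e_nt.MU.E5
import Pool.Agent.Lib.MP_bae66e_nt.MU.E6a
import Pool.Agent.Lib.MP_bae66e_nt.MU.E6b

/-!
# Maier matrices, uniformly in the scale: E6c, the sum of the means
-/

set_option autoImplicit false

namespace Pool.Agent.MU

open Pool.Agent.GM Pool.Agent.MG MeasureTheory

private lemma E6c_rows_card (A₁ A : ℝ) (hA : 0 ≤ A) : ((rows A₁ A).card : ℝ) ≤ A := by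
  unfold rows
  have h2 : ((Finset.Ioc ⌊A₁⌋₊ ⌊A⌋₊).filter Even).card ≤ ⌊A⌋₊ := by
    refine le_trans (Finset.card_filter_le _ _) ?_
    rw [Nat.card_Ioc]
    omega
  calc (((Finset.Ioc ⌊A₁⌋₊ ⌊A⌋₊).filter Even).card : ℝ) ≤ (⌊A⌋₊ : ℝ) := by exact_mod_cast h2
    _ ≤ A := Nat.floor_le hA

private lemma E6c_hco_even (d : ℕ) (hd : ¬ Odd d) : hco d = 0 := by
  unfold hco
  rw [if_neg]
  rintro ⟨_, h⟩
  exact hd h

private lemma E6c_swap (M Z : ℕ) (hM : 1 ≤ M) (R : Finset ℕ) (w : ℝ) :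
    (M : ℝ) * ∑ a ∈ R, w * ∑ d ∈ (Finset.Icc 1 Z).filter (fun d => Nat.gcd d M ∣ a),
          hco d * (Nat.gcd d M : ℝ) / ((d : ℝ) * M)
      = w * ∑ d ∈ Finset.Icc 1 Z, hco d * (Nat.gcd d M : ℝ) / d
          * ((R.filter (fun a => Nat.gcd d M ∣ a)).card : ℝ) := by
  have hM0 : (M : ℝ) ≠ 0 := by
    have : (0 : ℝ) < (M : ℝ) := by exact_mod_cast hM
    exact this.ne'
  rw [← Finset.mul_sum, ← mul_assoc, mul_comm (M : ℝ) w, mul_assoc]
  congr 1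
  have h1 : ∀ a ∈ R, ∑ d ∈ (Finset.Icc 1 Z).filter (fun d => Nat.gcd d M ∣ a),
      hco d * (Nat.gcd d M : ℝ) / ((d : ℝ) * M)
      = ∑ d ∈ Finset.Icc 1 Z, (if Nat.gcd d M ∣ a then
          hco d * (Nat.gcd d M : ℝ) / ((d : ℝ) * M) else 0) := by
    intro a _
    rw [Finset.sum_filter]
  rw [Finset.sum_congr rfl h1, Finset.sum_comm, Finset.mul_sum]
  apply Finset.sum_congr rfl
  intro d _
  rw [← Finset.sum_filter, Finset.sum_const, nsmul_eq_mul]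
  field_simp

private lemma E6c_main (M Z : ℕ) (hM : 1 ≤ M) (hZ : 1 ≤ Z) (A₁ A : ℝ) (h0 : 0 ≤ A₁) (h : A₁ ≤ A)
    (hAZ : 6 * A ≤ Real.sqrt Z) :
    |(2 * twinConst) * ∑ d ∈ Finset.Icc 1 Z, hco d * (Nat.gcd d M : ℝ) / d
          * (((rows A₁ A).filter (fun a => Nat.gcd d M ∣ a)).card : ℝ) - (A - A₁)|
      ≤ 2 * ((M.primeFactors.card : ℝ) + 1) + 1 := by
  have htc : 0 < twinConst := twinConst_pos.1
  have hterm : ∀ d ∈ Finset.Icc 1 Z,
      |hco d * (Nat.gcd d M : ℝ) / d * (((rows A₁ A).filter (fun a => Nat.gcd d M ∣ a)).card : ℝ)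
        - hco d / d * ((A - A₁) / 2)| ≤ hco d * (Nat.gcd d M : ℝ) / d := by
    intro d hd
    have hd1 : 1 ≤ d := (Finset.mem_Icc.mp hd).1
    by_cases ho : Odd d
    · have hgo : Odd (Nat.gcd d M) := Odd.of_dvd_nat ho (Nat.gcd_dvd_left d M)
      have hg0 : (0 : ℝ) < (Nat.gcd d M : ℝ) := by
        exact_mod_cast Nat.gcd_pos_of_pos_left M hd1
      have hd0 : (0 : ℝ) < (d : ℝ) := by exact_mod_cast hd1
      have hr := rows_div (Nat.gcd d M) hgo A₁ A h0 h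
      have he : hco d * (Nat.gcd d M : ℝ) / d
          * (((rows A₁ A).filter (fun a => Nat.gcd d M ∣ a)).card : ℝ)
          - hco d / d * ((A - A₁) / 2)
          = hco d * (Nat.gcd d M : ℝ) / d
            * ((((rows A₁ A).filter (fun a => Nat.gcd d M ∣ a)).card : ℝ)
              - (A - A₁) / (2 * (Nat.gcd d M : ℝ))) := by
        field_simp
      have hn : 0 ≤ hco d * (Nat.gcd d M : ℝ) / d :=
        div_nonneg (mul_nonneg (hco_nonneg d) hg0.le) hd0.le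
      rw [he, abs_mul, abs_of_nonneg hn]
      calc hco d * (Nat.gcd d M : ℝ) / d
            * |(((rows A₁ A).filter (fun a => Nat.gcd d M ∣ a)).card : ℝ)
              - (A - A₁) / (2 * (Nat.gcd d M : ℝ))|
          ≤ hco d * (Nat.gcd d M : ℝ) / d * 1 := mul_le_mul_of_nonneg_left hr hn
        _ = hco d * (Nat.gcd d M : ℝ) / d := mul_one _
    · rw [E6c_hco_even d ho]
      simp
  have hA0 : 0 ≤ A := le_trans h0 h
  have hs0 : 0 < Real.sqrt Z := by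
    apply Real.sqrt_pos.mpr
    exact_mod_cast hZ
  have h2 : |∑ d ∈ Finset.Icc 1 Z, hco d * (Nat.gcd d M : ℝ) / d
          * (((rows A₁ A).filter (fun a => Nat.gcd d M ∣ a)).card : ℝ)
        - (∑ d ∈ Finset.Icc 1 Z, hco d / d) * ((A - A₁) / 2)|
      ≤ ((M.primeFactors.card : ℝ) + 1) * (1 / twinConst) := by
    rw [Finset.sum_mul, ← Finset.sum_sub_distrib]
    refine le_trans (Finset.abs_sum_le_sum_abs _ _) ?_
    refine le_trans (Finset.sum_le_sum hterm) ?_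
    exact hco_gcd_sum M hM (Finset.Icc 1 Z) (fun d hd => (Finset.mem_Icc.mp hd).1)
  have h3 : |(2 * twinConst) * (∑ d ∈ Finset.Icc 1 Z, hco d * (Nat.gcd d M : ℝ) / d
          * (((rows A₁ A).filter (fun a => Nat.gcd d M ∣ a)).card : ℝ)
        - (∑ d ∈ Finset.Icc 1 Z, hco d / d) * ((A - A₁) / 2))|
      ≤ 2 * ((M.primeFactors.card : ℝ) + 1) := by
    rw [abs_mul, abs_of_pos (by linarith : 0 < 2 * twinConst)]
    calc (2 * twinConst) * |∑ d ∈ Finset.Icc 1 Z, hco d * (Nat.gcd d M : ℝ) / d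
          * (((rows A₁ A).filter (fun a => Nat.gcd d M ∣ a)).card : ℝ)
        - (∑ d ∈ Finset.Icc 1 Z, hco d / d) * ((A - A₁) / 2)|
        ≤ (2 * twinConst) * (((M.primeFactors.card : ℝ) + 1) * (1 / twinConst)) :=
          mul_le_mul_of_nonneg_left h2 (by linarith)
      _ = 2 * ((M.primeFactors.card : ℝ) + 1) := by
          field_simp
  have h4 : |(A - A₁) * (twinConst * ∑ d ∈ Finset.Icc 1 Z, hco d / d - 1)| ≤ 1 := by
    have ht := hco_tail Z hZ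
    rw [abs_mul, abs_of_nonneg (by linarith : 0 ≤ A - A₁)]
    calc (A - A₁) * |twinConst * ∑ d ∈ Finset.Icc 1 Z, hco d / d - 1|
        ≤ A * (6 / Real.sqrt Z) :=
          mul_le_mul (by linarith) ht (abs_nonneg _) hA0
      _ = (6 * A) / Real.sqrt Z := by ring
      _ ≤ 1 := by
          rw [div_le_one hs0]
          exact hAZ
  have h5 : (2 * twinConst) * ∑ d ∈ Finset.Icc 1 Z, hco d * (Nat.gcd d M : ℝ) / d
          * (((rows A₁ A).filter (fun a => Nat.gcd d M ∣ a)).card : ℝ) - (A - A₁)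
      = (2 * twinConst) * (∑ d ∈ Finset.Icc 1 Z, hco d * (Nat.gcd d M : ℝ) / d
          * (((rows A₁ A).filter (fun a => Nat.gcd d M ∣ a)).card : ℝ)
        - (∑ d ∈ Finset.Icc 1 Z, hco d / d) * ((A - A₁) / 2))
        + (A - A₁) * (twinConst * ∑ d ∈ Finset.Icc 1 Z, hco d / d - 1) := by ring
  rw [h5]
  refine le_trans (abs_add_le _ _) ?_
  linarith

/-- E6c. PROOF. Sum `sing_row` over `a ∈ rows A₁ A` (at most `A + 1` of them) and multiply by `M ≤ e^(c k)`: error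
`≤ M (A + 1) e^(-k/12) ≤ 1`, `c = 1/60`, say. The main term is
`2 C₂ ∑_{d ≤ Z, odd} hco d (g/d) #{a ∈ rows A₁ A : g ∣ a}`, `g = gcd(d, M)` (odd, as `hco d = 0` for even `d`), by
`rows_div` equal to `2 C₂ ∑ hco d (g/d) ((A-A₁)/(2 g) + O(1)) = (A - A₁) C₂ ∑_{d ≤ Z} hco d/d + O(2 C₂ ∑ hco d g/d)`.
`hco_tail`: the first is `(A - A₁)(1 + O(6/√Z))`, and `6 A/√Z ≤ 1` (`Z ≥ e^(k/3)/2`); `hco_gcd_sum`: the second is
`O(2 (k + 1))`. -/
theorem sing_rows : ∃ (c C : ℝ) (k₀ : ℕ), 0 < c ∧ 1 ≤ C ∧ ∀ k : ℕ, k₀ ≤ k → ∀ M : ℕ, 1 ≤ M →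
    Real.log M ≤ c * k → (M.primeFactors.card : ℝ) ≤ k → ∀ A₁ A : ℝ, 0 ≤ A₁ → A₁ ≤ A →
      A ≤ Real.exp (c * k) →
        |(M : ℝ) * ∑ a ∈ rows A₁ A, ∑' m : ℕ, (if m ≡ a [MOD M] then wk k m * sing m else 0)
          - (A - A₁)| ≤ C * k := by
  obtain ⟨k₁, hrow⟩ := sing_row
  refine ⟨1 / 60, 6, max k₁ 240, by norm_num, by norm_num, ?_⟩
  intro k hk M hM hlM hcard A₁ A hA₁ hA hAe
  have hk1 : k₁ ≤ k := le_trans (le_max_left _ _) hk
  have hk2 : 240 ≤ k := le_trans (le_max_right _ _) hk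
  have hkR : (240 : ℝ) ≤ (k : ℝ) := by exact_mod_cast hk2
  have hM0 : (0 : ℝ) < (M : ℝ) := by exact_mod_cast hM
  have hA0 : 0 ≤ A := le_trans hA₁ hA
  obtain ⟨Z, hZ1, hZe, -, hZ⟩ := hrow k hk1
  set T : ℕ → ℝ := fun a => ∑' m : ℕ, (if m ≡ a [MOD M] then wk k m * sing m else 0) with hT
  set U : ℕ → ℝ := fun a => 2 * twinConst *
    ∑ d ∈ (Finset.Icc 1 Z).filter (fun d => Nat.gcd d M ∣ a),
      hco d * (Nat.gcd d M : ℝ) / ((d : ℝ) * M) with hU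
  have hTU : ∀ a : ℕ, |T a - U a| ≤ Real.exp (-((k : ℝ) / 12)) := fun a => hZ M a hM
  have hdiff : |∑ a ∈ rows A₁ A, T a - ∑ a ∈ rows A₁ A, U a|
      ≤ A * Real.exp (-((k : ℝ) / 12)) := by
    rw [← Finset.sum_sub_distrib]
    calc |∑ a ∈ rows A₁ A, (T a - U a)| ≤ ∑ a ∈ rows A₁ A, |T a - U a| :=
          Finset.abs_sum_le_sum_abs _ _
      _ ≤ ∑ _a ∈ rows A₁ A, Real.exp (-((k : ℝ) / 12)) := Finset.sum_le_sum fun a _ => hTU a
      _ = ((rows A₁ A).card : ℝ) * Real.exp (-((k : ℝ) / 12)) := by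
          rw [Finset.sum_const, nsmul_eq_mul]
      _ ≤ A * Real.exp (-((k : ℝ) / 12)) :=
          mul_le_mul_of_nonneg_right (E6c_rows_card A₁ A hA0) (Real.exp_pos _).le
  have hMe : (M : ℝ) ≤ Real.exp (1 / 60 * k) := by
    rw [← Real.log_le_iff_le_exp hM0]
    exact hlM
  have hone : |(M : ℝ) * (∑ a ∈ rows A₁ A, T a - ∑ a ∈ rows A₁ A, U a)| ≤ 1 := by
    rw [abs_mul, abs_of_pos hM0]
    calc (M : ℝ) * |∑ a ∈ rows A₁ A, T a - ∑ a ∈ rows A₁ A, U a|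
        ≤ Real.exp (1 / 60 * k) * (Real.exp (1 / 60 * k) * Real.exp (-((k : ℝ) / 12))) := by
          apply mul_le_mul hMe _ (abs_nonneg _) (Real.exp_pos _).le
          exact le_trans hdiff (mul_le_mul_of_nonneg_right hAe (Real.exp_pos _).le)
      _ = Real.exp (1 / 60 * (k : ℝ) + (1 / 60 * k + -(k / 12))) := by
          rw [← Real.exp_add, ← Real.exp_add]
      _ ≤ 1 := by
          apply Real.exp_le_one_iff.mpr
          linarith
  have hAZ : 6 * A ≤ Real.sqrt Z := by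
    apply Real.le_sqrt_of_sq_le
    have h1 : A ^ 2 ≤ Real.exp (1 / 60 * k) ^ 2 := pow_le_pow_left₀ hA0 hAe 2
    have h2 : Real.exp (1 / 60 * (k : ℝ)) ^ 2 = Real.exp (k / 30) := by
      rw [← Real.exp_nat_mul]
      congr 1
      push_cast
      ring
    have h3 : 72 * Real.exp ((k : ℝ) / 30) ≤ Real.exp ((k : ℝ) / 3) := by
      have h4 : (k : ℝ) / 3 = 3 / 10 * k + k / 30 := by ring
      rw [h4, Real.exp_add]
      apply mul_le_mul_of_nonneg_right _ (Real.exp_pos _).le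
      have := Real.add_one_le_exp (3 / 10 * (k : ℝ))
      linarith
    rw [h2] at h1
    nlinarith
  have hsw : (M : ℝ) * ∑ a ∈ rows A₁ A, U a
      = (2 * twinConst) * ∑ d ∈ Finset.Icc 1 Z, hco d * (Nat.gcd d M : ℝ) / d
          * (((rows A₁ A).filter (fun a => Nat.gcd d M ∣ a)).card : ℝ) :=
    E6c_swap M Z hM (rows A₁ A) (2 * twinConst)
  have hmain := E6c_main M Z hM hZ1 A₁ A hA₁ hA hAZ
  rw [← hsw] at hmain
  have hsplit : (M : ℝ) * ∑ a ∈ rows A₁ A, T a - (A - A₁)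
      = (M : ℝ) * (∑ a ∈ rows A₁ A, T a - ∑ a ∈ rows A₁ A, U a)
        + ((M : ℝ) * ∑ a ∈ rows A₁ A, U a - (A - A₁)) := by ring
  rw [hsplit]
  refine le_trans (abs_add_le _ _) ?_
  linarith

end Pool.Agent.MU
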