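import Mathlib
import Pool.Agent.Lib.MP_bae66e_nt.MU.Defs
import Pool.Agent.Lib.MP_bae66e_nt.MG.T1e
import Pool.Agent.Lib.MP_bae66e_nt.Mg.G126
import Pool.Agent.Lib.MP_bae66e_nt.MG.T4a

/-!
# Maier matrices, uniformly in the scale: E7, the non-central m
-/

set_option autoImplicit false

namespace Pool.Agent.MU

open Pool.Agent.GM Pool.Agent.MG MeasureTheory

private lemma E7_wk_nonneg (k n : ℕ) : 0 ≤ wk k n := by
  have := Real.log_natCast_nonneg n
  unfold wk
  positivity

private lemma E7_term (k : ℕ) (hk : 1 ≤ k) (m : ℕ) :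
    0 ≤ wk k m * sing m ∧ wk k m * sing m ≤ 8 * (Real.log m * wk k m) := by
  rcases Nat.lt_or_ge m 2 with h | h
  · have h3 : wk k m = 0 := by
      interval_cases m
      · unfold wk
        simp
      · unfold wk
        simp [Nat.one_le_iff_ne_zero.mp hk]
    rw [h3]
    simp
  · have h1 := sing_bounds m (by omega)
    have h2 := twinConst_pos.1
    have h3 : Real.log 2 ≤ Real.log m := Real.log_le_log (by norm_num) (by exact_mod_cast h)
    have h4 := Real.log_two_gt_d9
    have h5 := E7_wk_nonneg k m
    refine ⟨mul_nonneg h5 (by linarith [h1.1]), ?_⟩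
    calc wk k m * sing m ≤ wk k m * (8 * Real.log m) :=
          mul_le_mul_of_nonneg_left (by linarith [h1.2]) h5
      _ = 8 * (Real.log m * wk k m) := by ring

/-- E7. PROOF. The difference is the sum over the `m ∉ cenSet θ k`, `m ≡ a`, of `wk k m sing m`, and
`sing m ≤ 4 log m + 2` (`MG.sing_bounds`), `≤ 8 log m` for `m ≥ 3`; `MG.tail_bound`. For `m ≤ 2`: `wk k 0 = wk k 1 = 0`
(`k ≥ 1`), `wk k 2 sing 2 ≤ (log 2)^k * 6`. -/
theorem cen_near (θ : ℝ) (h0 : 0 < θ) (h1 : θ < 1 / 4) : ∃ (c : ℝ) (k₀ : ℕ), 0 < c ∧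
    ∀ k : ℕ, k₀ ≤ k → ∀ M a : ℕ,
      |∑ m ∈ (cenSet θ k).filter (fun m => m ≡ a [MOD M]), wk k m * sing m
        - ∑' m : ℕ, (if m ≡ a [MOD M] then wk k m * sing m else 0)| ≤ Real.exp (-(c * k)) := by
  obtain ⟨c, hc, k₁, hk₁⟩ := tail_bound θ h0 (by linarith)
  obtain ⟨k₂, hk₂⟩ := exists_nat_ge (14 / c)
  refine ⟨c / 2, max 1 (max k₁ k₂), by positivity, ?_⟩
  intro k hk M a
  have hk1 : 1 ≤ k := (le_max_left _ _).trans hk
  have hkk1 : k₁ ≤ k := (le_max_left _ _).trans ((le_max_right _ _).trans hk)
  have hkk2 : k₂ ≤ k := (le_max_right _ _).trans ((le_max_right _ _).trans hk)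
  have hterm := E7_term k hk1
  have hsumlog : Summable (fun n : ℕ => Real.log n * wk k n) := summable_log_wk k
  have hlogn : ∀ n : ℕ, 0 ≤ Real.log n * wk k n := fun n =>
    mul_nonneg (Real.log_natCast_nonneg n) (E7_wk_nonneg k n)
  have hsumt : Summable (fun n : ℕ => if n ∈ cenSet θ k then 0 else Real.log n * wk k n) :=
    Summable.of_nonneg_of_le
      (fun n => by
        split_ifs
        · exact le_refl _
        · exact hlogn n)
      (fun n => by
        split_ifs
        · exact hlogn n
        · exact le_refl _) hsumlog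
  have hsumc : Summable (fun m : ℕ => if m ≡ a [MOD M] then wk k m * sing m else 0) :=
    Summable.of_nonneg_of_le
      (fun n => by
        split_ifs
        · exact (hterm n).1
        · exact le_refl _)
      (fun n => by
        split_ifs
        · exact (hterm n).2
        · exact mul_nonneg (by norm_num) (hlogn n)) (hsumlog.mul_left 8)
  have s2 : Summable (fun m : ℕ => if m ∈ cenSet θ k then 0 else
      if m ≡ a [MOD M] then wk k m * sing m else 0) :=
    Summable.of_nonneg_of_le
      (fun n => by
        split_ifs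
        · exact le_refl _
        · exact (hterm n).1
        · exact le_refl _)
      (fun n => by
        split_ifs
        · exact (hterm n).1
        · exact le_refl _
        · exact le_refl _
        · exact le_refl _) hsumc
  have h5 : ∑' m : ℕ, (if m ≡ a [MOD M] then wk k m * sing m else 0) =
      ∑ m ∈ (cenSet θ k).filter (fun m => m ≡ a [MOD M]), wk k m * sing m +
        ∑' m : ℕ, (if m ∈ cenSet θ k then 0 else
          if m ≡ a [MOD M] then wk k m * sing m else 0) := by
    have e1 : ∀ m : ℕ, (if m ≡ a [MOD M] then wk k m * sing m else 0) =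
        (if m ∈ cenSet θ k then (if m ≡ a [MOD M] then wk k m * sing m else 0) else 0) +
        (if m ∈ cenSet θ k then 0 else if m ≡ a [MOD M] then wk k m * sing m else 0) := by
      intro m
      by_cases hm : m ∈ cenSet θ k
      · simp [hm]
      · simp [hm]
    have s1 : HasSum (fun m : ℕ => if m ∈ cenSet θ k then
        (if m ≡ a [MOD M] then wk k m * sing m else 0) else 0)
        (∑ m ∈ (cenSet θ k).filter (fun m => m ≡ a [MOD M]), wk k m * sing m) := by
      have e2 : ∑ m ∈ (cenSet θ k).filter (fun m => m ≡ a [MOD M]), wk k m * sing m =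
          ∑ m ∈ cenSet θ k, (if m ∈ cenSet θ k then
            (if m ≡ a [MOD M] then wk k m * sing m else 0) else 0) := by
        rw [Finset.sum_filter]
        exact Finset.sum_congr rfl (fun m hm => by simp [hm])
      rw [e2]
      exact hasSum_sum_of_ne_finset_zero (fun m hm => by simp [hm])
    rw [tsum_congr e1, s1.summable.tsum_add s2, s1.tsum_eq]
  have h6 : ∑' m : ℕ, (if m ∈ cenSet θ k then 0 else
      if m ≡ a [MOD M] then wk k m * sing m else 0) ≤ 8 * Real.exp (-(c * k)) := by
    have e1 : ∀ m : ℕ, (if m ∈ cenSet θ k then 0 else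
        if m ≡ a [MOD M] then wk k m * sing m else 0) ≤
        8 * (if m ∈ cenSet θ k then 0 else Real.log m * wk k m) := by
      intro m
      by_cases hm : m ∈ cenSet θ k
      · simp [hm]
      · simp only [hm, if_false]
        split_ifs
        · exact (hterm m).2
        · exact mul_nonneg (by norm_num) (hlogn m)
    have h7 := Summable.tsum_le_tsum e1 s2 (hsumt.mul_left 8)
    rw [tsum_mul_left] at h7
    have h8 := hk₁ k hkk1
    linarith
  have h7 : 0 ≤ ∑' m : ℕ, (if m ∈ cenSet θ k then 0 else
      if m ≡ a [MOD M] then wk k m * sing m else 0) :=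
    tsum_nonneg (fun n => by
      split_ifs
      · exact le_refl _
      · exact (hterm n).1
      · exact le_refl _)
  rw [h5, sub_add_cancel_left, abs_neg, abs_of_nonneg h7]
  refine h6.trans ?_
  have h9 : (7 : ℝ) ≤ c / 2 * k := by
    have h10 : (k₂ : ℝ) ≤ k := by exact_mod_cast hkk2
    have h11 : 14 / c ≤ k := hk₂.trans h10
    rw [div_le_iff₀ hc] at h11
    linarith
  have h12 : (8 : ℝ) ≤ Real.exp (c / 2 * k) := by
    have := Real.add_one_le_exp (c / 2 * (k : ℝ))
    linarith
  calc 8 * Real.exp (-(c * k)) ≤ Real.exp (c / 2 * k) * Real.exp (-(c * k)) :=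
        mul_le_mul_of_nonneg_right h12 (Real.exp_pos _).le
    _ = Real.exp (-(c / 2 * k)) := by
        rw [← Real.exp_add]
        congr 1
        ring

end Pool.Agent.MU
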