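import Mathlib
import Pool.Agent.Lib.MP_bae66e_nt.MU.E6c
import Pool.Agent.Lib.MP_bae66e_nt.MU.E7

/-!
# Maier matrices, uniformly in the scale: E8, the expected count
-/

set_option autoImplicit false

namespace Pool.Agent.MU

open Pool.Agent.GM Pool.Agent.MG MeasureTheory

/-- E8. PROOF. `TEy = piR y ∑_{m central, m ≡ a} wk k m sing m`; `cen_near` summed over at most `A + 1` rows,
times `M`: `≤ e^(e₀ k) (e^(e₀ k) + 1) e^(-c k) ≤ 1`; `sing_rows`. -/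
theorem expected_rows (θ : ℝ) (h0 : 0 < θ) (h1 : θ < 1 / 4) : ∃ (e₀ C : ℝ) (k₀ : ℕ),
    0 < e₀ ∧ 1 ≤ C ∧ ∀ k : ℕ, k₀ ≤ k → ∀ M : ℕ, 1 ≤ M → Real.log M ≤ e₀ * k →
      (M.primeFactors.card : ℝ) ≤ k → ∀ y A₁ A : ℝ, 0 ≤ A₁ → A₁ ≤ A →
        A ≤ Real.exp (e₀ * k) →
        |(M : ℝ) * ∑ a ∈ rows A₁ A, TEy θ k M y a - (A - A₁) * piR y| ≤ C * k * piR y := by
  obtain ⟨c, k₁, hc, hcen⟩ := cen_near θ h0 h1
  obtain ⟨c', C, k₂, hc', hC, hsing⟩ := sing_rows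
  refine ⟨min c' (c / 2), C + 1, max (max k₁ k₂) 1, lt_min hc' (by linarith), by linarith, ?_⟩
  intro k hk M hM hlM hcard y A₁ A hA₁ hA hAe
  have hk1 : k₁ ≤ k := le_trans (le_trans (le_max_left _ _) (le_max_left _ _)) hk
  have hk2 : k₂ ≤ k := le_trans (le_trans (le_max_right _ _) (le_max_left _ _)) hk
  have hk3 : 1 ≤ k := le_trans (le_max_right _ _) hk
  have hkR : (1 : ℝ) ≤ (k : ℝ) := by exact_mod_cast hk3
  have hk0 : (0 : ℝ) ≤ (k : ℝ) := by linarith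
  have he1 : min c' (c / 2) * k ≤ c' * k := mul_le_mul_of_nonneg_right (min_le_left _ _) hk0
  have he2 : min c' (c / 2) * k ≤ c / 2 * k := mul_le_mul_of_nonneg_right (min_le_right _ _) hk0
  have hM0 : (0 : ℝ) < (M : ℝ) := by exact_mod_cast hM
  have hmain := hsing k hk2 M hM (le_trans hlM he1) hcard A₁ A hA₁ hA
    (le_trans hAe (Real.exp_le_exp.mpr he1))
  set S : ℕ → ℝ := fun a => ∑ m ∈ (cenSet θ k).filter (fun m => m ≡ a [MOD M]), wk k m * sing m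
    with hS
  set T : ℕ → ℝ := fun a => ∑' m : ℕ, (if m ≡ a [MOD M] then wk k m * sing m else 0) with hT
  have hST : ∀ a : ℕ, |S a - T a| ≤ Real.exp (-(c * k)) := fun a => hcen k hk1 M a
  have hpi : 0 ≤ piR y := by
    unfold piR
    exact Nat.cast_nonneg _
  have hTE : ∀ a : ℕ, TEy θ k M y a = S a * piR y := by
    intro a
    unfold TEy
    rw [hS]
    simp only
    rw [Finset.sum_mul]
    apply Finset.sum_congr rfl
    intro m _
    ring
  have hsum : ∑ a ∈ rows A₁ A, TEy θ k M y a = (∑ a ∈ rows A₁ A, S a) * piR y := by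
    rw [Finset.sum_mul]
    exact Finset.sum_congr rfl fun a _ => hTE a
  have hA0 : 0 ≤ A := le_trans hA₁ hA
  have hrows : ((rows A₁ A).card : ℝ) ≤ A := by
    unfold rows
    have h2 : ((Finset.Ioc ⌊A₁⌋₊ ⌊A⌋₊).filter Even).card ≤ ⌊A⌋₊ := by
      refine le_trans (Finset.card_filter_le _ _) ?_
      rw [Nat.card_Ioc]
      omega
    calc (((Finset.Ioc ⌊A₁⌋₊ ⌊A⌋₊).filter Even).card : ℝ) ≤ (⌊A⌋₊ : ℝ) := by exact_mod_cast h2
      _ ≤ A := Nat.floor_le hA0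
  have hdiff : |(∑ a ∈ rows A₁ A, S a) - ∑ a ∈ rows A₁ A, T a| ≤ A * Real.exp (-(c * k)) := by
    rw [← Finset.sum_sub_distrib]
    calc |∑ a ∈ rows A₁ A, (S a - T a)| ≤ ∑ a ∈ rows A₁ A, |S a - T a| :=
          Finset.abs_sum_le_sum_abs _ _
      _ ≤ ∑ _a ∈ rows A₁ A, Real.exp (-(c * k)) := Finset.sum_le_sum fun a _ => hST a
      _ = ((rows A₁ A).card : ℝ) * Real.exp (-(c * k)) := by
          rw [Finset.sum_const, nsmul_eq_mul]
      _ ≤ A * Real.exp (-(c * k)) := mul_le_mul_of_nonneg_right hrows (Real.exp_pos _).le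
  have hMe : (M : ℝ) ≤ Real.exp (c / 2 * k) := by
    rw [← Real.log_le_iff_le_exp hM0]
    exact le_trans hlM he2
  have hAe' : A ≤ Real.exp (c / 2 * k) := le_trans hAe (Real.exp_le_exp.mpr he2)
  have hone : (M : ℝ) * (A * Real.exp (-(c * k))) ≤ 1 := by
    calc (M : ℝ) * (A * Real.exp (-(c * k)))
        ≤ Real.exp (c / 2 * k) * (Real.exp (c / 2 * k) * Real.exp (-(c * k))) := by
          apply mul_le_mul hMe _ (mul_nonneg hA0 (Real.exp_pos _).le) (Real.exp_pos _).le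
          exact mul_le_mul_of_nonneg_right hAe' (Real.exp_pos _).le
      _ = 1 := by
          rw [← Real.exp_add, ← Real.exp_add]
          have : c / 2 * (k : ℝ) + (c / 2 * k + -(c * k)) = 0 := by ring
          rw [this, Real.exp_zero]
  have hfin : |(M : ℝ) * ∑ a ∈ rows A₁ A, S a - (A - A₁)| ≤ (C + 1) * k := by
    have h3 : (M : ℝ) * ∑ a ∈ rows A₁ A, S a - (A - A₁)
        = ((M : ℝ) * ∑ a ∈ rows A₁ A, T a - (A - A₁))
          + (M : ℝ) * ((∑ a ∈ rows A₁ A, S a) - ∑ a ∈ rows A₁ A, T a) := by ring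
    rw [h3]
    refine le_trans (abs_add_le _ _) ?_
    have h4 : |(M : ℝ) * ((∑ a ∈ rows A₁ A, S a) - ∑ a ∈ rows A₁ A, T a)| ≤ 1 := by
      rw [abs_mul, abs_of_pos hM0]
      exact le_trans (mul_le_mul_of_nonneg_left hdiff hM0.le) hone
    have h5 : |(M : ℝ) * ∑ a ∈ rows A₁ A, T a - (A - A₁)| ≤ C * k := hmain
    linarith
  rw [hsum]
  have h6 : (M : ℝ) * ((∑ a ∈ rows A₁ A, S a) * piR y) - (A - A₁) * piR y
      = ((M : ℝ) * ∑ a ∈ rows A₁ A, S a - (A - A₁)) * piR y := by ring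
  rw [h6, abs_mul, abs_of_nonneg hpi]
  exact mul_le_mul_of_nonneg_right hfin hpi

end Pool.Agent.MU
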