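import Mathlib
import Pool.Agent.Lib.MP_bae66e_nt.MU.Defs

/-!
# Maier matrices, uniformly in the scale: G0, the weight kap
-/

set_option autoImplicit false

namespace Pool.Agent.MU

open Pool.Agent.GM Pool.Agent.MG MeasureTheory

theorem kap_nonneg (z : ℕ) (σ φ t : ℝ) (ht : 0 ≤ t) : 0 ≤ kap z σ φ t := by
  unfold kap
  refine mul_nonneg (Real.rpow_nonneg ht _) ?_
  linarith [Real.neg_one_le_cos (φ - Real.pi * Real.log t / Real.log z)]

theorem kap_le (z : ℕ) (σ φ t : ℝ) (ht : 0 ≤ t) : kap z σ φ t ≤ 2 * t ^ (-σ - 1) := by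
  unfold kap
  have h1 : 0 ≤ t ^ (-σ - 1) := Real.rpow_nonneg ht _
  have h2 := Real.cos_le_one (φ - Real.pi * Real.log t / Real.log z)
  nlinarith

theorem kap_continuousOn (z : ℕ) (σ φ : ℝ) : ContinuousOn (kap z σ φ) (Set.Ioi 0) := by
  unfold kap
  have h1 : ContinuousOn (fun t : ℝ => t ^ (-σ - 1)) (Set.Ioi 0) :=
    continuousOn_id.rpow_const (fun x hx => Or.inl (ne_of_gt hx))
  have h2 : ContinuousOn (fun t : ℝ => Real.log t) (Set.Ioi 0) :=
    Real.continuousOn_log.mono (fun x hx => ne_of_gt hx)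
  refine h1.mul (continuousOn_const.add ?_)
  refine Real.continuous_cos.comp_continuousOn ?_
  exact continuousOn_const.sub ((continuousOn_const.mul h2).div_const _)

private lemma g0_int (z : ℕ) (σ φ a₁ a₂ : ℝ) (h1 : 1 ≤ a₁) (h2 : a₁ ≤ a₂) :
    IntervalIntegrable (kap z σ φ) volume a₁ a₂ := by
  refine ContinuousOn.intervalIntegrable ?_
  refine (kap_continuousOn z σ φ).mono ?_
  intro x hx
  rw [Set.uIcc_of_le h2, Set.mem_Icc] at hx
  simp only [Set.mem_Ioi]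
  linarith [hx.1]

private lemma g0_int_rpow (r a₁ a₂ : ℝ) (h1 : 1 ≤ a₁) (h2 : a₁ ≤ a₂) :
    IntervalIntegrable (fun t : ℝ => t ^ r) volume a₁ a₂ := by
  refine ContinuousOn.intervalIntegrable ?_
  intro x hx
  rw [Set.uIcc_of_le h2, Set.mem_Icc] at hx
  exact (Real.continuousAt_rpow_const x r (Or.inl (by linarith [hx.1]))).continuousWithinAt

/-- G0d. PROOF. `kap ≤ 2 t^(-σ-1)` and `∫_{a₁}^{a₂} t^(-σ-1) ≤ a₁^(-σ)/σ ≤ 2 a₁^(-σ)`. -/
theorem int_kap_le (z : ℕ) (σ φ a₁ a₂ : ℝ) (hσ : 1 / 2 ≤ σ) (h1 : 1 ≤ a₁) (h2 : a₁ ≤ a₂) :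
    ∫ A in a₁..a₂, kap z σ φ A ≤ 4 * a₁ ^ (-σ) := by
  have hs : 0 < σ := by linarith
  have h3 : ∫ A in a₁..a₂, kap z σ φ A ≤ ∫ A in a₁..a₂, 2 * A ^ (-σ - 1) := by
    refine intervalIntegral.integral_mono_on h2 (g0_int z σ φ a₁ a₂ h1 h2)
      ((g0_int_rpow (-σ - 1) a₁ a₂ h1 h2).const_mul 2) ?_
    intro x hx
    exact kap_le z σ φ x (by linarith [hx.1])
  refine h3.trans ?_
  rw [intervalIntegral.integral_const_mul, integral_rpow]
  · have h4 : -σ - 1 + 1 = -σ := by ring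
    rw [h4]
    have h5 : (a₂ ^ (-σ) - a₁ ^ (-σ)) / (-σ) = (a₁ ^ (-σ) - a₂ ^ (-σ)) / σ := by
      rw [div_neg, ← neg_div]
      congr 1
      ring
    rw [h5]
    have h6 : 0 ≤ a₂ ^ (-σ) := Real.rpow_nonneg (by linarith) _
    have h7 : 0 ≤ a₁ ^ (-σ) := Real.rpow_nonneg (by linarith) _
    have h8 : (a₁ ^ (-σ) - a₂ ^ (-σ)) / σ ≤ 2 * a₁ ^ (-σ) := by
      rw [div_le_iff₀ hs]
      nlinarith
    linarith
  · right
    constructor
    · intro h
      have : σ = 0 := by linarith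
      linarith
    · rw [Set.uIcc_of_le h2, Set.mem_Icc]
      intro h
      linarith [h.1]

/-- G0e. PROOF. `kap z σ φ A * A ≤ 2 A^(-σ)` and `∫_{a₁}^{a₂} A^(-σ) ≤ a₂^(1-σ)/(1-σ)`. -/
theorem int_kap_mul_le (z : ℕ) (σ φ a₁ a₂ : ℝ) (hσ : σ < 1) (h1 : 1 ≤ a₁) (h2 : a₁ ≤ a₂) :
    ∫ A in a₁..a₂, kap z σ φ A * A ≤ 2 / (1 - σ) * a₂ ^ (1 - σ) := by
  have hs : 0 < 1 - σ := by linarith
  have h3 : ∫ A in a₁..a₂, kap z σ φ A * A ≤ ∫ A in a₁..a₂, 2 * A ^ (-σ) := by
    refine intervalIntegral.integral_mono_on h2 ?_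
      ((g0_int_rpow (-σ) a₁ a₂ h1 h2).const_mul 2) ?_
    · refine ContinuousOn.intervalIntegrable ?_
      refine ContinuousOn.mul ((kap_continuousOn z σ φ).mono ?_) continuousOn_id
      intro x hx
      rw [Set.uIcc_of_le h2, Set.mem_Icc] at hx
      simp only [Set.mem_Ioi]
      linarith [hx.1]
    · intro x hx
      have hx0 : 0 < x := by linarith [hx.1]
      have h4 := kap_le z σ φ x hx0.le
      have h5 : x ^ (-σ) = x ^ (-σ - 1) * x := by
        rw [← Real.rpow_add_one hx0.ne']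
        congr 1
        ring
      rw [h5]
      nlinarith
  refine h3.trans ?_
  rw [intervalIntegral.integral_const_mul, integral_rpow]
  · have h4 : -σ + 1 = 1 - σ := by ring
    rw [h4]
    have h6 : 0 ≤ a₁ ^ (1 - σ) := Real.rpow_nonneg (by linarith) _
    have h8 : (a₂ ^ (1 - σ) - a₁ ^ (1 - σ)) / (1 - σ) ≤ a₂ ^ (1 - σ) / (1 - σ) := by
      gcongr
      linarith
    calc 2 * ((a₂ ^ (1 - σ) - a₁ ^ (1 - σ)) / (1 - σ)) ≤ 2 * (a₂ ^ (1 - σ) / (1 - σ)) := by linarith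
      _ = 2 / (1 - σ) * a₂ ^ (1 - σ) := by ring
  · right
    constructor
    · intro h
      linarith
    · rw [Set.uIcc_of_le h2, Set.mem_Icc]
      intro h
      linarith [h.1]

/-- G0f. PROOF. `t^(-σ-1)` has derivative `(-σ-1) t^(-σ-2)` and `cos (φ - π log t/log z)` has derivative
`(π/(t log z)) sin (..)`; so `|kap'(t)| ≤ (2 (σ+1) + π/log z) t^(-σ-2) ≤ 9 t^(-σ-2)` for `σ ≤ 1`, `log z ≥ 1`. By the
mean value theorem on `[t, t + p]` (`t^(-σ-2)` is decreasing). -/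
theorem kap_shift (z : ℕ) (σ φ t p : ℝ) (hz : 3 ≤ z) (h0 : 0 ≤ σ) (h1 : σ ≤ 1) (ht : 0 < t)
    (hp : 0 ≤ p) : |kap z σ φ (t + p) - kap z σ φ t| ≤ 9 * p * t ^ (-σ - 2) := by
  have hlz : 1 ≤ Real.log z := by
    have h3 : (3 : ℝ) ≤ z := by exact_mod_cast hz
    rw [Real.le_log_iff_exp_le (by linarith)]
    have := Real.exp_one_lt_d9
    linarith
  set f' : ℝ → ℝ := fun x => ((-σ - 1) * x ^ (-σ - 1 - 1)) *
      (1 + Real.cos (φ - Real.pi * Real.log x / Real.log z)) +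
      x ^ (-σ - 1) * (-Real.sin (φ - Real.pi * Real.log x / Real.log z) *
        (-(Real.pi * x⁻¹ / Real.log z))) with hf'
  have hder : ∀ x ∈ Set.Ici t, HasDerivWithinAt (kap z σ φ) (f' x) (Set.Ici t) x := by
    intro x hx
    have hx0 : 0 < x := lt_of_lt_of_le ht hx
    refine HasDerivAt.hasDerivWithinAt ?_
    have e1 : HasDerivAt (fun x : ℝ => x ^ (-σ - 1)) ((-σ - 1) * x ^ (-σ - 1 - 1)) x :=
      Real.hasDerivAt_rpow_const (Or.inl hx0.ne')
    have e2 : HasDerivAt (fun x : ℝ => φ - Real.pi * Real.log x / Real.log z)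
        (-(Real.pi * x⁻¹ / Real.log z)) x :=
      (((Real.hasDerivAt_log hx0.ne').const_mul Real.pi).div_const (Real.log z)).const_sub φ
    have e3 : HasDerivAt (fun x : ℝ => 1 + Real.cos (φ - Real.pi * Real.log x / Real.log z))
        (-Real.sin (φ - Real.pi * Real.log x / Real.log z) *
        (-(Real.pi * x⁻¹ / Real.log z))) x := (e2.cos).const_add 1
    exact e1.mul e3
  have hbd : ∀ x ∈ Set.Ici t, ‖f' x‖ ≤ 9 * t ^ (-σ - 2) := by
    intro x hx
    have hx0 : 0 < x := lt_of_lt_of_le ht hx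
    have hmono : x ^ (-σ - 2) ≤ t ^ (-σ - 2) :=
      Real.rpow_le_rpow_of_nonpos ht hx (by linarith)
    have hpos : 0 < x ^ (-σ - 2) := Real.rpow_pos_of_pos hx0 _
    have e1 : x ^ (-σ - 1 - 1) = x ^ (-σ - 2) := by congr 1; ring
    have e2 : x ^ (-σ - 1) * x⁻¹ = x ^ (-σ - 2) := by
      rw [← Real.rpow_neg_one x, ← Real.rpow_add hx0]
      congr 1
      ring
    have e3 : f' x = x ^ (-σ - 2) * ((-σ - 1) *
        (1 + Real.cos (φ - Real.pi * Real.log x / Real.log z)) +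
        Real.sin (φ - Real.pi * Real.log x / Real.log z) * (Real.pi / Real.log z)) := by
      rw [hf']
      simp only
      rw [e1]
      linear_combination (Real.sin (φ - Real.pi * Real.log x / Real.log z) *
        (Real.pi / Real.log z)) * e2
    rw [e3, norm_mul, Real.norm_of_nonneg hpos.le]
    have hc1 := Real.cos_le_one (φ - Real.pi * Real.log x / Real.log z)
    have hc2 := Real.neg_one_le_cos (φ - Real.pi * Real.log x / Real.log z)
    have hs1 := Real.sin_le_one (φ - Real.pi * Real.log x / Real.log z)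
    have hs2 := Real.neg_one_le_sin (φ - Real.pi * Real.log x / Real.log z)
    generalize Real.cos (φ - Real.pi * Real.log x / Real.log z) = c at hc1 hc2 ⊢
    generalize Real.sin (φ - Real.pi * Real.log x / Real.log z) = s at hs1 hs2 ⊢
    have hq0 : 0 ≤ Real.pi / Real.log z := by positivity
    have hq1 : Real.pi / Real.log z ≤ 4 := by
      rw [div_le_iff₀ (by linarith)]
      have := Real.pi_le_four
      nlinarith
    generalize Real.pi / Real.log z = q at hq0 hq1 ⊢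
    have hb : ‖(-σ - 1) * (1 + c) + s * q‖ ≤ 9 := by
      rw [Real.norm_eq_abs, abs_le]
      constructor <;> nlinarith
    calc x ^ (-σ - 2) * ‖(-σ - 1) * (1 + c) + s * q‖ ≤ t ^ (-σ - 2) * 9 :=
          mul_le_mul hmono hb (norm_nonneg _) (by positivity)
      _ = 9 * t ^ (-σ - 2) := by ring
  have hmain := Convex.norm_image_sub_le_of_norm_hasDerivWithin_le hder hbd (convex_Ici t)
    (Set.self_mem_Ici) (show t + p ∈ Set.Ici t by simp only [Set.mem_Ici]; linarith)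
  rw [Real.norm_eq_abs, Real.norm_eq_abs] at hmain
  have h5 : |t + p - t| = p := by
    rw [add_sub_cancel_left, abs_of_nonneg hp]
  rw [h5] at hmain
  linarith

end Pool.Agent.MU
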