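import Mathlib
import Pool.Agent.Lib.MP_bae66e_nt.MU.G0

/-!
# Maier matrices, uniformly in the scale: F1, the weights of the rows
-/

set_option autoImplicit false

namespace Pool.Agent.MU

open Pool.Agent.GM Pool.Agent.MG MeasureTheory

/-- the weight of the row `a` -/
noncomputable def rho (z : ℕ) (σ φ A₁ A₂ : ℝ) (a : ℕ) : ℝ :=
  ∫ A in (a : ℝ)..A₂, kap z σ φ A

theorem F1_mem_rows (A₁ A : ℝ) (h1 : 1 ≤ A₁) (h2 : A₁ ≤ A) (a : ℕ) :
    a ∈ rows A₁ A ↔ A₁ < a ∧ (a : ℝ) ≤ A ∧ Even a := by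
  unfold rows
  rw [Finset.mem_filter, Finset.mem_Ioc, Nat.floor_lt (by linarith), Nat.le_floor_iff (by linarith),
    and_assoc]

theorem F1_sum (A₁ A₂ A : ℝ) (h1 : 1 ≤ A₁) (h2 : A₁ ≤ A) (h3 : A ≤ A₂) (T : ℕ → ℝ) :
    ∑ a ∈ rows A₁ A, T a = ∑ a ∈ rows A₁ A₂, (if (a : ℝ) ≤ A then T a else 0) := by
  rw [← Finset.sum_filter]
  apply Finset.sum_congr _ (fun _ _ => rfl)
  ext a
  rw [Finset.mem_filter, F1_mem_rows A₁ A h1 h2, F1_mem_rows A₁ A₂ h1 (h2.trans h3)]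
  constructor
  · rintro ⟨a1, a2, a3⟩
    exact ⟨⟨a1, a2.trans h3, a3⟩, a2⟩
  · rintro ⟨⟨a1, _, a3⟩, a4⟩
    exact ⟨a1, a4, a3⟩

theorem F1_kapInt (z : ℕ) (σ φ b A₂ : ℝ) (h1 : 1 ≤ b) (h2 : b ≤ A₂) :
    IntervalIntegrable (kap z σ φ) volume b A₂ := by
  apply ContinuousOn.intervalIntegrable
  apply (kap_continuousOn z σ φ).mono
  rw [Set.uIcc_of_le h2]
  intro x hx
  exact lt_of_lt_of_le one_pos (h1.trans hx.1)

theorem F1_ind (z : ℕ) (σ φ A₁ A₂ : ℝ) (h1 : 1 ≤ A₁) (h2 : A₁ ≤ A₂) (a : ℕ) (t : ℝ)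
    (ha : a ∈ rows A₁ A₂) :
    IntervalIntegrable (fun A => kap z σ φ A * (if (a : ℝ) ≤ A then t else 0)) volume A₁ A₂ ∧
    ∫ A in A₁..A₂, kap z σ φ A * (if (a : ℝ) ≤ A then t else 0)
      = rho z σ φ A₁ A₂ a * t := by
  obtain ⟨a1, a2, _⟩ := (F1_mem_rows A₁ A₂ h1 h2 a).mp ha
  have hf : (fun A => kap z σ φ A * (if (a : ℝ) ≤ A then t else 0))
      = (Set.Ici (a : ℝ)).indicator (fun A => kap z σ φ A * t) := by
    funext A
    by_cases h : (a : ℝ) ≤ A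
    · rw [if_pos h, Set.indicator_of_mem (Set.mem_Ici.mpr h)]
    · rw [if_neg h, Set.indicator_of_notMem (fun h' => h (Set.mem_Ici.mp h')), mul_zero]
  have hi := (F1_kapInt z σ φ A₁ A₂ h1 h2).mul_const t
  constructor
  · rw [hf, intervalIntegrable_iff_integrableOn_Ioc_of_le h2]
    rw [intervalIntegrable_iff_integrableOn_Ioc_of_le h2] at hi
    exact Integrable.indicator hi measurableSet_Ici
  · rw [hf, intervalIntegral.integral_of_le h2, MeasureTheory.setIntegral_indicator measurableSet_Ici]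
    have hs : Set.Ioc A₁ A₂ ∩ Set.Ici (a : ℝ) = Set.Icc (a : ℝ) A₂ := by
      ext x
      simp only [Set.mem_inter_iff, Set.mem_Ioc, Set.mem_Ici, Set.mem_Icc]
      constructor
      · rintro ⟨⟨_, x2⟩, x3⟩
        exact ⟨x3, x2⟩
      · rintro ⟨x1, x2⟩
        exact ⟨⟨lt_of_lt_of_le a1 x1, x2⟩, x1⟩
    rw [hs, MeasureTheory.integral_Icc_eq_integral_Ioc, ← intervalIntegral.integral_of_le a2,
      intervalIntegral.integral_mul_const]
    rfl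

/-- F1a. PROOF. `a ≤ ⌊A₂⌋ ≤ A₂`, `kap_nonneg`. -/
theorem rho_nonneg (z : ℕ) (σ φ A₁ A₂ : ℝ) (h1 : 1 ≤ A₁) (h2 : A₁ ≤ A₂) (a : ℕ)
    (ha : a ∈ rows A₁ A₂) : 0 ≤ rho z σ φ A₁ A₂ a := by
  obtain ⟨a1, a2, _⟩ := (F1_mem_rows A₁ A₂ h1 h2 a).mp ha
  unfold rho
  apply intervalIntegral.integral_nonneg a2
  intro u hu
  apply kap_nonneg
  linarith [hu.1]

/-- F1b. PROOF. For `a ∈ rows A₁ A₂` (so `A₁ < a ≤ A₂`) `rho a = ∫_{A₁}^{A₂} kap A [a ≤ A] dA`, and for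
`A ∈ [A₁, A₂]`: `a ∈ rows A₁ A` iff `a ∈ rows A₁ A₂` and `a ≤ A`. Exchange the finite sum and the integral. -/
theorem rho_sum (z : ℕ) (σ φ A₁ A₂ : ℝ) (h1 : 1 ≤ A₁) (h2 : A₁ ≤ A₂) (T : ℕ → ℝ) :
    ∑ a ∈ rows A₁ A₂, rho z σ φ A₁ A₂ a * T a
      = ∫ A in A₁..A₂, kap z σ φ A * ∑ a ∈ rows A₁ A, T a := by
  have h3 : ∫ A in A₁..A₂, kap z σ φ A * ∑ a ∈ rows A₁ A, T a
      = ∫ A in A₁..A₂, ∑ a ∈ rows A₁ A₂, kap z σ φ A * (if (a : ℝ) ≤ A then T a else 0) := by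
    apply intervalIntegral.integral_congr
    intro A hA
    rw [Set.uIcc_of_le h2] at hA
    simp only
    rw [F1_sum A₁ A₂ A h1 hA.1 hA.2, Finset.mul_sum]
  rw [h3, intervalIntegral.integral_finsetSum (fun a ha => (F1_ind z σ φ A₁ A₂ h1 h2 a (T a) ha).1)]
  apply Finset.sum_congr rfl
  intro a ha
  rw [(F1_ind z σ φ A₁ A₂ h1 h2 a (T a) ha).2]

/-- F1c. PROOF. The function `A ↦ kap A ∑_{a ∈ rows A₁ A} T a` is interval integrable (a finite sum of products of a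
continuous function and indicator functions). -/
theorem rho_integrable (z : ℕ) (σ φ A₁ A₂ : ℝ) (h1 : 1 ≤ A₁) (h2 : A₁ ≤ A₂) (T : ℕ → ℝ) :
    IntervalIntegrable (fun A => kap z σ φ A * ∑ a ∈ rows A₁ A, T a) volume A₁ A₂ := by
  have h4 : IntervalIntegrable (fun A => ∑ a ∈ rows A₁ A₂,
      kap z σ φ A * (if (a : ℝ) ≤ A then T a else 0)) volume A₁ A₂ := by
    have h5 := IntervalIntegrable.sum (μ := volume) (a := A₁) (b := A₂) (rows A₁ A₂)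
      (f := fun (a : ℕ) A => kap z σ φ A * (if (a : ℝ) ≤ A then T a else 0))
      (fun a ha => (F1_ind z σ φ A₁ A₂ h1 h2 a (T a) ha).1)
    have h6 : (fun A => ∑ a ∈ rows A₁ A₂, kap z σ φ A * (if (a : ℝ) ≤ A then T a else 0))
        = ∑ a ∈ rows A₁ A₂, fun A => kap z σ φ A * (if (a : ℝ) ≤ A then T a else 0) := by
      funext A
      rw [Finset.sum_apply]
    rw [h6]
    exact h5
  refine h4.congr ?_
  intro A hA
  rw [Set.uIoc_of_le h2] at hA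
  simp only
  rw [F1_sum A₁ A₂ A h1 hA.1.le hA.2, Finset.mul_sum]

/-- F1d. PROOF. `rho_sum` with `T = 1`, `#(rows A₁ A) ≤ A`. -/
theorem rho_total (z : ℕ) (σ φ A₁ A₂ : ℝ) (h1 : 1 ≤ A₁) (h2 : A₁ ≤ A₂) :
    ∑ a ∈ rows A₁ A₂, rho z σ φ A₁ A₂ a ≤ ∫ A in A₁..A₂, kap z σ φ A * A := by
  have h3 := rho_sum z σ φ A₁ A₂ h1 h2 (fun _ => 1)
  simp only [mul_one] at h3
  rw [h3]
  apply intervalIntegral.integral_mono_on h2
  · exact rho_integrable z σ φ A₁ A₂ h1 h2 (fun _ => 1)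
  · apply ContinuousOn.intervalIntegrable
    apply ContinuousOn.mul _ continuousOn_id
    apply (kap_continuousOn z σ φ).mono
    rw [Set.uIcc_of_le h2]
    intro x hx
    exact lt_of_lt_of_le one_pos (h1.trans hx.1)
  · intro A hA
    have hA0 : 0 ≤ A := by linarith [hA.1]
    apply mul_le_mul_of_nonneg_left _ (kap_nonneg z σ φ A hA0)
    rw [Finset.sum_const, nsmul_eq_mul, mul_one]
    have hc : (rows A₁ A).card ≤ ⌊A⌋₊ := by
      unfold rows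
      refine (Finset.card_filter_le _ _).trans ?_
      rw [Nat.card_Ioc]
      exact Nat.sub_le _ _
    exact (Nat.cast_le.mpr hc).trans (Nat.floor_le hA0)

end Pool.Agent.MU
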