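import Mathlib
import Pool.Agent.Lib.MP_bae66e_nt.MU.Defs

/-!
# Maier matrices, uniformly in the scale: G2, the zeta function on [1/2, 1]
-/

set_option autoImplicit false

namespace Pool.Agent.MU

open Pool.Agent.GM Pool.Agent.MG MeasureTheory

private lemma g2_densC : MC.densC 1 1 = 1 := by
  unfold MC.densC
  simp [MulChar.one_apply, Subsingleton.elim _ (1 : ZMod 1)]

private lemma g2_RC (t : ℝ) : MC.RC 1 1 t = (((⌊t⌋₊ : ℝ) - t : ℝ) : ℂ) := by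
  unfold MC.RC MC.SumC
  rw [g2_densC]
  have h : ∀ k : ℕ, (1 : DirichletCharacter ℂ 1) (k : ZMod 1) = 1 := by
    intro k
    rw [MulChar.one_apply]
    exact isUnit_of_subsingleton _
  simp only [h]
  simp

private lemma g2_MT (σ : ℝ) : MC.MT (MC.RC 1 1) (σ : ℂ)
    = ((∫ t in Set.Ioi (1 : ℝ), ((⌊t⌋₊ : ℝ) - t) * t ^ (-(σ + 1)) : ℝ) : ℂ) := by
  unfold MC.MT
  rw [← integral_complex_ofReal]
  refine setIntegral_congr_fun measurableSet_Ioi fun t ht => ?_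
  have ht0 : (0 : ℝ) ≤ t := le_trans zero_le_one (le_of_lt ht)
  rw [g2_RC, Complex.ofReal_mul, Complex.ofReal_cpow ht0]
  push_cast
  rfl

private lemma g2_nonpos (σ : ℝ) :
    (∫ t in Set.Ioi (1 : ℝ), ((⌊t⌋₊ : ℝ) - t) * t ^ (-(σ + 1))) ≤ 0 := by
  refine setIntegral_nonpos measurableSet_Ioi fun t ht => ?_
  have ht0 : (0 : ℝ) ≤ t := le_trans zero_le_one (le_of_lt ht)
  exact mul_nonpos_of_nonpos_of_nonneg (sub_nonpos.2 (Nat.floor_le ht0)) (Real.rpow_nonneg ht0 _)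

private lemma g2_real (σ : ℝ) (h1 : 1 / 2 ≤ σ) (h2 : σ ≤ 1) : 1 / 2 ≤ ‖MC.FF 1 1 (σ : ℂ)‖ := by
  have h := MC.FF_one_eq_MT 1 (σ : ℂ) (by rw [Complex.ofReal_re]; linarith)
  rw [g2_densC, g2_MT] at h
  have hJ := g2_nonpos σ
  set J := ∫ t in Set.Ioi (1 : ℝ), ((⌊t⌋₊ : ℝ) - t) * t ^ (-(σ + 1)) with hJd
  have h3 : (σ : ℂ) * ((σ : ℂ) - 1) * (J : ℂ) + 1 * (σ : ℂ) = ((σ * (σ - 1) * J + σ : ℝ) : ℂ) := by
    push_cast
    ring
  rw [h, h3, Complex.norm_real, Real.norm_eq_abs]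
  have h4 : 0 ≤ σ * (σ - 1) * J :=
    mul_nonneg_of_nonpos_of_nonpos (mul_nonpos_of_nonneg_of_nonpos (by linarith) (by linarith)) hJ
  exact le_trans (by linarith) (le_abs_self _)

/-- G2. PROOF. `f = MC.FF 1 1` is entire (`MC.FF_differentiable`) and `f s = (s - 1) ζ(s)` for `s ≠ 1`
(`MC.FF_one_apply`, `DirichletCharacter.LFunction_modOne_eq`). For real `σ ∈ [1/2, 1]`, by `MC.FF_one_eq_MT` with
`d = 1`: `f σ = σ (σ - 1) MT (RC 1 1) σ + σ` where `RC 1 1 t = ⌊t⌋ - t ∈ (-1, 0]`, so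
`MT (RC 1 1) σ` is real and `≤ 0` and `f σ ≥ σ ≥ 1/2`. By continuity of `f` and compactness of `[1/2, 1]` (uniform
continuity on a compact rectangle) there is `τ₀ > 0` with `‖f s‖ ≥ 1/4` for `1/2 ≤ re s ≤ 1`, `|im s| ≤ τ₀`; and `f`
is bounded there. -/
theorem zeta_seg : ∃ c C τ₀ : ℝ, 0 < c ∧ 0 < τ₀ ∧ ∀ s : ℂ, s ≠ 1 → 1 / 2 ≤ s.re → s.re ≤ 1 →
    |s.im| ≤ τ₀ → c ≤ ‖(s - 1) * riemannZeta s‖ ∧ ‖(s - 1) * riemannZeta s‖ ≤ C := by
  have hcont : Continuous (MC.FF 1 1) := (MC.FF_differentiable 1 1).continuous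
  have hK : IsCompact ((fun x : ℝ => (x : ℂ)) '' Set.Icc (1 / 2 : ℝ) 1) :=
    isCompact_Icc.image Complex.continuous_ofReal
  have hU : IsOpen {s : ℂ | 1 / 4 < ‖MC.FF 1 1 s‖} :=
    isOpen_lt continuous_const hcont.norm
  have hKU : ((fun x : ℝ => (x : ℂ)) '' Set.Icc (1 / 2 : ℝ) 1) ⊆ {s : ℂ | 1 / 4 < ‖MC.FF 1 1 s‖} := by
    rintro _ ⟨x, hx, rfl⟩
    have := g2_real x hx.1 hx.2
    change 1 / 4 < ‖MC.FF 1 1 (x : ℂ)‖
    linarith
  obtain ⟨δ, hδ, hδU⟩ := hK.exists_thickening_subset_open hU hKU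
  refine ⟨1 / 4, (4 * ((1 : ℕ) : ℝ) + 3) * ((1 + δ) + 1) ^ 2, δ / 2, by norm_num, by linarith, ?_⟩
  intro s hs1 hre1 hre2 him
  have hf : (s - 1) * riemannZeta s = MC.FF 1 1 s := by
    rw [MC.FF_one_apply 1 s hs1, DirichletCharacter.LFunction_modOne_eq]
  rw [hf]
  constructor
  · have hmem : s ∈ Metric.thickening δ ((fun x : ℝ => (x : ℂ)) '' Set.Icc (1 / 2 : ℝ) 1) := by
      rw [Metric.mem_thickening_iff]
      refine ⟨(s.re : ℂ), ⟨s.re, ⟨hre1, hre2⟩, rfl⟩, ?_⟩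
      have h1 : s - (s.re : ℂ) = (s.im : ℂ) * Complex.I := by
        apply Complex.ext <;> simp
      rw [dist_eq_norm, h1, norm_mul, Complex.norm_I, mul_one, Complex.norm_real,
        Real.norm_eq_abs]
      linarith
    exact le_of_lt (hδU hmem)
  · have h1 := MC.FF_bound 1 1 s hre1
    have h2 : ‖s‖ ≤ 1 + δ := by
      refine (Complex.norm_le_abs_re_add_abs_im s).trans ?_
      have h3 : |s.re| ≤ 1 := abs_le.2 ⟨by linarith, hre2⟩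
      linarith
    refine h1.trans ?_
    gcongr

end Pool.Agent.MU
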