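import Mathlib
import Pool.Agent.Lib.MP_bae66e_nt.MU.Defs
import Pool.Agent.Lib.MP_bae66e_nt.Cheb

/-!
# Maier matrices, uniformly in the scale: P2a, primes in a block
-/

set_option autoImplicit false

namespace Pool.Agent.MU

open Pool.Agent.GM Pool.Agent.MG

/-- P2a. PROOF. `#{x/80 < p ≤ x} = π(x) - π(x/80) ≥ x/(4 log x) - 5 (x/80)/log (x/80)`
(`Pool.Agent.Lib.MP_bae66e_nt.pi_lower`, `pi_upper` of `Cheb.lean`; `x/80` is the natural number division), and
`log (x/80) ≥ (1/2) log x` for large `x`, so the second term is at most `x/(8 log x)`. (`5·n/log n` with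
`n = x/80 ≤ x/80`: at most `10 (x/80)/log x = x/(8 log x)`.) -/
theorem block_count : ∃ x₀ : ℕ, ∀ x : ℕ, x₀ ≤ x →
    (x : ℝ) / (8 * Real.log x) ≤ (((Finset.Ioc (x / 80) x).filter Nat.Prime).card : ℝ) := by
  have hcard : ∀ a b : ℕ, a ≤ b → Nat.primeCounting b =
      Nat.primeCounting a + ((Finset.Ioc a b).filter Nat.Prime).card := by
    intro a b hab
    have h1 : ∀ n : ℕ, Nat.primeCounting n = ((Finset.range (n + 1)).filter Nat.Prime).card := by
      intro n
      rw [Nat.primeCounting, Nat.primeCounting', Nat.count_eq_card_filter_range]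
    rw [h1, h1, ← Finset.card_union_of_disjoint]
    · congr 1
      ext n
      simp only [Finset.mem_filter, Finset.mem_range, Finset.mem_union, Finset.mem_Ioc]
      constructor
      · rintro ⟨h2, h3⟩
        by_cases h4 : n < a + 1
        · exact Or.inl ⟨h4, h3⟩
        · exact Or.inr ⟨⟨by omega, by omega⟩, h3⟩
      · rintro (⟨h2, h3⟩ | ⟨h2, h3⟩)
        · exact ⟨by omega, h3⟩
        · exact ⟨by omega, h3⟩
    · rw [Finset.disjoint_left]
      intro n hn hn'
      simp only [Finset.mem_filter, Finset.mem_range, Finset.mem_Ioc] at hn hn'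
      omega
  refine ⟨10000, fun x hx => ?_⟩
  have hn2 : 124 ≤ x / 80 := by omega
  have hnx : 80 * (x / 80) ≤ x := by omega
  have hxn : x ≤ 80 * (x / 80) + 79 := by omega
  have hle : x / 80 ≤ x := by omega
  generalize hn : x / 80 = n at *
  have h1 := hcard n x hle
  have h2 := Pool.Agent.Lib.MP_bae66e_nt.pi_lower x (by omega)
  have h3 := Pool.Agent.Lib.MP_bae66e_nt.pi_upper n (by omega)
  have h4 : (Nat.primeCounting x : ℝ) = Nat.primeCounting n +
      (((Finset.Ioc n x).filter Nat.Prime).card : ℝ) := by exact_mod_cast h1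
  have hx0 : (10000 : ℝ) ≤ x := by exact_mod_cast hx
  have hn0 : (124 : ℝ) ≤ n := by exact_mod_cast hn2
  have hlx : 0 < Real.log x := Real.log_pos (by linarith)
  have hln : 0 < Real.log n := Real.log_pos (by linarith)
  have hsq : (x : ℝ) ≤ (n : ℝ) ^ 2 := by
    have : x ≤ n ^ 2 := by nlinarith
    exact_mod_cast this
  have hlog : Real.log x ≤ 2 * Real.log n := by
    have h5 := Real.log_le_log (by linarith) hsq
    rw [Real.log_pow] at h5
    exact_mod_cast h5
  have hnx' : (80 : ℝ) * n ≤ x := by exact_mod_cast hnx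
  have h5 : 5 * (n : ℝ) / Real.log n ≤ x / (8 * Real.log x) := by
    rw [div_le_div_iff₀ hln (by positivity)]
    have e1 : 5 * (n : ℝ) * (8 * Real.log x) ≤ 5 * (n : ℝ) * (8 * (2 * Real.log n)) := by
      apply mul_le_mul_of_nonneg_left _ (by positivity)
      linarith
    have e2 : 5 * (n : ℝ) * (8 * (2 * Real.log n)) = (80 * n) * Real.log n := by ring
    have e3 : (80 * (n : ℝ)) * Real.log n ≤ x * Real.log n :=
      mul_le_mul_of_nonneg_right hnx' hln.le
    linarith
  have h6 : (x : ℝ) / (4 * Real.log x) = x / (8 * Real.log x) + x / (8 * Real.log x) := by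
    field_simp
    norm_num
  linarith

end Pool.Agent.MU
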