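import Mathlib
import Pool.Agent.Lib.MP_bae66e_nt.MU.P2a

/-!
# Maier matrices, uniformly in the scale: P2b, lower bound for ff
-/

set_option autoImplicit false

namespace Pool.Agent.MU

open Pool.Agent.GM Pool.Agent.MG

/-- P2b. PROOF. Let `L = log z`, `K = 80`. For `j ≤ J` put `x_j = z / K ^ j` (natural division), where
`J = ⌊L / (8 log K (ξ + 1))⌋`. All `x_j` are `≥ z^(3/4)` for large `z` (`K ^ J ≤ exp (L/8)`), and the blocks
`(x_j / K, x_j]`, `0 ≤ j ≤ J`, are disjoint (`x_{j+1} = x_j / K`), contained in `(√z, z]`. By `block_count` the block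
contains at least `x_j/(8 log x_j) - 1 ≥ x_j/(16 L)` primes different from `p₁`, and each of them has
`p ^ (-1 + ξ/L) ≥ x_j⁻¹ (x_j/K) ^ (ξ/L)`
`≥ x_j⁻¹ exp (ξ) (2 K ^ (j+1)) ^ (-ξ/L)`, and `(2 K^(j+1)) ^ (ξ/L) ≤ exp (ξ (log 2 + (J+1) log K)/L) ≤ C'`
as `ξ ≤ L` and `ξ J log K ≤ L/8`. So `ff ≥ (J + 1) c' exp ξ / L`, and
`J + 1 ≥ L/(8 log K (ξ + 1))`. -/
theorem ff_lower : ∃ (c : ℝ) (z₀ : ℕ), 0 < c ∧ ∀ z : ℕ, z₀ ≤ z → ∀ (p₁ : ℕ) (ξ : ℝ), 0 ≤ ξ →
    ξ ≤ Real.log z → c * Real.exp ξ / (ξ + 1) ≤ ff z p₁ ξ := by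
  obtain ⟨x₀, hx₀⟩ := block_count
  have hK0 : 0 < Real.log 80 := Real.log_pos (by norm_num)
  have h20 : 0 < Real.log 2 := Real.log_pos (by norm_num)
  refine ⟨Real.exp (-(1 / 8 + Real.log 80 + Real.log 2)) / (128 * Real.log 80), (81 + x₀) ^ 8,
    by positivity, ?_⟩
  intro z hz p₁ ξ hξ hξL
  set K : ℝ := Real.log 80 with hKdef
  have hzN : ((81 : ℝ) + x₀) ^ 8 ≤ z := by exact_mod_cast hz
  have hN0 : (81 : ℝ) ≤ 81 + x₀ := by
    have : (0 : ℝ) ≤ x₀ := Nat.cast_nonneg _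
    linarith
  have hz0 : (0 : ℝ) < z := lt_of_lt_of_le (by positivity) hzN
  set L : ℝ := Real.log z with hL
  set w : ℝ := Real.exp (L / 8) with hw
  have hw0 : 0 < w := Real.exp_pos _
  have hw8 : w ^ 8 = z := by
    rw [hw, ← Real.exp_nat_mul]
    have : ((8 : ℕ) : ℝ) * (L / 8) = L := by push_cast; ring
    rw [this, hL, Real.exp_log hz0]
  have hwN : (81 : ℝ) + x₀ ≤ w := by
    rw [← hw8] at hzN
    exact le_of_pow_le_pow_left₀ (by norm_num) hw0.le hzN
  have hw81 : (81 : ℝ) ≤ w := le_trans hN0 hwN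
  have hL0 : 0 < L := by
    rw [hL]
    apply Real.log_pos
    rw [← hw8]
    exact one_lt_pow₀ (by linarith) (by norm_num)
  have hLw : L ≤ 8 * w := by
    have h1 : L / 8 ≤ w := by
      have := Real.add_one_le_exp (L / 8)
      rw [← hw] at this
      linarith
    linarith
  have hξ1 : 0 < ξ + 1 := by linarith
  have hden : 0 < 8 * K * (ξ + 1) := by positivity
  obtain ⟨J, hJ1, hJ2⟩ : ∃ J : ℕ, (J : ℝ) ≤ L / (8 * K * (ξ + 1)) ∧
      L / (8 * K * (ξ + 1)) ≤ (J : ℝ) + 1 :=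
    ⟨⌊L / (8 * K * (ξ + 1))⌋₊, Nat.floor_le (by positivity), (Nat.lt_floor_add_one _).le⟩
  rw [le_div_iff₀ hden] at hJ1
  rw [div_le_iff₀ hden] at hJ2
  have hJK : (J : ℝ) * K ≤ L / 8 := by
    have h1 : 0 ≤ (J : ℝ) * K * ξ := by positivity
    nlinarith
  have hJKξ : ξ * ((J : ℝ) * K) ≤ L / 8 := by
    have h1 : 0 ≤ (J : ℝ) * K := by positivity
    nlinarith
  have hpow : ∀ j : ℕ, j ≤ J → (80 : ℝ) ^ j ≤ w := by
    intro j hj
    have h1 : (80 : ℝ) ^ j = Real.exp (j * K) := by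
      rw [Real.exp_nat_mul, hKdef, Real.exp_log (by norm_num)]
    rw [h1, hw]
    apply Real.exp_le_exp.mpr
    have h2 : (j : ℝ) ≤ J := by exact_mod_cast hj
    nlinarith
  have hpow1 : ∀ j : ℕ, j ≤ J + 1 → (80 : ℝ) ^ j ≤ 80 * w := by
    intro j hj
    rcases Nat.lt_or_ge J j with h | h
    · have hj1 : j = J + 1 := by omega
      rw [hj1, pow_succ]
      have := hpow J le_rfl
      linarith
    · have := hpow j h
      linarith
  have hlow : ∀ j : ℕ, (z : ℝ) / 80 ^ j < ((z / 80 ^ j : ℕ) : ℝ) + 1 := by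
    intro j
    have h1 : z < 80 ^ j * (z / 80 ^ j + 1) := Nat.lt_mul_div_succ z (by positivity)
    rw [div_lt_iff₀ (by positivity)]
    have h2 : (z : ℝ) < 80 ^ j * (((z / 80 ^ j : ℕ) : ℝ) + 1) := by exact_mod_cast h1
    linarith
  have hx6 : ∀ j : ℕ, j ≤ J + 1 → w ^ 6 ≤ ((z / 80 ^ j : ℕ) : ℝ) := by
    intro j hj
    have h1 := hlow j
    have h2 := hpow1 j hj
    have h3 : w ^ 6 + 1 ≤ (z : ℝ) / 80 ^ j := by
      rw [le_div_iff₀ (by positivity), ← hw8]
      have h4 : (w ^ 6 + 1) * 80 ^ j ≤ (w ^ 6 + 1) * (80 * w) :=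
        mul_le_mul_of_nonneg_left h2 (by positivity)
      have h5 : (w ^ 6 + 1) * 80 ≤ w ^ 7 := by
        have h6 : 81 * w ^ 6 ≤ w ^ 7 := by
          have : w ^ 7 = w * w ^ 6 := by ring
          rw [this]
          exact mul_le_mul_of_nonneg_right hw81 (by positivity)
        have h7 : (80 : ℝ) ≤ w ^ 6 := by
          have h8 : w ≤ w ^ 6 := le_self_pow₀ (by linarith) (by norm_num)
          linarith
        linarith
      have h6 : (w ^ 6 + 1) * (80 * w) = ((w ^ 6 + 1) * 80) * w := by ring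
      have h7 : w ^ 8 = w ^ 7 * w := by ring
      rw [h7]
      refine le_trans h4 ?_
      rw [h6]
      exact mul_le_mul_of_nonneg_right h5 hw0.le
    linarith
  have hw6L : 16 * L ≤ w ^ 6 := by
    have h1 : 16 * L ≤ 128 * w := by linarith
    have h2 : 128 * w ≤ w ^ 6 := by
      have h3 : w ^ 6 = w ^ 5 * w := by ring
      rw [h3]
      apply mul_le_mul_of_nonneg_right _ hw0.le
      have h4 : w ^ 2 ≤ w ^ 5 := pow_le_pow_right₀ (by linarith) (by norm_num)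
      nlinarith
    linarith
  have hstep : ∀ j : ℕ, z / 80 ^ (j + 1) = z / 80 ^ j / 80 := by
    intro j
    rw [Nat.div_div_eq_div_mul, pow_succ]
  set B : ℕ → Finset ℕ := fun j =>
    ((Finset.Ioc (z / 80 ^ (j + 1)) (z / 80 ^ j)).filter Nat.Prime).erase p₁ with hB
  have hanti : ∀ i j : ℕ, i ≤ j → z / 80 ^ j ≤ z / 80 ^ i := by
    intro i j hij
    exact Nat.div_le_div_left (Nat.pow_le_pow_right (by norm_num) hij) (by positivity)
  have hdisj : ∀ i ∈ Finset.range (J + 1), ∀ j ∈ Finset.range (J + 1), i ≠ j →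
      Disjoint (B i) (B j) := by
    intro i _ j _ hij
    rw [Finset.disjoint_left]
    intro p hp hp'
    simp only [hB, Finset.mem_erase, Finset.mem_filter, Finset.mem_Ioc] at hp hp'
    rcases Nat.lt_or_gt_of_ne hij with h | h
    · have := hanti (i + 1) j (by omega)
      omega
    · have := hanti (j + 1) i (by omega)
      omega
  have hsub : (Finset.range (J + 1)).biUnion B ⊆ PP z p₁ := by
    intro p hp
    rw [Finset.mem_biUnion] at hp
    obtain ⟨j, hj, hpj⟩ := hp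
    rw [Finset.mem_range] at hj
    simp only [hB, Finset.mem_erase, Finset.mem_filter, Finset.mem_Ioc] at hpj
    obtain ⟨h1, ⟨h2, h3⟩, h4⟩ := hpj
    rw [mem_PP]
    refine ⟨h1, le_trans h3 (Nat.div_le_self _ _), h4, ?_⟩
    have h5 := hx6 (j + 1) (by omega)
    have h6 : ((z / 80 ^ (j + 1) : ℕ) : ℝ) < p := by exact_mod_cast h2
    have h7 : w ^ 6 < p := by linarith
    have h8 : (z : ℝ) < (p : ℝ) ^ 2 := by
      rw [← hw8]
      have h9 : (w ^ 6) ^ 2 < (p : ℝ) ^ 2 := pow_lt_pow_left₀ h7 (by positivity) (by norm_num)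
      have h10 : w ^ 8 ≤ (w ^ 6) ^ 2 := by
        rw [← pow_mul]
        exact pow_le_pow_right₀ (by linarith) (by norm_num)
      linarith
    exact_mod_cast h8
  set c₁ : ℝ := Real.exp (-(1 / 8 + K + Real.log 2)) with hc₁
  have hterm : ∀ j ∈ Finset.range (J + 1), ∀ p ∈ B j,
      (((z / 80 ^ j : ℕ) : ℝ))⁻¹ * (c₁ * Real.exp ξ) ≤ (p : ℝ) ^ (-1 + ξ / L) := by
    intro j hj p hp
    rw [Finset.mem_range] at hj
    simp only [hB, Finset.mem_erase, Finset.mem_filter, Finset.mem_Ioc] at hp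
    obtain ⟨_, ⟨h2, h3⟩, h4⟩ := hp
    have hxj := hx6 j (by omega)
    have hw6pos : 0 < w ^ 6 := by positivity
    have hxpos : 0 < ((z / 80 ^ j : ℕ) : ℝ) := lt_of_lt_of_le hw6pos hxj
    have hp0 : (0 : ℝ) < p := by exact_mod_cast h4.pos
    have hpx : (p : ℝ) ≤ ((z / 80 ^ j : ℕ) : ℝ) := by exact_mod_cast h3
    -- p is at least z / (2 * 80 ^ (j + 1))
    have hpl : (z : ℝ) / (2 * 80 ^ (j + 1)) ≤ p := by
      have h5 := hlow (j + 1)
      have h6 : ((z / 80 ^ (j + 1) : ℕ) : ℝ) + 1 ≤ p := by exact_mod_cast h2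
      have h7 : (z : ℝ) / (2 * 80 ^ (j + 1)) ≤ (z : ℝ) / 80 ^ (j + 1) := by
        apply div_le_div_of_nonneg_left hz0.le (by positivity)
        have : (0 : ℝ) < 80 ^ (j + 1) := by positivity
        linarith
      linarith
    have hq0 : 0 < (z : ℝ) / (2 * 80 ^ (j + 1)) := by positivity
    have hlogq : Real.log ((z : ℝ) / (2 * 80 ^ (j + 1))) = L - Real.log 2 - (j + 1) * K := by
      rw [Real.log_div hz0.ne' (by positivity), Real.log_mul (by norm_num) (by positivity),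
        Real.log_pow]
      push_cast
      ring
    have h5 : c₁ * Real.exp ξ ≤ (p : ℝ) ^ (ξ / L) := by
      have h6 : ((z : ℝ) / (2 * 80 ^ (j + 1))) ^ (ξ / L) ≤ (p : ℝ) ^ (ξ / L) :=
        Real.rpow_le_rpow hq0.le hpl (by positivity)
      refine le_trans ?_ h6
      rw [Real.rpow_def_of_pos hq0, hlogq, hc₁, ← Real.exp_add]
      apply Real.exp_le_exp.mpr
      have e1 : (L - Real.log 2 - ((j : ℝ) + 1) * K) * (ξ / L) =
          ξ - (ξ / L) * Real.log 2 - (ξ / L) * (((j : ℝ) + 1) * K) := by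
        field_simp
      rw [e1]
      have e2 : ξ / L ≤ 1 := (div_le_one hL0).mpr hξL
      have e2' : 0 ≤ ξ / L := by positivity
      have e3 : (ξ / L) * Real.log 2 ≤ Real.log 2 := by nlinarith
      have e4 : (ξ / L) * (((j : ℝ) + 1) * K) ≤ 1 / 8 + K := by
        have h7 : (j : ℝ) ≤ J := by exact_mod_cast (by omega : j ≤ J)
        have h8 : (ξ / L) * ((j : ℝ) * K) ≤ 1 / 8 := by
          have h9 : ξ * ((j : ℝ) * K) ≤ ξ * ((J : ℝ) * K) :=
            mul_le_mul_of_nonneg_left (mul_le_mul_of_nonneg_right h7 hK0.le) hξ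
          have h10 : (ξ / L) * ((j : ℝ) * K) = (ξ * ((j : ℝ) * K)) / L := by ring
          rw [h10, div_le_iff₀ hL0]
          linarith
        have h11 : (ξ / L) * K ≤ K := by nlinarith
        have h12 : (ξ / L) * (((j : ℝ) + 1) * K) = (ξ / L) * ((j : ℝ) * K) + (ξ / L) * K := by
          ring
        linarith
      linarith
    rw [Real.rpow_add hp0, Real.rpow_neg_one]
    have h6 : (((z / 80 ^ j : ℕ) : ℝ))⁻¹ ≤ (p : ℝ)⁻¹ := inv_anti₀ hp0 hpx
    have h7 : 0 ≤ c₁ * Real.exp ξ := by positivity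
    exact mul_le_mul h6 h5 h7 (by positivity)
  have hcard : ∀ j ∈ Finset.range (J + 1),
      ((z / 80 ^ j : ℕ) : ℝ) / (16 * L) ≤ ((B j).card : ℝ) := by
    intro j hj
    rw [Finset.mem_range] at hj
    have hxj := hx6 j (by omega)
    have hx0' : x₀ ≤ z / 80 ^ j := by
      have h1 : (x₀ : ℝ) ≤ ((z / 80 ^ j : ℕ) : ℝ) := by
        have h2 : w ≤ w ^ 6 := le_self_pow₀ (by linarith) (by norm_num)
        linarith
      exact_mod_cast h1
    have h1 := hx₀ _ hx0'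
    rw [← hstep] at h1
    set S := (Finset.Ioc (z / 80 ^ (j + 1)) (z / 80 ^ j)).filter Nat.Prime with hS
    have h2 : (S.card : ℝ) ≤ ((B j).card : ℝ) + 1 := by
      have h3 : S.card ≤ (S.erase p₁).card + 1 := by
        have := Finset.pred_card_le_card_erase (s := S) (a := p₁)
        omega
      exact_mod_cast h3
    have hxpos : 0 < ((z / 80 ^ j : ℕ) : ℝ) := lt_of_lt_of_le (by positivity) hxj
    have hx1 : 1 < ((z / 80 ^ j : ℕ) : ℝ) := by
      refine lt_of_lt_of_le ?_ hxj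
      exact one_lt_pow₀ (by linarith) (by norm_num)
    have h3 : Real.log ((z / 80 ^ j : ℕ) : ℝ) ≤ L := by
      apply Real.log_le_log hxpos
      exact_mod_cast Nat.div_le_self _ _
    have h4 : ((z / 80 ^ j : ℕ) : ℝ) / (8 * L) ≤
        ((z / 80 ^ j : ℕ) : ℝ) / (8 * Real.log ((z / 80 ^ j : ℕ) : ℝ)) := by
      apply div_le_div_of_nonneg_left hxpos.le
      · have := Real.log_pos hx1
        positivity
      · linarith
    have h5 : ((z / 80 ^ j : ℕ) : ℝ) / (8 * L) =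
        ((z / 80 ^ j : ℕ) : ℝ) / (16 * L) + ((z / 80 ^ j : ℕ) : ℝ) / (16 * L) := by
      field_simp
      norm_num
    have h6 : 1 ≤ ((z / 80 ^ j : ℕ) : ℝ) / (16 * L) := by
      rw [le_div_iff₀ (by positivity)]
      linarith
    linarith
  have hmain : ((J : ℝ) + 1) * (c₁ * Real.exp ξ / (16 * L)) ≤ ff z p₁ ξ := by
    unfold ff
    rw [← hL]
    have h1 : ∑ p ∈ (Finset.range (J + 1)).biUnion B, (p : ℝ) ^ (-1 + ξ / L) ≤
        ∑ p ∈ PP z p₁, (p : ℝ) ^ (-1 + ξ / L) :=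
      Finset.sum_le_sum_of_subset_of_nonneg hsub fun p _ _ => Real.rpow_nonneg (Nat.cast_nonneg _) _
    refine le_trans ?_ h1
    rw [Finset.sum_biUnion (fun i hi j hj hij => hdisj i hi j hj hij)]
    have h2 : ∀ j ∈ Finset.range (J + 1), c₁ * Real.exp ξ / (16 * L) ≤
        ∑ p ∈ B j, (p : ℝ) ^ (-1 + ξ / L) := by
      intro j hj
      have h3 := Finset.card_nsmul_le_sum (B j) (fun p : ℕ => (p : ℝ) ^ (-1 + ξ / L))
        ((((z / 80 ^ j : ℕ) : ℝ))⁻¹ * (c₁ * Real.exp ξ)) (hterm j hj)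
      rw [nsmul_eq_mul] at h3
      refine le_trans ?_ h3
      have h4 := hcard j hj
      have hxj := hx6 j (by rw [Finset.mem_range] at hj; omega)
      have hxpos : 0 < ((z / 80 ^ j : ℕ) : ℝ) := lt_of_lt_of_le (by positivity) hxj
      have h5 : 0 ≤ (((z / 80 ^ j : ℕ) : ℝ))⁻¹ * (c₁ * Real.exp ξ) := by positivity
      refine le_trans (le_of_eq ?_) (mul_le_mul_of_nonneg_right h4 h5)
      field_simp
    have h3 := Finset.card_nsmul_le_sum (Finset.range (J + 1)) _ _ h2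
    rw [nsmul_eq_mul, Finset.card_range] at h3
    push_cast at h3
    exact h3
  refine le_trans ?_ hmain
  have h1 : L / (8 * K * (ξ + 1)) ≤ (J : ℝ) + 1 := by
    rw [div_le_iff₀ hden]; exact hJ2
  have h2 : 0 ≤ c₁ * Real.exp ξ / (16 * L) := by positivity
  refine le_trans (le_of_eq ?_) (mul_le_mul_of_nonneg_right h1 h2)
  field_simp
  ring

end Pool.Agent.MU
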