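import Mathlib
import Pool.Agent.Lib.MP_bae66e_nt.MU.P1

/-!
# Maier matrices, uniformly in the scale: P3, upper bounds for ff
-/

set_option autoImplicit false

namespace Pool.Agent.MU

open Pool.Agent.GM Pool.Agent.MG

/-- P3a. PROOF. For `p ≤ z` with `log p ≤ (1 - η) log z`:
`p ^ (-1 + ξ/log z) = (1/p) exp (ξ log p/log z) ≤ (1/p) exp ((1 - η) ξ)`. Sum over `PP z p₁ ⊆ Pz z` with
`sum_inv_Pz`. -/
theorem ff_part : ∃ C : ℝ, 1 ≤ C ∧ ∀ z : ℕ, 2 ≤ z → ∀ (p₁ : ℕ) (ξ η : ℝ), 0 ≤ ξ →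
    ∑ p ∈ (PP z p₁).filter (fun p : ℕ => Real.log p ≤ (1 - η) * Real.log z),
      (p : ℝ) ^ (-1 + ξ / Real.log z) ≤ C * Real.exp ((1 - η) * ξ) := by
  obtain ⟨C, hC1, hC⟩ := sum_inv_Pz
  refine ⟨C, hC1, ?_⟩
  intro z hz p₁ ξ η hξ
  have hlz : 0 < Real.log z := Real.log_pos (by exact_mod_cast hz)
  have hterm : ∀ p ∈ (PP z p₁).filter (fun p : ℕ => Real.log p ≤ (1 - η) * Real.log z),
      (p : ℝ) ^ (-1 + ξ / Real.log z) ≤ 1 / (p : ℝ) * Real.exp ((1 - η) * ξ) := by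
    intro p hp
    obtain ⟨hp1, hp2⟩ := Finset.mem_filter.mp hp
    have hp0 : (0 : ℝ) < (p : ℝ) := by exact_mod_cast (mem_PP.mp hp1).2.2.1.pos
    rw [Real.rpow_add hp0, Real.rpow_neg_one, one_div]
    apply mul_le_mul_of_nonneg_left _ (inv_nonneg.mpr hp0.le)
    rw [Real.rpow_def_of_pos hp0]
    apply Real.exp_le_exp.mpr
    have h1 : Real.log p * (ξ / Real.log z) ≤ ((1 - η) * Real.log z) * (ξ / Real.log z) :=
      mul_le_mul_of_nonneg_right hp2 (div_nonneg hξ hlz.le)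
    have h2 : ((1 - η) * Real.log z) * (ξ / Real.log z) = (1 - η) * ξ := by
      field_simp
    rw [h2] at h1
    exact h1
  calc ∑ p ∈ (PP z p₁).filter (fun p : ℕ => Real.log p ≤ (1 - η) * Real.log z),
      (p : ℝ) ^ (-1 + ξ / Real.log z)
      ≤ ∑ p ∈ (PP z p₁).filter (fun p : ℕ => Real.log p ≤ (1 - η) * Real.log z),
        1 / (p : ℝ) * Real.exp ((1 - η) * ξ) := Finset.sum_le_sum hterm
    _ = (∑ p ∈ (PP z p₁).filter (fun p : ℕ => Real.log p ≤ (1 - η) * Real.log z), 1 / (p : ℝ))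
        * Real.exp ((1 - η) * ξ) := by rw [Finset.sum_mul]
    _ ≤ (∑ p ∈ Pz z, 1 / (p : ℝ)) * Real.exp ((1 - η) * ξ) := by
        apply mul_le_mul_of_nonneg_right _ (Real.exp_pos _).le
        apply Finset.sum_le_sum_of_subset_of_nonneg
        · intro p hp
          exact Finset.mem_of_mem_erase (Finset.mem_of_mem_filter p hp)
        · intro p _ _
          positivity
    _ ≤ C * Real.exp ((1 - η) * ξ) := mul_le_mul_of_nonneg_right (hC z) (Real.exp_pos _).le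

/-- P3b. PROOF. `ff_part` with `η = 0` (all `p ∈ PP z p₁` are `≤ z`). -/
theorem ff_upper : ∃ C : ℝ, 1 ≤ C ∧ ∀ z : ℕ, 2 ≤ z → ∀ (p₁ : ℕ) (ξ : ℝ), 0 ≤ ξ →
    ff z p₁ ξ ≤ C * Real.exp ξ := by
  obtain ⟨C, hC1, hC⟩ := ff_part
  refine ⟨C, hC1, ?_⟩
  intro z hz p₁ ξ hξ
  have h := hC z hz p₁ ξ 0 hξ
  have hf : (PP z p₁).filter (fun p : ℕ => Real.log p ≤ (1 - 0) * Real.log z) = PP z p₁ := by
    apply Finset.filter_true_of_mem
    intro p hp
    have h1 := mem_PP.mp hp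
    have hp0 : (0 : ℝ) < (p : ℝ) := by exact_mod_cast h1.2.2.1.pos
    have hle : (p : ℝ) ≤ (z : ℝ) := by exact_mod_cast h1.2.1
    have := Real.log_le_log hp0 hle
    linarith
  rw [hf] at h
  have he : (1 - 0) * ξ = ξ := by ring
  rw [he] at h
  exact h

end Pool.Agent.MU
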