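import Mathlib
import Pool.Agent.Lib.MP_bae66e_nt.MU.P2b
import Pool.Agent.Lib.MP_bae66e_nt.MU.P3

/-!
# Maier matrices, uniformly in the scale: P4, the mass of ff is concentrated near z
-/

set_option autoImplicit false

namespace Pool.Agent.MU

open Pool.Agent.GM Pool.Agent.MG

/-- P4. PROOF. By `ff_part` the left side is `≤ C exp ((1 - η) ξ)`, and by `ff_lower`
`ff z p₁ ξ ≥ c exp ξ/(ξ + 1)`. So it is enough that `(C/c) (ξ + 1) exp (- η ξ) ≤ η`, true for `ξ ≥ ξ₀(η)`; and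
`V₀ ≤ ff z p₁ ξ ≤ C exp ξ` (`ff_upper`) gives `ξ ≥ log (V₀/C) ≥ ξ₀`. -/
theorem conc (η : ℝ) (hη : 0 < η) (hη1 : η ≤ 1) : ∃ (V₀ : ℝ) (z₀ : ℕ), ∀ z : ℕ, z₀ ≤ z →
    ∀ (p₁ : ℕ) (ξ : ℝ), 0 ≤ ξ → ξ ≤ Real.log z → V₀ ≤ ff z p₁ ξ →
      ∑ p ∈ (PP z p₁).filter (fun p : ℕ => Real.log p ≤ (1 - η) * Real.log z),
        (p : ℝ) ^ (-1 + ξ / Real.log z) ≤ η * ff z p₁ ξ := by
  obtain ⟨C₁, hC₁, hpart⟩ := ff_part
  obtain ⟨c, z₀, hc, hlow⟩ := ff_lower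
  obtain ⟨C₂, hC₂, hup⟩ := ff_upper
  have hC₁0 : 0 < C₁ := by linarith
  have hC₂0 : 0 < C₂ := by linarith
  -- the threshold for `ξ`
  have hev : ∀ᶠ x : ℝ in Filter.atTop, C₁ * (x + 1) ≤ η * c * Real.exp (η * x) := by
    have h1 : (fun x : ℝ => x + 1) =o[Filter.atTop] fun x => Real.exp (η * x) := by
      have h2 := isLittleO_pow_exp_pos_mul_atTop 1 hη
      have h3 := isLittleO_pow_exp_pos_mul_atTop 0 hη
      have h4 := h2.add h3
      simpa using h4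
    have h2 := h1.bound (show 0 < η * c / C₁ by positivity)
    filter_upwards [h2] with x hx
    rw [Real.norm_eq_abs, Real.norm_of_nonneg (Real.exp_nonneg _)] at hx
    have h3 : x + 1 ≤ η * c / C₁ * Real.exp (η * x) := (le_abs_self _).trans hx
    calc C₁ * (x + 1) ≤ C₁ * (η * c / C₁ * Real.exp (η * x)) :=
          mul_le_mul_of_nonneg_left h3 hC₁0.le
      _ = η * c * Real.exp (η * x) := by field_simp
  obtain ⟨ξ₀, hξ₀⟩ := Filter.eventually_atTop.1 hev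
  refine ⟨C₂ * Real.exp ξ₀, max z₀ 2, fun z hz p₁ ξ hξ hξz hV => ?_⟩
  have hz₀ : z₀ ≤ z := (le_max_left _ _).trans hz
  have hz2 : 2 ≤ z := (le_max_right _ _).trans hz
  have h1 := hup z hz2 p₁ ξ hξ
  have h2 : Real.exp ξ₀ ≤ Real.exp ξ := by
    have h3 : C₂ * Real.exp ξ₀ ≤ C₂ * Real.exp ξ := hV.trans h1
    exact le_of_mul_le_mul_left h3 hC₂0
  have h3 : ξ₀ ≤ ξ := Real.exp_le_exp.1 h2
  have h4 := hξ₀ ξ h3
  have h5 := hpart z hz2 p₁ ξ η hξ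
  have h6 := hlow z hz₀ p₁ ξ hξ hξz
  have h7 : 0 < ξ + 1 := by linarith
  calc ∑ p ∈ (PP z p₁).filter (fun p : ℕ => Real.log p ≤ (1 - η) * Real.log z),
        (p : ℝ) ^ (-1 + ξ / Real.log z) ≤ C₁ * Real.exp ((1 - η) * ξ) := h5
    _ ≤ η * (c * Real.exp ξ / (ξ + 1)) := by
        rw [mul_div_assoc', le_div_iff₀ h7]
        have h8 : Real.exp ξ = Real.exp ((1 - η) * ξ) * Real.exp (η * ξ) := by
          rw [← Real.exp_add]
          congr 1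
          ring
        have h9 := mul_le_mul_of_nonneg_left h4 (Real.exp_nonneg ((1 - η) * ξ))
        calc C₁ * Real.exp ((1 - η) * ξ) * (ξ + 1) =
              Real.exp ((1 - η) * ξ) * (C₁ * (ξ + 1)) := by ring
          _ ≤ Real.exp ((1 - η) * ξ) * (η * c * Real.exp (η * ξ)) := h9
          _ = η * (c * Real.exp ξ) := by rw [h8]; ring
    _ ≤ η * ff z p₁ ξ := mul_le_mul_of_nonneg_left h6 hη.le

end Pool.Agent.MU
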