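import Mathlib
import Pool.Agent.Lib.MP_bae66e_nt.MU.P4

/-!
# Maier matrices, uniformly in the scale: P7, the cosine sum
-/

set_option autoImplicit false

namespace Pool.Agent.MU

open Pool.Agent.GM Pool.Agent.MG

/-- P7. PROOF. For `p ∈ PP z p₁` `r = log p/log z ∈ [1/2, 1]`, so `- cos (π r) ≥ 0`; for `r ≥ 1 - η'`
`- cos (π r) = cos (π (1-r)) ≥ 1 - (π η')^2/2 ≥ 1 - 5 η'^2` (`Real.one_sub_sq_div_two_le_cos`). With `conc η'`,
`η' = min (η/6) 1` the sum is at least `(1 - 5 η'^2) (1 - η') V ≥ (1 - η) V`. -/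
theorem cos_sum (η : ℝ) (hη : 0 < η) (hη1 : η ≤ 1) : ∃ (V₀ : ℝ) (z₀ : ℕ), ∀ z : ℕ, z₀ ≤ z →
    ∀ (p₁ : ℕ) (ξ : ℝ), 0 ≤ ξ → ξ ≤ Real.log z → V₀ ≤ ff z p₁ ξ →
      (1 - η) * ff z p₁ ξ ≤ ∑ p ∈ PP z p₁,
        (-Real.cos (Real.pi * Real.log p / Real.log z)) * (p : ℝ) ^ (-1 + ξ / Real.log z) := by
  obtain ⟨V₀, z₀, hconc⟩ := conc (η / 6) (by linarith) (by linarith)
  refine ⟨V₀, max z₀ 4, ?_⟩
  intro z hz p₁ ξ hξ0 hξ hV
  have hz₀ : z₀ ≤ z := le_trans (le_max_left _ _) hz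
  have hz4 : 4 ≤ z := le_trans (le_max_right _ _) hz
  have hzr : (4 : ℝ) ≤ (z : ℝ) := by exact_mod_cast hz4
  have hL : 0 < Real.log z := Real.log_pos (by linarith)
  have hc := hconc z hz₀ p₁ ξ hξ0 hξ hV
  set L : ℝ := Real.log z with hLdef
  have hw : ∀ p ∈ PP z p₁, 0 ≤ (p : ℝ) ^ (-1 + ξ / L) := by
    intro p _
    positivity
  have hVn : 0 ≤ ff z p₁ ξ := by
    unfold ff
    exact Finset.sum_nonneg hw
  have hterm : ∀ p ∈ PP z p₁, (if Real.log p ≤ (1 - η / 6) * L then 0 else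
      (1 - 5 * (η / 6) ^ 2) * (p : ℝ) ^ (-1 + ξ / L)) ≤
      (-Real.cos (Real.pi * Real.log p / L)) * (p : ℝ) ^ (-1 + ξ / L) := by
    intro p hp
    obtain ⟨-, hpz, hpp, hzp⟩ := mem_PP.mp hp
    have hpr : (0 : ℝ) < p := by exact_mod_cast hpp.pos
    have h9 : L ≤ 2 * Real.log p := by
      have h10 : Real.log z ≤ Real.log ((p : ℝ) ^ 2) := by
        apply Real.log_le_log (by linarith)
        exact_mod_cast hzp.le
      rw [Real.log_pow] at h10
      exact_mod_cast h10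
    have h11 : Real.log p ≤ L := Real.log_le_log hpr (by exact_mod_cast hpz)
    have hnn : 0 ≤ -Real.cos (Real.pi * Real.log p / L) := by
      have : Real.cos (Real.pi * Real.log p / L) ≤ 0 := by
        apply Real.cos_nonpos_of_pi_div_two_le_of_le
        · rw [le_div_iff₀ hL]
          nlinarith [Real.pi_pos]
        · have h12 : Real.pi * Real.log p / L ≤ Real.pi := by
            rw [div_le_iff₀ hL]
            exact mul_le_mul_of_nonneg_left h11 Real.pi_pos.le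
          linarith [Real.pi_pos]
      linarith
    split_ifs with h
    · exact mul_nonneg hnn (hw p hp)
    · push Not at h
      apply mul_le_mul_of_nonneg_right _ (hw p hp)
      have e1 : -Real.cos (Real.pi * Real.log p / L) =
          Real.cos (Real.pi - Real.pi * Real.log p / L) := by
        rw [Real.cos_pi_sub]
      rw [e1]
      refine le_trans ?_ (Real.one_sub_sq_div_two_le_cos)
      have e2 : Real.pi - Real.pi * Real.log p / L = Real.pi * (1 - Real.log p / L) := by ring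
      rw [e2]
      have h13 : 0 ≤ 1 - Real.log p / L := by
        rw [sub_nonneg, div_le_one hL]
        exact h11
      have h14 : 1 - Real.log p / L ≤ η / 6 := by
        have : (1 - η / 6) ≤ Real.log p / L := by
          rw [le_div_iff₀ hL]
          exact h.le
        linarith
      have h15 : (1 - Real.log p / L) ^ 2 ≤ (η / 6) ^ 2 := pow_le_pow_left₀ h13 h14 2
      have h16 : Real.pi ^ 2 ≤ 10 := by
        have := Real.pi_lt_d2
        nlinarith [Real.pi_pos]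
      rw [mul_pow]
      have h17 : Real.pi ^ 2 * (1 - Real.log p / L) ^ 2 ≤ 10 * (η / 6) ^ 2 :=
        mul_le_mul h16 h15 (sq_nonneg _) (by norm_num)
      linarith
  have hsum := Finset.sum_le_sum hterm
  refine le_trans ?_ hsum
  have e3 : ∑ p ∈ PP z p₁, (if Real.log p ≤ (1 - η / 6) * L then 0 else
      (1 - 5 * (η / 6) ^ 2) * (p : ℝ) ^ (-1 + ξ / L)) =
      (1 - 5 * (η / 6) ^ 2) * (ff z p₁ ξ -
        ∑ p ∈ (PP z p₁).filter (fun p : ℕ => Real.log p ≤ (1 - η / 6) * L),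
          (p : ℝ) ^ (-1 + ξ / L)) := by
    unfold ff
    rw [Finset.sum_filter, ← Finset.sum_sub_distrib, Finset.mul_sum]
    apply Finset.sum_congr rfl
    intro p _
    split_ifs <;> simp [hLdef]
  rw [e3]
  have h18 : (η / 6) ^ 2 ≤ 1 / 36 := by nlinarith
  have h19 : (1 - η / 6) * ff z p₁ ξ ≤ ff z p₁ ξ -
        ∑ p ∈ (PP z p₁).filter (fun p : ℕ => Real.log p ≤ (1 - η / 6) * L),
          (p : ℝ) ^ (-1 + ξ / L) := by linarith
  have h20 : (1 - 5 * (η / 6) ^ 2) * ((1 - η / 6) * ff z p₁ ξ) ≤ (1 - 5 * (η / 6) ^ 2) *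
      (ff z p₁ ξ - ∑ p ∈ (PP z p₁).filter (fun p : ℕ => Real.log p ≤ (1 - η / 6) * L),
          (p : ℝ) ^ (-1 + ξ / L)) :=
    mul_le_mul_of_nonneg_left h19 (by linarith)
  refine le_trans ?_ h20
  rw [← mul_assoc]
  apply mul_le_mul_of_nonneg_right _ hVn
  nlinarith

end Pool.Agent.MU
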