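import Mathlib
import Pool.Agent.Lib.MP_bae66e_nt.MU.P7
import Pool.Agent.Lib.MP_bae66e_nt.MU.P8

/-!
# Maier matrices, uniformly in the scale: G3, the Euler product at the two points
-/

set_option autoImplicit false

namespace Pool.Agent.MU

open Pool.Agent.GM Pool.Agent.MG MeasureTheory

/-- G3a. PROOF. Each factor is real, between `0` and `1` (`0 ≤ 1 - p^(-σ) ≤ 1`). -/
theorem prod_real_le (M : ℕ) (σ : ℝ) (hσ : 0 < σ) :
    ‖∏ p ∈ M.primeFactors, (1 - (p : ℂ) ^ (-(σ : ℂ)))‖ ≤ 1 := by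
  rw [norm_prod]
  apply Finset.prod_le_one
  · intro p _
    exact norm_nonneg _
  · intro p hp
    have hp1 : (1 : ℝ) ≤ (p : ℝ) := by
      exact_mod_cast (Nat.prime_of_mem_primeFactors hp).one_lt.le
    have h1 : (p : ℂ) ^ (-(σ : ℂ)) = (((p : ℝ) ^ (-σ) : ℝ) : ℂ) := by
      rw [Complex.ofReal_cpow (by positivity)]
      push_cast
      rfl
    rw [h1, ← Complex.ofReal_one, ← Complex.ofReal_sub, Complex.norm_real, Real.norm_eq_abs]
    have h2 : 0 < (p : ℝ) ^ (-σ) := Real.rpow_pos_of_pos (by linarith) _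
    have h3 : (p : ℝ) ^ (-σ) ≤ 1 := Real.rpow_le_one_of_one_le_of_nonpos hp1 (by linarith)
    rw [abs_le]
    constructor <;> linarith

/-- The norm of one factor. -/
private lemma G3_normSq (x θ : ℝ) :
    Complex.normSq (1 - (x : ℂ) * Complex.exp (-(θ : ℂ) * Complex.I)) =
      1 + 2 * (-Real.cos θ) * x + x ^ 2 := by
  have h1 : Complex.exp (-(θ : ℂ) * Complex.I) = ⟨Real.cos θ, -Real.sin θ⟩ := by
    apply Complex.ext
    · rw [← Complex.ofReal_neg, Complex.exp_ofReal_mul_I_re, Real.cos_neg]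
    · rw [← Complex.ofReal_neg, Complex.exp_ofReal_mul_I_im, Real.sin_neg]
  rw [h1, Complex.normSq_apply]
  simp only [Complex.sub_re, Complex.one_re, Complex.mul_re, Complex.ofReal_re, Complex.ofReal_im,
    Complex.sub_im, Complex.one_im, Complex.mul_im]
  have h2 := Real.sin_sq_add_cos_sq θ
  ring_nf
  have h3 : Real.sin θ ^ 2 = 1 - Real.cos θ ^ 2 := by linarith
  rw [h3]
  ring

/-- The complex power of a positive integer. -/
private lemma G3_cpow (p : ℕ) (hp : 0 < p) (σ τ : ℝ) :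
    (p : ℂ) ^ (-((σ : ℂ) + (τ : ℂ) * Complex.I)) =
      (((p : ℝ) ^ (-σ) : ℝ) : ℂ) * Complex.exp (-((τ * Real.log p : ℝ) : ℂ) * Complex.I) := by
  have hp0 : (p : ℂ) ≠ 0 := by exact_mod_cast hp.ne'
  have hpr : (0 : ℝ) < p := by exact_mod_cast hp
  rw [Complex.cpow_def_of_ne_zero hp0, Real.rpow_def_of_pos hpr, Complex.ofReal_exp,
    ← Complex.exp_add, ← Complex.natCast_log]
  congr 1
  push_cast
  ring

/-- The lower bound for one factor. -/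
private lemma G3_factor (x θ : ℝ) (hx : 0 ≤ x) (hb : Real.cos θ ≤ 0) :
    Real.exp ((-Real.cos θ) * x - x ^ 2) ≤
      ‖1 - (x : ℂ) * Complex.exp (-(θ : ℂ) * Complex.I)‖ := by
  have hb1 : -1 ≤ Real.cos θ := Real.neg_one_le_cos θ
  set b : ℝ := -Real.cos θ with hbdef
  have hb0 : 0 ≤ b := by rw [hbdef]; linarith
  have hb1' : b ≤ 1 := by rw [hbdef]; linarith
  have h1 : Complex.normSq (1 - (x : ℂ) * Complex.exp (-(θ : ℂ) * Complex.I)) =
      1 + 2 * b * x + x ^ 2 := G3_normSq x θ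
  have hy : 0 ≤ 2 * b * x := by positivity
  have h2 : 2 * (b * x - x ^ 2) ≤ Real.log (1 + 2 * b * x) := by
    have h3 : 2 * b * x - (2 * b * x) ^ 2 / 2 ≤ Real.log (1 + 2 * b * x) := by
      have h4 := Real.le_log_one_add_of_nonneg hy
      refine le_trans ?_ h4
      rw [le_div_iff₀ (by linarith)]
      nlinarith [mul_nonneg hy (mul_nonneg hy hy), mul_nonneg hy hy]
    have h5 : b ^ 2 ≤ 1 := by nlinarith
    have h6 : (2 * b * x) ^ 2 / 2 ≤ 2 * x ^ 2 := by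
      nlinarith [mul_nonneg (sub_nonneg.mpr h5) (sq_nonneg x)]
    linarith
  have h7 : Real.exp (2 * (b * x - x ^ 2)) ≤ 1 + 2 * b * x + x ^ 2 := by
    calc Real.exp (2 * (b * x - x ^ 2)) ≤ Real.exp (Real.log (1 + 2 * b * x)) :=
          Real.exp_le_exp.mpr h2
      _ = 1 + 2 * b * x := Real.exp_log (by linarith)
      _ ≤ 1 + 2 * b * x + x ^ 2 := by nlinarith [sq_nonneg x]
  rw [← h1, Complex.normSq_eq_norm_sq] at h7
  have h8 : Real.exp (2 * (b * x - x ^ 2)) = Real.exp (b * x - x ^ 2) ^ 2 := by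
    rw [← Real.exp_nat_mul]
    norm_num
  rw [h8] at h7
  exact le_of_sq_le_sq h7 (norm_nonneg _)

/-- G3b. PROOF. `σ = 1 - ξ/log z ∈ [1/2, 1]`, `τ = π/log z`, `x_p = p^(-σ)`. The factor of `p = 2` has norm
`≥ 1 - 2^(-1/2) ≥ 1/4`. For `p ∈ PP z p₁` let `b = - cos (τ log p) ≥ 0` (`τ log p ∈ [π/2, π]` as `z < p^2`):
`‖1 - p^(-σ-iτ)‖^2 = 1 + 2 b x + x^2 ≥ 1 + 2 b x ≥ exp (2 b x - 2 x^2)` (`0 ≤ x ≤ 1`; `log (1+y) ≥ y - y^2/2`), so
`‖∏_{p ∈ PP}‖ ≥ exp (∑ b x - ∑ x^2)`. `cos_sum (η/2)`: `∑ b x ≥ (1 - η/2) V`; and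
`∑ x^2 ≤ (√z)^(-1/2) ∑ x = z^(-1/4) V ≤ (η/2) V` for `z ≥ z₀` (`p > √z`, `σ ≥ 1/2`). -/
theorem prod_lower (η : ℝ) (hη : 0 < η) (hη1 : η ≤ 1) : ∃ (V₀ : ℝ) (z₀ : ℕ), ∀ z : ℕ, z₀ ≤ z →
    ∀ (p₁ : ℕ) (ξ : ℝ), 0 ≤ ξ → ξ ≤ (1 / 2) * Real.log z → V₀ ≤ ff z p₁ ξ →
      Real.exp ((1 - η) * ff z p₁ ξ) / 4 ≤ ‖∏ p ∈ (MM z p₁).primeFactors,
        (1 - (p : ℂ) ^ (-(((1 - ξ / Real.log z : ℝ) : ℂ)
          + ((Real.pi / Real.log z : ℝ) : ℂ) * Complex.I)))‖ := by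
  obtain ⟨V₀, z₀, hcos⟩ := cos_sum (η / 2) (by linarith) (by linarith)
  refine ⟨V₀, max z₀ (max 4 ⌈(2 / η) ^ 4⌉₊), ?_⟩
  intro z hz p₁ ξ hξ0 hξ hV
  have hz₀ : z₀ ≤ z := le_trans (le_max_left _ _) hz
  have hz4 : 4 ≤ z := le_trans (le_trans (le_max_left _ _) (le_max_right _ _)) hz
  have hzη : (2 / η) ^ 4 ≤ (z : ℝ) :=
    le_trans (Nat.le_ceil _) (by
      exact_mod_cast le_trans (le_trans (le_max_right _ _) (le_max_right _ _)) hz)
  have hzr : (4 : ℝ) ≤ (z : ℝ) := by exact_mod_cast hz4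
  have hL : 0 < Real.log z := Real.log_pos (by linarith)
  have hξL : ξ ≤ Real.log z := by linarith
  set L : ℝ := Real.log z with hLdef
  have hcs := hcos z hz₀ p₁ ξ hξ0 hξL hV
  have hratio : ξ / L ≤ 1 / 2 := by
    rw [div_le_iff₀ hL]
    exact hξ
  have hσ : (1 : ℝ) / 2 ≤ 1 - ξ / L := by linarith
  have hσ1 : 1 - ξ / L ≤ 1 := by
    have : 0 ≤ ξ / L := div_nonneg hξ0 hL.le
    linarith
  obtain ⟨h2, hpf⟩ := MM_primeFactors z p₁ hz4
  rw [hpf, Finset.prod_insert h2, norm_mul, norm_prod]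
  -- the factor of 2
  have hf2 : (1 : ℝ) / 4 ≤ ‖1 - ((2 : ℕ) : ℂ) ^ (-(((1 - ξ / L : ℝ) : ℂ)
      + ((Real.pi / L : ℝ) : ℂ) * Complex.I))‖ := by
    have h3 : ‖((2 : ℕ) : ℂ) ^ (-(((1 - ξ / L : ℝ) : ℂ)
        + ((Real.pi / L : ℝ) : ℂ) * Complex.I))‖ = (2 : ℝ) ^ (-(1 - ξ / L)) := by
      have h4 := Complex.norm_natCast_cpow_of_pos (n := 2) (by norm_num)
        (-(((1 - ξ / L : ℝ) : ℂ) + ((Real.pi / L : ℝ) : ℂ) * Complex.I))
      rw [h4]
      congr 1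
      simp
    have h5 : (2 : ℝ) ^ (-(1 - ξ / L)) ≤ 3 / 4 := by
      have h6 : (2 : ℝ) ^ (-(1 - ξ / L)) ≤ (2 : ℝ) ^ (-(1 / 2 : ℝ)) :=
        Real.rpow_le_rpow_of_exponent_le (by norm_num) (by linarith)
      have h7 : (2 : ℝ) ^ (-(1 / 2 : ℝ)) ≤ 3 / 4 := by
        rw [Real.rpow_neg (by norm_num), ← Real.sqrt_eq_rpow]
        rw [inv_le_comm₀ (by positivity) (by norm_num)]
        apply Real.le_sqrt_of_sq_le
        norm_num
      linarith
    have h8 := norm_sub_norm_le (1 : ℂ) (((2 : ℕ) : ℂ) ^ (-(((1 - ξ / L : ℝ) : ℂ)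
        + ((Real.pi / L : ℝ) : ℂ) * Complex.I)))
    rw [norm_one, h3] at h8
    linarith
  -- the other factors
  have hfac : ∀ p ∈ PP z p₁, Real.exp ((-Real.cos (Real.pi * Real.log p / L)) *
      (p : ℝ) ^ (-1 + ξ / L) - ((p : ℝ) ^ (-1 + ξ / L)) ^ 2) ≤
      ‖1 - (p : ℂ) ^ (-(((1 - ξ / L : ℝ) : ℂ) + ((Real.pi / L : ℝ) : ℂ) * Complex.I))‖ := by
    intro p hp
    obtain ⟨-, hpz, hpp, hzp⟩ := mem_PP.mp hp
    have hppos : 0 < p := hpp.pos
    have hpr : (0 : ℝ) < p := by exact_mod_cast hppos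
    rw [G3_cpow p hppos]
    have e1 : Real.pi / L * Real.log p = Real.pi * Real.log p / L := by ring
    have e2 : -(1 - ξ / L) = -1 + ξ / L := by ring
    rw [e1, e2]
    apply G3_factor
    · exact (Real.rpow_pos_of_pos hpr _).le
    · apply Real.cos_nonpos_of_pi_div_two_le_of_le
      · rw [le_div_iff₀ hL]
        have h9 : L ≤ 2 * Real.log p := by
          have h10 : Real.log z ≤ Real.log ((p : ℝ) ^ 2) := by
            apply Real.log_le_log (by linarith)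
            exact_mod_cast hzp.le
          rw [Real.log_pow] at h10
          exact_mod_cast h10
        nlinarith [Real.pi_pos]
      · have h11 : Real.log p ≤ L := Real.log_le_log hpr (by exact_mod_cast hpz)
        have h12 : Real.pi * Real.log p / L ≤ Real.pi := by
          rw [div_le_iff₀ hL]
          exact mul_le_mul_of_nonneg_left h11 Real.pi_pos.le
        linarith [Real.pi_pos]
  have hprod : Real.exp (∑ p ∈ PP z p₁, ((-Real.cos (Real.pi * Real.log p / L)) *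
      (p : ℝ) ^ (-1 + ξ / L) - ((p : ℝ) ^ (-1 + ξ / L)) ^ 2)) ≤
      ∏ p ∈ PP z p₁, ‖1 - (p : ℂ) ^ (-(((1 - ξ / L : ℝ) : ℂ) +
        ((Real.pi / L : ℝ) : ℂ) * Complex.I))‖ := by
    rw [Real.exp_sum]
    exact Finset.prod_le_prod (fun p _ => (Real.exp_pos _).le) hfac
  have hsq : ∑ p ∈ PP z p₁, ((p : ℝ) ^ (-1 + ξ / L)) ^ 2 ≤ (η / 2) * ff z p₁ ξ := by
    unfold ff
    rw [Finset.mul_sum]
    apply Finset.sum_le_sum
    intro p hp
    obtain ⟨-, hpz, hpp, hzp⟩ := mem_PP.mp hp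
    have hpr : (1 : ℝ) ≤ p := by exact_mod_cast hpp.one_lt.le
    have hx0 : 0 < (p : ℝ) ^ (-1 + ξ / L) := Real.rpow_pos_of_pos (by linarith) _
    have hx1 : (p : ℝ) ^ (-1 + ξ / L) ≤ η / 2 := by
      have h13 : (p : ℝ) ^ (-1 + ξ / L) ≤ (p : ℝ) ^ (-(1 / 2) : ℝ) :=
        Real.rpow_le_rpow_of_exponent_le hpr (by linarith)
      have h14 : (2 / η) ^ 4 ≤ (p : ℝ) ^ 2 := by
        have : (z : ℝ) ≤ (p : ℝ) ^ 2 := by exact_mod_cast hzp.le
        linarith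
      have h15 : (2 / η) ^ 2 ≤ (p : ℝ) := by
        have h16 : ((2 / η) ^ 2) ^ 2 ≤ (p : ℝ) ^ 2 := by
          rw [← pow_mul]
          exact h14
        exact le_of_sq_le_sq h16 (by linarith)
      have h17 : 2 / η ≤ (p : ℝ) ^ (1 / 2 : ℝ) := by
        rw [← Real.sqrt_eq_rpow]
        exact Real.le_sqrt_of_sq_le h15
      have h18 : (p : ℝ) ^ (-(1 / 2) : ℝ) ≤ η / 2 := by
        rw [Real.rpow_neg (by linarith)]
        have h19 : η / 2 = (2 / η)⁻¹ := by rw [inv_div]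
        rw [h19]
        exact inv_anti₀ (by positivity) h17
      linarith
    rw [sq]
    exact mul_le_mul_of_nonneg_right hx1 hx0.le
  have hfinal : (1 - η) * ff z p₁ ξ ≤ ∑ p ∈ PP z p₁, ((-Real.cos (Real.pi * Real.log p / L)) *
      (p : ℝ) ^ (-1 + ξ / L) - ((p : ℝ) ^ (-1 + ξ / L)) ^ 2) := by
    rw [Finset.sum_sub_distrib]
    linarith
  calc Real.exp ((1 - η) * ff z p₁ ξ) / 4 = 1 / 4 * Real.exp ((1 - η) * ff z p₁ ξ) := by ring
    _ ≤ _ := by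
      apply mul_le_mul hf2 ((Real.exp_le_exp.mpr hfinal).trans hprod) (Real.exp_pos _).le
        (norm_nonneg _)

end Pool.Agent.MU
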