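import Mathlib
import Pool.Agent.Lib.MP_bae66e_nt.MU.Defs

/-!
# Maier matrices, uniformly in the scale: G1, the Mellin transform of Del
-/

set_option autoImplicit false

namespace Pool.Agent.MU

open Pool.Agent.GM Pool.Agent.MG MeasureTheory

private lemma g1_totient_ne (M : ℕ) [NeZero M] : (M.totient : ℂ) ≠ 0 :=
  Nat.cast_ne_zero.mpr (Nat.totient_pos.mpr (Nat.pos_of_ne_zero (NeZero.ne M))).ne'

private lemma g1_densC (M : ℕ) [NeZero M] :
    MC.densC M 1 = (M.totient : ℂ) / (M : ℂ) := by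
  unfold MC.densC
  rw [MulChar.sum_one_eq_card_units, ZMod.card_units_eq_totient]

private lemma g1_SumC (M : ℕ) [NeZero M] (t : ℝ) :
    MC.SumC (fun n => (1 : DirichletCharacter ℂ M) n) t = ((Ph M t : ℝ) : ℂ) := by
  classical
  unfold MC.SumC Ph
  rw [Finset.card_filter]
  push_cast
  refine Finset.sum_congr rfl fun k _ => ?_
  by_cases h : k.Coprime M
  · rw [if_pos h, MulChar.one_apply ((ZMod.isUnit_iff_coprime k M).mpr h)]
    norm_num
  · rw [if_neg h]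
    norm_num
    exact MulChar.map_nonunit _ (fun hu => h ((ZMod.isUnit_iff_coprime k M).mp hu))

/-- G1a. `Del` in terms of the principal character. PROOF. `MC.SumC (fun n => χ n) t = Ph M t` for `χ = 1`
(`χ n = 1` if `n` is coprime to `M`, else `0`), `MC.densC M 1 = φ(M)/M`. -/
theorem Del_eq_RC (M : ℕ) [NeZero M] (t : ℝ) :
    ((Del M t : ℝ) : ℂ) = (M : ℂ) / (M.totient : ℂ) * MC.RC M 1 t := by
  have hM : (M : ℂ) ≠ 0 := Nat.cast_ne_zero.mpr (NeZero.ne M)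
  have hφ := g1_totient_ne M
  unfold MC.RC Del
  rw [g1_SumC, g1_densC]
  push_cast
  field_simp

/-- G1b. `Del` is bounded. PROOF. `Del_eq_RC`, `MC.RC_bound` (for `1 < t`), `M/φ(M) ≤ M`. -/
theorem Del_bdd (M : ℕ) [NeZero M] : ∃ C : ℝ, ∀ t : ℝ, 1 < t → |Del M t| ≤ C := by
  refine ⟨‖(M : ℂ) / (M.totient : ℂ)‖ * ((2 * M + 1) * 1), fun t ht => ?_⟩
  have h1 := MC.RC_bound M 1 t ht
  rw [Real.rpow_zero] at h1
  have h2 : |Del M t| = ‖((Del M t : ℝ) : ℂ)‖ := by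
    rw [Complex.norm_real, Real.norm_eq_abs]
  rw [h2, Del_eq_RC, norm_mul]
  exact mul_le_mul_of_nonneg_left h1 (norm_nonneg _)

/-- G1c. -/
theorem Del_measurable (M : ℕ) : Measurable (Del M) := by
  have h1 : Measurable (Ph M) := by
    have h2 : Ph M = (fun n : ℕ => (((Finset.Icc 1 n).filter (fun n => n.Coprime M)).card : ℝ)) ∘
        (fun t : ℝ => ⌊t⌋₊) := rfl
    rw [h2]
    exact (measurable_from_top).comp Nat.measurable_floor
  unfold Del
  exact (h1.const_mul _).sub measurable_id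

/-- G1d. PROOF. `Del_eq_RC`, `MC.MT_const_mul`, `MC.FF_one_eq_MT`, `MC.FF_one_apply`:
`s (s - 1) MT (RC M 1) s + (φ(M)/M) s = (s - 1) L(s, 1)`, and
`L(s, 1) = ζ(s) ∏_{p ∣ M} (1 - p^(-s))` (`DirichletCharacter.LFunctionTrivChar_eq_mul_riemannZeta`, `s ≠ 1`). -/
theorem lap (M : ℕ) [NeZero M] (s : ℂ) (hs : 0 < s.re) (hs1 : s ≠ 1) :
    MC.MT (fun t => ((Del M t : ℝ) : ℂ)) s
      = (M : ℂ) / (M.totient : ℂ) * riemannZeta s * (∏ p ∈ M.primeFactors, (1 - (p : ℂ) ^ (-s))) / s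
        - 1 / (s - 1) := by
  have hM : (M : ℂ) ≠ 0 := Nat.cast_ne_zero.mpr (NeZero.ne M)
  have hφ := g1_totient_ne M
  have hs0 : s ≠ 0 := by
    intro h; rw [h] at hs; simp at hs
  have hs2 : s - 1 ≠ 0 := sub_ne_zero.mpr hs1
  have h1 : (fun t : ℝ => ((Del M t : ℝ) : ℂ))
      = fun t => (M : ℂ) / (M.totient : ℂ) * MC.RC M 1 t := by
    funext t
    exact Del_eq_RC M t
  rw [h1, MC.MT_const_mul]
  have h2 := MC.FF_one_eq_MT M s hs
  rw [MC.FF_one_apply M s hs1, g1_densC] at h2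
  have h3 : (1 : DirichletCharacter ℂ M).LFunction s
      = (∏ p ∈ M.primeFactors, (1 - (p : ℂ) ^ (-s))) * riemannZeta s :=
    DirichletCharacter.LFunctionTrivChar_eq_mul_riemannZeta hs1
  rw [h3] at h2
  generalize (∏ p ∈ M.primeFactors, (1 - (p : ℂ) ^ (-s))) = P at h2 ⊢
  generalize riemannZeta s = Z at h2 ⊢
  generalize MC.MT (MC.RC M 1) s = X at h2 ⊢
  have h4 : X = ((s - 1) * (P * Z) - (M.totient : ℂ) / (M : ℂ) * s) / (s * (s - 1)) := by
    rw [eq_div_iff (mul_ne_zero hs0 hs2), h2]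
    ring
  rw [h4]
  field_simp

end Pool.Agent.MU
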