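import Mathlib
import Pool.Agent.Lib.MP_bae66e_nt.MU.G1
import Pool.Agent.Lib.MP_bae66e_nt.MU.G0

/-!
# Maier matrices, uniformly in the scale: G4, the kap integral
-/

set_option autoImplicit false

namespace Pool.Agent.MU

open Pool.Agent.GM Pool.Agent.MG MeasureTheory

private lemma G4_re (a b : ℝ) : ((a : ℂ) + (b : ℂ) * Complex.I).re = a := by simp

private lemma G4_im (a b : ℝ) : ((a : ℂ) + (b : ℂ) * Complex.I).im = b := by simp

/-- pointwise identity -/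
private lemma G4_point (M z : ℕ) (σ φ t : ℝ) (ht : 0 < t) :
    kap z σ φ t * Del M t =
      (((Del M t : ℝ) : ℂ) * (t : ℂ) ^ (-((σ : ℂ) + 1)) +
        Complex.exp ((φ : ℂ) * Complex.I) * (((Del M t : ℝ) : ℂ) *
          (t : ℂ) ^ (-(((σ : ℂ) + ((Real.pi / Real.log z : ℝ) : ℂ) * Complex.I) + 1)))).re := by
  have ht' : (t : ℂ) ≠ 0 := by exact_mod_cast ht.ne'
  have e1 : (((Del M t : ℝ) : ℂ) * (t : ℂ) ^ (-((σ : ℂ) + 1))).re =
      Del M t * Real.exp (Real.log t * (-σ - 1)) := by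
    rw [Complex.re_ofReal_mul, Complex.cpow_def_of_ne_zero ht', ← Complex.ofReal_log ht.le]
    have h1 : ((Real.log t : ℝ) : ℂ) * -((σ : ℂ) + 1) = ((Real.log t * (-σ - 1) : ℝ) : ℂ) := by
      push_cast
      ring
    rw [h1, ← Complex.ofReal_exp, Complex.ofReal_re]
  have e2 : (Complex.exp ((φ : ℂ) * Complex.I) * (((Del M t : ℝ) : ℂ) *
      (t : ℂ) ^ (-(((σ : ℂ) + ((Real.pi / Real.log z : ℝ) : ℂ) * Complex.I) + 1)))).re =
      Del M t * (Real.exp (Real.log t * (-σ - 1)) *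
        Real.cos (φ - Real.pi * Real.log t / Real.log z)) := by
    rw [mul_left_comm, Complex.re_ofReal_mul, Complex.cpow_def_of_ne_zero ht',
      ← Complex.ofReal_log ht.le, ← Complex.exp_add]
    have h1 : (φ : ℂ) * Complex.I + ((Real.log t : ℝ) : ℂ) *
        -(((σ : ℂ) + ((Real.pi / Real.log z : ℝ) : ℂ) * Complex.I) + 1) =
        ((Real.log t * (-σ - 1) : ℝ) : ℂ) +
          ((φ - Real.pi * Real.log t / Real.log z : ℝ) : ℂ) * Complex.I := by
      push_cast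
      ring
    rw [h1, Complex.exp_re, G4_re, G4_im]
  rw [Complex.add_re, e1, e2]
  unfold kap
  rw [Real.rpow_def_of_pos ht]
  ring

private lemma G4_int (M : ℕ) [NeZero M] (s : ℂ) (hs : 0 < s.re) :
    IntegrableOn (fun t : ℝ => ((Del M t : ℝ) : ℂ) * (t : ℂ) ^ (-(s + 1))) (Set.Ioi 1) := by
  obtain ⟨C, hC⟩ := Del_bdd M
  refine MC.MT_integrable (fun t => ((Del M t : ℝ) : ℂ)) C 0
    (Complex.measurable_ofReal.comp (Del_measurable M)) (fun t ht => ?_) s hs
  rw [Real.rpow_zero, mul_one, Complex.norm_real, Real.norm_eq_abs]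
  exact hC t ht

/-- G4a. PROOF. `Del` is bounded on `(1, ∞)` and measurable, `|kap z σ φ t| ≤ 2 t^(-σ-1)` (`kap_le`), integrable on
`(1, ∞)`. -/
theorem kap_Del_integrable (M : ℕ) [NeZero M] (z : ℕ) (σ φ : ℝ) (hσ : 0 < σ) :
    IntegrableOn (fun t : ℝ => kap z σ φ t * Del M t) (Set.Ioi 1) := by
  have h1 := G4_int M (σ : ℂ) (by simpa using hσ)
  have h2 := (G4_int M ((σ : ℂ) + ((Real.pi / Real.log z : ℝ) : ℂ) * Complex.I)
    (by rw [G4_re]; exact hσ)).const_mul (Complex.exp ((φ : ℂ) * Complex.I))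
  have h3 := (h1.add h2).re
  refine IntegrableOn.congr_fun h3 (fun t ht => ?_) measurableSet_Ioi
  exact (G4_point M z σ φ t (lt_trans zero_lt_one ht)).symm

/-- G4b. PROOF. For `t > 0`, with `τ = π/log z`:
`kap z σ φ t = t^(-σ-1) + Re (exp (iφ) t^(-(σ+iτ)-1))`, since `t^(-iτ) = exp (-iτ log t)`. Both integrals converge
(`MC.MT_integrable` with `σ0 = 0`, `Del_bdd`, `Del_measurable`); `re` commutes with the integral (`integral_re`,
`Complex.reCLM.integral_comp_comm`). -/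
theorem kap_int (M : ℕ) [NeZero M] (z : ℕ) (σ φ : ℝ) (hσ : 0 < σ) :
    ∫ t in Set.Ioi (1 : ℝ), kap z σ φ t * Del M t
      = (MC.MT (fun t => ((Del M t : ℝ) : ℂ)) (σ : ℂ)).re
        + (Complex.exp ((φ : ℂ) * Complex.I)
          * MC.MT (fun t => ((Del M t : ℝ) : ℂ))
            ((σ : ℂ) + ((Real.pi / Real.log z : ℝ) : ℂ) * Complex.I)).re := by
  have h1 := G4_int M (σ : ℂ) (by simpa using hσ)
  have h2 := (G4_int M ((σ : ℂ) + ((Real.pi / Real.log z : ℝ) : ℂ) * Complex.I)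
    (by rw [G4_re]; exact hσ)).const_mul (Complex.exp ((φ : ℂ) * Complex.I))
  have h3 : ∫ t in Set.Ioi (1 : ℝ), kap z σ φ t * Del M t =
      ∫ t in Set.Ioi (1 : ℝ), (((Del M t : ℝ) : ℂ) * (t : ℂ) ^ (-((σ : ℂ) + 1)) +
        Complex.exp ((φ : ℂ) * Complex.I) * (((Del M t : ℝ) : ℂ) *
          (t : ℂ) ^ (-(((σ : ℂ) + ((Real.pi / Real.log z : ℝ) : ℂ) * Complex.I) + 1)))).re :=
    setIntegral_congr_fun measurableSet_Ioi fun t ht =>
      G4_point M z σ φ t (lt_trans zero_lt_one ht)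
  have h4 := integral_re (h1.add h2)
  rw [h3]
  refine h4.trans ?_
  simp only [Pi.add_apply]
  rw [integral_add h1 h2, integral_const_mul]
  rfl

end Pool.Agent.MU
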