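import Mathlib
import Pool.Agent.Lib.MP_bae66e_nt.MU.G2
import Pool.Agent.Lib.MP_bae66e_nt.MU.G3
import Pool.Agent.Lib.MP_bae66e_nt.MU.G4

/-!
# Maier matrices, uniformly in the scale: G5, oscillation
-/

set_option autoImplicit false

namespace Pool.Agent.MU

open Pool.Agent.GM Pool.Agent.MG MeasureTheory

private lemma g5_phase (w : ℂ) (s : ℝ) (hs : s = 1 ∨ s = -1) :
    ∃ φ : ℝ, (Complex.exp ((φ : ℂ) * Complex.I) * w).re = s * ‖w‖ := by
  obtain ⟨r, a, hr, hw⟩ : ∃ r a : ℝ, r = ‖w‖ ∧ w = (r : ℂ) * Complex.exp ((a : ℂ) * Complex.I) :=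
    ⟨‖w‖, Complex.arg w, rfl, (Complex.norm_mul_exp_arg_mul_I w).symm⟩
  rw [← hr]
  rcases hs with rfl | rfl
  · refine ⟨-a, ?_⟩
    have h : Complex.exp (((-a : ℝ) : ℂ) * Complex.I) * w = (r : ℂ) := by
      rw [hw, mul_left_comm, ← Complex.exp_add]
      have : ((-a : ℝ) : ℂ) * Complex.I + (a : ℂ) * Complex.I = 0 := by
        push_cast; ring
      rw [this, Complex.exp_zero, mul_one]
    rw [h, Complex.ofReal_re, one_mul]
  · refine ⟨Real.pi - a, ?_⟩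
    have h : Complex.exp (((Real.pi - a : ℝ) : ℂ) * Complex.I) * w
        = ((-r : ℝ) : ℂ) := by
      rw [hw, mul_left_comm, ← Complex.exp_add]
      have : ((Real.pi - a : ℝ) : ℂ) * Complex.I + (a : ℂ) * Complex.I
          = (Real.pi : ℂ) * Complex.I := by
        push_cast; ring
      rw [this, Complex.exp_pi_mul_I]
      push_cast; ring
    rw [h, Complex.ofReal_re]
    ring

/-- the numerical end of the argument -/
private lemma g5_num (A B η V : ℝ) (hA : 0 < A) (hB : 0 ≤ B) (hη : 0 < η) (hη1 : η ≤ 1)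
    (hV : 1 ≤ V) (hV2 : 8 * (1 + B) / (A * η ^ 2) ≤ V) :
    Real.exp ((1 - η) * V) + B ≤ A * Real.exp ((1 - η / 2) * V) / V := by
  have hV0 : 0 < V := by linarith
  have h1 : (η / 2 * V) ^ 2 / 2 ≤ Real.exp (η / 2 * V) := by
    have := Real.quadratic_le_exp_of_nonneg (x := η / 2 * V) (by positivity)
    have h0 : 0 ≤ η / 2 * V := by positivity
    linarith
  have h2 : 8 * (1 + B) ≤ V * (A * η ^ 2) := by
    rwa [div_le_iff₀ (by positivity)] at hV2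
  have h3 : (1 + B) * V ≤ A * Real.exp (η / 2 * V) := by
    have e1 : A * ((η / 2 * V) ^ 2 / 2) ≤ A * Real.exp (η / 2 * V) :=
      mul_le_mul_of_nonneg_left h1 hA.le
    have e2 : 8 * (1 + B) * V ≤ V * (A * η ^ 2) * V := mul_le_mul_of_nonneg_right h2 hV0.le
    nlinarith
  have h4 : Real.exp ((1 - η / 2) * V) = Real.exp ((1 - η) * V) * Real.exp (η / 2 * V) := by
    rw [← Real.exp_add]; congr 1; ring
  have h5 : 1 ≤ Real.exp ((1 - η) * V) := Real.one_le_exp (mul_nonneg (by linarith) hV0.le)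
  rw [le_div_iff₀ hV0, h4]
  have h6 : Real.exp ((1 - η) * V) * ((1 + B) * V)
      ≤ Real.exp ((1 - η) * V) * (A * Real.exp (η / 2 * V)) :=
    mul_le_mul_of_nonneg_left h3 (Real.exp_pos _).le
  have h7 : B * V ≤ Real.exp ((1 - η) * V) * (B * V) :=
    le_mul_of_one_le_left (by positivity) h5
  nlinarith

/-- G5. PROOF. Let `L = log z`, `σ = 1 - ξ/L ∈ [1/2, 1)`, `τ = π/L`, `s₀ = σ + iτ`, `V = ff z p₁ ξ`,
`M = MM z p₁`, `1 ≤ M/φ(M) ≤ C₀` (`MM_ratio`). By `lap`, `zeta_seg` (`τ ≤ τ₀` for large `z`), `prod_real_le`: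
`‖MT Del σ‖ ≤ C₀ C/((1 - σ) σ) + 1/(1-σ) ≤ (2 C₀ C + 1) L/ξ ≤ (2 C₀ C + 1) L`
and by `prod_lower (η/2)`, `‖s₀‖ ≤ 2`, `‖s₀ - 1‖ ≤ (ξ + π)/L` and `‖s₀ - 1‖ ≥ ξ/L`:
`‖MT Del s₀‖ ≥ (c/2) (L/(ξ+π)) exp ((1-η/2) V)/4 - L/ξ`. Choose `φ` with
`Re (exp (iφ) MT Del s₀) = s ‖MT Del s₀‖` (`φ = - arg`, or `π - arg`). By `kap_int` the integral times `s` is at
least `‖MT Del s₀‖ - ‖MT Del σ‖ ≥ L (c' exp ((1-η/2) V)/(ξ+4) - C')`, and `ff_lower` bounds `ξ` in terms of `V`: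
`V ≥ c exp ξ/(ξ+1) ≥ c' ξ`, so `ξ ≤ C'' V`. For `V ≥ V₀` this is `≥ L exp ((1-η) V)`. -/
theorem osc (η : ℝ) (hη : 0 < η) (hη1 : η ≤ 1) : ∃ (V₀ : ℝ) (z₀ : ℕ), ∀ z : ℕ, z₀ ≤ z →
    ∀ (p₁ : ℕ) (ξ : ℝ), 1 ≤ ξ → ξ ≤ (1 / 2) * Real.log z → V₀ ≤ ff z p₁ ξ →
      ∀ s : ℝ, (s = 1 ∨ s = -1) → ∃ φ : ℝ,
        Real.log z * Real.exp ((1 - η) * ff z p₁ ξ)
          ≤ s * ∫ t in Set.Ioi (1 : ℝ), kap z (1 - ξ / Real.log z) φ t * Del (MM z p₁) t := by
  obtain ⟨C₀, hC₀, hrat⟩ := MM_ratio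
  obtain ⟨c, C, τ₀, hc, hτ₀, hzeta⟩ := zeta_seg
  obtain ⟨c₁, z₁, hc₁, hfl⟩ := ff_lower
  obtain ⟨V₁, z₂, hpl⟩ := prod_lower (η / 2) (by positivity) (by linarith)
  have hC : 0 ≤ C := by
    have h := hzeta (1 / 2 : ℂ) (by norm_num) (by norm_num) (by norm_num)
      (by norm_num; exact hτ₀.le)
    exact le_trans (norm_nonneg _) h.2
  set A : ℝ := c * c₁ / 64 with hAdef
  set B : ℝ := 2 * C₀ * C + 2 with hBdef
  have hA : 0 < A := by positivity
  have hB : 0 ≤ B := by positivity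
  refine ⟨max V₁ (max (8 * (1 + B) / (A * η ^ 2)) 1),
    max (max z₁ z₂) (max ⌈Real.exp (max (Real.pi / τ₀) Real.pi)⌉₊ 4), ?_⟩
  intro z hz p₁ ξ hξ1 hξ2 hV s hs
  have hz1 : z₁ ≤ z := le_trans (le_trans (le_max_left _ _) (le_max_left _ _)) hz
  have hz2 : z₂ ≤ z := le_trans (le_trans (le_max_right _ _) (le_max_left _ _)) hz
  have hz3 : ⌈Real.exp (max (Real.pi / τ₀) Real.pi)⌉₊ ≤ z :=
    le_trans (le_trans (le_max_left _ _) (le_max_right _ _)) hz
  have hz4 : 4 ≤ z := le_trans (le_trans (le_max_right _ _) (le_max_right _ _)) hz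
  have hV1 : V₁ ≤ ff z p₁ ξ := le_trans (le_max_left _ _) hV
  have hV2 : 8 * (1 + B) / (A * η ^ 2) ≤ ff z p₁ ξ :=
    le_trans (le_trans (le_max_left _ _) (le_max_right _ _)) hV
  have hV3 : 1 ≤ ff z p₁ ξ := le_trans (le_trans (le_max_right _ _) (le_max_right _ _)) hV
  set V : ℝ := ff z p₁ ξ with hVdef
  set L : ℝ := Real.log z with hLdef
  have hpi := Real.pi_gt_three
  have hzR : (0 : ℝ) < z := by
    have : (4 : ℝ) ≤ z := by exact_mod_cast hz4
    linarith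
  have hL : max (Real.pi / τ₀) Real.pi ≤ L := by
    rw [hLdef, Real.le_log_iff_exp_le hzR]
    exact le_trans (Nat.le_ceil _) (by exact_mod_cast hz3)
  have hL1 : Real.pi / τ₀ ≤ L := le_trans (le_max_left _ _) hL
  have hL2 : Real.pi ≤ L := le_trans (le_max_right _ _) hL
  have hL0 : 0 < L := by linarith
  have hτ1 : Real.pi / L ≤ τ₀ := by
    rw [div_le_iff₀ hτ₀] at hL1
    rw [div_le_iff₀ hL0]
    linarith
  have hτ2 : Real.pi / L ≤ 1 := by
    rw [div_le_one hL0]; exact hL2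
  have hτpos : 0 < Real.pi / L := by positivity
  have hξL : ξ / L ≤ 1 / 2 := by
    rw [div_le_iff₀ hL0]; linarith
  have hξL0 : 0 < ξ / L := by positivity
  set σ : ℝ := 1 - ξ / L with hσdef
  have hσ1 : 1 / 2 ≤ σ := by rw [hσdef]; linarith
  have hσ2 : σ < 1 := by rw [hσdef]; linarith
  have hσ0 : 0 < σ := by linarith
  set M : ℕ := MM z p₁ with hMdef
  obtain ⟨hr1, hr2⟩ := hrat z p₁ hz4
  rw [← hMdef] at hr1 hr2
  have hr0 : 0 ≤ (M : ℝ) / (M.totient : ℝ) := by linarith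
  have hrn : ‖(M : ℂ) / (M.totient : ℂ)‖ = (M : ℝ) / (M.totient : ℝ) := by
    rw [norm_div, Complex.norm_natCast, Complex.norm_natCast]
  -- the point σ
  have hσC : (σ : ℂ) ≠ 1 := by
    intro h
    have : σ = 1 := by exact_mod_cast h
    linarith
  have hlapσ := lap M (σ : ℂ) (by simpa using hσ0) hσC
  have hnσ : ‖(σ : ℂ) - 1‖ = ξ / L := by
    have : (σ : ℂ) - 1 = ((-(ξ / L) : ℝ) : ℂ) := by
      rw [hσdef]; push_cast; ring
    rw [this, Complex.norm_real, Real.norm_eq_abs, abs_neg, abs_of_pos hξL0]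
  have hzσ := (hzeta (σ : ℂ) hσC (by simpa using hσ1) (by simpa using hσ2.le)
    (by simpa using hτ₀.le)).2
  have hb1 : ‖MC.MT (fun t => ((Del M t : ℝ) : ℂ)) (σ : ℂ)‖ ≤ (2 * C₀ * C + 1) * L := by
    rw [hlapσ]
    have hLξ : L / ξ ≤ L := by
      rw [div_le_iff₀ (by linarith)]
      nlinarith
    have e1 : ‖riemannZeta (σ : ℂ)‖ ≤ C * L := by
      rw [norm_mul, hnσ] at hzσ
      have : ‖riemannZeta (σ : ℂ)‖ ≤ C / (ξ / L) := by
        rw [le_div_iff₀ hξL0]; linarith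
      calc ‖riemannZeta (σ : ℂ)‖ ≤ C / (ξ / L) := this
        _ = C * (L / ξ) := by rw [div_div_eq_mul_div, mul_div_assoc]
        _ ≤ C * L := mul_le_mul_of_nonneg_left hLξ hC
    have e2 : ‖1 / ((σ : ℂ) - 1)‖ ≤ L := by
      rw [norm_div, norm_one, hnσ, one_div_div]
      exact hLξ
    have e3 := prod_real_le M σ hσ0
    have e4 : ‖(σ : ℂ)‖ = σ := by
      rw [Complex.norm_real, Real.norm_eq_abs, abs_of_pos hσ0]
    have e5 : ‖(M : ℂ) / (M.totient : ℂ) * riemannZeta (σ : ℂ)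
        * (∏ p ∈ M.primeFactors, (1 - (p : ℂ) ^ (-(σ : ℂ)))) / (σ : ℂ)‖ ≤ 2 * C₀ * C * L := by
      rw [norm_div, norm_mul, norm_mul, hrn, e4]
      rw [div_le_iff₀ hσ0]
      calc (M : ℝ) / (M.totient : ℝ) * ‖riemannZeta (σ : ℂ)‖
            * ‖∏ p ∈ M.primeFactors, (1 - (p : ℂ) ^ (-(σ : ℂ)))‖
          ≤ C₀ * (C * L) * 1 := by
            apply mul_le_mul _ e3 (norm_nonneg _) (by positivity)
            exact mul_le_mul hr2 e1 (norm_nonneg _) (by linarith)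
        _ = 2 * C₀ * C * L * (1 / 2) := by ring
        _ ≤ 2 * C₀ * C * L * σ := mul_le_mul_of_nonneg_left hσ1 (by positivity)
    calc _ ≤ ‖(M : ℂ) / (M.totient : ℂ) * riemannZeta (σ : ℂ)
        * (∏ p ∈ M.primeFactors, (1 - (p : ℂ) ^ (-(σ : ℂ)))) / (σ : ℂ)‖
          + ‖1 / ((σ : ℂ) - 1)‖ := norm_sub_le _ _
      _ ≤ 2 * C₀ * C * L + L := add_le_add e5 e2
      _ = (2 * C₀ * C + 1) * L := by ring
  -- the point s₀
  set s₀ : ℂ := (σ : ℂ) + ((Real.pi / L : ℝ) : ℂ) * Complex.I with hs₀def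
  have hre : s₀.re = σ := by rw [hs₀def]; simp
  have him : s₀.im = Real.pi / L := by rw [hs₀def]; simp
  have hs₀1 : s₀ ≠ 1 := by
    intro h
    have : s₀.re = 1 := by rw [h]; simp
    rw [hre] at this
    linarith
  have hlap0 := lap M s₀ (by rw [hre]; exact hσ0) hs₀1
  have hn1 : ξ / L ≤ ‖s₀ - 1‖ := by
    have h := Complex.abs_re_le_norm (s₀ - 1)
    have : (s₀ - 1).re = -(ξ / L) := by
      rw [Complex.sub_re, hre, Complex.one_re, hσdef]; ring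
    rw [this, abs_neg, abs_of_pos hξL0] at h
    exact h
  have hn2 : ‖s₀ - 1‖ ≤ (ξ + Real.pi) / L := by
    have h := Complex.norm_le_abs_re_add_abs_im (s₀ - 1)
    have e1 : (s₀ - 1).re = -(ξ / L) := by
      rw [Complex.sub_re, hre, Complex.one_re, hσdef]; ring
    have e2 : (s₀ - 1).im = Real.pi / L := by
      rw [Complex.sub_im, him, Complex.one_im, sub_zero]
    rw [e1, e2, abs_neg, abs_of_pos hξL0, abs_of_pos hτpos] at h
    rw [add_div]; exact h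
  have hn3 : ‖s₀‖ ≤ 2 := by
    have h := Complex.norm_le_abs_re_add_abs_im s₀
    rw [hre, him, abs_of_pos hσ0, abs_of_pos hτpos] at h
    linarith
  have hn4 : 0 < ‖s₀‖ := by
    have h := Complex.abs_re_le_norm s₀
    rw [hre, abs_of_pos hσ0] at h
    linarith
  have hz0 := (hzeta s₀ hs₀1 (by rw [hre]; exact hσ1) (by rw [hre]; exact hσ2.le)
    (by rw [him, abs_of_pos hτpos]; exact hτ1)).1
  have hprod := hpl z hz2 p₁ ξ (by linarith) hξ2 hV1
  have hff := hfl z hz1 p₁ ξ (by linarith) (by linarith)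
  rw [← hVdef] at hprod hff
  -- ξ in terms of V
  have hξV : ξ + 4 ≤ 8 * V / c₁ := by
    have h1 : (ξ + 1) ^ 2 / 2 ≤ Real.exp ξ := by
      have := Real.quadratic_le_exp_of_nonneg (x := ξ) (by linarith)
      nlinarith
    rw [div_le_iff₀ (by linarith)] at hff
    have h2 : c₁ * ((ξ + 1) ^ 2 / 2) ≤ V * (ξ + 1) :=
      le_trans (mul_le_mul_of_nonneg_left h1 hc₁.le) hff
    have h3 : c₁ * (ξ + 1) ≤ 2 * V := by
      have h4 : (c₁ * (ξ + 1)) * (ξ + 1) ≤ (2 * V) * (ξ + 1) := by nlinarith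
      exact le_of_mul_le_mul_right h4 (by linarith)
    rw [le_div_iff₀ hc₁]
    nlinarith
  have hb2 : L * (A * Real.exp ((1 - η / 2) * V) / V) - L
      ≤ ‖MC.MT (fun t => ((Del M t : ℝ) : ℂ)) s₀‖ := by
    rw [hlap0]
    have e2 : ‖1 / (s₀ - 1)‖ ≤ L := by
      rw [norm_div, norm_one, div_le_iff₀ (lt_of_lt_of_le hξL0 hn1)]
      calc (1 : ℝ) ≤ ξ := hξ1
        _ = L * (ξ / L) := by field_simp
        _ ≤ L * ‖s₀ - 1‖ := mul_le_mul_of_nonneg_left hn1 hL0.le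
    have e1 : c * L / (ξ + 4) ≤ ‖riemannZeta s₀‖ := by
      rw [norm_mul] at hz0
      have h1 : c ≤ (ξ + Real.pi) / L * ‖riemannZeta s₀‖ :=
        le_trans hz0 (mul_le_mul_of_nonneg_right hn2 (norm_nonneg _))
      have h2 : (ξ + Real.pi) / L * ‖riemannZeta s₀‖ ≤ (ξ + 4) / L * ‖riemannZeta s₀‖ := by
        apply mul_le_mul_of_nonneg_right _ (norm_nonneg _)
        apply div_le_div_of_nonneg_right _ hL0.le
        have := Real.pi_lt_four
        linarith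
      have h3 : c ≤ (ξ + 4) / L * ‖riemannZeta s₀‖ := le_trans h1 h2
      rw [div_le_iff₀ (by linarith)]
      rw [div_mul_eq_mul_div, le_div_iff₀ hL0] at h3
      linarith
    have e5 : L * (A * Real.exp ((1 - η / 2) * V) / V) ≤ ‖(M : ℂ) / (M.totient : ℂ) * riemannZeta s₀
        * (∏ p ∈ M.primeFactors, (1 - (p : ℂ) ^ (-s₀))) / s₀‖ := by
      rw [norm_div, norm_mul, norm_mul, hrn]
      rw [le_div_iff₀ hn4]
      have hE := Real.exp_pos ((1 - η / 2) * V)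
      have hV0 : 0 < V := by linarith
      have h1 : c * L / (ξ + 4) * (Real.exp ((1 - η / 2) * V) / 4)
          ≤ (M : ℝ) / (M.totient : ℝ) * ‖riemannZeta s₀‖
            * ‖∏ p ∈ M.primeFactors, (1 - (p : ℂ) ^ (-s₀))‖ := by
        apply mul_le_mul _ hprod (by positivity) (by positivity)
        calc c * L / (ξ + 4) ≤ ‖riemannZeta s₀‖ := e1
          _ ≤ (M : ℝ) / (M.totient : ℝ) * ‖riemannZeta s₀‖ :=
            le_mul_of_one_le_left (norm_nonneg _) hr1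
      have h2 : c * c₁ * L / (8 * V) ≤ c * L / (ξ + 4) := by
        rw [le_div_iff₀ (by linarith)]
        calc c * c₁ * L / (8 * V) * (ξ + 4) ≤ c * c₁ * L / (8 * V) * (8 * V / c₁) :=
              mul_le_mul_of_nonneg_left hξV (by positivity)
          _ = c * L := by field_simp
      calc L * (A * Real.exp ((1 - η / 2) * V) / V) * ‖s₀‖
          ≤ L * (A * Real.exp ((1 - η / 2) * V) / V) * 2 :=
            mul_le_mul_of_nonneg_left hn3 (by positivity)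
        _ = c * c₁ * L / (8 * V) * (Real.exp ((1 - η / 2) * V) / 4) := by
            rw [hAdef]; field_simp; ring
        _ ≤ c * L / (ξ + 4) * (Real.exp ((1 - η / 2) * V) / 4) :=
            mul_le_mul_of_nonneg_right h2 (by positivity)
        _ ≤ _ := h1
    calc L * (A * Real.exp ((1 - η / 2) * V) / V) - L
        ≤ ‖(M : ℂ) / (M.totient : ℂ) * riemannZeta s₀
        * (∏ p ∈ M.primeFactors, (1 - (p : ℂ) ^ (-s₀))) / s₀‖ - ‖1 / (s₀ - 1)‖ :=
          sub_le_sub e5 e2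
      _ ≤ _ := norm_sub_norm_le _ _
  -- the phase
  obtain ⟨φ, hφ⟩ := g5_phase (MC.MT (fun t => ((Del M t : ℝ) : ℂ)) s₀) s hs
  refine ⟨φ, ?_⟩
  rw [kap_int M z σ φ hσ0, ← hLdef, ← hs₀def, hφ]
  have hs2 : s * s = 1 := by rcases hs with rfl | rfl <;> norm_num
  have hre1 : -‖MC.MT (fun t => ((Del M t : ℝ) : ℂ)) (σ : ℂ)‖
      ≤ s * (MC.MT (fun t => ((Del M t : ℝ) : ℂ)) (σ : ℂ)).re := by
    have h := Complex.abs_re_le_norm (MC.MT (fun t => ((Del M t : ℝ) : ℂ)) (σ : ℂ))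
    have h' := abs_le.mp h
    rcases hs with rfl | rfl
    · linarith [h'.1]
    · linarith [h'.2]
  have hnum := g5_num A B η V hA hB hη hη1 hV3 hV2
  have hfin : L * Real.exp ((1 - η) * V) + L * B ≤ L * (A * Real.exp ((1 - η / 2) * V) / V) := by
    rw [← mul_add]
    exact mul_le_mul_of_nonneg_left hnum hL0.le
  rw [mul_add, ← mul_assoc, hs2, one_mul]
  have hBL : L * B = (2 * C₀ * C + 1) * L + L := by rw [hBdef]; ring
  linarith

end Pool.Agent.MU
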