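import Mathlib
import Pool.Agent.Lib.MP_bae66e_nt.MU.P4

/-!
# Maier matrices, uniformly in the scale: P6, small changes of ξ
-/

set_option autoImplicit false

namespace Pool.Agent.MU

open Pool.Agent.GM Pool.Agent.MG

private lemma P6_split (p : ℝ) (hp : 0 < p) (ξ L l : ℝ) :
    p ^ (-1 + (ξ + L) / l) = p ^ (-1 + ξ / l) * Real.exp (Real.log p * (L / l)) := by
  have h : -1 + (ξ + L) / l = (-1 + ξ / l) + L / l := by ring
  rw [h, Real.rpow_add hp, Real.rpow_def_of_pos hp (L / l)]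

/-- P6a. PROOF. Termwise: `p ^ (log (1+δ)/log z) = exp (log (1+δ) log p/log z) ≤ 1 + δ`, as `log p ≤ log z`. -/
theorem ff_add (z p₁ : ℕ) (hz : 2 ≤ z) (ξ δ : ℝ) (hδ : 0 ≤ δ) :
    ff z p₁ (ξ + Real.log (1 + δ)) ≤ (1 + δ) * ff z p₁ ξ := by
  have hlz : 0 < Real.log z := Real.log_pos (by exact_mod_cast hz)
  unfold ff
  rw [Finset.mul_sum]
  apply Finset.sum_le_sum
  intro p hp
  have h1 := mem_PP.mp hp
  have hp0 : (0 : ℝ) < (p : ℝ) := by exact_mod_cast h1.2.2.1.pos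
  have hle : (p : ℝ) ≤ (z : ℝ) := by exact_mod_cast h1.2.1
  have hll : Real.log p ≤ Real.log z := Real.log_le_log hp0 hle
  rw [P6_split _ hp0, mul_comm (1 + δ)]
  apply mul_le_mul_of_nonneg_left _ (Real.rpow_nonneg hp0.le _)
  have hL : 0 ≤ Real.log (1 + δ) := Real.log_nonneg (by linarith)
  have h2 : Real.log p * (Real.log (1 + δ) / Real.log z) ≤ Real.log (1 + δ) := by
    calc Real.log p * (Real.log (1 + δ) / Real.log z)
        ≤ Real.log z * (Real.log (1 + δ) / Real.log z) :=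
          mul_le_mul_of_nonneg_right hll (div_nonneg hL hlz.le)
      _ = Real.log (1 + δ) := by field_simp
  calc Real.exp (Real.log p * (Real.log (1 + δ) / Real.log z))
      ≤ Real.exp (Real.log (1 + δ)) := Real.exp_le_exp.mpr h2
    _ = 1 + δ := Real.exp_log (by linarith)

private lemma P6_exp (x : ℝ) (h0 : 0 ≤ x) (h1 : x ≤ 1 / 2) : Real.exp x ≤ 1 + 2 * x := by
  have h := Real.add_one_le_exp (-x)
  have h2 : Real.exp x * Real.exp (-x) = 1 := by
    rw [← Real.exp_add]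
    simp
  have h3 : 0 < Real.exp x := Real.exp_pos x
  have h4 : Real.exp x * (1 - x) ≤ 1 := by
    calc Real.exp x * (1 - x) ≤ Real.exp x * Real.exp (-x) :=
          mul_le_mul_of_nonneg_left (by linarith) h3.le
      _ = 1 := h2
  have h5 : (1 : ℝ) ≤ (1 + 2 * x) * (1 - x) := by nlinarith
  have h6 : 0 < 1 - x := by linarith
  by_contra hc
  push Not at hc
  have h7 : (1 + 2 * x) * (1 - x) < Real.exp x * (1 - x) := mul_lt_mul_of_pos_right hc h6
  linarith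

/-- P6b. PROOF. Take `η ∈ (0,1]` so small that `(1-δ) ^ (1-η) ≤ 1 - δ + δ^3/2` (continuity at `η = 0`) and
`η ≤ δ^3/2`, and apply `conc η`. The terms with `log p > (1-η) log z` are multiplied by
`exp (log (1-δ) log p/log z) ≤ (1-δ)^(1-η)`, the others by a factor `≤ 1`, and their sum is `≤ η ff z p₁ ξ`. -/
theorem ff_sub (δ : ℝ) (h0 : 0 < δ) (h1 : δ ≤ 1 / 4) : ∃ (V₀ : ℝ) (z₀ : ℕ), ∀ z : ℕ, z₀ ≤ z →
    ∀ (p₁ : ℕ) (ξ : ℝ), 0 ≤ ξ → ξ ≤ Real.log z → V₀ ≤ ff z p₁ ξ →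
      ff z p₁ (ξ + Real.log (1 - δ)) ≤ (1 - δ + δ ^ 3) * ff z p₁ ξ := by
  have hd3 : 0 < δ ^ 3 := by positivity
  have hd3' : δ ^ 3 ≤ 1 / 64 := by
    calc δ ^ 3 ≤ (1 / 4) ^ 3 := pow_le_pow_left₀ h0.le h1 3
      _ = 1 / 64 := by norm_num
  obtain ⟨V₀, z₀, hc⟩ := conc (δ ^ 3 / 2) (by linarith) (by linarith)
  refine ⟨V₀, max z₀ 2, ?_⟩
  intro z hz p₁ ξ hξ hξz hV
  have hz0 : z₀ ≤ z := le_trans (le_max_left _ _) hz
  have hz2 : 2 ≤ z := le_trans (le_max_right _ _) hz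
  have hlz : 0 < Real.log z := Real.log_pos (by exact_mod_cast hz2)
  have hcc := hc z hz0 p₁ ξ hξ hξz hV
  have hd1 : 0 < 1 - δ := by linarith
  have hL1 : Real.log (1 - δ) ≤ 0 := Real.log_nonpos hd1.le (by linarith)
  have hL2 : -(1 / 3) ≤ Real.log (1 - δ) := by
    have h := Real.one_sub_inv_le_log_of_pos hd1
    have h' : (1 - δ)⁻¹ ≤ 4 / 3 := by
      rw [inv_le_comm₀ hd1 (by norm_num)]
      norm_num
      linarith
    linarith
  have hrho : Real.exp ((1 - δ ^ 3 / 2) * Real.log (1 - δ)) ≤ 1 - δ + δ ^ 3 / 2 := by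
    have he : (1 - δ ^ 3 / 2) * Real.log (1 - δ)
        = Real.log (1 - δ) + δ ^ 3 / 2 * (-Real.log (1 - δ)) := by ring
    rw [he, Real.exp_add, Real.exp_log hd1]
    have hx0 : 0 ≤ δ ^ 3 / 2 * (-Real.log (1 - δ)) :=
      mul_nonneg (by linarith) (by linarith)
    have hx1 : δ ^ 3 / 2 * (-Real.log (1 - δ)) ≤ δ ^ 3 / 2 * (1 / 3) :=
      mul_le_mul_of_nonneg_left (by linarith) (by linarith)
    have hx2 := P6_exp _ hx0 (by linarith)
    calc (1 - δ) * Real.exp (δ ^ 3 / 2 * (-Real.log (1 - δ)))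
        ≤ (1 - δ) * (1 + 2 * (δ ^ 3 / 2 * (-Real.log (1 - δ)))) :=
          mul_le_mul_of_nonneg_left hx2 hd1.le
      _ ≤ (1 - δ) * (1 + 2 * (δ ^ 3 / 2 * (1 / 3))) :=
          mul_le_mul_of_nonneg_left (by linarith) hd1.le
      _ ≤ 1 - δ + δ ^ 3 / 2 := by nlinarith
  set t : ℕ → ℝ := fun p => (p : ℝ) ^ (-1 + ξ / Real.log z) with ht
  have ht0 : ∀ p ∈ PP z p₁, 0 ≤ t p := by
    intro p _
    exact Real.rpow_nonneg (Nat.cast_nonneg p) _
  have hS : ff z p₁ (ξ + Real.log (1 - δ))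
      = ∑ p ∈ PP z p₁, t p * Real.exp (Real.log p * (Real.log (1 - δ) / Real.log z)) := by
    unfold ff
    apply Finset.sum_congr rfl
    intro p hp
    have hp0 : (0 : ℝ) < (p : ℝ) := by exact_mod_cast (mem_PP.mp hp).2.2.1.pos
    exact P6_split _ hp0 _ _ _
  have hF : ff z p₁ ξ = ∑ p ∈ PP z p₁, t p := rfl
  rw [hS, hF]
  rw [hF] at hcc
  rw [← Finset.sum_filter_add_sum_filter_not (PP z p₁)
    (fun p : ℕ => Real.log p ≤ (1 - δ ^ 3 / 2) * Real.log z)
    (fun p => t p * Real.exp (Real.log p * (Real.log (1 - δ) / Real.log z)))]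
  have hA : ∑ p ∈ (PP z p₁).filter (fun p : ℕ => Real.log p ≤ (1 - δ ^ 3 / 2) * Real.log z),
      t p * Real.exp (Real.log p * (Real.log (1 - δ) / Real.log z))
      ≤ δ ^ 3 / 2 * ∑ p ∈ PP z p₁, t p := by
    refine le_trans (Finset.sum_le_sum ?_) hcc
    intro p hp
    have hp1 := Finset.mem_of_mem_filter p hp
    have hp1' : (1 : ℝ) ≤ (p : ℝ) := by exact_mod_cast (mem_PP.mp hp1).2.2.1.one_le
    have hlp : 0 ≤ Real.log p := Real.log_nonneg hp1'
    have hle : Real.exp (Real.log p * (Real.log (1 - δ) / Real.log z)) ≤ 1 := by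
      apply Real.exp_le_one_iff.mpr
      exact mul_nonpos_of_nonneg_of_nonpos hlp (div_nonpos_of_nonpos_of_nonneg hL1 hlz.le)
    calc t p * Real.exp (Real.log p * (Real.log (1 - δ) / Real.log z))
        ≤ t p * 1 := mul_le_mul_of_nonneg_left hle (ht0 p hp1)
      _ = (p : ℝ) ^ (-1 + ξ / Real.log z) := by rw [mul_one]
  have hB : ∑ p ∈ (PP z p₁).filter (fun p : ℕ => ¬ Real.log p ≤ (1 - δ ^ 3 / 2) * Real.log z),
      t p * Real.exp (Real.log p * (Real.log (1 - δ) / Real.log z))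
      ≤ (1 - δ + δ ^ 3 / 2) * ∑ p ∈ PP z p₁, t p := by
    calc ∑ p ∈ (PP z p₁).filter (fun p : ℕ => ¬ Real.log p ≤ (1 - δ ^ 3 / 2) * Real.log z),
        t p * Real.exp (Real.log p * (Real.log (1 - δ) / Real.log z))
        ≤ ∑ p ∈ (PP z p₁).filter (fun p : ℕ => ¬ Real.log p ≤ (1 - δ ^ 3 / 2) * Real.log z),
          (1 - δ + δ ^ 3 / 2) * t p := by
          apply Finset.sum_le_sum
          intro p hp
          obtain ⟨hp1, hp2⟩ := Finset.mem_filter.mp hp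
          push Not at hp2
          rw [mul_comm (1 - δ + δ ^ 3 / 2)]
          apply mul_le_mul_of_nonneg_left _ (ht0 p hp1)
          refine le_trans (Real.exp_le_exp.mpr ?_) hrho
          have h2 : Real.log p * (Real.log (1 - δ) / Real.log z)
              ≤ ((1 - δ ^ 3 / 2) * Real.log z) * (Real.log (1 - δ) / Real.log z) :=
            mul_le_mul_of_nonpos_right hp2.le (div_nonpos_of_nonpos_of_nonneg hL1 hlz.le)
          have h3 : ((1 - δ ^ 3 / 2) * Real.log z) * (Real.log (1 - δ) / Real.log z)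
              = (1 - δ ^ 3 / 2) * Real.log (1 - δ) := by field_simp
          linarith
      _ ≤ ∑ p ∈ PP z p₁, (1 - δ + δ ^ 3 / 2) * t p := by
          apply Finset.sum_le_sum_of_subset_of_nonneg (Finset.filter_subset _ _)
          intro p hp _
          exact mul_nonneg (by linarith) (ht0 p hp)
      _ = (1 - δ + δ ^ 3 / 2) * ∑ p ∈ PP z p₁, t p := by rw [Finset.mul_sum]
  have hfin : δ ^ 3 / 2 * ∑ p ∈ PP z p₁, t p + (1 - δ + δ ^ 3 / 2) * ∑ p ∈ PP z p₁, t p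
      = (1 - δ + δ ^ 3) * ∑ p ∈ PP z p₁, t p := by ring
  linarith

end Pool.Agent.MU
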