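import Mathlib
import Pool.Agent.Lib.MP_bae66e_nt.MU.Defs

/-!
# Maier matrices, uniformly in the scale: U0, Legendre and Rankin
-/

set_option autoImplicit false

namespace Pool.Agent.MU

open Pool.Agent.GM Pool.Agent.MG

private theorem U0_ind (M n : ℕ) (hM : M ≠ 0) :
    (if n.Coprime M then (1 : ℝ) else 0) =
      ∑ S ∈ M.primeFactors.powerset, (if (∏ p ∈ S, p) ∣ n then (-1 : ℝ) ^ S.card else 0) := by
  have h1 : (if n.Coprime M then (1 : ℝ) else 0) =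
      ∏ p ∈ M.primeFactors, (1 + (if p ∣ n then (-1 : ℝ) else 0)) := by
    split_ifs with h
    · symm
      apply Finset.prod_eq_one
      intro p hp
      have hpp := Nat.prime_of_mem_primeFactors hp
      have hnd : ¬ p ∣ n := by
        intro hd
        exact Nat.Prime.not_coprime_iff_dvd.mpr ⟨p, hpp, hd, Nat.dvd_of_mem_primeFactors hp⟩ h
      rw [if_neg hnd, add_zero]
    · obtain ⟨p, hpp, h1, h2⟩ := Nat.Prime.not_coprime_iff_dvd.mp h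
      symm
      apply Finset.prod_eq_zero (Nat.mem_primeFactors.mpr ⟨hpp, h2, hM⟩)
      rw [if_pos h1]
      norm_num
  rw [h1, Finset.prod_one_add]
  refine Finset.sum_congr rfl fun S hS => ?_
  have hSP : ∀ p ∈ S, p.Prime := fun p hp =>
    Nat.prime_of_mem_primeFactors (Finset.mem_powerset.mp hS hp)
  split_ifs with h
  · rw [Finset.prod_congr rfl fun p hp => if_pos ((Finset.dvd_prod_of_mem (fun p => p) hp).trans h),
      Finset.prod_const]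
  · have h2 : ∃ p ∈ S, ¬ p ∣ n := by
      by_contra hcon
      push Not at hcon
      exact h (Finset.prod_primes_dvd n (fun p hp => (hSP p hp).prime) hcon)
    obtain ⟨p, hp, hpn⟩ := h2
    exact Finset.prod_eq_zero hp (if_neg hpn)

private theorem U0_min (σ x : ℝ) (h0 : 0 ≤ σ) (h1 : σ ≤ 1) (hx : 0 < x) :
    |((⌊x⌋₊ : ℕ) : ℝ) - x| ≤ x ^ σ := by
  have h2 := Nat.floor_le hx.le
  have h3 := Nat.lt_floor_add_one x
  rw [abs_sub_comm, abs_of_nonneg (by linarith)]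
  rcases le_or_gt x 1 with h | h
  · have h4 : x ^ (1 : ℝ) ≤ x ^ σ := Real.rpow_le_rpow_of_exponent_ge hx h h1
    rw [Real.rpow_one] at h4
    have h5 : (0 : ℝ) ≤ (⌊x⌋₊ : ℕ) := Nat.cast_nonneg _
    linarith
  · have h4 : 1 ≤ x ^ σ := Real.one_le_rpow h.le h0
    linarith

/-- U0. PROOF. `Ph M t = ∑_{d ∣ M} μ(d) ⌊t/d⌋` (from `∑_{d ∣ gcd(n,M)} μ(d) = [gcd(n,M) = 1]`, the number of
multiples of `d` in `[1, ⌊t⌋]` is `⌊t⌋/d = ⌊t/d⌋`), and `φ(M)/M = ∑_{d ∣ M} μ(d)/d`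
(for squarefree `M`: `∏ (1 - 1/p)`). So the difference is at most
`∑_{d ∣ M} |⌊t/d⌋ - t/d| ≤ ∑_{d ∣ M} min 1 (t/d) ≤ ∑_{d ∣ M} (t/d)^σ = t^σ ∏_{p ∣ M} (1 + p^(-σ))`
(squarefree `M`, the divisors are the products of the subsets of `M.primeFactors`,
`Finset.prod_one_add` / `Nat.sum_divisors...`; `min 1 x ≤ x^σ` for `0 ≤ σ ≤ 1`). -/
theorem Ph_near (M : ℕ) (hM : Squarefree M) (σ t : ℝ) (h0 : 0 ≤ σ) (h1 : σ ≤ 1) (ht : 0 < t) :
    |Ph M t - (M.totient : ℝ) / (M : ℝ) * t|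
      ≤ t ^ σ * ∏ p ∈ M.primeFactors, (1 + (p : ℝ) ^ (-σ)) := by
  have hM0 : M ≠ 0 := hM.ne_zero
  have hM0' : (M : ℝ) ≠ 0 := by exact_mod_cast hM0
  have hPh : Ph M t = ∑ S ∈ M.primeFactors.powerset,
      (-1 : ℝ) ^ S.card * ((⌊t⌋₊ / (∏ p ∈ S, p) : ℕ) : ℝ) := by
    unfold Ph
    rw [Finset.card_filter]
    push_cast
    rw [Finset.sum_congr rfl fun n _ => U0_ind M n hM0, Finset.sum_comm]
    refine Finset.sum_congr rfl fun S _ => ?_
    rw [← Finset.sum_filter, Finset.sum_const, nsmul_eq_mul, mul_comm]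
    congr 2
    exact Nat.Ioc_filter_dvd_card_eq_div _ _
  have htot : (M.totient : ℝ) / (M : ℝ) = ∑ S ∈ M.primeFactors.powerset,
      (-1 : ℝ) ^ S.card * (1 / (∏ p ∈ S, (p : ℝ))) := by
    have h1 : (M.totient : ℝ) = M * ∏ p ∈ M.primeFactors, (1 - (p : ℝ)⁻¹) := by
      have h2 := Nat.totient_eq_mul_prod_factors M
      have h3 : ((M.totient : ℚ) : ℝ) = ((M * ∏ p ∈ M.primeFactors, (1 - (p : ℚ)⁻¹) : ℚ) : ℝ) := by
        rw [h2]
      push_cast at h3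
      exact h3
    rw [h1, mul_div_cancel_left₀ _ hM0']
    rw [Finset.prod_congr rfl fun (p : ℕ) _ => show 1 - (p : ℝ)⁻¹ = 1 + (-(p : ℝ)⁻¹) by ring,
      Finset.prod_one_add]
    refine Finset.sum_congr rfl fun S _ => ?_
    rw [Finset.prod_congr rfl fun (p : ℕ) _ => show -(p : ℝ)⁻¹ = (-1) * (p : ℝ)⁻¹ by ring,
      Finset.prod_mul_distrib, Finset.prod_const, Finset.prod_inv_distrib, one_div]
  rw [hPh, htot, Finset.sum_mul, ← Finset.sum_sub_distrib]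
  have hterm : ∀ S ∈ M.primeFactors.powerset,
      |(-1 : ℝ) ^ S.card * ((⌊t⌋₊ / (∏ p ∈ S, p) : ℕ) : ℝ) -
        (-1 : ℝ) ^ S.card * (1 / (∏ p ∈ S, (p : ℝ))) * t| ≤
        t ^ σ * ∏ p ∈ S, (p : ℝ) ^ (-σ) := by
    intro S hS
    have hSP : ∀ p ∈ S, p.Prime := fun p hp =>
      Nat.prime_of_mem_primeFactors (Finset.mem_powerset.mp hS hp)
    have hD : (0 : ℝ) < ∏ p ∈ S, (p : ℝ) := Finset.prod_pos fun p hp => by
      exact_mod_cast (hSP p hp).pos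
    have e1 : (-1 : ℝ) ^ S.card * ((⌊t⌋₊ / (∏ p ∈ S, p) : ℕ) : ℝ) -
        (-1 : ℝ) ^ S.card * (1 / (∏ p ∈ S, (p : ℝ))) * t =
        (-1 : ℝ) ^ S.card * (((⌊t / (∏ p ∈ S, (p : ℝ))⌋₊ : ℕ) : ℝ) - t / (∏ p ∈ S, (p : ℝ))) := by
      have e2 : ⌊t / (∏ p ∈ S, (p : ℝ))⌋₊ = ⌊t⌋₊ / (∏ p ∈ S, p) := by
        have := Nat.floor_div_natCast t (∏ p ∈ S, p)
        push_cast at this
        exact this
      rw [e2]
      ring
    rw [e1, abs_mul, abs_pow, abs_neg, abs_one, one_pow, one_mul]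
    refine (U0_min σ _ h0 h1 (div_pos ht hD)).trans (le_of_eq ?_)
    rw [Real.div_rpow ht.le hD.le, ← Real.finsetProd_rpow _ _ (fun p hp => by
      exact (Nat.cast_nonneg p)), div_eq_mul_inv, ← Finset.prod_inv_distrib]
    congr 1
    refine Finset.prod_congr rfl fun p hp => ?_
    rw [Real.rpow_neg (Nat.cast_nonneg p)]
  calc _ ≤ ∑ S ∈ M.primeFactors.powerset,
      |(-1 : ℝ) ^ S.card * ((⌊t⌋₊ / (∏ p ∈ S, p) : ℕ) : ℝ) -
        (-1 : ℝ) ^ S.card * (1 / (∏ p ∈ S, (p : ℝ))) * t| := Finset.abs_sum_le_sum_abs _ _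
    _ ≤ ∑ S ∈ M.primeFactors.powerset, t ^ σ * ∏ p ∈ S, (p : ℝ) ^ (-σ) :=
        Finset.sum_le_sum hterm
    _ = t ^ σ * ∏ p ∈ M.primeFactors, (1 + (p : ℝ) ^ (-σ)) := by
        rw [← Finset.mul_sum, Finset.prod_one_add]

end Pool.Agent.MU
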