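import Mathlib
import Pool.Agent.Lib.MP_bae66e_nt.MU.U0
import Pool.Agent.Lib.MP_bae66e_nt.MU.P8

/-!
# Maier matrices, uniformly in the scale: U1, Rankin for the modulus
-/

set_option autoImplicit false

namespace Pool.Agent.MU

open Pool.Agent.GM Pool.Agent.MG

/-- U1. PROOF. `Ph_near` with `σ = 1 - ξ/log z ∈ [0, 1]`, multiplied by `M/φ(M)`:
`|Del M t| ≤ (M/φ(M)) t^σ ∏_{p ∣ M} (1 + p^(-σ))`; the factor of `p = 2` is `≤ 2`, the product of the others is
at most `exp (∑_{p ∈ PP} p^(-σ)) = exp (ff z p₁ ξ)` (`1 + x ≤ exp x`; `MM_primeFactors`). -/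
theorem Del_le (z p₁ : ℕ) (hz : 4 ≤ z) (ξ t : ℝ) (h0 : 0 ≤ ξ) (h1 : ξ ≤ Real.log z)
    (ht : 0 < t) :
    |Del (MM z p₁) t| ≤ 2 * ((MM z p₁ : ℝ) / ((MM z p₁).totient : ℝ))
      * t ^ (1 - ξ / Real.log z) * Real.exp (ff z p₁ ξ) := by
  have hzr : (4 : ℝ) ≤ (z : ℝ) := by exact_mod_cast hz
  have hL : 0 < Real.log z := Real.log_pos (by linarith)
  have hMpos : (0 : ℝ) < (MM z p₁ : ℝ) := by exact_mod_cast MM_pos z p₁
  have hφpos : (0 : ℝ) < ((MM z p₁).totient : ℝ) := by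
    exact_mod_cast Nat.totient_pos.mpr (MM_pos z p₁)
  have hσ0 : 0 ≤ 1 - ξ / Real.log z := by
    rw [sub_nonneg, div_le_one hL]
    exact h1
  have hσ1 : 1 - ξ / Real.log z ≤ 1 := by
    have : 0 ≤ ξ / Real.log z := div_nonneg h0 hL.le
    linarith
  have hnear := Ph_near (MM z p₁) (MM_squarefree z p₁ hz) (1 - ξ / Real.log z) t hσ0 hσ1 ht
  obtain ⟨h2, hpf⟩ := MM_primeFactors z p₁ hz
  have hprod : ∏ p ∈ (MM z p₁).primeFactors, (1 + (p : ℝ) ^ (-(1 - ξ / Real.log z))) ≤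
      2 * Real.exp (ff z p₁ ξ) := by
    rw [hpf, Finset.prod_insert h2]
    apply mul_le_mul
    · have : ((2 : ℕ) : ℝ) ^ (-(1 - ξ / Real.log z)) ≤ 1 :=
        Real.rpow_le_one_of_one_le_of_nonpos (by norm_num) (by linarith)
      linarith
    · unfold ff
      rw [Real.exp_sum]
      apply Finset.prod_le_prod
      · intro p _
        positivity
      · intro p _
        have e : -(1 - ξ / Real.log z) = -1 + ξ / Real.log z := by ring
        rw [e, add_comm]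
        exact Real.add_one_le_exp _
    · apply Finset.prod_nonneg
      intro p _
      positivity
    · norm_num
  have hDel : Del (MM z p₁) t = (MM z p₁ : ℝ) / ((MM z p₁).totient : ℝ) *
      (Ph (MM z p₁) t - ((MM z p₁).totient : ℝ) / (MM z p₁ : ℝ) * t) := by
    unfold Del
    field_simp
  have hR : 0 ≤ (MM z p₁ : ℝ) / ((MM z p₁).totient : ℝ) := by positivity
  rw [hDel, abs_mul, abs_of_nonneg hR]
  calc (MM z p₁ : ℝ) / ((MM z p₁).totient : ℝ) *
        |Ph (MM z p₁) t - ((MM z p₁).totient : ℝ) / (MM z p₁ : ℝ) * t|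
      ≤ (MM z p₁ : ℝ) / ((MM z p₁).totient : ℝ) * (t ^ (1 - ξ / Real.log z) *
        ∏ p ∈ (MM z p₁).primeFactors, (1 + (p : ℝ) ^ (-(1 - ξ / Real.log z)))) :=
        mul_le_mul_of_nonneg_left hnear hR
    _ ≤ (MM z p₁ : ℝ) / ((MM z p₁).totient : ℝ) * (t ^ (1 - ξ / Real.log z) *
        (2 * Real.exp (ff z p₁ ξ))) := by gcongr
    _ = _ := by ring

end Pool.Agent.MU
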