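import Mathlib
import Pool.Agent.Lib.MP_bae66e_nt.MU.P6
import Pool.Agent.Lib.MP_bae66e_nt.MU.U1
import Pool.Agent.Lib.MP_bae66e_nt.MU.G4

/-!
# Maier matrices, uniformly in the scale: G6a, upper tail
-/

set_option autoImplicit false

namespace Pool.Agent.MU

open Pool.Agent.GM Pool.Agent.MG MeasureTheory

private theorem G6a_log (δ : ℝ) (h0 : 0 < δ) (h1 : δ ≤ 1 / 8) :
    (1 + δ) * (1 - Real.log (1 + δ)) ≤ 1 - δ ^ 2 / 4 := by
  have h2 : 2 * δ / (δ + 2) ≤ Real.log (1 + δ) := Real.le_log_one_add_of_nonneg h0.le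
  have h3 : δ - δ ^ 2 / 2 ≤ 2 * δ / (δ + 2) := by
    rw [le_div_iff₀ (by linarith)]
    have : 0 ≤ δ ^ 3 := by positivity
    nlinarith
  have h4 : (1 + δ) * (1 - Real.log (1 + δ)) ≤ (1 + δ) * (1 - (δ - δ ^ 2 / 2)) :=
    mul_le_mul_of_nonneg_left (by linarith) (by linarith)
  have h5 : δ ^ 3 ≤ δ ^ 2 * (1 / 8) := by
    have : δ ^ 3 = δ ^ 2 * δ := by ring
    rw [this]
    exact mul_le_mul_of_nonneg_left h1 (by positivity)
  nlinarith

/-- G6a. PROOF. `V = ff z p₁ ξ`, `L = log z`, `ξ₁ = ξ + log (1+δ) ≤ L`. By `Del_le` with `ξ₁`, `ff_add`, `kap_le`,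
`MM_ratio`: for `t > 1` `|kap Del| ≤ 4 C₀ t^(-σ-1) t^(1-ξ₁/L) exp ((1+δ) V) = 4 C₀ exp ((1+δ) V) t^(-1 - log(1+δ)/L)`.
Its integral over `(z^((1+δ)V), ∞)` is
`4 C₀ exp ((1+δ) V) (L/log (1+δ)) (1+δ)^(-(1+δ) V) = (4 C₀ L/log (1+δ)) exp (V (1+δ)(1 - log (1+δ)))`, and
`(1+δ)(1 - log (1+δ)) ≤ 1 - δ^2/4` for `0 < δ ≤ 1/8` (`log (1+δ) ≥ δ - δ^2/2`). The constant is absorbed for
`V ≥ V₀`. -/
theorem tail_hi (δ : ℝ) (h0 : 0 < δ) (h1 : δ ≤ 1 / 8) : ∃ (V₀ : ℝ) (z₀ : ℕ), ∀ z : ℕ, z₀ ≤ z →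
    ∀ (p₁ : ℕ) (ξ : ℝ), 1 ≤ ξ → ξ ≤ (1 / 2) * Real.log z → V₀ ≤ ff z p₁ ξ → ∀ φ : ℝ,
      ∫ t in Set.Ioi ((z : ℝ) ^ ((1 + δ) * ff z p₁ ξ)),
        |kap z (1 - ξ / Real.log z) φ t * Del (MM z p₁) t|
          ≤ Real.log z * Real.exp ((1 - δ ^ 2 / 5) * ff z p₁ ξ) := by
  obtain ⟨C₀, hC1, hC⟩ := MM_ratio
  obtain ⟨l, hl⟩ : ∃ l, l = Real.log (1 + δ) := ⟨_, rfl⟩
  have hl0 : 0 < l := by rw [hl]; exact Real.log_pos (by linarith)
  have hl1 : l ≤ 1 / 8 := by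
    have := Real.log_le_sub_one_of_pos (show 0 < 1 + δ by linarith)
    rw [hl]
    linarith
  obtain ⟨K, hK⟩ : ∃ K, K = 4 * C₀ / l := ⟨_, rfl⟩
  have hK0 : 0 < K := by rw [hK]; positivity
  refine ⟨max 0 (20 / δ ^ 2 * Real.log K), 4, fun z hz p₁ ξ hξ1 hξ2 hV φ => ?_⟩
  obtain ⟨V, hVdef⟩ : ∃ V, V = ff z p₁ ξ := ⟨_, rfl⟩
  rw [← hVdef] at hV ⊢
  have hV0 : 0 ≤ V := le_trans (le_max_left _ _) hV
  have hVK : 20 / δ ^ 2 * Real.log K ≤ V := le_trans (le_max_right _ _) hV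
  have hz4 : (4 : ℝ) ≤ z := by exact_mod_cast hz
  obtain ⟨L, hL⟩ : ∃ L, L = Real.log z := ⟨_, rfl⟩
  rw [← hL] at hξ2 ⊢
  have hL1 : 1 ≤ L := by
    have h2 : Real.log 4 ≤ L := by
      rw [hL]
      exact Real.log_le_log (by norm_num) hz4
    have h3 : Real.log 4 = 2 * Real.log 2 := by
      rw [show (4 : ℝ) = 2 ^ 2 by norm_num, Real.log_pow]
      norm_num
    have := Real.log_two_gt_d9
    linarith
  have hL0 : 0 < L := by linarith
  have hzpos : (0 : ℝ) < z := by linarith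
  obtain ⟨a, ha⟩ : ∃ a, a = (z : ℝ) ^ ((1 + δ) * V) := ⟨_, rfl⟩
  rw [← ha]
  have hapos : 0 < a := by rw [ha]; exact Real.rpow_pos_of_pos hzpos _
  -- the pointwise bound
  have hff : ff z p₁ (ξ + l) ≤ (1 + δ) * V := by
    rw [hl, hVdef]
    exact ff_add z p₁ (by omega) ξ δ h0.le
  have hpt : ∀ t : ℝ, 0 < t → |kap z (1 - ξ / L) φ t * Del (MM z p₁) t| ≤
      4 * C₀ * Real.exp ((1 + δ) * V) * t ^ (-1 - l / L) := by
    intro t ht
    have h2 := Del_le z p₁ hz (ξ + l) t (by linarith) (by rw [← hL]; linarith) ht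
    rw [← hL] at h2
    have h3 : Real.exp (ff z p₁ (ξ + l)) ≤ Real.exp ((1 + δ) * V) := Real.exp_le_exp.2 hff
    have h4 : 0 ≤ kap z (1 - ξ / L) φ t := kap_nonneg _ _ _ _ ht.le
    have h5 := kap_le z (1 - ξ / L) φ t ht.le
    have h6 : (0 : ℝ) ≤ (MM z p₁ : ℝ) / ((MM z p₁).totient : ℝ) :=
      le_trans zero_le_one (hC z p₁ hz).1
    have h7 := (hC z p₁ hz).2
    have h8 : |Del (MM z p₁) t| ≤ 2 * C₀ * t ^ (1 - (ξ + l) / L) * Real.exp ((1 + δ) * V) := by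
      refine h2.trans ?_
      gcongr
    rw [abs_mul, abs_of_nonneg h4]
    calc kap z (1 - ξ / L) φ t * |Del (MM z p₁) t|
        ≤ (2 * t ^ (-(1 - ξ / L) - 1)) *
            (2 * C₀ * t ^ (1 - (ξ + l) / L) * Real.exp ((1 + δ) * V)) :=
          mul_le_mul h5 h8 (abs_nonneg _) (by positivity)
      _ = 4 * C₀ * Real.exp ((1 + δ) * V) *
            (t ^ (-(1 - ξ / L) - 1) * t ^ (1 - (ξ + l) / L)) := by ring
      _ = 4 * C₀ * Real.exp ((1 + δ) * V) * t ^ (-1 - l / L) := by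
          rw [← Real.rpow_add ht]
          congr 2
          field_simp
          ring
  have hexp : -1 - l / L < -1 := by
    have : 0 < l / L := by positivity
    linarith
  have hint : Integrable (fun t : ℝ => 4 * C₀ * Real.exp ((1 + δ) * V) * t ^ (-1 - l / L))
      (volume.restrict (Set.Ioi a)) :=
    (integrableOn_Ioi_rpow_of_lt hexp hapos).const_mul _
  have hle : ∫ t in Set.Ioi a, |kap z (1 - ξ / L) φ t * Del (MM z p₁) t| ≤
      ∫ t in Set.Ioi a, 4 * C₀ * Real.exp ((1 + δ) * V) * t ^ (-1 - l / L) := by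
    refine integral_mono_of_nonneg (Filter.Eventually.of_forall fun t => abs_nonneg _) hint ?_
    refine (ae_restrict_iff' measurableSet_Ioi).2 (Filter.Eventually.of_forall fun t ht => ?_)
    exact hpt t (hapos.trans ht)
  refine hle.trans ?_
  rw [integral_const_mul, integral_Ioi_rpow_of_lt hexp hapos]
  have h9 : -a ^ (-1 - l / L + 1) / (-1 - l / L + 1) = L / l * Real.exp (-(l * ((1 + δ) * V))) := by
    have e1 : -1 - l / L + 1 = -(l / L) := by ring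
    have e2 : a ^ (-(l / L)) = Real.exp (-(l * ((1 + δ) * V))) := by
      rw [ha, ← Real.rpow_mul hzpos.le, Real.rpow_def_of_pos hzpos, ← hL]
      congr 1
      field_simp
    rw [e1, e2]
    field_simp
  rw [h9]
  have h10 : Real.exp ((1 + δ) * V) * Real.exp (-(l * ((1 + δ) * V))) ≤
      Real.exp ((1 - δ ^ 2 / 5) * V) * Real.exp (-(δ ^ 2 / 20 * V)) := by
    rw [← Real.exp_add, ← Real.exp_add]
    apply Real.exp_le_exp.2
    have h11 := mul_le_mul_of_nonneg_right (G6a_log δ h0 h1) hV0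
    rw [← hl] at h11
    linarith
  have h12 : K * Real.exp (-(δ ^ 2 / 20 * V)) ≤ 1 := by
    have h13 : Real.log K ≤ δ ^ 2 / 20 * V := by
      have h14 := mul_le_mul_of_nonneg_left hVK (show 0 ≤ δ ^ 2 / 20 by positivity)
      have h15 : δ ^ 2 / 20 * (20 / δ ^ 2 * Real.log K) = Real.log K := by field_simp
      linarith
    have h16 : K = Real.exp (Real.log K) := (Real.exp_log hK0).symm
    rw [h16, ← Real.exp_add]
    apply Real.exp_le_one_iff.2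
    linarith
  calc 4 * C₀ * Real.exp ((1 + δ) * V) * (L / l * Real.exp (-(l * ((1 + δ) * V))))
      = L * K * (Real.exp ((1 + δ) * V) * Real.exp (-(l * ((1 + δ) * V)))) := by
        rw [hK]
        ring
    _ ≤ L * K * (Real.exp ((1 - δ ^ 2 / 5) * V) * Real.exp (-(δ ^ 2 / 20 * V))) :=
        mul_le_mul_of_nonneg_left h10 (by positivity)
    _ = L * Real.exp ((1 - δ ^ 2 / 5) * V) * (K * Real.exp (-(δ ^ 2 / 20 * V))) := by ring
    _ ≤ L * Real.exp ((1 - δ ^ 2 / 5) * V) * 1 :=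
        mul_le_mul_of_nonneg_left h12 (by positivity)
    _ = L * Real.exp ((1 - δ ^ 2 / 5) * V) := mul_one _

end Pool.Agent.MU
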