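import Mathlib
import Pool.Agent.Lib.MP_bae66e_nt.MU.P6
import Pool.Agent.Lib.MP_bae66e_nt.MU.U1
import Pool.Agent.Lib.MP_bae66e_nt.MU.G4

/-!
# Maier matrices, uniformly in the scale: G6b, lower tail
-/

set_option autoImplicit false

namespace Pool.Agent.MU

open Pool.Agent.GM Pool.Agent.MG MeasureTheory

private lemma G6b_log (δ : ℝ) (h0 : 0 < δ) (h1 : δ ≤ 1 / 8) :
    (1 - δ + δ ^ 3) + (-Real.log (1 - δ)) * (1 - δ) ≤ 1 - δ ^ 2 / 4 := by
  have h2 := Real.abs_log_sub_add_sum_range_le (x := δ) (by rw [abs_of_pos h0]; linarith) 2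
  rw [abs_of_pos h0] at h2
  have h3 := (abs_le.mp h2).1
  simp only [Finset.sum_range_succ, Finset.sum_range_zero] at h3
  norm_num at h3
  have h4 : 0 < 1 - δ := by linarith
  have h5 : (-Real.log (1 - δ)) * (1 - δ) ≤ (δ + δ ^ 2 / 2) * (1 - δ) + δ ^ 3 := by
    have h6 : -Real.log (1 - δ) ≤ δ + δ ^ 2 / 2 + δ ^ 3 / (1 - δ) := by linarith
    calc (-Real.log (1 - δ)) * (1 - δ) ≤ (δ + δ ^ 2 / 2 + δ ^ 3 / (1 - δ)) * (1 - δ) :=
          mul_le_mul_of_nonneg_right h6 h4.le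
      _ = (δ + δ ^ 2 / 2) * (1 - δ) + δ ^ 3 := by
          field_simp
  nlinarith [pow_pos h0 2, pow_pos h0 3]

/-- G6b. PROOF. `V = ff z p₁ ξ`, `L = log z`, `ξ₁ = ξ + log (1-δ) ≥ 0` (`ξ ≥ 1`). By `Del_le` with `ξ₁`, `ff_sub`,
`kap_le`, `MM_ratio`: for `t > 1` `|kap Del| ≤ 4 C₀ exp ((1-δ+δ^3) V) t^(-1 - log(1-δ)/L)` (the exponent is
`-1 + |log (1-δ)|/L > -1`). Its integral over `(1, z^((1-δ)V)]` is at most
`4 C₀ exp ((1-δ+δ^3) V) (L/|log (1-δ)|) (1-δ)^(-(1-δ) V)`, and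
`(1-δ+δ^3) - (1-δ) log (1-δ) ≤ 1 - δ^2/4` for `0 < δ ≤ 1/8` (`- log (1-δ) ≤ δ + δ^2/2 + δ^3`). The constant is
absorbed for `V ≥ V₀`. -/
theorem tail_lo (δ : ℝ) (h0 : 0 < δ) (h1 : δ ≤ 1 / 8) : ∃ (V₀ : ℝ) (z₀ : ℕ), ∀ z : ℕ, z₀ ≤ z →
    ∀ (p₁ : ℕ) (ξ : ℝ), 1 ≤ ξ → ξ ≤ (1 / 2) * Real.log z → V₀ ≤ ff z p₁ ξ → ∀ φ : ℝ,
      ∫ t in Set.Ioc 1 ((z : ℝ) ^ ((1 - δ) * ff z p₁ ξ)),
        |kap z (1 - ξ / Real.log z) φ t * Del (MM z p₁) t|
          ≤ Real.log z * Real.exp ((1 - δ ^ 2 / 5) * ff z p₁ ξ) := by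
  obtain ⟨V₁, z₁, hff⟩ := ff_sub δ h0 (by linarith)
  obtain ⟨C, hC1, hC⟩ := MM_ratio
  have hδ1 : 0 < 1 - δ := by linarith
  set c : ℝ := -Real.log (1 - δ) with hc
  have hc0 : 0 < c := by
    rw [hc]
    have := Real.log_neg hδ1 (by linarith)
    linarith
  have hc1 : c ≤ 1 := by
    have h2 : Real.exp (-1) ≤ 1 - δ := by
      have h3 : Real.exp (-1) < 1 / 2 := by
        have := Real.exp_neg_one_lt_half
        linarith
      linarith
    have h4 := (Real.le_log_iff_exp_le hδ1).mpr h2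
    rw [hc]
    linarith
  refine ⟨max (max V₁ 0) (20 / δ ^ 2 * Real.log (4 * C / c)), max z₁ 4, ?_⟩
  intro z hz p₁ ξ hξ1 hξ2 hV φ
  have hz1 : z₁ ≤ z := (le_max_left _ _).trans hz
  have hz4 : 4 ≤ z := (le_max_right _ _).trans hz
  have hzr : (4 : ℝ) ≤ z := by exact_mod_cast hz4
  have hz0 : (0 : ℝ) < z := by linarith
  set L : ℝ := Real.log z with hL
  have hL0 : 0 < L := Real.log_pos (by linarith)
  set V : ℝ := ff z p₁ ξ with hVd
  have hV1 : V₁ ≤ V := (le_max_left _ _).trans ((le_max_left _ _).trans hV)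
  have hV0 : 0 ≤ V := (le_max_right _ _).trans ((le_max_left _ _).trans hV)
  have hV2 : 20 / δ ^ 2 * Real.log (4 * C / c) ≤ V := (le_max_right _ _).trans hV
  have hff' := hff z hz1 p₁ ξ (by linarith) (by linarith) hV1
  have hξ₁ : ξ + Real.log (1 - δ) = ξ - c := by rw [hc]; ring
  rw [hξ₁] at hff'
  have hr := hC z p₁ hz4
  have hDel : ∀ t : ℝ, 0 < t → |Del (MM z p₁) t| ≤ 2 * C * t ^ (1 - (ξ - c) / L)
      * Real.exp ((1 - δ + δ ^ 3) * V) := by
    intro t ht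
    refine (Del_le z p₁ hz4 (ξ - c) t (by linarith) (by linarith) ht).trans ?_
    have h5 : 0 ≤ t ^ (1 - (ξ - c) / L) := Real.rpow_nonneg ht.le _
    have h6 := hr.2
    have h7 : (0 : ℝ) ≤ (MM z p₁ : ℝ) / ((MM z p₁).totient : ℝ) := by linarith [hr.1]
    gcongr
  have hpt : ∀ t ∈ Set.Ioc (1 : ℝ) ((z : ℝ) ^ ((1 - δ) * V)),
      |kap z (1 - ξ / L) φ t * Del (MM z p₁) t|
        ≤ 4 * C * Real.exp ((1 - δ + δ ^ 3) * V) * t ^ (c / L - 1) := by
    intro t ht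
    have ht0 : 0 < t := by linarith [ht.1]
    rw [abs_mul, abs_of_nonneg (kap_nonneg _ _ _ _ ht0.le)]
    have h5 : 0 ≤ t ^ (-(1 - ξ / L) - 1) := Real.rpow_nonneg ht0.le _
    calc kap z (1 - ξ / L) φ t * |Del (MM z p₁) t|
        ≤ (2 * t ^ (-(1 - ξ / L) - 1)) * (2 * C * t ^ (1 - (ξ - c) / L)
          * Real.exp ((1 - δ + δ ^ 3) * V)) := by
          apply mul_le_mul (kap_le _ _ _ _ ht0.le) (hDel t ht0) (abs_nonneg _)
          positivity
      _ = 4 * C * Real.exp ((1 - δ + δ ^ 3) * V) * (t ^ (-(1 - ξ / L) - 1)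
          * t ^ (1 - (ξ - c) / L)) := by ring
      _ = 4 * C * Real.exp ((1 - δ + δ ^ 3) * V) * t ^ (c / L - 1) := by
          rw [← Real.rpow_add ht0]
          congr 2
          field_simp
          ring
  have hr0 : 0 < c / L := div_pos hc0 hL0
  have hB1 : (1 : ℝ) ≤ (z : ℝ) ^ ((1 - δ) * V) :=
    Real.one_le_rpow (by linarith) (mul_nonneg hδ1.le hV0)
  have hint : IntervalIntegrable (fun t : ℝ => t ^ (c / L - 1)) volume 1 ((z : ℝ) ^ ((1 - δ) * V)) :=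
    intervalIntegral.intervalIntegrable_rpow' (by linarith)
  have hI : ∫ t in Set.Ioc (1 : ℝ) ((z : ℝ) ^ ((1 - δ) * V)), t ^ (c / L - 1)
      ≤ L / c * Real.exp (c * (1 - δ) * V) := by
    rw [← intervalIntegral.integral_of_le hB1, integral_rpow (Or.inl (by linarith))]
    have h8 : c / L - 1 + 1 = c / L := by ring
    rw [h8, Real.one_rpow]
    have h9 : ((z : ℝ) ^ ((1 - δ) * V)) ^ (c / L) = Real.exp (c * (1 - δ) * V) := by
      rw [← Real.rpow_mul hz0.le, Real.rpow_def_of_pos hz0, ← hL]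
      congr 1
      field_simp
    rw [h9]
    have h10 : L / c * Real.exp (c * (1 - δ) * V) = Real.exp (c * (1 - δ) * V) / (c / L) := by
      field_simp
    rw [h10]
    apply div_le_div_of_nonneg_right _ hr0.le
    linarith
  have hmono : ∫ t in Set.Ioc 1 ((z : ℝ) ^ ((1 - δ) * V)),
        |kap z (1 - ξ / L) φ t * Del (MM z p₁) t|
      ≤ ∫ t in Set.Ioc (1 : ℝ) ((z : ℝ) ^ ((1 - δ) * V)),
        4 * C * Real.exp ((1 - δ + δ ^ 3) * V) * t ^ (c / L - 1) := by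
    apply MeasureTheory.integral_mono_of_nonneg
    · exact Filter.Eventually.of_forall (fun t => abs_nonneg _)
    · apply MeasureTheory.Integrable.const_mul
      rw [intervalIntegrable_iff_integrableOn_Ioc_of_le hB1] at hint
      exact hint
    · rw [Filter.EventuallyLE, MeasureTheory.ae_restrict_iff' measurableSet_Ioc]
      exact Filter.Eventually.of_forall hpt
  refine hmono.trans ?_
  rw [MeasureTheory.integral_const_mul]
  have hC0 : 0 < C := by linarith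
  have hlog : Real.log (4 * C / c) ≤ δ ^ 2 / 20 * V := by
    have h11 : 0 < δ ^ 2 := by positivity
    have h12 := mul_le_mul_of_nonneg_left hV2 (by positivity : (0 : ℝ) ≤ δ ^ 2 / 20)
    have h13 : δ ^ 2 / 20 * (20 / δ ^ 2 * Real.log (4 * C / c)) = Real.log (4 * C / c) := by
      field_simp
    linarith
  have hcst : 4 * C / c ≤ Real.exp (δ ^ 2 / 20 * V) :=
    (Real.log_le_iff_le_exp (by positivity)).mp hlog
  calc 4 * C * Real.exp ((1 - δ + δ ^ 3) * V)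
        * ∫ t in Set.Ioc (1 : ℝ) ((z : ℝ) ^ ((1 - δ) * V)), t ^ (c / L - 1)
      ≤ 4 * C * Real.exp ((1 - δ + δ ^ 3) * V) * (L / c * Real.exp (c * (1 - δ) * V)) := by
        gcongr
    _ = L * (4 * C / c) * Real.exp (((1 - δ + δ ^ 3) + c * (1 - δ)) * V) := by
        have h15 : ((1 - δ + δ ^ 3) + c * (1 - δ)) * V = (1 - δ + δ ^ 3) * V + c * (1 - δ) * V := by
          ring
        rw [h15, Real.exp_add]
        ring
    _ ≤ L * Real.exp (δ ^ 2 / 20 * V) * Real.exp ((1 - δ ^ 2 / 4) * V) := by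
        have h14 := G6b_log δ h0 h1
        rw [← hc] at h14
        gcongr
    _ = L * Real.exp ((1 - δ ^ 2 / 5) * V) := by
        rw [mul_assoc, ← Real.exp_add]
        congr 2
        ring

end Pool.Agent.MU
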