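import Mathlib
import Pool.Agent.Lib.MP_bae66e_nt.MU.G5
import Pool.Agent.Lib.MP_bae66e_nt.MU.G6a
import Pool.Agent.Lib.MP_bae66e_nt.MU.G6b

/-!
# Maier matrices, uniformly in the scale: G7, truncated oscillation
-/

set_option autoImplicit false

namespace Pool.Agent.MU

open Pool.Agent.GM Pool.Agent.MG MeasureTheory

private lemma G7_split (f : ℝ → ℝ) (a₁ a₂ : ℝ) (h1 : 1 ≤ a₁) (h2 : a₁ ≤ a₂)
    (hf : IntegrableOn f (Set.Ioi 1)) (s : ℝ) (hs : s = 1 ∨ s = -1) :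
    s * (∫ t in Set.Ioi (1 : ℝ), f t) - (∫ t in Set.Ioc 1 a₁, |f t|) - (∫ t in Set.Ioi a₂, |f t|)
      ≤ s * ∫ t in a₁..a₂, f t := by
  have hi1 : IntegrableOn f (Set.Ioc 1 a₁) := hf.mono_set Set.Ioc_subset_Ioi_self
  have hi2 : IntegrableOn f (Set.Ioi a₁) := hf.mono_set (Set.Ioi_subset_Ioi h1)
  have hi3 : IntegrableOn f (Set.Ioc a₁ a₂) := hi2.mono_set Set.Ioc_subset_Ioi_self
  have hi4 : IntegrableOn f (Set.Ioi a₂) := hi2.mono_set (Set.Ioi_subset_Ioi h2)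
  have e1 : (∫ t in Set.Ioi (1 : ℝ), f t) = (∫ t in Set.Ioc 1 a₁, f t) + ∫ t in Set.Ioi a₁, f t := by
    rw [← Set.Ioc_union_Ioi_eq_Ioi h1]
    exact setIntegral_union (Set.Ioc_disjoint_Ioi le_rfl) measurableSet_Ioi hi1 hi2
  have e2 : (∫ t in Set.Ioi a₁, f t) = (∫ t in Set.Ioc a₁ a₂, f t) + ∫ t in Set.Ioi a₂, f t := by
    rw [← Set.Ioc_union_Ioi_eq_Ioi h2]
    exact setIntegral_union (Set.Ioc_disjoint_Ioi le_rfl) measurableSet_Ioi hi3 hi4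
  have n1 : |∫ t in Set.Ioc 1 a₁, f t| ≤ ∫ t in Set.Ioc 1 a₁, |f t| := by
    have := norm_integral_le_integral_norm (μ := volume.restrict (Set.Ioc 1 a₁)) f
    simpa [Real.norm_eq_abs] using this
  have n2 : |∫ t in Set.Ioi a₂, f t| ≤ ∫ t in Set.Ioi a₂, |f t| := by
    have := norm_integral_le_integral_norm (μ := volume.restrict (Set.Ioi a₂)) f
    simpa [Real.norm_eq_abs] using this
  rw [intervalIntegral.integral_of_le h2, e1, e2]
  have b1 := abs_le.mp n1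
  have b2 := abs_le.mp n2
  rcases hs with h | h
  · rw [h]
    linarith [b1.1, b1.2, b2.1, b2.2]
  · rw [h]
    linarith [b1.1, b1.2, b2.1, b2.2]

/-- G7. PROOF. `osc (δ^3/2)`, minus the two tails (`tail_hi`, `tail_lo`; the integrand is integrable on `(1, ∞)` by
`kap_Del_integrable`). `δ^3 ≤ δ^2/8`, so
`exp ((1 - δ^3/2) V) - 2 exp ((1 - δ^2/5) V) ≥ exp ((1 - δ^3) V)` for `V ≥ V₀`. -/
theorem osc_trunc (δ : ℝ) (h0 : 0 < δ) (h1 : δ ≤ 1 / 8) : ∃ (V₀ : ℝ) (z₀ : ℕ), ∀ z : ℕ, z₀ ≤ z →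
    ∀ (p₁ : ℕ) (ξ : ℝ), 1 ≤ ξ → ξ ≤ (1 / 2) * Real.log z → V₀ ≤ ff z p₁ ξ →
      ∀ s : ℝ, (s = 1 ∨ s = -1) → ∃ φ : ℝ,
        Real.log z * Real.exp ((1 - δ ^ 3) * ff z p₁ ξ)
          ≤ s * ∫ t in ((z : ℝ) ^ ((1 - δ) * ff z p₁ ξ))..((z : ℝ) ^ ((1 + δ) * ff z p₁ ξ)),
            kap z (1 - ξ / Real.log z) φ t * Del (MM z p₁) t := by
  have hd3 : 0 < δ ^ 3 := by positivity
  have hd3le : δ ^ 3 ≤ δ ^ 2 / 8 := by
    have : δ ^ 3 = δ ^ 2 * δ := by ring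
    rw [this]
    nlinarith [sq_nonneg δ]
  have hd2 : 0 < δ ^ 2 := by positivity
  have hd31 : δ ^ 3 ≤ 1 := by nlinarith
  obtain ⟨V1, z1, H1⟩ := osc (δ ^ 3 / 2) (by linarith) (by linarith)
  obtain ⟨V2, z2, H2⟩ := tail_hi δ h0 h1
  obtain ⟨V3, z3, H3⟩ := tail_lo δ h0 h1
  refine ⟨max (max V1 V2) (max V3 (4 / δ ^ 3)), max (max z1 z2) (max z3 2), ?_⟩
  intro z hz p₁ ξ hξ1 hξ2 hV s hs
  have hz1 : z1 ≤ z := le_trans (le_trans (le_max_left _ _) (le_max_left _ _)) hz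
  have hz2 : z2 ≤ z := le_trans (le_trans (le_max_right _ _) (le_max_left _ _)) hz
  have hz3 : z3 ≤ z := le_trans (le_trans (le_max_left _ _) (le_max_right _ _)) hz
  have hz4 : 2 ≤ z := le_trans (le_trans (le_max_right _ _) (le_max_right _ _)) hz
  have hV1 : V1 ≤ ff z p₁ ξ := le_trans (le_trans (le_max_left _ _) (le_max_left _ _)) hV
  have hV2 : V2 ≤ ff z p₁ ξ := le_trans (le_trans (le_max_right _ _) (le_max_left _ _)) hV
  have hV3 : V3 ≤ ff z p₁ ξ := le_trans (le_trans (le_max_left _ _) (le_max_right _ _)) hV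
  have hV4 : 4 / δ ^ 3 ≤ ff z p₁ ξ := le_trans (le_trans (le_max_right _ _) (le_max_right _ _)) hV
  set V : ℝ := ff z p₁ ξ with hVdef
  have hVpos : 0 < V := lt_of_lt_of_le (by positivity) hV4
  have hz' : (2 : ℝ) ≤ z := by exact_mod_cast hz4
  have hLpos : 0 < Real.log z := Real.log_pos (by linarith)
  obtain ⟨φ, hφ⟩ := H1 z hz1 p₁ ξ hξ1 hξ2 hV1 s hs
  refine ⟨φ, ?_⟩
  have t2 := H2 z hz2 p₁ ξ hξ1 hξ2 hV2 φ
  have t3 := H3 z hz3 p₁ ξ hξ1 hξ2 hV3 φ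
  rw [← hVdef] at hφ t2 t3
  have hσ : 0 < 1 - ξ / Real.log z := by
    have : ξ / Real.log z ≤ 1 / 2 := by
      rw [div_le_iff₀ hLpos]; exact hξ2
    linarith
  have ha1 : 1 ≤ (z : ℝ) ^ ((1 - δ) * V) := by
    apply Real.one_le_rpow (by linarith)
    apply mul_nonneg _ hVpos.le
    linarith
  have ha2 : (z : ℝ) ^ ((1 - δ) * V) ≤ (z : ℝ) ^ ((1 + δ) * V) := by
    apply Real.rpow_le_rpow_of_exponent_le (by linarith)
    nlinarith
  have hsplit := G7_split (fun t => kap z (1 - ξ / Real.log z) φ t * Del (MM z p₁) t)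
    ((z : ℝ) ^ ((1 - δ) * V)) ((z : ℝ) ^ ((1 + δ) * V)) ha1 ha2
    (kap_Del_integrable (MM z p₁) z (1 - ξ / Real.log z) φ hσ) s hs
  refine le_trans ?_ hsplit
  have key : Real.exp ((1 - δ ^ 3) * V) + 2 * Real.exp ((1 - δ ^ 2 / 5) * V)
      ≤ Real.exp ((1 - δ ^ 3 / 2) * V) := by
    have e1 : Real.exp ((1 - δ ^ 2 / 5) * V) ≤ Real.exp ((1 - δ ^ 3) * V) := by
      apply Real.exp_le_exp.mpr
      apply mul_le_mul_of_nonneg_right _ hVpos.le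
      nlinarith
    have e2 : Real.exp ((1 - δ ^ 3 / 2) * V)
        = Real.exp ((1 - δ ^ 3) * V) * Real.exp (δ ^ 3 / 2 * V) := by
      rw [← Real.exp_add]
      congr 1
      ring
    have e3 : 3 ≤ Real.exp (δ ^ 3 / 2 * V) := by
      have : 2 ≤ δ ^ 3 / 2 * V := by
        rw [div_le_iff₀ hd3] at hV4
        linarith
      have h2 := Real.add_one_le_exp (δ ^ 3 / 2 * V)
      linarith
    have e4 : 0 < Real.exp ((1 - δ ^ 3) * V) := Real.exp_pos _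
    rw [e2]
    nlinarith
  have key2 := mul_le_mul_of_nonneg_left key hLpos.le
  have ring1 : Real.log z * (Real.exp ((1 - δ ^ 3) * V) + 2 * Real.exp ((1 - δ ^ 2 / 5) * V))
      = Real.log z * Real.exp ((1 - δ ^ 3) * V)
        + 2 * (Real.log z * Real.exp ((1 - δ ^ 2 / 5) * V)) := by ring
  rw [ring1] at key2
  linarith

end Pool.Agent.MU
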