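import Mathlib
import Pool.Agent.Lib.MP_bae66e_nt.MU.U1
import Pool.Agent.Lib.MP_bae66e_nt.MU.G4

/-!
# Maier matrices, uniformly in the scale: G8, shifts by p
-/

set_option autoImplicit false

namespace Pool.Agent.MU

open Pool.Agent.GM Pool.Agent.MG MeasureTheory

private theorem g8_int (D : ℝ → ℝ) (hm : Measurable D) (B σ x y : ℝ) (hB : 0 ≤ B) (hσ : 0 ≤ σ)
    (hx : 0 < x) (hxy : x ≤ y) (hD : ∀ t, 0 < t → |D t| ≤ B * t ^ σ) :
    IntervalIntegrable D volume x y := by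
  rw [intervalIntegrable_iff_integrableOn_Ioc_of_le hxy]
  refine Measure.integrableOn_of_bounded (M := B * y ^ σ) measure_Ioc_lt_top.ne
    hm.aestronglyMeasurable ?_
  filter_upwards [ae_restrict_mem measurableSet_Ioc] with t ht
  rw [Real.norm_eq_abs]
  exact (hD t (hx.trans ht.1)).trans (mul_le_mul_of_nonneg_left
    (Real.rpow_le_rpow (hx.trans ht.1).le ht.2 hσ) hB)

private theorem g8_core (z : ℕ) (hz : 3 ≤ z) (σ φ : ℝ) (h0 : 0 ≤ σ) (h1 : σ ≤ 1) (D : ℝ → ℝ)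
    (hm : Measurable D) (B : ℝ) (hB : 0 ≤ B) (hD : ∀ t, 0 < t → |D t| ≤ B * t ^ σ)
    (a₁ a₂ p : ℝ) (ha : 0 < a₁) (h12 : a₁ ≤ a₂) (hp : 0 ≤ p) (hpa : p < a₁) :
    |(∫ A in a₁..a₂, kap z σ φ A * D (A - p)) - ∫ A in a₁..a₂, kap z σ φ A * D A|
      ≤ 13 * B * p / a₁ := by
  have ha2 : 0 < a₂ := ha.trans_le h12
  have e1 : ∫ A in a₁..a₂, kap z σ φ A * D (A - p) =
      ∫ t in (a₁ - p)..(a₂ - p), kap z σ φ (t + p) * D t := by
    rw [← intervalIntegral.integral_comp_sub_right (fun t => kap z σ φ (t + p) * D t) p]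
    simp only [sub_add_cancel]
  have hDi : ∀ x y : ℝ, 0 < x → x ≤ y → IntervalIntegrable D volume x y := fun x y hx hxy =>
    g8_int D hm B σ x y hB h0 hx hxy hD
  have hgi : ∀ x y : ℝ, 0 < x → x ≤ y →
      IntervalIntegrable (fun t => kap z σ φ (t + p) * D t) volume x y := fun x y hx hxy => by
    refine (hDi x y hx hxy).continuousOn_mul ?_
    refine (kap_continuousOn z σ φ).comp (by fun_prop) ?_
    intro t ht
    rw [Set.uIcc_of_le hxy] at ht
    exact lt_of_lt_of_le hx (ht.1.trans (by linarith))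
  have hhi : ∀ x y : ℝ, 0 < x → x ≤ y →
      IntervalIntegrable (fun t => kap z σ φ t * D t) volume x y := fun x y hx hxy => by
    refine (hDi x y hx hxy).continuousOn_mul ((kap_continuousOn z σ φ).mono ?_)
    intro t ht
    rw [Set.uIcc_of_le hxy] at ht
    exact lt_of_lt_of_le hx ht.1
  have e2 : ∫ t in (a₁ - p)..(a₂ - p), kap z σ φ (t + p) * D t =
      (∫ t in (a₁ - p)..a₁, kap z σ φ (t + p) * D t) +
        (∫ t in a₁..a₂, kap z σ φ (t + p) * D t) -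
          ∫ t in (a₂ - p)..a₂, kap z σ φ (t + p) * D t := by
    rw [intervalIntegral.integral_add_adjacent_intervals
        (hgi (a₁ - p) a₁ (by linarith) (by linarith)) (hgi a₁ a₂ ha h12),
      ← intervalIntegral.integral_add_adjacent_intervals
        (hgi (a₁ - p) (a₂ - p) (by linarith) (by linarith))
        (hgi (a₂ - p) a₂ (by linarith) (by linarith)), add_sub_cancel_right]
  have e3 : (∫ t in a₁..a₂, kap z σ φ (t + p) * D t) - ∫ t in a₁..a₂, kap z σ φ t * D t =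
      ∫ t in a₁..a₂, (kap z σ φ (t + p) - kap z σ φ t) * D t := by
    rw [← intervalIntegral.integral_sub (hgi a₁ a₂ ha h12) (hhi a₁ a₂ ha h12)]
    refine intervalIntegral.integral_congr fun t _ => ?_
    rw [sub_mul]
  have hb : ∀ a : ℝ, a₁ ≤ a → |∫ t in (a - p)..a, kap z σ φ (t + p) * D t| ≤ 2 * B * p / a₁ := by
    intro a haa
    have h := intervalIntegral.norm_integral_le_of_norm_le_const (a := a - p) (b := a)
      (f := fun t => kap z σ φ (t + p) * D t) (C := 2 * B / a₁) ?_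
    · rw [Real.norm_eq_abs] at h
      refine h.trans (le_of_eq ?_)
      rw [sub_sub_cancel, abs_of_nonneg hp]
      ring
    · intro t ht
      rw [Set.uIoc_of_le (by linarith)] at ht
      have ht0 : 0 < t := by linarith [ht.1]
      have htp : 0 < t + p := by linarith
      have hk0 := kap_nonneg z σ φ (t + p) htp.le
      have hk := kap_le z σ φ (t + p) htp.le
      rw [norm_mul, Real.norm_eq_abs, Real.norm_eq_abs, abs_of_nonneg hk0]
      have h2 : t ^ σ ≤ (t + p) ^ σ := Real.rpow_le_rpow ht0.le (by linarith) h0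
      have h3 : (t + p) ^ (-σ - 1) * (t + p) ^ σ = (t + p)⁻¹ := by
        rw [← Real.rpow_add htp, ← Real.rpow_neg_one]
        congr 1
        ring
      have hr0 : 0 ≤ (t + p) ^ (-σ - 1) := Real.rpow_nonneg htp.le _
      calc kap z σ φ (t + p) * |D t| ≤ (2 * (t + p) ^ (-σ - 1)) * (B * t ^ σ) :=
            mul_le_mul hk (hD t ht0) (abs_nonneg _) (by positivity)
        _ ≤ (2 * (t + p) ^ (-σ - 1)) * (B * (t + p) ^ σ) :=
            mul_le_mul_of_nonneg_left (mul_le_mul_of_nonneg_left h2 hB) (by positivity)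
        _ = 2 * B * ((t + p) ^ (-σ - 1) * (t + p) ^ σ) := by ring
        _ = 2 * B * (t + p)⁻¹ := by rw [h3]
        _ ≤ 2 * B * a₁⁻¹ := by
            refine mul_le_mul_of_nonneg_left (inv_anti₀ ha ?_) (by positivity)
            linarith [ht.1]
        _ = 2 * B / a₁ := by rw [div_eq_mul_inv]
  have hc : |∫ t in a₁..a₂, (kap z σ φ (t + p) - kap z σ φ t) * D t| ≤ 9 * B * p / a₁ := by
    have hne : (0 : ℝ) ∉ Set.uIcc a₁ a₂ := by
      rw [Set.uIcc_of_le h12]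
      exact fun h => absurd h.1 (not_le.2 ha)
    have hint : IntervalIntegrable (fun t : ℝ => 9 * B * p * t ^ (-2 : ℝ)) volume a₁ a₂ :=
      (intervalIntegral.intervalIntegrable_rpow (Or.inr hne)).const_mul _
    have h := intervalIntegral.norm_integral_le_of_norm_le h12
      (f := fun t => (kap z σ φ (t + p) - kap z σ φ t) * D t)
      (g := fun t : ℝ => 9 * B * p * t ^ (-2 : ℝ)) (μ := volume) ?_ hint
    · rw [Real.norm_eq_abs] at h
      refine h.trans ?_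
      rw [intervalIntegral.integral_const_mul, integral_rpow (Or.inr ⟨by norm_num, hne⟩)]
      have h5 : (-2 : ℝ) + 1 = -1 := by norm_num
      rw [h5, Real.rpow_neg_one, Real.rpow_neg_one]
      have h6 : (a₂⁻¹ - a₁⁻¹) / (-1 : ℝ) ≤ a₁⁻¹ := by
        have : 0 < a₂⁻¹ := inv_pos.2 ha2
        rw [div_neg, div_one]
        linarith
      calc 9 * B * p * ((a₂⁻¹ - a₁⁻¹) / (-1 : ℝ)) ≤ 9 * B * p * a₁⁻¹ :=
            mul_le_mul_of_nonneg_left h6 (by positivity)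
        _ = 9 * B * p / a₁ := by rw [div_eq_mul_inv]
    · filter_upwards with t ht
      have ht0 : 0 < t := ha.trans ht.1
      have hk := kap_shift z σ φ t p hz h0 h1 ht0 hp
      have h3 : t ^ (-σ - 2) * t ^ σ = t ^ (-2 : ℝ) := by
        rw [← Real.rpow_add ht0]
        congr 1
        ring
      rw [norm_mul, Real.norm_eq_abs, Real.norm_eq_abs]
      have hr0 : 0 ≤ t ^ (-σ - 2) := Real.rpow_nonneg ht0.le _
      calc |kap z σ φ (t + p) - kap z σ φ t| * |D t| ≤ (9 * p * t ^ (-σ - 2)) * (B * t ^ σ) :=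
            mul_le_mul hk (hD t ht0) (abs_nonneg _) (by positivity)
        _ = 9 * B * p * (t ^ (-σ - 2) * t ^ σ) := by ring
        _ = 9 * B * p * t ^ (-2 : ℝ) := by rw [h3]
  have e4 : (∫ A in a₁..a₂, kap z σ φ A * D (A - p)) - ∫ A in a₁..a₂, kap z σ φ A * D A =
      (∫ t in (a₁ - p)..a₁, kap z σ φ (t + p) * D t) +
        (∫ t in a₁..a₂, (kap z σ φ (t + p) - kap z σ φ t) * D t) -
          ∫ t in (a₂ - p)..a₂, kap z σ φ (t + p) * D t := by
    rw [e1, e2, ← e3]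
    ring
  rw [e4]
  have hb1 := abs_le.1 (hb a₁ le_rfl)
  have hb2 := abs_le.1 (hb a₂ h12)
  have hc1 := abs_le.1 hc
  have hsum : 13 * B * p / a₁ = 2 * B * p / a₁ + 9 * B * p / a₁ + 2 * B * p / a₁ := by ring
  rw [hsum, abs_le]
  constructor <;> linarith [hb1.1, hb1.2, hb2.1, hb2.2, hc1.1, hc1.2]

/-- G8. PROOF. `V = ff z p₁ ξ`, `a₁ = z^((1-δ)V)`, `a₂ = z^((1+δ)V)`, `L = log z`, `M = MM z p₁`. By `Del_le` with
`ξ` itself `|Del M t| ≤ 2 C₀ exp V t^σ`, `σ = 1 - ξ/L` (`MM_ratio`). Substituting `A = t + p`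
(`intervalIntegral.integral_comp_sub_right` or `integral_comp_add_right`):
`∫_{a₁}^{a₂} kap A Del (A - p) dA = ∫_{a₁-p}^{a₂-p} kap (t+p) Del t dt`, which differs from
`∫_{a₁}^{a₂} kap t Del t dt` by the integrals of `kap (t+p) Del t` over `[a₁-p, a₁]` and `[a₂-p, a₂]` and of
`(kap (t+p) - kap t) Del t` over `[a₁, a₂]`. The first two are at most
`p * 2 a^(-σ-1) * 2 C₀ exp V a^σ = 4 C₀ exp V p/a` (`a = a₁, a₂`; `kap (t+p) ≤ 2 (t+p)^(-σ-1)`,
`(t + p) ≥ a`), the third at most `9 p * 2 C₀ exp V ∫_{a₁}^∞ t^(-2) dt = 18 C₀ exp V p/a₁` by `kap_shift`. Total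
`≤ 26 C₀ exp V p/a₁ ≤ 26 C₀ exp V z^(-δ V) ≤ 1` for `z ≥ z₀` (`z^δ ≥ e^2`) and `V ≥ V₀`. (The hypothesis gives
`p ≤ a₁ z^(-δV) ≤ a₁/2`, so everything takes place in `t > 0`. `Del` is interval integrable: measurable and
bounded on bounded intervals by `Del_le`.) -/
theorem shift_err (δ : ℝ) (h0 : 0 < δ) (h1 : δ ≤ 1 / 8) : ∃ (V₀ : ℝ) (z₀ : ℕ), ∀ z : ℕ, z₀ ≤ z →
    ∀ (p₁ : ℕ) (ξ : ℝ), 1 ≤ ξ → ξ ≤ (1 / 2) * Real.log z → V₀ ≤ ff z p₁ ξ → ∀ φ p : ℝ, 0 ≤ p →
      p * (z : ℝ) ^ (δ * ff z p₁ ξ) ≤ (z : ℝ) ^ ((1 - δ) * ff z p₁ ξ) →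
        |(∫ A in ((z : ℝ) ^ ((1 - δ) * ff z p₁ ξ))..((z : ℝ) ^ ((1 + δ) * ff z p₁ ξ)),
            kap z (1 - ξ / Real.log z) φ A * Del (MM z p₁) (A - p))
          - ∫ A in ((z : ℝ) ^ ((1 - δ) * ff z p₁ ξ))..((z : ℝ) ^ ((1 + δ) * ff z p₁ ξ)),
            kap z (1 - ξ / Real.log z) φ A * Del (MM z p₁) A| ≤ 1 := by
  obtain ⟨C₀, hC₀, hC⟩ := MM_ratio
  refine ⟨26 * C₀, max 4 ⌈Real.exp (2 / δ)⌉₊, fun z hz p₁ ξ hξ1 hξ2 hV φ p hp hpz => ?_⟩
  have hz4 : 4 ≤ z := (le_max_left _ _).trans hz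
  have hzR : (0 : ℝ) < z := by exact_mod_cast (by omega : 0 < z)
  have hz1 : (1 : ℝ) ≤ z := by exact_mod_cast (by omega : 1 ≤ z)
  have hL : 2 / δ ≤ Real.log z := by
    rw [Real.le_log_iff_exp_le hzR]
    refine (Nat.le_ceil _).trans ?_
    exact_mod_cast (le_max_right _ _).trans hz
  have hL0 : 0 < Real.log z := lt_of_lt_of_le (by positivity) hL
  set V : ℝ := ff z p₁ ξ with hVd
  have hV0 : 0 < V := by linarith
  have hδL : 2 ≤ δ * Real.log z := by
    rw [div_le_iff₀ h0] at hL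
    linarith
  have hξL : ξ / Real.log z ≤ 1 / 2 := by
    rw [div_le_iff₀ hL0]
    linarith
  have hξL0 : 0 ≤ ξ / Real.log z := by positivity
  have hσ0 : 0 ≤ 1 - ξ / Real.log z := by linarith
  have hσ1 : 1 - ξ / Real.log z ≤ 1 := by linarith
  have hD : ∀ t : ℝ, 0 < t → |Del (MM z p₁) t| ≤ 2 * C₀ * Real.exp V *
      t ^ (1 - ξ / Real.log z) := by
    intro t ht
    refine (Del_le z p₁ hz4 ξ t (by linarith) (by linarith) ht).trans ?_
    have h3 := (hC z p₁ hz4).2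
    have h4 : 0 ≤ t ^ (1 - ξ / Real.log z) := Real.rpow_nonneg ht.le _
    have h5 : 0 ≤ Real.exp V := (Real.exp_pos _).le
    calc 2 * ((MM z p₁ : ℝ) / ((MM z p₁).totient : ℝ)) * t ^ (1 - ξ / Real.log z) * Real.exp V
        ≤ 2 * C₀ * t ^ (1 - ξ / Real.log z) * Real.exp V := by gcongr
      _ = _ := by ring
  have hB : 0 ≤ 2 * C₀ * Real.exp V := by positivity
  have ha1 : 0 < (z : ℝ) ^ ((1 - δ) * V) := Real.rpow_pos_of_pos hzR _
  have h12 : (z : ℝ) ^ ((1 - δ) * V) ≤ (z : ℝ) ^ ((1 + δ) * V) :=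
    Real.rpow_le_rpow_of_exponent_le hz1 (by nlinarith)
  have hzV : Real.exp (2 * V) ≤ (z : ℝ) ^ (δ * V) := by
    rw [Real.rpow_def_of_pos hzR]
    refine Real.exp_le_exp.2 ?_
    nlinarith
  have hE1 : 1 < Real.exp (2 * V) := by
    rw [Real.one_lt_exp_iff]
    linarith
  have hpE : p * Real.exp (2 * V) ≤ (z : ℝ) ^ ((1 - δ) * V) :=
    (mul_le_mul_of_nonneg_left hzV hp).trans hpz
  have hpa : p < (z : ℝ) ^ ((1 - δ) * V) := by
    rcases hp.eq_or_lt with h | h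
    · rw [← h]
      exact ha1
    · refine lt_of_lt_of_le ?_ hpE
      exact lt_mul_of_one_lt_right h hE1
  refine (g8_core z (by omega) _ φ hσ0 hσ1 (Del (MM z p₁)) (Del_measurable _) _ hB hD _ _ p ha1
    h12 hp hpa).trans ?_
  rw [div_le_one ha1]
  refine le_trans ?_ hpE
  have h26 : 26 * C₀ ≤ Real.exp V := by
    have := Real.add_one_le_exp V
    linarith
  have h2V : Real.exp (2 * V) = Real.exp V * Real.exp V := by
    rw [← Real.exp_add]
    congr 1
    ring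
  rw [h2V]
  have h5 : 0 < Real.exp V := Real.exp_pos _
  calc 13 * (2 * C₀ * Real.exp V) * p = p * (26 * C₀ * Real.exp V) := by ring
    _ ≤ p * (Real.exp V * Real.exp V) :=
        mul_le_mul_of_nonneg_left (mul_le_mul_of_nonneg_right h26 h5.le) hp

end Pool.Agent.MU
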