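import Mathlib
import Pool.Agent.Lib.MP_bae66e_nt.MU.P6
import Pool.Agent.Lib.MP_bae66e_nt.MU.U1
import Pool.Agent.Lib.MP_bae66e_nt.MU.G4

/-!
# Maier matrices, uniformly in the scale: G9, the term of the first row
-/

set_option autoImplicit false

namespace Pool.Agent.MU

open Pool.Agent.GM Pool.Agent.MG MeasureTheory

private lemma G9_log (δ : ℝ) (h0 : 0 < δ) (h1 : δ ≤ 1 / 8) :
    (1 - δ + δ ^ 3) - (1 - δ) * Real.log (1 - δ) ≤ 1 - δ ^ 2 / 4 := by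
  have hab := Real.abs_log_sub_add_sum_range_le (x := δ) (by rw [abs_of_pos h0]; linarith) 2
  rw [abs_of_pos h0] at hab
  have h1d : 0 < 1 - δ := by linarith
  have hl := (abs_le.mp hab).1
  simp only [Finset.sum_range_succ, Finset.sum_range_zero] at hl
  norm_num at hl
  have hl2 : -Real.log (1 - δ) ≤ δ + δ ^ 2 / 2 + δ ^ 3 / (1 - δ) := by linarith
  have hl3 := mul_le_mul_of_nonneg_left hl2 h1d.le
  have e : (1 - δ) * (δ + δ ^ 2 / 2 + δ ^ 3 / (1 - δ)) = δ - δ ^ 2 / 2 - δ ^ 3 / 2 + δ ^ 3 := by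
    field_simp
    ring
  rw [e] at hl3
  have hd3le : δ ^ 3 ≤ δ ^ 2 / 8 := by
    have : δ ^ 3 = δ ^ 2 * δ := by ring
    rw [this]
    nlinarith [sq_nonneg δ]
  nlinarith

/-- G9. PROOF. `V = ff z p₁ ξ`, `a₁ = z^((1-δ)V)`, `ξ₁ = ξ + log (1-δ) ∈ [0, log z]`. By `Del_le` with `ξ₁` and `ff_sub`
`|Del M (a₁ - p)| ≤ 2 C₀ a₁^(1 - ξ₁/L) exp ((1-δ+δ^3) V)` (`0 < a₁ - p ≤ a₁`), and
`∫ kap ≤ 4 a₁^(-σ)` (`int_kap_le`). The product is
`8 C₀ a₁^((ξ-ξ₁)/L) exp ((1-δ+δ^3)V) = 8 C₀ exp (V ((1-δ+δ^3) - (1-δ) log (1-δ)))`, and the bracket is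
`≤ 1 - δ^2/4`; the constant is absorbed for `V ≥ V₀`, `log z ≥ 1`. -/
theorem base_err (δ : ℝ) (h0 : 0 < δ) (h1 : δ ≤ 1 / 8) : ∃ (V₀ : ℝ) (z₀ : ℕ), ∀ z : ℕ, z₀ ≤ z →
    ∀ (p₁ : ℕ) (ξ : ℝ), 1 ≤ ξ → ξ ≤ (1 / 2) * Real.log z → V₀ ≤ ff z p₁ ξ → ∀ φ p : ℝ, 0 ≤ p →
      2 * p ≤ (z : ℝ) ^ ((1 - δ) * ff z p₁ ξ) →
        |Del (MM z p₁) ((z : ℝ) ^ ((1 - δ) * ff z p₁ ξ) - p)|
          * (∫ A in ((z : ℝ) ^ ((1 - δ) * ff z p₁ ξ))..((z : ℝ) ^ ((1 + δ) * ff z p₁ ξ)),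
            kap z (1 - ξ / Real.log z) φ A)
          ≤ Real.log z * Real.exp ((1 - δ ^ 2 / 5) * ff z p₁ ξ) := by
  obtain ⟨C₀, hC1, hC⟩ := MM_ratio
  obtain ⟨V1, z1, H1⟩ := ff_sub δ h0 (by linarith)
  refine ⟨max V1 (160 * C₀ / δ ^ 2), max z1 4, ?_⟩
  intro z hz p₁ ξ hξ1 hξ2 hV φ p hp h2p
  have hz1 : z1 ≤ z := le_trans (le_max_left _ _) hz
  have hz4 : 4 ≤ z := le_trans (le_max_right _ _) hz
  have hV1 : V1 ≤ ff z p₁ ξ := le_trans (le_max_left _ _) hV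
  have hV4 : 160 * C₀ / δ ^ 2 ≤ ff z p₁ ξ := le_trans (le_max_right _ _) hV
  set V : ℝ := ff z p₁ ξ with hVdef
  have hd2 : 0 < δ ^ 2 := by positivity
  have hC0 : 0 < C₀ := by linarith
  have hVpos : 0 < V := lt_of_lt_of_le (by positivity) hV4
  have hz' : (4 : ℝ) ≤ z := by exact_mod_cast hz4
  have hzpos : (0 : ℝ) < z := by linarith
  have hL1 : 1 ≤ Real.log z := by
    rw [Real.le_log_iff_exp_le hzpos]
    have := Real.exp_one_lt_d9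
    linarith
  have hLpos : 0 < Real.log z := by linarith
  have hlog1 : Real.log (1 - δ) ≤ 0 := Real.log_nonpos (by linarith) (by linarith)
  have hlog2 : -1 ≤ Real.log (1 - δ) := by
    rw [Real.le_log_iff_exp_le (by linarith)]
    have h3 : Real.exp (-1) ≤ 1 / 2 := by
      rw [Real.exp_neg, inv_le_comm₀ (Real.exp_pos _) (by norm_num)]
      have := Real.add_one_le_exp (1 : ℝ)
      linarith
    linarith
  set ξ₁ : ℝ := ξ + Real.log (1 - δ) with hξ₁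
  have hξ₁0 : 0 ≤ ξ₁ := by rw [hξ₁]; linarith
  have hξ₁1 : ξ₁ ≤ Real.log z := by rw [hξ₁]; linarith
  set a₁ : ℝ := (z : ℝ) ^ ((1 - δ) * V) with ha₁
  have ha1 : 1 ≤ a₁ := by
    rw [ha₁]
    apply Real.one_le_rpow (by linarith)
    apply mul_nonneg _ hVpos.le
    linarith
  have ha2 : a₁ ≤ (z : ℝ) ^ ((1 + δ) * V) := by
    rw [ha₁]
    apply Real.rpow_le_rpow_of_exponent_le (by linarith)
    nlinarith
  have ha1pos : 0 < a₁ := by linarith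
  have htpos : 0 < a₁ - p := by linarith
  have htle : a₁ - p ≤ a₁ := by linarith
  have hDel := Del_le z p₁ hz4 ξ₁ (a₁ - p) hξ₁0 hξ₁1 htpos
  have hff : ff z p₁ ξ₁ ≤ (1 - δ + δ ^ 3) * V :=
    H1 z hz1 p₁ ξ (by linarith) (by linarith) hV1
  obtain ⟨hr1, hr2⟩ := hC z p₁ hz4
  have hexp0 : 0 ≤ 1 - ξ₁ / Real.log z := by
    have : ξ₁ / Real.log z ≤ 1 := by
      rw [div_le_one hLpos]; exact hξ₁1
    linarith
  have hpow : (a₁ - p) ^ (1 - ξ₁ / Real.log z) ≤ a₁ ^ (1 - ξ₁ / Real.log z) :=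
    Real.rpow_le_rpow htpos.le htle hexp0
  have hDel2 : |Del (MM z p₁) (a₁ - p)|
      ≤ 2 * C₀ * a₁ ^ (1 - ξ₁ / Real.log z) * Real.exp ((1 - δ + δ ^ 3) * V) := by
    refine le_trans hDel ?_
    have p1 : 0 ≤ (a₁ - p) ^ (1 - ξ₁ / Real.log z) := Real.rpow_nonneg htpos.le _
    have p2 : 0 ≤ a₁ ^ (1 - ξ₁ / Real.log z) := Real.rpow_nonneg ha1pos.le _
    gcongr
  have hσ : 1 / 2 ≤ 1 - ξ / Real.log z := by
    have : ξ / Real.log z ≤ 1 / 2 := by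
      rw [div_le_iff₀ hLpos]; exact hξ2
    linarith
  have hint := int_kap_le z (1 - ξ / Real.log z) φ a₁ ((z : ℝ) ^ ((1 + δ) * V)) hσ ha1 ha2
  have hstep : |Del (MM z p₁) (a₁ - p)|
      * (∫ A in a₁..((z : ℝ) ^ ((1 + δ) * V)), kap z (1 - ξ / Real.log z) φ A)
      ≤ (2 * C₀ * a₁ ^ (1 - ξ₁ / Real.log z) * Real.exp ((1 - δ + δ ^ 3) * V))
        * (4 * a₁ ^ (-(1 - ξ / Real.log z))) := by
    calc |Del (MM z p₁) (a₁ - p)|
      * (∫ A in a₁..((z : ℝ) ^ ((1 + δ) * V)), kap z (1 - ξ / Real.log z) φ A)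
        ≤ |Del (MM z p₁) (a₁ - p)| * (4 * a₁ ^ (-(1 - ξ / Real.log z))) :=
          mul_le_mul_of_nonneg_left hint (abs_nonneg _)
      _ ≤ _ := by
          apply mul_le_mul_of_nonneg_right hDel2
          have := Real.rpow_nonneg ha1pos.le (-(1 - ξ / Real.log z))
          linarith
  refine le_trans hstep ?_
  have hcomb : a₁ ^ (1 - ξ₁ / Real.log z) * a₁ ^ (-(1 - ξ / Real.log z))
      = Real.exp (-((1 - δ) * V * Real.log (1 - δ))) := by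
    rw [← Real.rpow_add ha1pos, ha₁, ← Real.rpow_mul hzpos.le, Real.rpow_def_of_pos hzpos]
    congr 1
    rw [hξ₁]
    field_simp
    ring
  have heq : (2 * C₀ * a₁ ^ (1 - ξ₁ / Real.log z) * Real.exp ((1 - δ + δ ^ 3) * V))
        * (4 * a₁ ^ (-(1 - ξ / Real.log z)))
      = 8 * C₀ * Real.exp (((1 - δ + δ ^ 3) - (1 - δ) * Real.log (1 - δ)) * V) := by
    have : (2 * C₀ * a₁ ^ (1 - ξ₁ / Real.log z) * Real.exp ((1 - δ + δ ^ 3) * V))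
        * (4 * a₁ ^ (-(1 - ξ / Real.log z)))
        = 8 * C₀ * ((a₁ ^ (1 - ξ₁ / Real.log z) * a₁ ^ (-(1 - ξ / Real.log z)))
          * Real.exp ((1 - δ + δ ^ 3) * V)) := by ring
    rw [this, hcomb, ← Real.exp_add]
    congr 2
    ring
  rw [heq]
  have hbr : ((1 - δ + δ ^ 3) - (1 - δ) * Real.log (1 - δ)) * V ≤ (1 - δ ^ 2 / 4) * V :=
    mul_le_mul_of_nonneg_right (G9_log δ h0 h1) hVpos.le
  have hfin : 8 * C₀ ≤ Real.exp (δ ^ 2 / 20 * V) := by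
    have h3 : 8 * C₀ ≤ δ ^ 2 / 20 * V := by
      rw [div_le_iff₀ hd2] at hV4
      linarith
    have h4 := Real.add_one_le_exp (δ ^ 2 / 20 * V)
    linarith
  calc 8 * C₀ * Real.exp (((1 - δ + δ ^ 3) - (1 - δ) * Real.log (1 - δ)) * V)
      ≤ Real.exp (δ ^ 2 / 20 * V) * Real.exp ((1 - δ ^ 2 / 4) * V) := by
        apply mul_le_mul hfin (Real.exp_le_exp.mpr hbr) (Real.exp_pos _).le (Real.exp_pos _).le
    _ = 1 * Real.exp ((1 - δ ^ 2 / 5) * V) := by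
        rw [← Real.exp_add, one_mul]
        congr 1
        ring
    _ ≤ Real.log z * Real.exp ((1 - δ ^ 2 / 5) * V) := by
        apply mul_le_mul_of_nonneg_right hL1 (Real.exp_pos _).le

end Pool.Agent.MU
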