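import Mathlib
import Pool.Agent.Lib.MP_bae66e_nt.MU.G7
import Pool.Agent.Lib.MP_bae66e_nt.MU.G8
import Pool.Agent.Lib.MP_bae66e_nt.MU.G9

/-!
# Maier matrices, uniformly in the scale: G10, oscillation for one prime
-/

set_option autoImplicit false

namespace Pool.Agent.MU

open Pool.Agent.GM Pool.Agent.MG MeasureTheory

private lemma G10_kap_meas (z : ℕ) (σ φ : ℝ) : Measurable (kap z σ φ) := by
  unfold kap
  fun_prop

private lemma G10_kap_bd (z : ℕ) (σ φ t : ℝ) (hσ : 0 ≤ σ) (ht : 1 ≤ t) : |kap z σ φ t| ≤ 2 := by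
  rw [abs_of_nonneg (kap_nonneg z σ φ t (by linarith))]
  refine le_trans (kap_le z σ φ t (by linarith)) ?_
  have : t ^ (-σ - 1) ≤ 1 := Real.rpow_le_one_of_one_le_of_nonpos ht (by linarith)
  linarith

private lemma G10_int (z : ℕ) (σ φ a₁ a₂ B : ℝ) (hσ : 0 ≤ σ) (h1 : 1 ≤ a₁)
    (h2 : a₁ ≤ a₂) (D : ℝ → ℝ) (hD : Measurable D) (hB : ∀ t, a₁ ≤ t → t ≤ a₂ → |D t| ≤ B) :
    IntervalIntegrable (fun t => kap z σ φ t * D t) volume a₁ a₂ := by
  rw [intervalIntegrable_iff_integrableOn_Ioc_of_le h2]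
  apply Measure.integrableOn_of_bounded (M := 2 * B)
  · rw [Real.volume_Ioc]
    exact ENNReal.ofReal_ne_top
  · exact ((G10_kap_meas z σ φ).mul hD).aestronglyMeasurable
  · rw [ae_restrict_iff' measurableSet_Ioc]
    refine Filter.Eventually.of_forall fun t ht => ?_
    rw [Real.norm_eq_abs, abs_mul]
    have b1 := G10_kap_bd z σ φ t hσ (by linarith [ht.1])
    have b2 := hB t ht.1.le ht.2
    exact mul_le_mul b1 b2 (abs_nonneg _) (by norm_num)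

/-- G10. PROOF. `osc_trunc` (with its `φ`), `shift_err`, `base_err`:
`log z exp ((1-δ^3) V) - 1 - log z exp ((1-δ^2/5) V) ≥ log z exp ((1-2 δ^3) V)` for `V ≥ V₀` (`δ^3 ≤ δ^2/8`, so
`2 δ^3 ≤ δ^2/4`; note `δ^3 < 2 δ^3` and `δ^3 < δ^2/5`; `p ≤ a₁/2` because `z^(δ V) ≥ 2`). The integrand is interval integrable. -/
theorem osc_p (δ : ℝ) (h0 : 0 < δ) (h1 : δ ≤ 1 / 8) : ∃ (V₀ : ℝ) (z₀ : ℕ), ∀ z : ℕ, z₀ ≤ z →
    ∀ (p₁ : ℕ) (ξ : ℝ), 1 ≤ ξ → ξ ≤ (1 / 2) * Real.log z → V₀ ≤ ff z p₁ ξ →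
      ∀ s : ℝ, (s = 1 ∨ s = -1) → ∃ φ : ℝ, ∀ p : ℝ, 0 ≤ p →
        p * (z : ℝ) ^ (δ * ff z p₁ ξ) ≤ (z : ℝ) ^ ((1 - δ) * ff z p₁ ξ) →
        Real.log z * Real.exp ((1 - 2 * δ ^ 3) * ff z p₁ ξ)
          ≤ s * ∫ A in ((z : ℝ) ^ ((1 - δ) * ff z p₁ ξ))..((z : ℝ) ^ ((1 + δ) * ff z p₁ ξ)),
            kap z (1 - ξ / Real.log z) φ A
              * (Del (MM z p₁) (A - p) - Del (MM z p₁) ((z : ℝ) ^ ((1 - δ) * ff z p₁ ξ) - p)) := by
  have hd3 : 0 < δ ^ 3 := by positivity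
  have hd3le : δ ^ 3 ≤ δ ^ 2 / 8 := by
    have : δ ^ 3 = δ ^ 2 * δ := by ring
    rw [this]
    nlinarith [sq_nonneg δ]
  have hd2 : 0 < δ ^ 2 := by positivity
  have hd2le : δ ^ 2 ≤ 1 / 64 := by nlinarith
  obtain ⟨V1, z1, H1⟩ := osc_trunc δ h0 h1
  obtain ⟨V2, z2, H2⟩ := shift_err δ h0 h1
  obtain ⟨V3, z3, H3⟩ := base_err δ h0 h1
  refine ⟨max (max V1 V2) (max V3 (max (4 / δ ^ 3) (1 / δ))), max (max z1 z2) (max z3 4), ?_⟩
  intro z hz p₁ ξ hξ1 hξ2 hV s hs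
  have hz1 : z1 ≤ z := le_trans (le_trans (le_max_left _ _) (le_max_left _ _)) hz
  have hz2 : z2 ≤ z := le_trans (le_trans (le_max_right _ _) (le_max_left _ _)) hz
  have hz3 : z3 ≤ z := le_trans (le_trans (le_max_left _ _) (le_max_right _ _)) hz
  have hz4 : 4 ≤ z := le_trans (le_trans (le_max_right _ _) (le_max_right _ _)) hz
  have hV1 : V1 ≤ ff z p₁ ξ := le_trans (le_trans (le_max_left _ _) (le_max_left _ _)) hV
  have hV2 : V2 ≤ ff z p₁ ξ := le_trans (le_trans (le_max_right _ _) (le_max_left _ _)) hV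
  have hV3 : V3 ≤ ff z p₁ ξ := le_trans (le_trans (le_max_left _ _) (le_max_right _ _)) hV
  have hV5 : max (4 / δ ^ 3) (1 / δ) ≤ ff z p₁ ξ :=
    le_trans (le_trans (le_max_right _ _) (le_max_right _ _)) hV
  have hV4 : 4 / δ ^ 3 ≤ ff z p₁ ξ := le_trans (le_max_left _ _) hV5
  have hV6 : 1 / δ ≤ ff z p₁ ξ := le_trans (le_max_right _ _) hV5
  obtain ⟨φ, hφ⟩ := H1 z hz1 p₁ ξ hξ1 hξ2 hV1 s hs
  refine ⟨φ, fun p hp hpz => ?_⟩
  have t2 := H2 z hz2 p₁ ξ hξ1 hξ2 hV2 φ p hp hpz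
  set V : ℝ := ff z p₁ ξ with hVdef
  have hVpos : 0 < V := lt_of_lt_of_le (by positivity) hV4
  have hz' : (4 : ℝ) ≤ z := by exact_mod_cast hz4
  have hzpos : (0 : ℝ) < z := by linarith
  have hL1 : 1 ≤ Real.log z := by
    rw [Real.le_log_iff_exp_le hzpos]
    have := Real.exp_one_lt_d9
    linarith
  have hLpos : 0 < Real.log z := by linarith
  set a₁ : ℝ := (z : ℝ) ^ ((1 - δ) * V) with ha₁
  set a₂ : ℝ := (z : ℝ) ^ ((1 + δ) * V) with ha₂
  have ha1 : 1 ≤ a₁ := by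
    rw [ha₁]
    apply Real.one_le_rpow (by linarith)
    apply mul_nonneg _ hVpos.le
    linarith
  have ha2 : a₁ ≤ a₂ := by
    rw [ha₁, ha₂]
    apply Real.rpow_le_rpow_of_exponent_le (by linarith)
    nlinarith
  have hzV : 2 ≤ (z : ℝ) ^ (δ * V) := by
    have h3 : 1 ≤ δ * V := by
      rw [div_le_iff₀ h0] at hV6
      linarith
    have h4 : (z : ℝ) ^ (1 : ℝ) ≤ (z : ℝ) ^ (δ * V) :=
      Real.rpow_le_rpow_of_exponent_le (by linarith) h3
    rw [Real.rpow_one] at h4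
    linarith
  have h2p : 2 * p ≤ a₁ := by
    have : p * 2 ≤ p * (z : ℝ) ^ (δ * V) := mul_le_mul_of_nonneg_left hzV hp
    linarith
  have t3 := H3 z hz3 p₁ ξ hξ1 hξ2 hV3 φ p hp h2p
  rw [← hVdef, ← ha₁, ← ha₂] at t3
  have hσ2 : 1 / 2 ≤ 1 - ξ / Real.log z := by
    have : ξ / Real.log z ≤ 1 / 2 := by
      rw [div_le_iff₀ hLpos]; exact hξ2
    linarith
  have hσ0 : 0 ≤ 1 - ξ / Real.log z := by linarith
  set σ : ℝ := 1 - ξ / Real.log z with hσdef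
  set D₀ : ℝ := Del (MM z p₁) (a₁ - p) with hD₀
  have i1 : IntervalIntegrable (fun t => kap z σ φ t * Del (MM z p₁) (t - p)) volume a₁ a₂ := by
    refine G10_int z σ φ a₁ a₂ (2 * ((MM z p₁ : ℝ) / ((MM z p₁).totient : ℝ))
      * a₂ ^ (1 - ξ / Real.log z) * Real.exp (ff z p₁ ξ)) hσ0 ha1 ha2
      (fun t => Del (MM z p₁) (t - p)) ?_ ?_
    · exact (Del_measurable (MM z p₁)).comp (measurable_id.sub_const p)
    · intro t ht1 ht2
      have htp : 0 < t - p := by linarith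
      have h5 := Del_le z p₁ hz4 ξ (t - p) (by linarith) (by linarith) htp
      refine le_trans h5 ?_
      have h6 : (t - p) ^ (1 - ξ / Real.log z) ≤ a₂ ^ (1 - ξ / Real.log z) :=
        Real.rpow_le_rpow htp.le (by linarith) hσ0
      have h7 : (0 : ℝ) ≤ (MM z p₁ : ℝ) / ((MM z p₁).totient : ℝ) := by positivity
      gcongr
  have i2 : IntervalIntegrable (fun t => kap z σ φ t * D₀) volume a₁ a₂ :=
    G10_int z σ φ a₁ a₂ |D₀| hσ0 ha1 ha2 (fun _ => D₀) measurable_const (fun _ _ _ => le_rfl)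
  have e1 : (∫ A in a₁..a₂, kap z σ φ A * (Del (MM z p₁) (A - p) - D₀))
      = (∫ A in a₁..a₂, kap z σ φ A * Del (MM z p₁) (A - p)) - D₀ * ∫ A in a₁..a₂, kap z σ φ A := by
    have : (fun A => kap z σ φ A * (Del (MM z p₁) (A - p) - D₀))
        = fun A => kap z σ φ A * Del (MM z p₁) (A - p) - kap z σ φ A * D₀ := by
      funext A
      ring
    rw [this, intervalIntegral.integral_sub i1 i2, intervalIntegral.integral_mul_const]
    ring
  rw [e1]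
  have hKnn : 0 ≤ ∫ A in a₁..a₂, kap z σ φ A := by
    apply intervalIntegral.integral_nonneg ha2
    intro t ht
    exact kap_nonneg z σ φ t (by linarith [ht.1])
  have key : Real.exp ((1 - 2 * δ ^ 3) * V) + Real.exp ((1 - δ ^ 2 / 5) * V) + 1
      ≤ Real.exp ((1 - δ ^ 3) * V) := by
    have e1 : Real.exp ((1 - δ ^ 2 / 5) * V) ≤ Real.exp ((1 - 8 / 5 * δ ^ 3) * V) := by
      apply Real.exp_le_exp.mpr
      apply mul_le_mul_of_nonneg_right _ hVpos.le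
      nlinarith
    have e1' : Real.exp ((1 - 2 * δ ^ 3) * V) ≤ Real.exp ((1 - 8 / 5 * δ ^ 3) * V) := by
      apply Real.exp_le_exp.mpr
      apply mul_le_mul_of_nonneg_right _ hVpos.le
      nlinarith
    have e1'' : 1 ≤ Real.exp ((1 - 8 / 5 * δ ^ 3) * V) := by
      apply Real.one_le_exp
      apply mul_nonneg _ hVpos.le
      nlinarith
    have e2 : Real.exp ((1 - δ ^ 3) * V)
        = Real.exp ((1 - 8 / 5 * δ ^ 3) * V) * Real.exp (3 / 5 * δ ^ 3 * V) := by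
      rw [← Real.exp_add]
      congr 1
      ring
    have e3 : 3 ≤ Real.exp (3 / 5 * δ ^ 3 * V) := by
      have : 2 ≤ 3 / 5 * δ ^ 3 * V := by
        rw [div_le_iff₀ hd3] at hV4
        linarith
      have h2 := Real.add_one_le_exp (3 / 5 * δ ^ 3 * V)
      linarith
    rw [e2]
    nlinarith
  have key2 := mul_le_mul_of_nonneg_left key hLpos.le
  have ring1 : Real.log z * (Real.exp ((1 - 2 * δ ^ 3) * V) + Real.exp ((1 - δ ^ 2 / 5) * V) + 1)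
      = Real.log z * Real.exp ((1 - 2 * δ ^ 3) * V)
        + Real.log z * Real.exp ((1 - δ ^ 2 / 5) * V) + Real.log z := by ring
  rw [ring1] at key2
  have b1 := abs_le.mp t2
  have b2 : |D₀ * ∫ A in a₁..a₂, kap z σ φ A| ≤ Real.log z * Real.exp ((1 - δ ^ 2 / 5) * V) := by
    rw [abs_mul, abs_of_nonneg hKnn]
    exact t3
  have b3 := abs_le.mp b2
  rcases hs with h | h
  · rw [h] at hφ ⊢
    linarith [b1.1, b1.2, b3.1, b3.2]
  · rw [h] at hφ ⊢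
    linarith [b1.1, b1.2, b3.1, b3.2]

end Pool.Agent.MU
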