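import Mathlib
import Pool.Agent.Lib.MP_bae66e_nt.MU.F1
import Pool.Agent.Lib.MP_bae66e_nt.MU.G10
import Pool.Agent.Lib.MP_bae66e_nt.MU.A8
import Pool.Agent.Lib.MP_bae66e_nt.MU.E8
import Pool.Agent.Lib.MP_bae66e_nt.MU.P8

/-!
# Maier matrices, uniformly in the scale: F2, the matrix
-/

set_option autoImplicit false

namespace Pool.Agent.MU

open Pool.Agent.GM Pool.Agent.MG MeasureTheory

private lemma f2_s (s x y : ℝ) (hs : s = 1 ∨ s = -1) (h : |x| ≤ y) : -y ≤ s * x ∧ s * x ≤ y := by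
  have h' := abs_le.mp h
  rcases hs with rfl | rfl
  · constructor <;> linarith [h'.1, h'.2]
  · constructor <;> linarith [h'.1, h'.2]

private lemma f2_core (w : ℝ → ℝ) (F : ℕ → ℝ → ℝ) (R E : ℝ → ℝ) (S : Finset ℕ)
    (a₁ a₂ s P D Q X j0 j1 : ℝ) (hs : s = 1 ∨ s = -1) (ha1 : 1 ≤ a₁) (ha : a₁ ≤ a₂)
    (hw : ∀ A, 0 ≤ A → 0 ≤ w A) (hwc : ContinuousOn w (Set.Icc a₁ a₂))
    (hRE : IntervalIntegrable (fun A => w A * (R A - E A)) volume a₁ a₂)
    (hE : IntervalIntegrable (fun A => w A * E A) volume a₁ a₂)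
    (hF : ∀ p ∈ S, IntervalIntegrable (fun A => w A * F p A) volume a₁ a₂)
    (hX : ∀ p ∈ S, X ≤ s * ∫ A in a₁..a₂, w A * F p A)
    (hact : ∀ A, a₁ ≤ A → A ≤ a₂ → |R A - ∑ p ∈ S, ((A - a₁) + F p A)| ≤ D * (P * A))
    (hexp : ∀ A, a₁ ≤ A → A ≤ a₂ → |E A - (A - a₁) * P| ≤ Q)
    (hcard : (S.card : ℝ) = P - 1) (hP : 0 ≤ P) (hD : 0 ≤ D) (hQ : 0 ≤ Q)
    (hj0 : ∫ A in a₁..a₂, w A ≤ j0) (hj1 : ∫ A in a₁..a₂, w A * A ≤ j1) :
    (P - 1) * X - (1 + D * P) * j1 - Q * j0 ≤ s * ∫ A in a₁..a₂, w A * (R A - E A) ∧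
      ∫ A in a₁..a₂, w A * E A ≤ P * j1 + Q * j0 := by
  have hwi : IntervalIntegrable w volume a₁ a₂ := by
    apply ContinuousOn.intervalIntegrable
    rwa [Set.uIcc_of_le ha]
  have hwi1 : IntervalIntegrable (fun A => w A * A) volume a₁ a₂ := by
    apply ContinuousOn.intervalIntegrable
    rw [Set.uIcc_of_le ha]
    exact hwc.mul continuousOn_id
  have hsum : ∫ A in a₁..a₂, (∑ p ∈ S, w A * F p A) = ∑ p ∈ S, ∫ A in a₁..a₂, w A * F p A :=
    intervalIntegral.integral_finsetSum hF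
  have hsumI : IntervalIntegrable (fun A => ∑ p ∈ S, w A * F p A) volume a₁ a₂ := by
    have := IntervalIntegrable.sum S (f := fun p A => w A * F p A) hF
    refine this.congr ?_
    intro A _
    simp
  constructor
  · have hint : ∫ A in a₁..a₂, (s * (∑ p ∈ S, w A * F p A) - (1 + D * P) * (w A * A) - Q * w A)
        ≤ ∫ A in a₁..a₂, s * (w A * (R A - E A)) := by
      apply intervalIntegral.integral_mono_on ha
      · exact ((hsumI.const_mul s).sub (hwi1.const_mul _)).sub (hwi.const_mul _)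
      · exact hRE.const_mul s
      · intro A hA
        have hA0 : 0 ≤ A := by linarith [hA.1]
        have h1 := (f2_s s _ _ hs (hact A hA.1 hA.2)).1
        have h2 := (f2_s s _ _ hs (hexp A hA.1 hA.2)).2
        have h3 : |A - a₁| ≤ A := by
          rw [abs_of_nonneg (by linarith [hA.1])]
          linarith
        have h4 := (f2_s s _ _ hs h3).2
        have h5 : ∑ p ∈ S, ((A - a₁) + F p A) = (P - 1) * (A - a₁) + ∑ p ∈ S, F p A := by
          rw [Finset.sum_add_distrib, Finset.sum_const, nsmul_eq_mul, hcard]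
        rw [h5] at h1
        have h6 : s * (∑ p ∈ S, F p A) - (1 + D * P) * A - Q ≤ s * (R A - E A) := by
          nlinarith
        have h7 := mul_le_mul_of_nonneg_left h6 (hw A hA0)
        have h8 : ∑ p ∈ S, w A * F p A = w A * ∑ p ∈ S, F p A := by rw [Finset.mul_sum]
        rw [h8]
        calc s * (w A * ∑ p ∈ S, F p A) - (1 + D * P) * (w A * A) - Q * w A
            = w A * (s * (∑ p ∈ S, F p A) - (1 + D * P) * A - Q) := by ring
          _ ≤ w A * (s * (R A - E A)) := h7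
          _ = s * (w A * (R A - E A)) := by ring
    rw [intervalIntegral.integral_const_mul, intervalIntegral.integral_sub
      ((hsumI.const_mul s).sub (hwi1.const_mul _)) (hwi.const_mul _),
      intervalIntegral.integral_sub (hsumI.const_mul s) (hwi1.const_mul _),
      intervalIntegral.integral_const_mul, intervalIntegral.integral_const_mul,
      intervalIntegral.integral_const_mul, hsum] at hint
    have h9 : (P - 1) * X ≤ s * ∑ p ∈ S, ∫ A in a₁..a₂, w A * F p A := by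
      rw [Finset.mul_sum, ← hcard]
      calc (S.card : ℝ) * X = ∑ p ∈ S, X := by rw [Finset.sum_const, nsmul_eq_mul]
        _ ≤ _ := Finset.sum_le_sum hX
    have h10 : (1 + D * P) * ∫ A in a₁..a₂, w A * A ≤ (1 + D * P) * j1 :=
      mul_le_mul_of_nonneg_left hj1 (by positivity)
    have h11 : Q * ∫ A in a₁..a₂, w A ≤ Q * j0 := mul_le_mul_of_nonneg_left hj0 hQ
    linarith
  · have hint : ∫ A in a₁..a₂, w A * E A
        ≤ ∫ A in a₁..a₂, (P * (w A * A) + Q * w A) := by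
      apply intervalIntegral.integral_mono_on ha hE
      · exact (hwi1.const_mul _).add (hwi.const_mul _)
      · intro A hA
        have hA0 : 0 ≤ A := by linarith [hA.1]
        have h2 := (abs_le.mp (hexp A hA.1 hA.2)).2
        have h3 : E A ≤ P * A + Q := by
          have : 0 ≤ a₁ * P := by positivity
          nlinarith
        have h7 := mul_le_mul_of_nonneg_left h3 (hw A hA0)
        calc w A * E A ≤ w A * (P * A + Q) := h7
          _ = P * (w A * A) + Q * w A := by ring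
    rw [intervalIntegral.integral_add (hwi1.const_mul _) (hwi.const_mul _),
      intervalIntegral.integral_const_mul, intervalIntegral.integral_const_mul] at hint
    have h10 : P * ∫ A in a₁..a₂, w A * A ≤ P * j1 := mul_le_mul_of_nonneg_left hj1 hP
    have h11 : Q * ∫ A in a₁..a₂, w A ≤ Q * j0 := mul_le_mul_of_nonneg_left hj0 hQ
    linarith

/-- the numerical end -/
private lemma f2_num (P L X T₀ D Q j0 j1 : ℝ) (hP : 8 * T₀ ≤ P) (hT : 1 ≤ T₀) (hL : 1 ≤ L)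
    (hX : 100 ≤ X) (hj1 : j1 ≤ 2 * L * T₀) (hj10 : 0 ≤ j1)
    (hD0 : 0 ≤ D) (hD : D * T₀ ≤ 1 / 8) (hQ : Q * j0 ≤ P / 4) :
    1 ≤ (P - 1) * (L * X) - (1 + D * P) * j1 - Q * j0 ∧
      P * j1 + Q * j0
        ≤ T₀ * ((P - 1) * (L * X) - (1 + D * P) * j1 - Q * j0) := by
  have hP8 : 8 ≤ P := by linarith
  have hPL : 8 ≤ P * L := by nlinarith
  have h1 : (1 + D * P) * j1 ≤ P * L / 2 := by
    have e1 : (1 + D * P) * j1 ≤ (1 + D * P) * (2 * L * T₀) :=
      mul_le_mul_of_nonneg_left hj1 (by positivity)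
    have e2 : 2 * L * T₀ ≤ L * (P / 4) := by nlinarith
    have e3 : D * P * (2 * L * T₀) ≤ P * L / 4 := by
      calc D * P * (2 * L * T₀) = 2 * (P * L) * (D * T₀) := by ring
        _ ≤ 2 * (P * L) * (1 / 8) := mul_le_mul_of_nonneg_left hD (by positivity)
        _ = P * L / 4 := by ring
    nlinarith
  have h2 : P / 4 ≤ P * L / 4 := by nlinarith
  have h3 : 7 / 8 * (P * L) * X ≤ (P - 1) * (L * X) := by
    have : 7 / 8 * P ≤ P - 1 := by linarith
    have h4 : 0 ≤ L * X := by positivity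
    nlinarith
  have h5 : P * L * 100 ≤ P * L * X := mul_le_mul_of_nonneg_left hX (by linarith)
  have h6 : 3 * (P * L) ≤ (P - 1) * (L * X) - (1 + D * P) * j1 - Q * j0 := by
    nlinarith
  refine ⟨by linarith, ?_⟩
  have h7 : P * j1 + Q * j0 ≤ T₀ * (3 * (P * L)) := by
    have e1 : P * j1 ≤ P * (2 * L * T₀) := mul_le_mul_of_nonneg_left hj1 (by linarith)
    have e2 : P * L / 4 ≤ T₀ * (P * L) := by nlinarith
    nlinarith
  exact le_trans h7 (mul_le_mul_of_nonneg_left h6 (by linarith))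

/-- F2. The Maier matrix. Here `V = ff z p₁ ξ`, `a₁ = z^((1-δ)V)`, `a₂ = z^((1+δ)V)`, `σ = 1 - ξ/log z`,
`M = MM z p₁`, `T₀ = exp ((1+δ) ξ V)`.
PROOF. `e₀`, `c` the minima of the constants of `actual` and `expected_rows`, `B` large (larger than all the other
constants, `C₀` of `MM_ratio`, `C_E` of `expected_rows`). `φ` from `osc_p`. For `A ∈ [a₁, a₂]`, `R(A) = M ∑ TAy`,
`E(A) = M ∑ TEy` over `rows a₁ A`, `δ' = 2 δ₁ + e^(-c k)`:
`s (R - E)(A) ≥ ∑_{p ∈ oddP y} s (Del (A-p) - Del (a₁-p)) - (1 + δ' C₀ piR y) A - C_E k piR y`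
(`actual`, `expected_rows`, `card_oddP`: `∑_{p ∈ oddP y} (A - a₁) = (A - a₁)(piR y - 1)`; `(A - a₁) ≤ A`).
Integrate with `kap ≥ 0` over `[a₁, a₂]` (`osc_p` for each `p ∈ oddP y`, `p ≤ y`; `int_kap_mul_le`:
`∫ kap A ≤ 2 (log z/ξ) a₂^(ξ/log z) = 2 (log z/ξ) T₀ ≤ 2 log z T₀`; `int_kap_le`: `∫ kap ≤ 4 a₁^(-σ) ≤ 4 z^(-(1-δ)V/2)`):
`s ∫ kap (R - E) ≥ (piR y - 1) log z e^((1-2δ^3)V) - (1 + δ' C₀ piR y) 2 log z T₀ - 4 C_E k piR y z^(-(1-δ)V/2)
≥ (1/4) piR y log z e^((1-2δ^3)V)` by the hypotheses (`piR y ≥ 8 T₀ ≥ 8`, `e^((1-2δ^3)V) ≥ 100`).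
And `∫ kap E ≤ piR y (2 log z T₀) + C_E k piR y 4 z^(-(1-δ)V/2) ≤ 3 piR y log z T₀`, so
`T₀⁻¹ ∫ kap E ≤ 3 piR y log z ≤ (1/4) piR y log z e^((1-2δ^3)V)`. Rewrite with `rho_sum`. The last item: `rho_total`,
`int_kap_mul_le`. -/
theorem matrix_u (θ δ : ℝ) (hθ0 : 0 < θ) (hθ1 : θ < 1 / 4) (h0 : 0 < δ) (h1 : δ ≤ 1 / 8) :
    ∃ (e₀ c B : ℝ) (k₀ z₀ : ℕ), 0 < e₀ ∧ 0 < c ∧ 1 ≤ B ∧ ∀ k : ℕ, k₀ ≤ k → ∀ z : ℕ, z₀ ≤ z →
      2 * (z : ℝ) ≤ e₀ * k → ∀ (p₁ : ℕ) (δ₁ : ℝ), 0 ≤ δ₁ → GoodM δ₁ k (MM z p₁) →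
      ∀ ξ : ℝ, 1 ≤ ξ → ξ ≤ (1 / 2) * Real.log z → B ≤ ff z p₁ ξ →
      (z : ℝ) ^ ((1 + δ) * ff z p₁ ξ) ≤ Real.exp (e₀ * k) →
      B * k ≤ (z : ℝ) ^ ((1 - δ) * ff z p₁ ξ / 2) →
      ∀ y : ℝ, 2 ≤ y → y * (z : ℝ) ^ (δ * ff z p₁ ξ) ≤ (z : ℝ) ^ ((1 - δ) * ff z p₁ ξ) →
      8 * Real.exp ((1 + δ) * ξ * ff z p₁ ξ) ≤ piR y →
      B * (δ₁ + Real.exp (-(c * k))) * Real.exp ((1 + δ) * ξ * ff z p₁ ξ) ≤ 1 →
      ∀ s : ℝ, (s = 1 ∨ s = -1) → ∃ (I : Finset ℕ) (W : ℕ → ℝ), (∀ a ∈ I, Even a) ∧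
        (∀ a ∈ I, 0 ≤ W a) ∧
        1 ≤ s * ((MM z p₁ : ℝ) * ∑ a ∈ I, W a * (TAy θ k (MM z p₁) y a - TEy θ k (MM z p₁) y a)) ∧
        Real.exp (-((1 + δ) * ξ * ff z p₁ ξ))
            * ((MM z p₁ : ℝ) * ∑ a ∈ I, W a * TEy θ k (MM z p₁) y a)
          ≤ s * ((MM z p₁ : ℝ)
            * ∑ a ∈ I, W a * (TAy θ k (MM z p₁) y a - TEy θ k (MM z p₁) y a)) ∧
        ∑ a ∈ I, W a ≤ 2 * Real.log z * Real.exp ((1 + δ) * ξ * ff z p₁ ξ) := by
  obtain ⟨e₁, c₁, k₁, he₁, hc₁, hact⟩ := actual θ hθ0 hθ1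
  obtain ⟨e₂, CE, k₂, he₂, hCE, hexp⟩ := expected_rows θ hθ0 hθ1
  obtain ⟨C₀, hC₀, hrat⟩ := MM_ratio
  obtain ⟨V₁, z₁, hosc⟩ := osc_p δ h0 h1
  set e₀ : ℝ := min e₁ (min e₂ (1 / 8)) with he₀def
  have he01 : e₀ ≤ e₁ := min_le_left _ _
  have he02 : e₀ ≤ e₂ := le_trans (min_le_right _ _) (min_le_left _ _)
  have he03 : e₀ ≤ 1 / 8 := le_trans (min_le_right _ _) (min_le_right _ _)
  have he0 : 0 < e₀ := lt_min he₁ (lt_min he₂ (by norm_num))
  refine ⟨e₀, c₁, max V₁ (max 10 (1 / δ)) + 16 * CE + 16 * C₀, max 1 (max k₁ k₂),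
    max z₁ 4, he0, hc₁, ?_, ?_⟩
  · have : (10 : ℝ) ≤ max V₁ (max 10 (1 / δ)) := le_trans (le_max_left _ _) (le_max_right _ _)
    linarith
  intro k hk z hz hzk p₁ δ₁ hδ₁ hgood ξ hξ1 hξ2 hBV hzA hBk y hy hyz hPT hδT s hs
  set B : ℝ := max V₁ (max 10 (1 / δ)) + 16 * CE + 16 * C₀ with hBdef
  have hBm : max V₁ (max 10 (1 / δ)) ≤ B := by rw [hBdef]; linarith
  have hBV1 : V₁ ≤ B := le_trans (le_max_left _ _) hBm
  have hB10 : (10 : ℝ) ≤ B := le_trans (le_trans (le_max_left _ _) (le_max_right _ _)) hBm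
  have hBδ : 1 / δ ≤ B := le_trans (le_trans (le_max_right _ _) (le_max_right _ _)) hBm
  have hB16 : (16 : ℝ) ≤ B := by
    have : (10 : ℝ) ≤ max V₁ (max 10 (1 / δ)) := le_trans (le_max_left _ _) (le_max_right _ _)
    rw [hBdef]; linarith
  have hBE : 16 * CE ≤ B := by
    have : (10 : ℝ) ≤ max V₁ (max 10 (1 / δ)) := le_trans (le_max_left _ _) (le_max_right _ _)
    rw [hBdef]; linarith
  have hBC : 16 * C₀ ≤ B := by
    have : (10 : ℝ) ≤ max V₁ (max 10 (1 / δ)) := le_trans (le_max_left _ _) (le_max_right _ _)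
    rw [hBdef]; linarith
  have hk1 : 1 ≤ k := le_trans (le_max_left _ _) hk
  have hkk1 : k₁ ≤ k := le_trans (le_trans (le_max_left _ _) (le_max_right _ _)) hk
  have hkk2 : k₂ ≤ k := le_trans (le_trans (le_max_right _ _) (le_max_right _ _)) hk
  have hzz1 : z₁ ≤ z := le_trans (le_max_left _ _) hz
  have hz4 : 4 ≤ z := le_trans (le_max_right _ _) hz
  have hkR : (1 : ℝ) ≤ k := by exact_mod_cast hk1
  have hk0 : (0 : ℝ) < k := by linarith
  have hzR4 : (4 : ℝ) ≤ z := by exact_mod_cast hz4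
  have hzR : (0 : ℝ) < z := by linarith
  have hzR1 : (1 : ℝ) ≤ z := by linarith
  set V : ℝ := ff z p₁ ξ with hVdef
  set L : ℝ := Real.log z with hLdef
  set M : ℕ := MM z p₁ with hMdef
  set P : ℝ := piR y with hPdef
  have hV10 : 10 ≤ V := le_trans hB10 hBV
  have hV0 : 0 < V := by linarith
  have hδV : 1 ≤ δ * V := by
    have : 1 / δ ≤ V := le_trans hBδ hBV
    rw [div_le_iff₀ h0] at this
    linarith
  have hL1 : 1 ≤ L := by
    rw [hLdef, Real.le_log_iff_exp_le hzR]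
    have := Real.exp_one_lt_d9
    linarith
  have hL0 : 0 < L := by linarith
  set a₁ : ℝ := (z : ℝ) ^ ((1 - δ) * V) with ha₁def
  set a₂ : ℝ := (z : ℝ) ^ ((1 + δ) * V) with ha₂def
  set T₀ : ℝ := Real.exp ((1 + δ) * ξ * V) with hT₀def
  have ha12 : a₁ ≤ a₂ := by
    apply Real.rpow_le_rpow_of_exponent_le hzR1
    nlinarith
  have hzd : 2 ≤ (z : ℝ) ^ (δ * V) := by
    calc (2 : ℝ) ≤ (z : ℝ) := by linarith
      _ = (z : ℝ) ^ (1 : ℝ) := (Real.rpow_one _).symm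
      _ ≤ _ := Real.rpow_le_rpow_of_exponent_le hzR1 hδV
  have hya : 2 * y ≤ a₁ := by
    have : y * 2 ≤ y * (z : ℝ) ^ (δ * V) := mul_le_mul_of_nonneg_left hzd (by linarith)
    linarith
  have hy1 : y + 1 ≤ a₁ := by linarith
  have ha1 : 1 ≤ a₁ := by linarith
  have ha0 : 0 < a₁ := by linarith
  have ha20 : 0 < a₂ := by linarith
  have hT1 : 1 ≤ T₀ := Real.one_le_exp (by positivity)
  have hT0 : 0 < T₀ := by linarith
  have hP8 : 8 ≤ P := by linarith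
  have hP0 : 0 ≤ P := by linarith
  obtain ⟨hr1, hr2⟩ := hrat z p₁ hz4
  rw [← hMdef] at hr1 hr2
  have hlogM : Real.log M ≤ e₀ * k := le_trans (log_MM_le z p₁ hz4) hzk
  have hM1 : 1 ≤ M := MM_pos z p₁
  have h2M : 2 ∣ M := two_dvd_MM z p₁
  set σ : ℝ := 1 - ξ / L with hσdef
  have hξL : ξ / L ≤ 1 / 2 := by
    rw [div_le_iff₀ hL0]; linarith
  have hξL0 : 0 < ξ / L := by positivity
  have hσ1 : 1 / 2 ≤ σ := by rw [hσdef]; linarith
  have hσ2 : σ < 1 := by rw [hσdef]; linarith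
  obtain ⟨φ, hφ⟩ := hosc z hzz1 p₁ ξ hξ1 hξ2 (le_trans hBV1 hBV) s hs
  rw [← hVdef, ← hLdef, ← hMdef, ← hσdef, ← ha₁def, ← ha₂def] at hφ
  -- the two integrals of the weight
  have hj1 : ∫ A in a₁..a₂, kap z σ φ A * A ≤ 2 * L * T₀ := by
    refine le_trans (int_kap_mul_le z σ φ a₁ a₂ hσ2 ha1 ha12) ?_
    have e1 : 1 - σ = ξ / L := by rw [hσdef]; ring
    have e2 : a₂ ^ (1 - σ) = T₀ := by
      rw [e1, ha₂def, ← Real.rpow_mul hzR.le, Real.rpow_def_of_pos hzR, hT₀def, ← hLdef]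
      congr 1
      field_simp
    rw [e2, e1]
    apply mul_le_mul_of_nonneg_right _ hT0.le
    rw [div_div_eq_mul_div]
    exact div_le_self (by positivity) hξ1
  have hj10 : 0 ≤ ∫ A in a₁..a₂, kap z σ φ A * A := by
    apply intervalIntegral.integral_nonneg ha12
    intro A hA
    have : 0 ≤ A := by linarith [hA.1]
    exact mul_nonneg (kap_nonneg z σ φ A this) this
  have hj0 : ∫ A in a₁..a₂, kap z σ φ A ≤ 4 * a₁ ^ (-σ) :=
    int_kap_le z σ φ a₁ a₂ hσ1 ha1 ha12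
  have hQj : CE * k * P * (4 * a₁ ^ (-σ)) ≤ P / 4 := by
    have e1 : a₁ ^ (-σ) ≤ a₁ ^ (-(1 / 2) : ℝ) :=
      Real.rpow_le_rpow_of_exponent_le ha1 (by linarith)
    have e2 : a₁ ^ (-(1 / 2) : ℝ) = ((z : ℝ) ^ ((1 - δ) * V / 2))⁻¹ := by
      rw [ha₁def, ← Real.rpow_mul hzR.le, ← Real.rpow_neg hzR.le]
      congr 1; ring
    have hz0 : 0 < (z : ℝ) ^ ((1 - δ) * V / 2) := Real.rpow_pos_of_pos hzR _
    have e3 : (k : ℝ) * a₁ ^ (-σ) ≤ 1 / B := by
      have hB0 : 0 < B := by linarith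
      calc (k : ℝ) * a₁ ^ (-σ) ≤ k * ((z : ℝ) ^ ((1 - δ) * V / 2))⁻¹ := by
            rw [← e2]; exact mul_le_mul_of_nonneg_left e1 hk0.le
        _ ≤ 1 / B := by
            rw [le_div_iff₀ hB0, mul_assoc, mul_comm _ B, ← mul_assoc, ← div_eq_mul_inv,
              div_le_one hz0]
            linarith
    have hB0 : 0 < B := by linarith
    calc CE * k * P * (4 * a₁ ^ (-σ)) = (4 * CE * P) * (k * a₁ ^ (-σ)) := by ring
      _ ≤ (4 * CE * P) * (1 / B) := mul_le_mul_of_nonneg_left e3 (by positivity)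
      _ = P / 4 * (16 * CE / B) := by field_simp; ring
      _ ≤ P / 4 * 1 := by
          apply mul_le_mul_of_nonneg_left _ (by positivity)
          rw [div_le_one hB0]; exact hBE
      _ = P / 4 := mul_one _
  set D : ℝ := (2 * δ₁ + Real.exp (-(c₁ * k))) * ((M : ℝ) / (M.totient : ℝ)) with hDdef
  have hexpk : 0 < Real.exp (-(c₁ * k)) := Real.exp_pos _
  have hD0 : 0 ≤ D := by
    rw [hDdef]
    apply mul_nonneg (by positivity) (by linarith)
  have hDT : D * T₀ ≤ 1 / 8 := by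
    have hB0 : 0 < B := by linarith
    have e1 : D ≤ 2 * (δ₁ + Real.exp (-(c₁ * k))) * C₀ := by
      rw [hDdef]
      apply mul_le_mul _ hr2 (by linarith) (by positivity)
      linarith
    have e2 : (δ₁ + Real.exp (-(c₁ * k))) * T₀ ≤ 1 / B := by
      rw [le_div_iff₀ hB0]
      calc (δ₁ + Real.exp (-(c₁ * k))) * T₀ * B = B * (δ₁ + Real.exp (-(c₁ * k))) * T₀ := by ring
        _ ≤ 1 := hδT
    calc D * T₀ ≤ 2 * (δ₁ + Real.exp (-(c₁ * k))) * C₀ * T₀ :=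
          mul_le_mul_of_nonneg_right e1 hT0.le
      _ = 2 * C₀ * ((δ₁ + Real.exp (-(c₁ * k))) * T₀) := by ring
      _ ≤ 2 * C₀ * (1 / B) := mul_le_mul_of_nonneg_left e2 (by positivity)
      _ = 1 / 8 * (16 * C₀ / B) := by field_simp; ring
      _ ≤ 1 / 8 * 1 := by
          apply mul_le_mul_of_nonneg_left _ (by norm_num)
          rw [div_le_one hB0]; exact hBC
      _ = 1 / 8 := mul_one _
  have hexpV : 100 ≤ Real.exp ((1 - 2 * δ ^ 3) * V) := by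
    have e1 : 5 ≤ (1 - 2 * δ ^ 3) * V := by
      have : δ ^ 3 ≤ (1 / 8) ^ 3 := pow_le_pow_left₀ h0.le h1 3
      nlinarith
    have e2 : (100 : ℝ) ≤ Real.exp 5 := by
      have h := Real.exp_one_gt_d9
      have h2 : Real.exp 5 = (Real.exp 1) ^ 5 := by
        rw [← Real.exp_nat_mul]; norm_num
      rw [h2]
      calc (100 : ℝ) ≤ (2.7) ^ 5 := by norm_num
        _ ≤ (Real.exp 1) ^ 5 := pow_le_pow_left₀ (by norm_num) (by linarith) 5
    exact le_trans e2 (Real.exp_le_exp.mpr e1)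
  -- the functions
  set R : ℝ → ℝ := fun A => (M : ℝ) * ∑ a ∈ rows a₁ A, TAy θ k M y a with hRdef
  set E : ℝ → ℝ := fun A => (M : ℝ) * ∑ a ∈ rows a₁ A, TEy θ k M y a with hEdef
  set F : ℕ → ℝ → ℝ := fun p A => Del M (A - p) - Del M (a₁ - p) with hFdef
  have hREeq : ∀ A, kap z σ φ A * (R A - E A)
      = (M : ℝ) * (kap z σ φ A * ∑ a ∈ rows a₁ A, (TAy θ k M y a - TEy θ k M y a)) := by
    intro A
    simp only [hRdef, hEdef]
    rw [Finset.sum_sub_distrib]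
    ring
  have hEeq : ∀ A, kap z σ φ A * E A
      = (M : ℝ) * (kap z σ φ A * ∑ a ∈ rows a₁ A, TEy θ k M y a) := by
    intro A
    simp only [hEdef]
    ring
  have hREi : IntervalIntegrable (fun A => kap z σ φ A * (R A - E A)) volume a₁ a₂ := by
    have := (rho_integrable z σ φ a₁ a₂ ha1 ha12
      (fun a => TAy θ k M y a - TEy θ k M y a)).const_mul (M : ℝ)
    refine this.congr ?_
    intro A _
    exact (hREeq A).symm
  have hEi : IntervalIntegrable (fun A => kap z σ φ A * E A) volume a₁ a₂ := by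
    have := (rho_integrable z σ φ a₁ a₂ ha1 ha12
      (fun a => TEy θ k M y a)).const_mul (M : ℝ)
    refine this.congr ?_
    intro A _
    exact (hEeq A).symm
  have hREint : ∫ A in a₁..a₂, kap z σ φ A * (R A - E A)
      = (M : ℝ) * ∑ a ∈ rows a₁ a₂, rho z σ φ a₁ a₂ a * (TAy θ k M y a - TEy θ k M y a) := by
    rw [rho_sum z σ φ a₁ a₂ ha1 ha12, ← intervalIntegral.integral_const_mul]
    congr 1
    funext A
    exact hREeq A
  have hEint : ∫ A in a₁..a₂, kap z σ φ A * E A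
      = (M : ℝ) * ∑ a ∈ rows a₁ a₂, rho z σ φ a₁ a₂ a * TEy θ k M y a := by
    rw [rho_sum z σ φ a₁ a₂ ha1 ha12, ← intervalIntegral.integral_const_mul]
    congr 1
    funext A
    exact hEeq A
  have hXp : ∀ p ∈ oddP y, L * Real.exp ((1 - 2 * δ ^ 3) * V)
      ≤ s * ∫ A in a₁..a₂, kap z σ φ A * F p A := by
    intro p hp
    have hpy : (p : ℝ) ≤ y := by
      unfold oddP at hp
      rw [Finset.mem_filter, Finset.mem_range, Nat.lt_succ_iff] at hp
      exact (Nat.le_floor_iff (by linarith)).mp hp.1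
    have h := hφ p (Nat.cast_nonneg p) (le_trans (mul_le_mul_of_nonneg_right hpy
      (by positivity)) hyz)
    exact h
  have hFi : ∀ p ∈ oddP y, IntervalIntegrable (fun A => kap z σ φ A * F p A) volume a₁ a₂ := by
    intro p hp
    by_contra hcon
    have h := hXp p hp
    rw [intervalIntegral.integral_undef hcon, mul_zero] at h
    have : 0 < L * Real.exp ((1 - 2 * δ ^ 3) * V) := by positivity
    linarith
  have hya2 : y ≤ Real.exp ((k : ℝ) / 8) := by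
    calc y ≤ a₂ := by linarith
      _ ≤ Real.exp (e₀ * k) := hzA
      _ ≤ Real.exp ((k : ℝ) / 8) := by
          apply Real.exp_le_exp.mpr
          nlinarith
  have hcardM : (M.primeFactors.card : ℝ) ≤ k := by
    refine le_trans (MM_card z p₁ hz4) ?_
    nlinarith
  have hcore := f2_core (kap z σ φ) F R E (oddP y) a₁ a₂ s P D (CE * k * P)
    (L * Real.exp ((1 - 2 * δ ^ 3) * V)) (4 * a₁ ^ (-σ)) (∫ A in a₁..a₂, kap z σ φ A * A)
    hs ha1 ha12 (fun A hA => kap_nonneg z σ φ A hA)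
    ((kap_continuousOn z σ φ).mono (fun A hA => lt_of_lt_of_le ha0 hA.1))
    hREi hEi hFi hXp
    (by
      intro A hA1 hA2
      have h := hact k hkk1 M hM1 h2M
        (le_trans hlogM (mul_le_mul_of_nonneg_right he01 hk0.le)) δ₁ hδ₁ hgood y a₁ A hy hya2
        hy1 hA1
      simp only [hRdef, hFdef, hDdef]
      exact h)
    (by
      intro A hA1 hA2
      have h := hexp k hkk2 M hM1
        (le_trans hlogM (mul_le_mul_of_nonneg_right he02 hk0.le)) hcardM y a₁ A ha0.le hA1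
        (le_trans hA2 (le_trans hzA (Real.exp_le_exp.mpr
          (mul_le_mul_of_nonneg_right he02 hk0.le))))
      simp only [hEdef]
      exact h)
    (card_oddP y hy) hP0 hD0 (by positivity) hj0 le_rfl
  obtain ⟨hc1, hc2⟩ := hcore
  obtain ⟨hn1, hn2⟩ := f2_num P L (Real.exp ((1 - 2 * δ ^ 3) * V)) T₀ D (CE * k * P)
    (4 * a₁ ^ (-σ)) (∫ A in a₁..a₂, kap z σ φ A * A) hPT hT1 hL1 hexpV hj1 hj10 hD0 hDT hQj
  rw [hREint] at hc1
  rw [hEint] at hc2
  refine ⟨rows a₁ a₂, rho z σ φ a₁ a₂, ?_, fun a ha => rho_nonneg z σ φ a₁ a₂ ha1 ha12 a ha,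
    le_trans hn1 hc1, ?_, le_trans (rho_total z σ φ a₁ a₂ ha1 ha12) hj1⟩
  · intro a ha
    unfold rows at ha
    exact (Finset.mem_filter.mp ha).2
  · have h : (M : ℝ) * ∑ a ∈ rows a₁ a₂, rho z σ φ a₁ a₂ a * TEy θ k M y a
        ≤ T₀ * (s * ((M : ℝ) * ∑ a ∈ rows a₁ a₂,
          rho z σ φ a₁ a₂ a * (TAy θ k M y a - TEy θ k M y a))) :=
      le_trans hc2 (le_trans hn2 (mul_le_mul_of_nonneg_left hc1 hT0.le))
    rw [Real.exp_neg, ← hT₀def]
    rw [inv_mul_le_iff₀ hT0]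
    exact h

end Pool.Agent.MU
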