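import Mathlib
import Pool.Agent.Lib.MP_bae66e_nt.MU.Defs
import Pool.Agent.Lib.MP_bae66e_nt.MG.B2a

/-!
# Maier matrices, uniformly in the scale: F3a, many m with a surplus
-/

set_option autoImplicit false

namespace Pool.Agent.MU

open Pool.Agent.GM Pool.Agent.MG MeasureTheory

private lemma F3a_rep_le (m : ℕ) (y : ℝ) (hY : 0 ≤ y) : (repCount m y : ℝ) ≤ y := by
  unfold repCount
  have h1 : (Finset.range m).filter (fun p => p.Prime ∧ (m - p).Prime ∧ (p : ℝ) ≤ y) ⊆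
      Finset.Icc 1 ⌊y⌋₊ := by
    intro p hp
    rw [Finset.mem_filter] at hp
    rw [Finset.mem_Icc]
    exact ⟨hp.2.1.one_lt.le, Nat.le_floor hp.2.2.2⟩
  have h2 := Finset.card_le_card h1
  rw [Nat.card_Icc, Nat.add_sub_cancel] at h2
  have h3 : ((((Finset.range m).filter
      (fun p => p.Prime ∧ (m - p).Prime ∧ (p : ℝ) ≤ y)).card : ℕ) : ℝ) ≤ (⌊y⌋₊ : ℝ) := by
    exact_mod_cast h2
  exact h3.trans (Nat.floor_le hY)

private lemma F3a_even (m a M : ℕ) (hM : 2 ∣ M) (ha : Even a) (h : m ≡ a [MOD M]) : Even m := by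
  have h1 : m ≡ a [MOD 2] := h.of_dvd hM
  rw [Nat.even_iff] at ha ⊢
  rw [← ha]
  exact h1

private lemma F3a_row (θ : ℝ) (k M a : ℕ) (y c W : ℝ) (hM : 2 ∣ M) (ha : Even a)
    (hc : 0 ≤ c) (hW : 0 ≤ W) (hlog : ∀ m ∈ cenSet θ k, 0 < Real.log m)
    (hwk : ∀ m ∈ cenSet θ k, 0 ≤ wk k m)
    (hT : ∀ m ∈ cenSet θ k, wk k m * Real.log m * (repCount m y : ℝ) ≤ W)
    (hE : ∀ m ∈ cenSet θ k, 0 ≤ sing m * piR y) :
    TAy θ k M y a ≤ c * TEy θ k M y a +
      (((cenSet θ k).filter (fun m => Even m ∧ c * expected m y ≤ (repCount m y : ℝ))).card : ℝ)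
        * W := by
  classical
  unfold TAy TEy
  set G := (cenSet θ k).filter (fun m => Even m ∧ c * expected m y ≤ (repCount m y : ℝ)) with hG
  rw [Finset.mul_sum]
  have key : ∀ m ∈ (cenSet θ k).filter (fun m => m ≡ a [MOD M]),
      wk k m * Real.log m * (repCount m y : ℝ) ≤
      c * (wk k m * (sing m * piR y)) + (if m ∈ G then W else 0) := by
    intro m hm
    rw [Finset.mem_filter] at hm
    have h1 := hT m hm.1
    have h2 := hE m hm.1
    have h3 := hwk m hm.1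
    have h4 := hlog m hm.1
    by_cases hmG : m ∈ G
    · rw [if_pos hmG]
      have : 0 ≤ c * (wk k m * (sing m * piR y)) := by positivity
      linarith
    · rw [if_neg hmG, add_zero]
      have h5 : (repCount m y : ℝ) < c * expected m y := by
        by_contra hcon
        apply hmG
        rw [hG, Finset.mem_filter]
        exact ⟨hm.1, F3a_even m a M hM ha hm.2, not_lt.1 hcon⟩
      unfold expected at h5
      have h6 : Real.log m * (repCount m y : ℝ) ≤ c * (sing m * piR y) := by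
        have h7 := mul_le_mul_of_nonneg_left h5.le h4.le
        have e : Real.log m * (c * (sing m * piR y / Real.log m)) = c * (sing m * piR y) := by
          field_simp
        rw [e] at h7
        exact h7
      calc wk k m * Real.log m * (repCount m y : ℝ)
          = wk k m * (Real.log m * (repCount m y : ℝ)) := by ring
        _ ≤ wk k m * (c * (sing m * piR y)) := mul_le_mul_of_nonneg_left h6 h3
        _ = _ := by ring
  refine (Finset.sum_le_sum key).trans ?_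
  rw [Finset.sum_add_distrib]
  apply add_le_add le_rfl
  rw [← Finset.sum_filter, Finset.sum_const, nsmul_eq_mul]
  apply mul_le_mul_of_nonneg_right _ hW
  have hss : ((cenSet θ k).filter (fun m => m ≡ a [MOD M])).filter (fun m => m ∈ G) ⊆ G := by
    intro m hm
    exact (Finset.mem_filter.1 hm).2
  exact_mod_cast Finset.card_le_card hss

private lemma F3a_asym (c : ℝ) (hc : 0 < c) : ∃ k₀ : ℕ, ∀ k : ℕ, k₀ ≤ k →
    8 * (k : ℝ) ≤ Real.exp (c * k) := by
  obtain ⟨k₀, hk₀⟩ := exists_nat_ge (16 / c ^ 2)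
  refine ⟨k₀, fun k hk => ?_⟩
  have h1 : 16 / c ^ 2 ≤ (k : ℝ) := hk₀.trans (by exact_mod_cast hk)
  have hk0 : (0 : ℝ) ≤ k := Nat.cast_nonneg k
  have h2 := Real.quadratic_le_exp_of_nonneg (x := c * k) (by positivity)
  have h3 : 16 ≤ c ^ 2 * k := by
    rw [div_le_iff₀ (by positivity)] at h1
    linarith
  have h4 : 8 * (k : ℝ) ≤ (c * k) ^ 2 / 2 := by
    have : 16 * (k : ℝ) ≤ c ^ 2 * k * k := mul_le_mul_of_nonneg_right h3 hk0
    nlinarith
  have h5 : 0 ≤ c * k := by positivity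
  linarith

/-- F3a. PROOF. `G` the set on the right; `expected m y = sing m piR y/log m`. For central `m ∉ G` (and even `m`; all
`m ≡ a` are even) `log m repCount < (1 + d/2) sing m piR y`, so
`TAy a - (1 + d/2) TEy a ≤ ∑_{m ∈ G, m ≡ a} wk k m log m repCount m y`. By the two hypotheses
`1/2 ≤ M ∑ W (TAy - TEy)/2 ≤ M ∑ W (TAy - (1 + d/2) TEy) ≤ M (∑ W) ∑_{m ∈ G} wk k m log m repCount m y`
`≤ e^(θ k/2) #G e^(-(1-3θ)k) (2 k) (y + 1)` (`MG.wk_central_le`; `repCount m y ≤ y + 1`, `log m ≤ 2 k`). -/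
theorem count_large (θ : ℝ) (h0 : 0 < θ) (h1 : θ < 1 / 8) : ∃ k₀ : ℕ, ∀ k : ℕ, k₀ ≤ k →
    ∀ (M : ℕ) (y d : ℝ) (I : Finset ℕ) (W : ℕ → ℝ), 1 ≤ M → 2 ∣ M → (∀ a ∈ I, Even a) →
      (∀ a ∈ I, 0 ≤ W a) → 0 < d → d ≤ 1 → 0 ≤ y → y ≤ Real.exp (θ * k / 8) →
      (M : ℝ) * ∑ a ∈ I, W a ≤ Real.exp (θ * k / 2) →
      1 ≤ (M : ℝ) * ∑ a ∈ I, W a * (TAy θ k M y a - TEy θ k M y a) →
      d * ((M : ℝ) * ∑ a ∈ I, W a * TEy θ k M y a)
        ≤ (M : ℝ) * ∑ a ∈ I, W a * (TAy θ k M y a - TEy θ k M y a) →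
      Real.exp ((1 - 4 * θ) * k) ≤ (((cenSet θ k).filter (fun m => Even m ∧
        (1 + d / 2) * expected m y ≤ (repCount m y : ℝ))).card : ℝ) := by
  obtain ⟨k₁, hk₁⟩ := F3a_asym (3 * θ / 8) (by positivity)
  refine ⟨max 1 k₁, ?_⟩
  intro k hk M y d I W hM1 hM2 hIe hW0 hd0 hd1 hy0 hy1 hMW hA hB
  have a1 : 1 ≤ k := (le_max_left _ _).trans hk
  have a2 : k₁ ≤ k := (le_max_right _ _).trans hk
  have hkr : (1 : ℝ) ≤ k := by exact_mod_cast a1
  obtain ⟨N, hN⟩ : ∃ N : ℝ, N = (((cenSet θ k).filter (fun m => Even m ∧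
        (1 + d / 2) * expected m y ≤ (repCount m y : ℝ))).card : ℝ) := ⟨_, rfl⟩
  rw [← hN]
  have hN0 : 0 ≤ N := by rw [hN]; positivity
  obtain ⟨w, hw⟩ : ∃ w, w = Real.exp (-((1 - 3 * θ) * k)) * (2 * k) * y := ⟨_, rfl⟩
  have hw0 : 0 ≤ w := by rw [hw]; positivity
  have hcen : ∀ m ∈ cenSet θ k, 0 < Real.log m ∧ Real.log m ≤ 2 * k ∧ 0 ≤ wk k m ∧
      wk k m ≤ Real.exp (-((1 - 3 * θ) * k)) ∧ 0 ≤ sing m := by
    intro m hm
    have h3 := (mem_cenSet a1 (by linarith)).1 hm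
    have hlog : 0 < Real.log m := by nlinarith [h3.1]
    have hm1 : 1 ≤ m := by
      rcases Nat.eq_zero_or_pos m with h4 | h4
      · exfalso
        rw [h4] at hlog
        simp at hlog
      · exact h4
    have hl2 : Real.log m ≤ 2 * k := by nlinarith [h3.2]
    have h7 := sing_bounds m hm1
    have h8 := twinConst_pos.1
    refine ⟨hlog, hl2, ?_, wk_central_le θ h0 (by linarith) k m a1 hm, by linarith [h7.1]⟩
    unfold wk
    positivity
  have hT : ∀ m ∈ cenSet θ k, wk k m * Real.log m * (repCount m y : ℝ) ≤ w := by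
    intro m hm
    obtain ⟨b1, b2, b3, b4, b5⟩ := hcen m hm
    rw [hw]
    apply mul_le_mul _ (F3a_rep_le m y hy0) (by positivity) (by positivity)
    exact mul_le_mul b4 b2 b1.le (Real.exp_pos _).le
  have hrow : ∀ a ∈ I, TAy θ k M y a - TEy θ k M y a ≤ d / 2 * TEy θ k M y a + N * w := by
    intro a ha
    have h2 := F3a_row θ k M a y (1 + d / 2) w hM2 (hIe a ha) (by linarith) hw0
      (fun m hm => (hcen m hm).1) (fun m hm => (hcen m hm).2.2.1) hT
      (fun m hm => mul_nonneg (hcen m hm).2.2.2.2 (by unfold piR; positivity))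
    rw [← hN] at h2
    linarith
  have hM0 : (0 : ℝ) ≤ M := Nat.cast_nonneg M
  have hsum : (M : ℝ) * ∑ a ∈ I, W a * (TAy θ k M y a - TEy θ k M y a)
      ≤ d / 2 * ((M : ℝ) * ∑ a ∈ I, W a * TEy θ k M y a) + ((M : ℝ) * ∑ a ∈ I, W a) * (N * w) := by
    have h2 : ∑ a ∈ I, W a * (TAy θ k M y a - TEy θ k M y a)
        ≤ d / 2 * ∑ a ∈ I, W a * TEy θ k M y a + (∑ a ∈ I, W a) * (N * w) := by
      rw [Finset.mul_sum, Finset.sum_mul, ← Finset.sum_add_distrib]
      apply Finset.sum_le_sum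
      intro a ha
      have h3 := mul_le_mul_of_nonneg_left (hrow a ha) (hW0 a ha)
      linarith
    have h3 := mul_le_mul_of_nonneg_left h2 hM0
    linarith
  have hmain : 1 / 2 ≤ Real.exp (θ * k / 2) * (N * w) := by
    have h2 : ((M : ℝ) * ∑ a ∈ I, W a) * (N * w) ≤ Real.exp (θ * k / 2) * (N * w) :=
      mul_le_mul_of_nonneg_right hMW (by positivity)
    linarith
  have hw2 : w ≤ Real.exp (-((1 - 3 * θ) * k)) * (2 * k) * Real.exp (θ * k / 8) := by
    rw [hw]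
    exact mul_le_mul_of_nonneg_left hy1 (by positivity)
  have h3 : 1 / 2 ≤ N * (Real.exp (θ * k / 2) * (Real.exp (-((1 - 3 * θ) * k)) * (2 * k) *
      Real.exp (θ * k / 8))) := by
    refine hmain.trans ?_
    have h4 : Real.exp (θ * k / 2) * (N * w) ≤ Real.exp (θ * k / 2) * (N *
        (Real.exp (-((1 - 3 * θ) * k)) * (2 * k) * Real.exp (θ * k / 8))) :=
      mul_le_mul_of_nonneg_left (mul_le_mul_of_nonneg_left hw2 hN0) (Real.exp_pos _).le
    refine h4.trans (le_of_eq (by ring))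
  have h4 : Real.exp (θ * k / 2) * (Real.exp (-((1 - 3 * θ) * k)) * (2 * k) *
      Real.exp (θ * k / 8)) ≤ Real.exp (-((1 - 4 * θ) * k)) / 2 := by
    have h5 := hk₁ k a2
    have e1 : Real.exp (θ * k / 2) * (Real.exp (-((1 - 3 * θ) * k)) * (2 * k) *
        Real.exp (θ * k / 8)) = (2 * k) *
          (Real.exp (θ * k / 2) * Real.exp (-((1 - 3 * θ) * k)) * Real.exp (θ * k / 8)) := by ring
    have e2 : Real.exp (θ * k / 2) * Real.exp (-((1 - 3 * θ) * k)) * Real.exp (θ * k / 8) =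
        Real.exp (-((1 - 4 * θ) * k)) * Real.exp (-(3 * θ / 8 * k)) := by
      rw [← Real.exp_add, ← Real.exp_add, ← Real.exp_add]
      congr 1
      ring
    rw [e1, e2]
    have h6 : 2 * (k : ℝ) * Real.exp (-(3 * θ / 8 * k)) ≤ 1 / 4 := by
      rw [Real.exp_neg, ← div_eq_mul_inv, div_le_iff₀ (Real.exp_pos _)]
      linarith
    have h7 := Real.exp_pos (-((1 - 4 * θ) * k))
    nlinarith
  have h5 : 1 / 2 ≤ N * (Real.exp (-((1 - 4 * θ) * k)) / 2) :=
    h3.trans (mul_le_mul_of_nonneg_left h4 hN0)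
  have h6 : 1 ≤ N * Real.exp (-((1 - 4 * θ) * k)) := by linarith
  rw [Real.exp_neg, ← div_eq_mul_inv, le_div_iff₀ (Real.exp_pos _), one_mul] at h6
  exact h6

end Pool.Agent.MU
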