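import Mathlib
import Pool.Agent.Lib.MP_bae66e_nt.MU.Defs
import Pool.Agent.Lib.MP_bae66e_nt.MG.B2b

/-!
# Maier matrices, uniformly in the scale: F3b, many m with a deficit
-/

set_option autoImplicit false

namespace Pool.Agent.MU

open Pool.Agent.GM Pool.Agent.MG MeasureTheory

private lemma F3b_pi_le (y : ℝ) (hY : 0 ≤ y) : piR y ≤ y := by
  unfold piR
  have h1 : Nat.primeCounting ⌊y⌋₊ ≤ ⌊y⌋₊ := by
    rw [Nat.primeCounting, Nat.primeCounting', Nat.count_eq_card_filter_range]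
    have h2 : (Finset.range (⌊y⌋₊ + 1)).filter Nat.Prime ⊆ Finset.Icc 1 ⌊y⌋₊ := by
      intro p hp
      rw [Finset.mem_filter, Finset.mem_range] at hp
      rw [Finset.mem_Icc]
      exact ⟨hp.2.one_lt.le, by omega⟩
    have h3 := Finset.card_le_card h2
    rw [Nat.card_Icc, Nat.add_sub_cancel] at h3
    exact h3
  have h3 : (Nat.primeCounting ⌊y⌋₊ : ℝ) ≤ (⌊y⌋₊ : ℝ) := by exact_mod_cast h1
  exact h3.trans (Nat.floor_le hY)

private lemma F3b_even (m a M : ℕ) (hM : 2 ∣ M) (ha : Even a) (h : m ≡ a [MOD M]) : Even m := by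
  have h1 : m ≡ a [MOD 2] := h.of_dvd hM
  rw [Nat.even_iff] at ha ⊢
  rw [← ha]
  exact h1

private lemma F3b_row (θ : ℝ) (k M a : ℕ) (y c W : ℝ) (hM : 2 ∣ M) (ha : Even a)
    (hc : 0 ≤ c) (hW : 0 ≤ W) (hlog : ∀ m ∈ cenSet θ k, 0 < Real.log m)
    (hwk : ∀ m ∈ cenSet θ k, 0 ≤ wk k m)
    (hE : ∀ m ∈ cenSet θ k, wk k m * (sing m * piR y) ≤ W) :
    c * TEy θ k M y a ≤ TAy θ k M y a +
      (((cenSet θ k).filter (fun m => Even m ∧ (repCount m y : ℝ) ≤
        c * expected m y)).card : ℝ) * (c * W) := by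
  classical
  unfold TAy TEy
  set G := (cenSet θ k).filter (fun m => Even m ∧
    (repCount m y : ℝ) ≤ c * expected m y) with hG
  rw [Finset.mul_sum]
  have key : ∀ m ∈ (cenSet θ k).filter (fun m => m ≡ a [MOD M]),
      c * (wk k m * (sing m * piR y)) ≤
      wk k m * Real.log m * (repCount m y : ℝ) + (if m ∈ G then c * W else 0) := by
    intro m hm
    rw [Finset.mem_filter] at hm
    have h2 := hE m hm.1
    have h3 := hwk m hm.1
    have h4 := hlog m hm.1
    by_cases hmG : m ∈ G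
    · rw [if_pos hmG]
      have h5 : 0 ≤ wk k m * Real.log m * (repCount m y : ℝ) := by
        positivity
      have h6 := mul_le_mul_of_nonneg_left h2 hc
      linarith
    · rw [if_neg hmG, add_zero]
      have h5 : c * expected m y < (repCount m y : ℝ) := by
        by_contra hcon
        apply hmG
        rw [hG, Finset.mem_filter]
        exact ⟨hm.1, F3b_even m a M hM ha hm.2, not_lt.1 hcon⟩
      unfold expected at h5
      have h6 : c * (sing m * piR y) ≤ Real.log m * (repCount m y : ℝ) := by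
        have h7 := mul_le_mul_of_nonneg_left h5.le h4.le
        have e : Real.log m * (c * (sing m * piR y / Real.log m)) =
            c * (sing m * piR y) := by
          field_simp
        rw [e] at h7
        exact h7
      calc c * (wk k m * (sing m * piR y))
          = wk k m * (c * (sing m * piR y)) := by ring
        _ ≤ wk k m * (Real.log m * (repCount m y : ℝ)) :=
            mul_le_mul_of_nonneg_left h6 h3
        _ = _ := by ring
  refine (Finset.sum_le_sum key).trans ?_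
  rw [Finset.sum_add_distrib]
  apply add_le_add le_rfl
  rw [← Finset.sum_filter, Finset.sum_const, nsmul_eq_mul]
  apply mul_le_mul_of_nonneg_right _ (by positivity)
  have hss : ((cenSet θ k).filter (fun m => m ≡ a [MOD M])).filter (fun m => m ∈ G) ⊆ G := by
    intro m hm
    exact (Finset.mem_filter.1 hm).2
  exact_mod_cast Finset.card_le_card hss

private lemma F3b_asym (θ : ℝ) (h0 : 0 < θ) : ∃ k₀ : ℕ, ∀ k : ℕ, k₀ ≤ k →
    40 * (k : ℝ) ≤ Real.exp (3 * θ * k / 8) := by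
  refine ⟨⌈600 / θ ^ 2⌉₊, fun k hk => ?_⟩
  have h1 : 600 / θ ^ 2 ≤ (k : ℝ) := (Nat.le_ceil _).trans (by exact_mod_cast hk)
  rw [div_le_iff₀ (by positivity)] at h1
  have h2 := Real.quadratic_le_exp_of_nonneg (x := 3 * θ * k / 8) (by positivity)
  have hk0 : (0 : ℝ) ≤ k := Nat.cast_nonneg k
  have h3 : 40 * (k : ℝ) ≤ (3 * θ * k / 8) ^ 2 / 2 := by
    have h4 : (3 * θ * k / 8) ^ 2 / 2 = 9 / 128 * (k * θ ^ 2) * k := by ring
    rw [h4]
    refine mul_le_mul_of_nonneg_right ?_ hk0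
    linarith
  have h5 : 0 ≤ 3 * θ * k / 8 := by positivity
  linarith

/-- F3b. PROOF. As F3a: `G'` the set on the right; for central even `m ∉ G'`
`log m repCount > (1 - d/2) sing m piR y`, so `(1 - d/2) TEy a - TAy a ≤ ∑_{m ∈ G', m ≡ a} wk k m sing m piR y`, and
`1/2 ≤ M ∑ W ((1 - d/2) TEy - TAy) ≤ e^(θ k/2) #G' e^(-(1-3θ)k) (8 k + 2) (y + 1)` (`MG.sing_bounds`,
`piR y ≤ y + 1`). -/
theorem count_small (θ : ℝ) (h0 : 0 < θ) (h1 : θ < 1 / 8) : ∃ k₀ : ℕ, ∀ k : ℕ, k₀ ≤ k →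
    ∀ (M : ℕ) (y d : ℝ) (I : Finset ℕ) (W : ℕ → ℝ), 1 ≤ M → 2 ∣ M → (∀ a ∈ I, Even a) →
      (∀ a ∈ I, 0 ≤ W a) → 0 < d → d ≤ 1 → 0 ≤ y → y ≤ Real.exp (θ * k / 8) →
      (M : ℝ) * ∑ a ∈ I, W a ≤ Real.exp (θ * k / 2) →
      1 ≤ -((M : ℝ) * ∑ a ∈ I, W a * (TAy θ k M y a - TEy θ k M y a)) →
      d * ((M : ℝ) * ∑ a ∈ I, W a * TEy θ k M y a)
        ≤ -((M : ℝ) * ∑ a ∈ I, W a * (TAy θ k M y a - TEy θ k M y a)) →
      Real.exp ((1 - 4 * θ) * k) ≤ (((cenSet θ k).filter (fun m => Even m ∧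
        (repCount m y : ℝ) ≤ (1 - d / 2) * expected m y)).card : ℝ) := by
  obtain ⟨k₁, hk₁⟩ := F3b_asym θ h0
  refine ⟨max 1 k₁, fun k hk M y d I W hM1 hM2 hI hW hd0 hd1 hy0 hy1 hMW hD1 hD2 => ?_⟩
  have a1 : 1 ≤ k := le_trans (le_max_left _ _) hk
  have a2 : k₁ ≤ k := le_trans (le_max_right _ _) hk
  have hkr : (1 : ℝ) ≤ k := by exact_mod_cast a1
  have hasym := hk₁ k a2
  obtain ⟨N, hN⟩ : ∃ N : ℝ, N = (((cenSet θ k).filter (fun m => Even m ∧
        (repCount m y : ℝ) ≤ (1 - d / 2) * expected m y)).card : ℝ) := ⟨_, rfl⟩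
  have hN0 : 0 ≤ N := by rw [hN]; positivity
  obtain ⟨Wt, hWt⟩ : ∃ Wt : ℝ, Wt = Real.exp (-((1 - 3 * θ) * k)) * ((10 * k) * y) := ⟨_, rfl⟩
  have hWt0 : 0 ≤ Wt := by rw [hWt]; positivity
  have hlog : ∀ m ∈ cenSet θ k, 0 < Real.log m := by
    intro m hm
    have h3 := (mem_cenSet a1 (by linarith)).1 hm
    have h4 : 0 < (1 - θ) * k := by
      apply mul_pos <;> linarith
    linarith [h3.1]
  have hwk : ∀ m ∈ cenSet θ k, 0 ≤ wk k m := by
    intro m hm
    have := hlog m hm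
    unfold wk
    positivity
  have hE : ∀ m ∈ cenSet θ k, wk k m * (sing m * piR y) ≤ Wt := by
    intro m hm
    have h3 := (mem_cenSet a1 (by linarith)).1 hm
    have h4 := hlog m hm
    have hm1 : 1 ≤ m := by
      rcases Nat.eq_zero_or_pos m with h5 | h5
      · exfalso
        rw [h5] at h4
        simp at h4
      · exact h5
    have h5 := sing_bounds m hm1
    have h6 := twinConst_pos
    have h7 : Real.log m ≤ 2 * k := by
      have h8 : (1 + θ) * (k : ℝ) ≤ 2 * k := mul_le_mul_of_nonneg_right (by linarith) (by linarith)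
      linarith [h3.2]
    have hpi : 0 ≤ piR y := by unfold piR; positivity
    have hs0 : 0 ≤ sing m := by linarith [h5.1, h6.1]
    rw [hWt]
    refine mul_le_mul (wk_central_le θ h0 (by linarith) k m a1 hm) ?_ (mul_nonneg hs0 hpi)
      (Real.exp_pos _).le
    refine mul_le_mul ?_ (F3b_pi_le y hy0) hpi (by positivity)
    linarith [h5.2]
  have hc0 : 0 ≤ 1 - d / 2 := by linarith
  have hrow : ∀ a ∈ I, W a * ((1 - d / 2) * TEy θ k M y a) ≤
      W a * TAy θ k M y a + N * Wt * W a := by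
    intro a ha
    have h1 := F3b_row θ k M a y (1 - d / 2) Wt hM2 (hI a ha) hc0 hWt0 hlog hwk hE
    rw [← hN] at h1
    have h2 : N * ((1 - d / 2) * Wt) ≤ N * Wt := by
      refine mul_le_mul_of_nonneg_left ?_ hN0
      have h3 : (1 - d / 2) * Wt ≤ 1 * Wt := mul_le_mul_of_nonneg_right (by linarith) hWt0
      linarith
    have h3 := mul_le_mul_of_nonneg_left (h1.trans (add_le_add le_rfl h2)) (hW a ha)
    linarith
  have hsum := Finset.sum_le_sum hrow
  rw [Finset.sum_add_distrib, ← Finset.mul_sum] at hsum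
  have e1 : ∑ a ∈ I, W a * ((1 - d / 2) * TEy θ k M y a) =
      (1 - d / 2) * ∑ a ∈ I, W a * TEy θ k M y a := by
    rw [Finset.mul_sum]
    exact Finset.sum_congr rfl fun a _ => by ring
  have e2 : ∑ a ∈ I, W a * (TAy θ k M y a - TEy θ k M y a) =
      ∑ a ∈ I, W a * TAy θ k M y a - ∑ a ∈ I, W a * TEy θ k M y a := by
    rw [← Finset.sum_sub_distrib]
    exact Finset.sum_congr rfl fun a _ => by ring
  rw [e1] at hsum
  rw [e2] at hD1 hD2
  have hMr : (0 : ℝ) ≤ M := Nat.cast_nonneg M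
  have h5 := mul_le_mul_of_nonneg_left hsum hMr
  have h6 : N * Wt * ((M : ℝ) * ∑ a ∈ I, W a) ≤ N * Wt * Real.exp (θ * k / 2) :=
    mul_le_mul_of_nonneg_left hMW (mul_nonneg hN0 hWt0)
  have h7 : 1 / 2 ≤ N * Wt * Real.exp (θ * k / 2) := by
    nlinarith
  have h8 : Wt * Real.exp (θ * k / 2) ≤ 10 * k * Real.exp (-((1 - 3 * θ) * k) +
      θ * k / 8 + θ * k / 2) := by
    rw [Real.exp_add, Real.exp_add, hWt]
    have h9 : Real.exp (-((1 - 3 * θ) * k)) * (10 * k * y) ≤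
        Real.exp (-((1 - 3 * θ) * k)) * (10 * k * Real.exp (θ * k / 8)) :=
      mul_le_mul_of_nonneg_left (mul_le_mul_of_nonneg_left hy1 (by positivity)) (Real.exp_pos _).le
    refine (mul_le_mul_of_nonneg_right h9 (Real.exp_pos _).le).trans (le_of_eq ?_)
    ring
  have h9 : 1 / 2 ≤ N * (10 * k * Real.exp (-((1 - 3 * θ) * k) + θ * k / 8 + θ * k / 2)) := by
    refine h7.trans ?_
    rw [mul_assoc]
    exact mul_le_mul_of_nonneg_left h8 hN0
  have h10 : 20 * k * Real.exp (-((1 - 3 * θ) * k) + θ * k / 8 + θ * k / 2) ≤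
      Real.exp (-((1 - 4 * θ) * k)) := by
    calc 20 * k * Real.exp (-((1 - 3 * θ) * k) + θ * k / 8 + θ * k / 2)
        ≤ Real.exp (3 * θ * k / 8) * Real.exp (-((1 - 3 * θ) * k) + θ * k / 8 + θ * k / 2) :=
          mul_le_mul_of_nonneg_right (by linarith) (Real.exp_pos _).le
      _ = Real.exp (-((1 - 4 * θ) * k)) := by
          rw [← Real.exp_add]
          congr 1
          ring
  have h11 : 1 ≤ N * Real.exp (-((1 - 4 * θ) * k)) := by
    have := mul_le_mul_of_nonneg_left h10 hN0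
    linarith
  rw [← hN]
  calc Real.exp ((1 - 4 * θ) * k) = Real.exp ((1 - 4 * θ) * k) * 1 := (mul_one _).symm
    _ ≤ Real.exp ((1 - 4 * θ) * k) * (N * Real.exp (-((1 - 4 * θ) * k))) :=
        mul_le_mul_of_nonneg_left h11 (Real.exp_pos _).le
    _ = N * (Real.exp ((1 - 4 * θ) * k) * Real.exp (-((1 - 4 * θ) * k))) := by ring
    _ = N := by rw [← Real.exp_add]; simp

end Pool.Agent.MU
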