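import Mathlib
import Pool.Agent.Lib.MP_bae66e_nt.MU.Defs

/-!
# Maier matrices, uniformly in the scale: F4a, the choice of z
-/

set_option autoImplicit false

namespace Pool.Agent.MU

open Pool.Agent.GM Pool.Agent.MG MeasureTheory

open Filter in
private lemma F4a_ev (θ δ V₁ C₁ B κ : ℝ) (hθ0 : 0 < θ) (h0 : 0 < δ) : ∃ k₀ : ℕ, ∀ k : ℕ, k₀ ≤ k →
    1 ≤ k ∧ 1 ≤ Real.log k ∧ 4 * κ ≤ Real.log k ∧ |B| ≤ Real.log k ∧ 2 * V₁ ≤ (k : ℝ) ^ θ ∧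
      2 * Real.log k ≤ (k : ℝ) ^ δ ∧ 2 * C₁ ≤ (k : ℝ) ^ δ ∧ 2 * |B| ≤ (k : ℝ) ^ δ := by
  have t1 : Tendsto (fun k : ℕ => Real.log (k : ℝ)) atTop atTop :=
    Real.tendsto_log_atTop.comp tendsto_natCast_atTop_atTop
  have t2 : Tendsto (fun k : ℕ => (k : ℝ) ^ δ) atTop atTop :=
    (tendsto_rpow_atTop h0).comp tendsto_natCast_atTop_atTop
  have t3 : Tendsto (fun k : ℕ => (k : ℝ) ^ θ) atTop atTop :=
    (tendsto_rpow_atTop hθ0).comp tendsto_natCast_atTop_atTop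
  have e4 : ∀ᶠ k : ℕ in atTop, ‖Real.log (k : ℝ)‖ ≤ 1 / 2 * ‖(k : ℝ) ^ δ‖ :=
    tendsto_natCast_atTop_atTop.eventually
      ((isLittleO_log_rpow_atTop h0).bound (show (0 : ℝ) < 1 / 2 by norm_num))
  have e := ((((((eventually_ge_atTop (1 : ℕ)).and (t1.eventually_ge_atTop 1)).and
    (t1.eventually_ge_atTop (4 * κ))).and (t1.eventually_ge_atTop |B|)).and
    (t3.eventually_ge_atTop (2 * V₁))).and e4).and
    ((t2.eventually_ge_atTop (2 * C₁)).and (t2.eventually_ge_atTop (2 * |B|)))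
  rw [eventually_atTop] at e
  obtain ⟨k₀, hk₀⟩ := e
  refine ⟨k₀, fun k hk => ?_⟩
  obtain ⟨⟨⟨⟨⟨⟨a1, a2⟩, a3⟩, a4⟩, a5⟩, a6⟩, a7, a8⟩ := hk₀ k hk
  refine ⟨a1, a2, a3, a4, a5, ?_, a7, a8⟩
  rw [Real.norm_eq_abs, Real.norm_eq_abs, abs_of_nonneg (by linarith),
    abs_of_nonneg (by positivity)] at a6
  linarith

/-- the parameter `V` -/
noncomputable def Vp (θ δ V₁ : ℝ) (k : ℕ) (t : ℝ) : ℝ :=
  V₁ + (1 + 3 * δ) / (1 - θ - 3 * δ) * (t / Real.log k)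

/-- the parameter `z` -/
noncomputable def zp (θ δ V₁ C₁ : ℝ) (k : ℕ) (t : ℝ) : ℕ :=
  ⌊(k : ℝ) / (C₁ * (Vp θ δ V₁ k t * Real.log (Vp θ δ V₁ k t) + Real.log k))⌋₊

/-- F4a. PROOF. Let `Λ = log k`, `κ = (1+3δ)/(1-θ-3δ)`. As `t ≤ 2 k^θ` and `Λ → ∞`, `V ≤ k^θ` for large `k`
(`V₁ + 2 κ k^θ/Λ ≤ k^θ`), so `V ≥ V₁ ≥ 1`, `0 ≤ log V ≤ θ Λ` and `V log V + Λ ≤ k^(θ+δ)`,
`z ≥ k^(1-θ-δ)/C₁ - 1 ≥ k^(1-θ-2δ)`. All claims follow for large `k` (`θ < 1/3`, `δ ≤ 1/100`). In particular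
`log z ≥ (1-θ-2δ) Λ`. -/
theorem choice_z (θ δ V₁ C₁ B : ℝ) (hθ0 : 0 < θ) (hθ1 : θ < 1 / 3) (h0 : 0 < δ)
    (h1 : δ ≤ 1 / 100) (hV : 1 ≤ V₁) (hC : 1 ≤ C₁) : ∃ k₀ : ℕ, ∀ k : ℕ, k₀ ≤ k → ∀ t : ℝ,
      Real.log k ≤ t → t ≤ 2 * (k : ℝ) ^ θ →
        V₁ ≤ Vp θ δ V₁ k t ∧ Vp θ δ V₁ k t ≤ (k : ℝ) ^ θ ∧
        Real.sqrt k ≤ zp θ δ V₁ C₁ k t ∧
        B * (zp θ δ V₁ C₁ k t : ℝ) ≤ k ∧
        (1 - θ - 3 * δ) * Real.log k ≤ Real.log (zp θ δ V₁ C₁ k t) ∧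
        C₁ * (Vp θ δ V₁ k t * Real.log (Vp θ δ V₁ k t) + Real.log k)
          ≤ k / (zp θ δ V₁ C₁ k t : ℝ) ∧
        B * (Vp θ δ V₁ k t * Real.log k) ≤ k ∧ B * t ≤ k := by
  obtain ⟨κ, hκ⟩ : ∃ κ : ℝ, κ = (1 + 3 * δ) / (1 - θ - 3 * δ) := ⟨_, rfl⟩
  have hκ0 : 0 < κ := by
    rw [hκ]
    apply div_pos <;> linarith
  obtain ⟨k₀, hk₀⟩ := F4a_ev θ δ V₁ C₁ B κ hθ0 h0
  refine ⟨k₀, fun k hk t ht1 ht2 => ?_⟩
  obtain ⟨a1, a2, a3, a4, a5, a6, a7, a8⟩ := hk₀ k hk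
  have hkr : (1 : ℝ) ≤ k := by exact_mod_cast a1
  have hk0 : (0 : ℝ) < k := by linarith
  obtain ⟨Λ, hΛ⟩ : ∃ Λ : ℝ, Λ = Real.log k := ⟨_, rfl⟩
  obtain ⟨V, hVd⟩ : ∃ V : ℝ, V = Vp θ δ V₁ k t := ⟨_, rfl⟩
  have hV' : V = V₁ + κ * (t / Λ) := by
    rw [hVd, hκ, hΛ]
    rfl
  obtain ⟨z, hz⟩ : ∃ z : ℕ, z = zp θ δ V₁ C₁ k t := ⟨_, rfl⟩
  have hz' : z = ⌊(k : ℝ) / (C₁ * (V * Real.log V + Λ))⌋₊ := by
    rw [hz, hVd, hΛ]
    rfl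
  rw [← hVd, ← hz, ← hΛ]
  rw [← hΛ] at a2 a3 a4 a6 ht1
  have hΛ0 : 0 < Λ := by linarith
  obtain ⟨K, hK⟩ : ∃ K : ℝ, K = (k : ℝ) ^ θ := ⟨_, rfl⟩
  obtain ⟨L, hL⟩ : ∃ L : ℝ, L = (k : ℝ) ^ δ := ⟨_, rfl⟩
  rw [← hK] at a5 ht2
  rw [← hL] at a6 a7 a8
  have hK1 : 1 ≤ K := by rw [hK]; exact Real.one_le_rpow hkr hθ0.le
  have hL1 : 1 ≤ L := by rw [hL]; exact Real.one_le_rpow hkr h0.le
  have ht0 : 0 ≤ t := by linarith
  have b1 : V₁ ≤ V := by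
    rw [hV']
    have : 0 ≤ κ * (t / Λ) := by positivity
    linarith
  have b2 : V ≤ K := by
    have h2 : κ * (t / Λ) ≤ K / 2 := by
      rw [← mul_div_assoc, div_le_iff₀ hΛ0]
      have h3 : κ * t ≤ κ * (2 * K) := mul_le_mul_of_nonneg_left ht2 hκ0.le
      have h4 : 4 * κ * K ≤ Λ * K := mul_le_mul_of_nonneg_right a3 (by linarith)
      linarith
    rw [hV']
    linarith
  have hV1 : 1 ≤ V := by linarith
  have b3 : Real.log V ≤ θ * Λ := by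
    have h2 := Real.log_le_log (by linarith) b2
    rw [hK, Real.log_rpow hk0, ← hΛ] at h2
    exact h2
  have b4 : 0 ≤ Real.log V := Real.log_nonneg hV1
  obtain ⟨D, hD⟩ : ∃ D : ℝ, D = V * Real.log V + Λ := ⟨_, rfl⟩
  rw [← hD] at hz' ⊢
  have hD1 : Λ ≤ D := by
    rw [hD]
    have : 0 ≤ V * Real.log V := mul_nonneg (by linarith) b4
    linarith
  have hD0 : 0 < D := by linarith
  have hD2 : D ≤ K * L := by
    have h2 : V * Real.log V ≤ K * (θ * Λ) := mul_le_mul b2 b3 b4 (by linarith)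
    have h3 : K * (θ * Λ) ≤ K * Λ := by
      refine mul_le_mul_of_nonneg_left ?_ (by linarith)
      have : θ * Λ ≤ 1 * Λ := mul_le_mul_of_nonneg_right (by linarith) hΛ0.le
      linarith
    have h4 : 1 * Λ ≤ K * Λ := mul_le_mul_of_nonneg_right hK1 hΛ0.le
    have h5 : K * (2 * Λ) ≤ K * L := mul_le_mul_of_nonneg_left a6 (by linarith)
    rw [hD]
    linarith
  have hC0 : 0 < C₁ := by linarith
  have hCD : 0 < C₁ * D := mul_pos hC0 hD0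
  obtain ⟨x, hx⟩ : ∃ x : ℝ, x = (k : ℝ) / (C₁ * D) := ⟨_, rfl⟩
  rw [← hx] at hz'
  -- powers of k
  have p1 : (k : ℝ) = K * L * (k : ℝ) ^ (1 - θ - δ) := by
    rw [hK, hL, ← Real.rpow_add hk0, ← Real.rpow_add hk0]
    have : θ + δ + (1 - θ - δ) = 1 := by ring
    rw [this, Real.rpow_one]
  have p2 : (k : ℝ) ^ (1 - θ - δ) = L * (k : ℝ) ^ (1 - θ - 2 * δ) := by
    rw [hL, ← Real.rpow_add hk0]
    congr 1
    ring
  have p3 : L ≤ (k : ℝ) ^ (1 - θ - δ) := by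
    rw [hL]
    exact Real.rpow_le_rpow_of_exponent_le hkr (by linarith)
  have p4 : 0 < (k : ℝ) ^ (1 - θ - δ) := Real.rpow_pos_of_pos hk0 _
  have p5 : 0 < (k : ℝ) ^ (1 - θ - 2 * δ) := Real.rpow_pos_of_pos hk0 _
  have x1 : (k : ℝ) ^ (1 - θ - δ) / C₁ ≤ x := by
    rw [hx, div_le_div_iff₀ hC0 hCD]
    have h2 : C₁ * D * (k : ℝ) ^ (1 - θ - δ) ≤ C₁ * (K * L) * (k : ℝ) ^ (1 - θ - δ) :=
      mul_le_mul_of_nonneg_right (mul_le_mul_of_nonneg_left hD2 hC0.le) p4.le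
    calc (k : ℝ) ^ (1 - θ - δ) * (C₁ * D) = C₁ * D * (k : ℝ) ^ (1 - θ - δ) := by ring
      _ ≤ C₁ * (K * L) * (k : ℝ) ^ (1 - θ - δ) := h2
      _ = (K * L * (k : ℝ) ^ (1 - θ - δ)) * C₁ := by ring
      _ = (k : ℝ) * C₁ := by rw [← p1]
  have x2 : 2 ≤ x := by
    refine le_trans ?_ x1
    rw [le_div_iff₀ hC0]
    linarith
  have x3 : (k : ℝ) ^ (1 - θ - 2 * δ) ≤ x / 2 := by
    have h2 : 2 * (k : ℝ) ^ (1 - θ - 2 * δ) ≤ (k : ℝ) ^ (1 - θ - δ) / C₁ := by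
      rw [le_div_iff₀ hC0, p2]
      have h3 := mul_le_mul_of_nonneg_right a7 p5.le
      linarith
    linarith
  have z1 : x / 2 ≤ z := by
    have h2 := Nat.sub_one_lt_floor x
    rw [← hz'] at h2
    linarith
  have z2 : (z : ℝ) ≤ x := by
    rw [hz']
    exact Nat.floor_le (by linarith)
  have z3 : (k : ℝ) ^ (1 - θ - 2 * δ) ≤ z := x3.trans z1
  have z0 : (0 : ℝ) < z := by linarith
  have hB0 := abs_nonneg B
  have hBB := le_abs_self B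
  have hKL : K * (L * L) ≤ k := by
    have h2 : K * (L * L) = (k : ℝ) ^ (θ + (δ + δ)) := by
      rw [hK, hL, Real.rpow_add hk0, Real.rpow_add hk0]
    rw [h2]
    calc (k : ℝ) ^ (θ + (δ + δ)) ≤ (k : ℝ) ^ (1 : ℝ) :=
          Real.rpow_le_rpow_of_exponent_le hkr (by linarith)
      _ = k := Real.rpow_one _
  refine ⟨b1, by rw [← hK]; exact b2, ?_, ?_, ?_, ?_, ?_, ?_⟩
  · refine le_trans ?_ z3
    rw [Real.sqrt_eq_rpow]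
    exact Real.rpow_le_rpow_of_exponent_le hkr (by linarith)
  · have h2 : (z : ℝ) * Λ ≤ k := by
      have h3 : x * (C₁ * D) = k := by
        rw [hx]
        field_simp
      have h4 : Λ ≤ C₁ * D := by
        have : 1 * D ≤ C₁ * D := mul_le_mul_of_nonneg_right hC hD0.le
        linarith
      calc (z : ℝ) * Λ ≤ x * (C₁ * D) := mul_le_mul z2 h4 hΛ0.le (by linarith)
        _ = k := h3
    have h3 : B * (z : ℝ) ≤ Λ * z := mul_le_mul_of_nonneg_right (by linarith) z0.le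
    linarith
  · have h2 := Real.log_le_log p5 z3
    rw [Real.log_rpow hk0, ← hΛ] at h2
    have h3 : (1 - θ - 3 * δ) * Λ ≤ (1 - θ - 2 * δ) * Λ :=
      mul_le_mul_of_nonneg_right (by linarith) hΛ0.le
    linarith
  · rw [le_div_iff₀ z0]
    have h3 : x * (C₁ * D) = k := by
      rw [hx]
      field_simp
    have h4 : (z : ℝ) * (C₁ * D) ≤ x * (C₁ * D) := mul_le_mul_of_nonneg_right z2 hCD.le
    linarith
  · have h2 : V * Λ ≤ K * (L / 2) := mul_le_mul b2 (by linarith) hΛ0.le (by linarith)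
    have h3 : 0 ≤ V * Λ := mul_nonneg (by linarith) hΛ0.le
    have h4 : B * (V * Λ) ≤ (L / 2) * (K * (L / 2)) :=
      mul_le_mul (by linarith) h2 h3 (by linarith)
    have h5 : 0 ≤ K * (L * L) := by positivity
    have h6 : (L / 2) * (K * (L / 2)) = K * (L * L) / 4 := by ring
    linarith
  · have h2 : B * t ≤ (L / 2) * (2 * K) := mul_le_mul (by linarith) ht2 ht0 (by linarith)
    have h3 : K * L * 1 ≤ K * L * L := mul_le_mul_of_nonneg_left hL1 (by positivity)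
    have h4 : (L / 2) * (2 * K) = K * L * 1 := by ring
    have h5 : K * L * L = K * (L * L) := by ring
    linarith

end Pool.Agent.MU
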