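import Mathlib
import Pool.Agent.Lib.MP_bae66e_nt.MU.F4a

/-!
# Maier matrices, uniformly in the scale: F4b, the size of y
-/

set_option autoImplicit false

namespace Pool.Agent.MU

open Pool.Agent.GM Pool.Agent.MG MeasureTheory

/-- F4b. PROOF. First item: `(1-2δ) V log z ≥ (1-2δ) (1+3δ) t ≥ t` (`V ≥ κ t/Λ`, `log z ≥ (1-θ-3δ) Λ`,
`(1-2δ)(1+3δ) = 1 + δ - 6 δ^2 ≥ 1`). Second: `log V ≤ θ Λ` and `(1/2) log z ≥ (1/2)(1-θ-3δ) Λ`, with the hypothesis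
`hd`. -/
theorem choice_y (θ δ V₁ C₁ : ℝ) (hθ0 : 0 < θ) (hθ1 : θ < 1 / 3) (h0 : 0 < δ)
    (h1 : δ ≤ 1 / 100) (hd : (1 + δ) * θ ≤ (1 / 2) * (1 - θ - 3 * δ)) (hV : 1 ≤ V₁)
    (hC : 1 ≤ C₁) : ∃ k₀ : ℕ, ∀ k : ℕ, k₀ ≤ k → ∀ t : ℝ,
      Real.log k ≤ t → t ≤ 2 * (k : ℝ) ^ θ →
        t ≤ (1 - 2 * δ) * Vp θ δ V₁ k t * Real.log (zp θ δ V₁ C₁ k t) ∧
        (1 + δ) * Real.log (Vp θ δ V₁ k t) ≤ (1 / 2) * Real.log (zp θ δ V₁ C₁ k t) := by
  obtain ⟨k₀, hk₀⟩ := choice_z θ δ V₁ C₁ 1 hθ0 hθ1 h0 h1 hV hC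
  refine ⟨max k₀ 2, fun k hk t ht1 ht2 => ?_⟩
  obtain ⟨a1, a2, -, -, a5, -, -, -⟩ := hk₀ k (le_trans (le_max_left _ _) hk) t ht1 ht2
  have hk2 : 2 ≤ k := le_trans (le_max_right _ _) hk
  have hk2' : (2 : ℝ) ≤ (k : ℝ) := by exact_mod_cast hk2
  have hkpos : (0 : ℝ) < k := by linarith
  have hL : 0 < Real.log k := Real.log_pos (by linarith)
  have hden : 0 < 1 - θ - 3 * δ := by linarith
  have hVpos : 0 < Vp θ δ V₁ k t := by linarith
  constructor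
  · have hV2 : (1 + 3 * δ) / (1 - θ - 3 * δ) * (t / Real.log k) ≤ Vp θ δ V₁ k t := by
      unfold Vp
      linarith
    have ht0 : 0 ≤ t := by linarith
    have h3 : (1 + 3 * δ) / (1 - θ - 3 * δ) * (t / Real.log k) * ((1 - θ - 3 * δ) * Real.log k)
        = (1 + 3 * δ) * t := by
      field_simp
    have hlz : 0 ≤ Real.log (zp θ δ V₁ C₁ k t) := le_trans (by positivity) a5
    have h4 : (1 + 3 * δ) * t ≤ Vp θ δ V₁ k t * Real.log (zp θ δ V₁ C₁ k t) := by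
      rw [← h3]
      apply mul_le_mul hV2 a5 (by positivity) hVpos.le
    have h5 : t ≤ (1 - 2 * δ) * ((1 + 3 * δ) * t) := by
      have : (1 - 2 * δ) * ((1 + 3 * δ) * t) = t + (δ - 6 * δ ^ 2) * t := by ring
      rw [this]
      have : 0 ≤ (δ - 6 * δ ^ 2) * t := by
        apply mul_nonneg _ ht0
        nlinarith
      linarith
    calc t ≤ (1 - 2 * δ) * ((1 + 3 * δ) * t) := h5
      _ ≤ (1 - 2 * δ) * (Vp θ δ V₁ k t * Real.log (zp θ δ V₁ C₁ k t)) := by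
          apply mul_le_mul_of_nonneg_left h4
          linarith
      _ = _ := by ring
  · have hlV : Real.log (Vp θ δ V₁ k t) ≤ θ * Real.log k := by
      have := Real.log_le_log hVpos a2
      rwa [Real.log_rpow hkpos] at this
    calc (1 + δ) * Real.log (Vp θ δ V₁ k t) ≤ (1 + δ) * (θ * Real.log k) := by
          apply mul_le_mul_of_nonneg_left hlV
          linarith
      _ = ((1 + δ) * θ) * Real.log k := by ring
      _ ≤ ((1 / 2) * (1 - θ - 3 * δ)) * Real.log k := by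
          apply mul_le_mul_of_nonneg_right hd hL.le
      _ = (1 / 2) * ((1 - θ - 3 * δ) * Real.log k) := by ring
      _ ≤ (1 / 2) * Real.log (zp θ δ V₁ C₁ k t) := by
          apply mul_le_mul_of_nonneg_left a5 (by norm_num)

end Pool.Agent.MU
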