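import Mathlib
import Pool.Agent.Lib.MP_bae66e_nt.MU.F4a

/-!
# Maier matrices, uniformly in the scale: F4c, the deviation is larger than 1/π(y)
-/

set_option autoImplicit false

namespace Pool.Agent.MU

open Pool.Agent.GM Pool.Agent.MG MeasureTheory

private theorem F4c_log_half {t : ℝ} (ht : 0 < t) : Real.log t ≤ t / 2 := by
  have h1 := Real.log_le_sub_one_of_pos (show 0 < t / 2 by linarith)
  rw [Real.log_div ht.ne' (by norm_num)] at h1
  have h2 := Real.log_two_lt_d9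
  linarith

private theorem F4c_log_tenth {t : ℝ} (ht : 0 < t) : Real.log t ≤ t / 10 + 3 := by
  have h1 := Real.log_le_sub_one_of_pos (show 0 < t / 10 by linarith)
  rw [Real.log_div ht.ne' (by norm_num)] at h1
  have h2 := Real.log_two_lt_d9
  have h3 : Real.log 10 ≤ Real.log 16 := Real.log_le_log (by norm_num) (by norm_num)
  have h4 : Real.log 16 = 4 * Real.log 2 := by
    rw [show (16 : ℝ) = 2 ^ 4 by norm_num, Real.log_pow]
    norm_num
  linarith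

/-- F4c. PROOF. `κ = (1+3δ)/(1-θ-3δ)`, `Λ = log k`, `log V ≤ θ Λ`. Put `K₁ = 20 V₁`. If `t ≤ K₁ Λ` then
`V ≤ V₁ + κ K₁` is bounded, so the left side is bounded, and `t - log t ≥ Λ - log Λ` (monotone) is large. If
`t > K₁ Λ`: `(1+δ)^2 V log V ≤ (1+δ)^2 (V₁ θ Λ + κ θ t) ≤ (1+δ)^2 (V₁ θ/K₁ + κ θ) t ≤ 0.7 t` (`hd` gives
`κ θ (1+δ)^2 ≤ 0.6`), and `0.7 t + B ≤ t - log t` for large `t`. -/
theorem choice_pi (θ δ V₁ B : ℝ) (hθ0 : 0 < θ) (hθ1 : θ < 1 / 3) (h0 : 0 < δ)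
    (h1 : δ ≤ 1 / 100) (hd : (1 + δ) ^ 2 * ((1 + 3 * δ) / (1 - θ - 3 * δ)) * θ ≤ 3 / 5)
    (hV : 1 ≤ V₁) : ∃ k₀ : ℕ, ∀ k : ℕ, k₀ ≤ k → ∀ t : ℝ,
      Real.log k ≤ t → t ≤ 2 * (k : ℝ) ^ θ →
        (1 + δ) ^ 2 * (Vp θ δ V₁ k t * Real.log (Vp θ δ V₁ k t)) + B ≤ t - Real.log t := by
  obtain ⟨k₁, hk₁⟩ := choice_z θ δ V₁ 1 0 hθ0 hθ1 h0 h1 hV le_rfl
  obtain ⟨κ, hκ⟩ : ∃ κ, κ = (1 + 3 * δ) / (1 - θ - 3 * δ) := ⟨_, rfl⟩
  have hκ0 : 0 < κ := by
    rw [hκ]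
    apply div_pos <;> linarith
  rw [← hκ] at hd
  obtain ⟨W, hW⟩ : ∃ W, W = V₁ + κ * (20 * V₁) := ⟨_, rfl⟩
  have hW1 : 1 ≤ W := by
    rw [hW]
    have : 0 ≤ κ * (20 * V₁) := by positivity
    linarith
  obtain ⟨C2, hC2⟩ : ∃ C2, C2 = (1 + δ) ^ 2 * (W * Real.log W) := ⟨_, rfl⟩
  obtain ⟨T, hT⟩ : ∃ T, T = max 1 (max (2 * (C2 + B)) (4 * (B + 3))) := ⟨_, rfl⟩
  refine ⟨max k₁ (⌈Real.exp T⌉₊ + 1), fun k hk t ht1 ht2 => ?_⟩
  have hk1 : k₁ ≤ k := le_trans (le_max_left _ _) hk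
  have hk2 : Real.exp T ≤ k := by
    have h2 : ⌈Real.exp T⌉₊ ≤ k := by
      have := le_trans (le_max_right k₁ (⌈Real.exp T⌉₊ + 1)) hk
      omega
    exact le_trans (Nat.le_ceil _) (by exact_mod_cast h2)
  have hkpos : (0 : ℝ) < k := lt_of_lt_of_le (Real.exp_pos _) hk2
  have hΛT : T ≤ Real.log k := by
    rw [Real.le_log_iff_exp_le hkpos]
    exact hk2
  have hT1 : 1 ≤ T := by rw [hT]; exact le_max_left _ _
  have hT2 : 2 * (C2 + B) ≤ T := by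
    rw [hT]; exact le_trans (le_max_left _ _) (le_max_right _ _)
  have hT3 : 4 * (B + 3) ≤ T := by
    rw [hT]; exact le_trans (le_max_right _ _) (le_max_right _ _)
  have hΛ : 1 ≤ Real.log k := hT1.trans hΛT
  have htpos : 0 < t := by linarith
  obtain ⟨hVl, hVu, -⟩ := hk₁ k hk1 t ht1 ht2
  obtain ⟨V, hVdef⟩ : ∃ V, V = Vp θ δ V₁ k t := ⟨_, rfl⟩
  rw [← hVdef] at hVl hVu ⊢
  have hV1 : 1 ≤ V := hV.trans hVl
  have hlogV0 : 0 ≤ Real.log V := Real.log_nonneg hV1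
  have hlogV : Real.log V ≤ θ * Real.log k := by
    rw [← Real.log_rpow hkpos]
    exact Real.log_le_log (by linarith) hVu
  have hVeq : V = V₁ + κ * (t / Real.log k) := by
    rw [hVdef, hκ]
    rfl
  have hδ2 : 0 < (1 + δ) ^ 2 := by positivity
  rcases le_or_gt t (20 * V₁ * Real.log k) with hc | hc
  · -- bounded V
    have h2 : t / Real.log k ≤ 20 * V₁ := by
      rw [div_le_iff₀ (by linarith)]
      exact hc
    have h3 : V ≤ W := by
      rw [hVeq, hW]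
      have := mul_le_mul_of_nonneg_left h2 hκ0.le
      linarith
    have h4 : V * Real.log V ≤ W * Real.log W :=
      mul_le_mul h3 (Real.log_le_log (by linarith) h3) hlogV0 (by linarith)
    have h5 : (1 + δ) ^ 2 * (V * Real.log V) ≤ C2 := by
      rw [hC2]
      exact mul_le_mul_of_nonneg_left h4 hδ2.le
    have h6 := F4c_log_half htpos
    linarith
  · have h2 : V * Real.log V ≤ V * (θ * Real.log k) :=
      mul_le_mul_of_nonneg_left hlogV (by linarith)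
    have h3 : V * (θ * Real.log k) = V₁ * θ * Real.log k + κ * θ * t := by
      rw [hVeq]
      field_simp
    have h4 : V₁ * θ * Real.log k ≤ θ / 20 * t := by
      have : θ * (20 * V₁ * Real.log k) ≤ θ * t := mul_le_mul_of_nonneg_left hc.le hθ0.le
      nlinarith
    have h5 : (1 + δ) ^ 2 * (V * Real.log V) ≤ (1 + δ) ^ 2 * (θ / 20 * t + κ * θ * t) :=
      mul_le_mul_of_nonneg_left (by linarith) hδ2.le
    have h6 : (1 + δ) ^ 2 ≤ 103 / 100 := by nlinarith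
    have h7 : (1 + δ) ^ 2 * (θ / 20) ≤ 1 / 50 := by
      have : (1 + δ) ^ 2 * (θ / 20) ≤ 103 / 100 * (θ / 20) :=
        mul_le_mul_of_nonneg_right h6 (by linarith)
      linarith
    have h8 : (1 + δ) ^ 2 * (θ / 20 * t + κ * θ * t) ≤ (1 / 50 + 3 / 5) * t := by
      have e1 : (1 + δ) ^ 2 * (θ / 20 * t + κ * θ * t) =
          ((1 + δ) ^ 2 * (θ / 20) + (1 + δ) ^ 2 * κ * θ) * t := by ring
      rw [e1]
      exact mul_le_mul_of_nonneg_right (by linarith) htpos.le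
    have h9 := F4c_log_tenth htpos
    linarith

end Pool.Agent.MU
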