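import Mathlib
import Pool.Agent.Lib.MP_bae66e_nt.MU.F4a

/-!
# Maier matrices, uniformly in the scale: F4d, the size of the deviation
-/

set_option autoImplicit false

namespace Pool.Agent.MU

open Pool.Agent.GM Pool.Agent.MG MeasureTheory

/-- F4d-calculus. PROOF. For `u ≥ 1`, as `u → ∞` the quotient of the left side (without `C`) and `b u log u` tends to
`a c/b < 1`; for bounded `u` everything is bounded. (`log (V₁ + a u) ≤ log u + log (V₁ + a)`,
`V₁ + a u ≤ a u + V₁`.) -/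
theorem calc_u (V₁ a c b : ℝ) (hV : 1 ≤ V₁) (ha : 0 < a) (hc : 0 < c) (h : a * c < b) :
    ∃ C : ℝ, ∀ u : ℝ, 1 ≤ u →
      c * ((V₁ + a * u) * Real.log (V₁ + a * u)) ≤ b * (u * Real.log u) + C := by
  obtain ⟨D, hD⟩ : ∃ D, D = Real.log (V₁ + a) := ⟨_, rfl⟩
  have hD0 : 0 ≤ D := by
    rw [hD]
    exact Real.log_nonneg (by linarith)
  obtain ⟨e, he⟩ : ∃ e, e = b - a * c := ⟨_, rfl⟩
  have he0 : 0 < e := by rw [he]; linarith
  obtain ⟨E, hE⟩ : ∃ E, E = c * a * D + c * V₁ := ⟨_, rfl⟩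
  have hE0 : 0 ≤ E := by rw [hE]; positivity
  refine ⟨c * V₁ * D + E * Real.exp (E / e), fun u hu => ?_⟩
  have hu0 : 0 < u := by linarith
  have hlu : 0 ≤ Real.log u := Real.log_nonneg hu
  have hpos : 0 < V₁ + a * u := by positivity
  have h1 : Real.log (V₁ + a * u) ≤ Real.log u + D := by
    rw [hD, ← Real.log_mul hu0.ne' (by positivity)]
    refine Real.log_le_log hpos ?_
    nlinarith
  have h2 : (V₁ + a * u) * Real.log (V₁ + a * u) ≤ (V₁ + a * u) * (Real.log u + D) :=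
    mul_le_mul_of_nonneg_left h1 hpos.le
  have h3 : c * ((V₁ + a * u) * Real.log (V₁ + a * u)) ≤
      c * ((V₁ + a * u) * (Real.log u + D)) := mul_le_mul_of_nonneg_left h2 hc.le
  have h4 : c * V₁ * Real.log u ≤ c * V₁ * u := by
    refine mul_le_mul_of_nonneg_left ?_ (by positivity)
    have := Real.log_le_sub_one_of_pos hu0
    linarith
  have h5 : -(E * Real.exp (E / e)) ≤ u * (e * Real.log u - E) := by
    rcases le_or_gt (E / e) (Real.log u) with h6 | h6
    · have h7 : E ≤ e * Real.log u := by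
        rw [div_le_iff₀ he0] at h6
        linarith
      have h8 : 0 ≤ u * (e * Real.log u - E) := mul_nonneg hu0.le (by linarith)
      have h9 : 0 ≤ E * Real.exp (E / e) := mul_nonneg hE0 (Real.exp_pos _).le
      linarith
    · have h7 : u ≤ Real.exp (E / e) := by
        rw [← Real.log_le_iff_le_exp hu0]
        exact h6.le
      have h8 : E * u ≤ E * Real.exp (E / e) := mul_le_mul_of_nonneg_left h7 hE0
      have h9 : 0 ≤ u * (e * Real.log u) := by positivity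
      nlinarith
  have h6 : c * ((V₁ + a * u) * (Real.log u + D)) =
      c * V₁ * Real.log u + c * V₁ * D + a * c * (u * Real.log u) + c * a * D * u := by ring
  have h7 : u * (e * Real.log u - E) = b * (u * Real.log u) - a * c * (u * Real.log u)
      - c * a * D * u - c * V₁ * u := by
    rw [he, hE]
    ring
  linarith

/-- F4d. PROOF. `κ = (1+3δ)/(1-θ-3δ)`, `u = t/log L`, `1 ≤ u`. `V = V₁ + κ u (log L/log k)` and
`log L/log k ≤ 1 + log 2/log k ≤ 1 + δ` for large `k`, so `V ≤ V₁ + κ (1+δ) u`; `v log v` is increasing on `[1, ∞)`;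
`calc_u` with `a = κ (1+δ)`, `c = (1+δ)^2`, `b = (1+ε)/(1-θ)`. -/
theorem choice_dev (ε θ δ V₁ : ℝ) (hε : 0 < ε) (hθ0 : 0 < θ) (hθ1 : θ < 1 / 3) (h0 : 0 < δ)
    (h1 : δ ≤ 1 / 100)
    (hd : (1 + 3 * δ) / (1 - θ - 3 * δ) * (1 + δ) * (1 + δ) ^ 2 < (1 + ε) / (1 - θ))
    (hV : 1 ≤ V₁) : ∃ (C : ℝ) (k₀ : ℕ), ∀ k : ℕ, k₀ ≤ k → ∀ L t : ℝ, (k : ℝ) ≤ L →
      L ≤ 2 * k → Real.log L ≤ t →
        (1 + δ) ^ 2 * (Vp θ δ V₁ k t * Real.log (Vp θ δ V₁ k t))
          ≤ (1 + ε) / (1 - θ) * (t / Real.log L * Real.log (t / Real.log L)) + C := by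
  obtain ⟨κ, hκ⟩ : ∃ κ, κ = (1 + 3 * δ) / (1 - θ - 3 * δ) := ⟨_, rfl⟩
  have hκ0 : 0 < κ := by
    rw [hκ]
    apply div_pos <;> linarith
  rw [← hκ] at hd
  obtain ⟨C, hC⟩ := calc_u V₁ (κ * (1 + δ)) ((1 + δ) ^ 2) ((1 + ε) / (1 - θ)) hV
    (by positivity) (by positivity) hd
  refine ⟨C, ⌈Real.exp (1 / δ)⌉₊, fun k hk L t hL1 hL2 ht => ?_⟩
  have hk2 : Real.exp (1 / δ) ≤ k := le_trans (Nat.le_ceil _) (by exact_mod_cast hk)
  have hkpos : (0 : ℝ) < k := lt_of_lt_of_le (Real.exp_pos _) hk2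
  have hΛ : 1 / δ ≤ Real.log k := by
    rw [Real.le_log_iff_exp_le hkpos]
    exact hk2
  have hδi : 0 < 1 / δ := by positivity
  have hΛ0 : 0 < Real.log k := by linarith
  have hLpos : 0 < L := by linarith
  have hlL1 : Real.log k ≤ Real.log L := Real.log_le_log hkpos hL1
  have hlL2 : Real.log L ≤ Real.log 2 + Real.log k := by
    rw [← Real.log_mul (by norm_num) hkpos.ne']
    exact Real.log_le_log hLpos hL2
  have hlL0 : 0 < Real.log L := by linarith
  obtain ⟨u, hu⟩ : ∃ u, u = t / Real.log L := ⟨_, rfl⟩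
  have hu1 : 1 ≤ u := by
    rw [hu, le_div_iff₀ hlL0]
    linarith
  have ht' : t = u * Real.log L := by
    rw [hu]
    field_simp
  have hratio : Real.log L / Real.log k ≤ 1 + δ := by
    rw [div_le_iff₀ hΛ0]
    have h2 : 1 ≤ δ * Real.log k := by
      have := mul_le_mul_of_nonneg_left hΛ h0.le
      rwa [mul_one_div, div_self h0.ne'] at this
    have h3 := Real.log_two_lt_d9
    linarith
  obtain ⟨V, hVdef⟩ : ∃ V, V = Vp θ δ V₁ k t := ⟨_, rfl⟩
  rw [← hVdef, ← hu]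
  have hVeq : V = V₁ + κ * (t / Real.log k) := by
    rw [hVdef, hκ]
    rfl
  have hV1 : 1 ≤ V := by
    rw [hVeq]
    have : 0 ≤ κ * (t / Real.log k) := by
      rw [ht']
      positivity
    linarith
  have hVle : V ≤ V₁ + κ * (1 + δ) * u := by
    rw [hVeq, ht', mul_div_assoc]
    have h2 : u * (Real.log L / Real.log k) ≤ u * (1 + δ) :=
      mul_le_mul_of_nonneg_left hratio (by linarith)
    have h3 := mul_le_mul_of_nonneg_left h2 hκ0.le
    linarith
  have h4 : V * Real.log V ≤ (V₁ + κ * (1 + δ) * u) * Real.log (V₁ + κ * (1 + δ) * u) :=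
    mul_le_mul hVle (Real.log_le_log (by linarith) hVle) (Real.log_nonneg hV1)
      (by linarith)
  exact le_trans (mul_le_mul_of_nonneg_left h4 (by positivity)) (hC u hu1)

end Pool.Agent.MU
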