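import Mathlib
import Pool.Agent.Lib.MP_bae66e_nt.MU.Defs

/-!
# Maier matrices, uniformly in the scale: F4e, the choice of δ
-/

set_option autoImplicit false

namespace Pool.Agent.MU

open Pool.Agent.GM Pool.Agent.MG MeasureTheory

/-- F4e. PROOF. All three functions of `δ` are continuous at `δ = 0`, where the inequalities are strict:
`θ < (1-θ)/2` (`θ < 1/3`), `θ/(1-θ) < 1/2`, `1/(1-θ) < (1+ε)/(1-θ)`. -/
theorem choice_delta (ε θ : ℝ) (hε : 0 < ε) (hθ0 : 0 < θ) (hθ1 : θ < 1 / 3) :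
    ∃ δ : ℝ, 0 < δ ∧ δ ≤ 1 / 100 ∧ (1 + δ) * θ ≤ (1 / 2) * (1 - θ - 3 * δ) ∧
      (1 + δ) ^ 2 * ((1 + 3 * δ) / (1 - θ - 3 * δ)) * θ ≤ 3 / 5 ∧
      (1 + 3 * δ) / (1 - θ - 3 * δ) * (1 + δ) * (1 + δ) ^ 2 < (1 + ε) / (1 - θ) := by
  have h1θ : (0 : ℝ) < 1 - θ := by linarith
  have hne : (1 - θ - 3 * (0 : ℝ)) ≠ 0 := by
    rw [mul_zero, sub_zero]; exact h1θ.ne'
  have cq : ContinuousAt (fun δ : ℝ => (1 + 3 * δ) / (1 - θ - 3 * δ)) 0 := by
    apply ContinuousAt.div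
    · fun_prop
    · fun_prop
    · exact hne
  have c1 : ContinuousAt (fun δ : ℝ => (1 / 2) * (1 - θ - 3 * δ) - (1 + δ) * θ) 0 := by
    fun_prop
  have c2 : ContinuousAt (fun δ : ℝ => 3 / 5 - (1 + δ) ^ 2 * ((1 + 3 * δ) / (1 - θ - 3 * δ)) * θ) 0 := by
    apply ContinuousAt.sub continuousAt_const
    apply ContinuousAt.mul _ continuousAt_const
    apply ContinuousAt.mul _ cq
    fun_prop
  have c3 : ContinuousAt (fun δ : ℝ => (1 + ε) / (1 - θ)
      - (1 + 3 * δ) / (1 - θ - 3 * δ) * (1 + δ) * (1 + δ) ^ 2) 0 := by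
    apply ContinuousAt.sub continuousAt_const
    apply ContinuousAt.mul
    · apply ContinuousAt.mul cq
      fun_prop
    · fun_prop
  have p1 : (0 : ℝ) < (1 / 2) * (1 - θ - 3 * 0) - (1 + 0) * θ := by
    nlinarith
  have p2 : (0 : ℝ) < 3 / 5 - (1 + 0) ^ 2 * ((1 + 3 * 0) / (1 - θ - 3 * 0)) * θ := by
    have : (1 : ℝ) / (1 - θ) * θ < 3 / 5 := by
      rw [div_mul_eq_mul_div, div_lt_iff₀ h1θ]
      linarith
    norm_num
    norm_num at this
    linarith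
  have p3 : (0 : ℝ) < (1 + ε) / (1 - θ)
      - (1 + 3 * 0) / (1 - θ - 3 * 0) * (1 + 0) * (1 + 0) ^ 2 := by
    have : (1 : ℝ) / (1 - θ) < (1 + ε) / (1 - θ) := by
      apply div_lt_div_of_pos_right _ h1θ
      linarith
    norm_num
    norm_num at this
    linarith
  have e1 := (c1.tendsto).eventually_const_lt p1
  have e2 := (c2.tendsto).eventually_const_lt p2
  have e3 := (c3.tendsto).eventually_const_lt p3
  have e4 : ∀ᶠ δ : ℝ in nhds 0, δ < 1 / 100 := by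
    apply eventually_lt_nhds
    norm_num
  have eall := (((e1.and e2).and e3).and e4)
  rw [Metric.eventually_nhds_iff] at eall
  obtain ⟨r, hr, H⟩ := eall
  have hh := H (y := r / 2) (by
    rw [Real.dist_eq, sub_zero, abs_of_pos (by linarith)]
    linarith)
  obtain ⟨⟨⟨a1, a2⟩, a3⟩, a4⟩ := hh
  refine ⟨r / 2, by linarith, a4.le, ?_, ?_, ?_⟩
  · linarith
  · linarith
  · linarith

end Pool.Agent.MU
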