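import Mathlib
import Pool.Agent.Lib.MP_bae66e_nt.MU.P2b
import Pool.Agent.Lib.MP_bae66e_nt.MU.P3

/-!
# Maier matrices, uniformly in the scale: P5, the choice of ξ
-/

set_option autoImplicit false

namespace Pool.Agent.MU

open Pool.Agent.GM Pool.Agent.MG

lemma P5_continuous (z p₁ : ℕ) : Continuous (ff z p₁) := by
  unfold ff
  refine continuous_finsetSum _ fun p hp => ?_
  have hp0 : (p : ℝ) ≠ 0 := by
    have := (mem_PP.mp hp).2.2.1.pos
    positivity
  exact (Real.continuous_const_rpow hp0).comp (by fun_prop)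

/-- P5. PROOF. `ξ ↦ ff z p₁ ξ` is continuous (finite sum of continuous functions; the `p` are positive). At
`ξ₂ = (1 + δ) log V ≤ log z` `ff_lower` gives `ff ≥ c V ^ (1+δ)/(ξ₂ + 1) ≥ V` for `V ≥ V₀`; at `ξ₁ = (1 - δ) log V`
`ff_upper` gives `ff ≤ C V ^ (1-δ) ≤ V` for `V ≥ V₀`. Intermediate value theorem (`intermediate_value_Icc`). For
`V₀` large `(1 - δ) log V ≥ 1`. -/
theorem exists_xi (δ : ℝ) (hδ : 0 < δ) (hδ1 : δ < 1) : ∃ (V₀ : ℝ) (z₀ : ℕ), 2 ≤ V₀ ∧
    ∀ z : ℕ, z₀ ≤ z → ∀ (p₁ : ℕ) (V : ℝ), V₀ ≤ V → (1 + δ) * Real.log V ≤ Real.log z →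
      ∃ ξ : ℝ, 1 ≤ ξ ∧ (1 - δ) * Real.log V ≤ ξ ∧ ξ ≤ (1 + δ) * Real.log V ∧
        ff z p₁ ξ = V := by
  obtain ⟨c, z₀, hc, hlow⟩ := ff_lower
  obtain ⟨C, hC, hup⟩ := ff_upper
  have hC0 : 0 < C := by linarith
  have h1δ : 0 < 1 - δ := by linarith
  -- conditions on `V`
  have e1 : ∀ᶠ V : ℝ in Filter.atTop, C ≤ V ^ δ :=
    (tendsto_rpow_atTop hδ).eventually_ge_atTop C
  have e2 : ∀ᶠ V : ℝ in Filter.atTop, 1 / (1 - δ) ≤ Real.log V :=
    Real.tendsto_log_atTop.eventually_ge_atTop _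
  have e3 : ∀ᶠ V : ℝ in Filter.atTop, (1 + δ) * Real.log V + 1 ≤ c * V ^ δ := by
    have h1 : (fun V : ℝ => (1 + δ) * Real.log V + 1) =o[Filter.atTop] fun V => V ^ δ := by
      refine ((isLittleO_log_rpow_atTop hδ).const_mul_left _).add ?_
      refine Asymptotics.isLittleO_const_left.2 (Or.inr ?_)
      have h2 := tendsto_rpow_atTop hδ
      exact tendsto_norm_atTop_atTop.comp h2
    have h2 := h1.bound hc
    filter_upwards [h2, Filter.eventually_ge_atTop (0 : ℝ)] with V hV hV0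
    rw [Real.norm_eq_abs, Real.norm_of_nonneg (Real.rpow_nonneg hV0 _)] at hV
    exact (le_abs_self _).trans hV
  obtain ⟨V₀, hV₀⟩ := Filter.eventually_atTop.1 (e1.and (e2.and e3))
  refine ⟨max V₀ 2, max z₀ 2, le_max_right _ _, fun z hz p₁ V hV hVz => ?_⟩
  have hz₀ : z₀ ≤ z := (le_max_left _ _).trans hz
  have hz2 : 2 ≤ z := (le_max_right _ _).trans hz
  have hV2 : 2 ≤ V := (le_max_right _ _).trans hV
  have hVpos : 0 < V := by linarith
  obtain ⟨a1, a2, a3⟩ := hV₀ V ((le_max_left _ _).trans hV)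
  have hlog : 0 < Real.log V := Real.log_pos (by linarith)
  have hξ1 : 1 ≤ (1 - δ) * Real.log V := by
    have h1 : 1 / (1 - δ) * (1 - δ) ≤ Real.log V * (1 - δ) :=
      mul_le_mul_of_nonneg_right a2 h1δ.le
    rw [div_mul_cancel₀ _ h1δ.ne'] at h1
    linarith
  have hle : (1 - δ) * Real.log V ≤ (1 + δ) * Real.log V := by nlinarith
  have hVδ : 0 < V ^ δ := Real.rpow_pos_of_pos hVpos _
  have hexp : ∀ t : ℝ, Real.exp (t * Real.log V) = V ^ t := by
    intro t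
    rw [Real.rpow_def_of_pos hVpos, mul_comm]
  -- upper bound at the left end
  have hleft : ff z p₁ ((1 - δ) * Real.log V) ≤ V := by
    refine (hup z hz2 p₁ _ (by linarith)).trans ?_
    rw [hexp]
    have h1 : V ^ (1 - δ) * V ^ δ = V := by
      rw [← Real.rpow_add hVpos]
      simp
    calc C * V ^ (1 - δ) ≤ V ^ δ * V ^ (1 - δ) :=
          mul_le_mul_of_nonneg_right a1 (Real.rpow_nonneg hVpos.le _)
      _ = V := by rw [mul_comm, h1]
  -- lower bound at the right end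
  have hright : V ≤ ff z p₁ ((1 + δ) * Real.log V) := by
    have h0 : 0 ≤ (1 + δ) * Real.log V := by positivity
    refine le_trans ?_ (hlow z hz₀ p₁ _ h0 hVz)
    rw [hexp, le_div_iff₀ (by linarith)]
    have h1 : V ^ (1 + δ) = V * V ^ δ := by
      rw [Real.rpow_add hVpos, Real.rpow_one]
    rw [h1]
    calc V * ((1 + δ) * Real.log V + 1) ≤ V * (c * V ^ δ) :=
          mul_le_mul_of_nonneg_left a3 hVpos.le
      _ = c * (V * V ^ δ) := by ring
  obtain ⟨ξ, ⟨h1, h2⟩, h3⟩ := intermediate_value_Icc hle (P5_continuous z p₁).continuousOn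
    ⟨hleft, hright⟩
  exact ⟨ξ, hξ1.trans h1, h1, h2, h3⟩

end Pool.Agent.MU
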