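import Mathlib
import Pool.Agent.Lib.MP_bae66e_nt.MU.F2
import Pool.Agent.Lib.MP_bae66e_nt.MU.F3a
import Pool.Agent.Lib.MP_bae66e_nt.MU.F3b
import Pool.Agent.Lib.MP_bae66e_nt.MU.F4b
import Pool.Agent.Lib.MP_bae66e_nt.MU.F4c
import Pool.Agent.Lib.MP_bae66e_nt.MU.F4d
import Pool.Agent.Lib.MP_bae66e_nt.MU.F4e
import Pool.Agent.Lib.MP_bae66e_nt.MU.A3
import Pool.Agent.Lib.MP_bae66e_nt.MU.P5
import Pool.Agent.Lib.MP_bae66e_nt.Mg.G034
import Pool.Agent.Lib.MP_bae66e_nt.Cheb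

/-!
# Maier matrices, uniformly in the scale: F5a, the theorem on the scale k
-/

set_option autoImplicit false

namespace Pool.Agent.MU

open Pool.Agent.GM Pool.Agent.MG MeasureTheory

private lemma F5a_piR (y : ℝ) (hy : 16 ≤ y) (E : ℝ)
    (h : E + 5 ≤ Real.log y - Real.log (Real.log y)) : 8 * Real.exp E ≤ piR y := by
  have hy0 : 0 < y := by linarith
  have hl : 1 < Real.log y := by
    rw [Real.lt_log_iff_exp_lt hy0]
    have := Real.exp_one_lt_d9
    linarith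
  have hl0 : 0 < Real.log y := by linarith
  have h5 : (64 : ℝ) ≤ Real.exp 5 := by
    have h1 := Real.exp_one_gt_d9
    have h2 : Real.exp 5 = Real.exp 1 ^ 5 := by
      rw [← Real.exp_nat_mul]
      norm_num
    rw [h2]
    calc (64 : ℝ) ≤ 2.7 ^ 5 := by norm_num
      _ ≤ Real.exp 1 ^ 5 := pow_le_pow_left₀ (by norm_num) (by linarith) 5
  have h6 : Real.exp (E + 5) ≤ y / Real.log y := by
    calc Real.exp (E + 5) ≤ Real.exp (Real.log y - Real.log (Real.log y)) :=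
          Real.exp_le_exp.mpr h
      _ = y / Real.log y := by rw [Real.exp_sub, Real.exp_log hy0, Real.exp_log hl0]
  have h7 : 64 * Real.exp E ≤ y / Real.log y := by
    refine le_trans ?_ h6
    rw [Real.exp_add, mul_comm]
    exact mul_le_mul_of_nonneg_left h5 (Real.exp_pos _).le
  have hf16 : 16 ≤ ⌊y⌋₊ := Nat.le_floor (by exact_mod_cast hy)
  have hpi := Pool.Agent.Lib.MP_bae66e_nt.pi_lower ⌊y⌋₊ hf16
  have hf0 : (0 : ℝ) < (⌊y⌋₊ : ℝ) := by
    have : (16 : ℝ) ≤ (⌊y⌋₊ : ℝ) := by exact_mod_cast hf16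
    linarith
  have hfy : (⌊y⌋₊ : ℝ) ≤ y := Nat.floor_le hy0.le
  have hfy2 : y / 2 ≤ (⌊y⌋₊ : ℝ) := by
    have := Nat.lt_floor_add_one y
    linarith
  have hlf : Real.log (⌊y⌋₊ : ℝ) ≤ Real.log y := Real.log_le_log hf0 hfy
  have hlf0 : 0 < Real.log (⌊y⌋₊ : ℝ) := by
    apply Real.log_pos
    have : (16 : ℝ) ≤ (⌊y⌋₊ : ℝ) := by exact_mod_cast hf16
    linarith
  have h8 : y / (8 * Real.log y) ≤ (⌊y⌋₊ : ℝ) / (4 * Real.log (⌊y⌋₊ : ℝ)) := by
    rw [div_le_div_iff₀ (by linarith) (by linarith)]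
    nlinarith
  have h9 : y / (8 * Real.log y) = (y / Real.log y) / 8 := by
    field_simp
  unfold piR
  linarith

private lemma F5a_small (B c cA CA K z W E : ℝ) (hB : 1 ≤ B) (hc : 0 < c) (hcA : 0 < cA)
    (hCA : 1 ≤ CA) (hK : 1 ≤ K) (hW : 0 ≤ W)
    (hq : (40 / cA + 1) * (W + Real.log K) ≤ K / z)
    (hE : E ≤ 2 * W) (hE2 : E ≤ c / 2 * K) (hk1 : 2 * B * CA ≤ K) (hk2 : 4 * B / c ≤ K) :
    B * (CA * K ^ 9 * Real.exp (-(cA * K / z)) + Real.exp (-(c * K))) * Real.exp E ≤ 1 := by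
  have hK0 : 0 < K := by linarith
  have hlK : 0 ≤ Real.log K := Real.log_nonneg hK
  have h1 : 40 * (W + Real.log K) ≤ cA * K / z := by
    have h2 : cA * ((40 / cA + 1) * (W + Real.log K)) ≤ cA * (K / z) :=
      mul_le_mul_of_nonneg_left hq hcA.le
    have h3 : cA * ((40 / cA + 1) * (W + Real.log K)) = (40 + cA) * (W + Real.log K) := by
      field_simp
    have h4 : cA * (K / z) = cA * K / z := by ring
    have h5 : 0 ≤ cA * (W + Real.log K) := mul_nonneg hcA.le (by linarith)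
    rw [h3, h4] at h2
    linarith
  have hA : K ^ 9 * (Real.exp (-(cA * K / z)) * Real.exp E) ≤ 1 / K := by
    have h2 : Real.exp (-(cA * K / z)) * Real.exp E ≤ Real.exp (-(10 * Real.log K)) := by
      rw [← Real.exp_add]
      apply Real.exp_le_exp.mpr
      linarith
    have h3 : Real.exp (-(10 * Real.log K)) = 1 / K ^ 10 := by
      rw [Real.exp_neg, one_div]
      congr 1
      have : (10 : ℝ) * Real.log K = Real.log (K ^ 10) := by
        rw [Real.log_pow]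
        norm_num
      rw [this, Real.exp_log (by positivity)]
    calc K ^ 9 * (Real.exp (-(cA * K / z)) * Real.exp E) ≤ K ^ 9 * (1 / K ^ 10) := by
          rw [← h3]
          exact mul_le_mul_of_nonneg_left h2 (by positivity)
      _ = 1 / K := by
          field_simp
  have hBc : Real.exp (-(c * K)) * Real.exp E ≤ 1 / (2 * B) := by
    have h2 : Real.exp (-(c * K)) * Real.exp E ≤ Real.exp (-(c / 2 * K)) := by
      rw [← Real.exp_add]
      apply Real.exp_le_exp.mpr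
      linarith
    refine le_trans h2 ?_
    rw [Real.exp_neg, one_div]
    apply inv_anti₀ (by linarith)
    have h3 := Real.add_one_le_exp (c / 2 * K)
    have h4 : 4 * B ≤ K * c := by
      rwa [div_le_iff₀ hc] at hk2
    linarith
  have hCAK : B * (CA * (1 / K)) ≤ 1 / 2 := by
    have : B * (CA * (1 / K)) = B * CA / K := by ring
    rw [this, div_le_iff₀ hK0]
    linarith
  have hBB : B * (1 / (2 * B)) = 1 / 2 := by
    field_simp
  calc B * (CA * K ^ 9 * Real.exp (-(cA * K / z)) + Real.exp (-(c * K))) * Real.exp E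
      = B * (CA * (K ^ 9 * (Real.exp (-(cA * K / z)) * Real.exp E)))
        + B * (Real.exp (-(c * K)) * Real.exp E) := by ring
    _ ≤ B * (CA * (1 / K)) + B * (1 / (2 * B)) := by
        apply add_le_add
        · apply mul_le_mul_of_nonneg_left _ (by linarith)
          exact mul_le_mul_of_nonneg_left hA (by linarith)
        · exact mul_le_mul_of_nonneg_left hBc (by linarith)
    _ ≤ 1 := by linarith

private lemma F5a_total (θ₁ k z V lk S M E : ℝ) (h0 : 0 < θ₁) (hk : 0 ≤ k) (hz : 1 ≤ z)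
    (hM0 : 0 < M) (hM : Real.log M ≤ 2 * z) (hzk : 16 / θ₁ * z ≤ k)
    (hV : 16 / θ₁ * (V * lk) ≤ k) (hE : E ≤ 2 * (V * lk))
    (hS : S ≤ 2 * Real.log z * Real.exp E) : M * S ≤ Real.exp (θ₁ * k / 2) := by
  have h1 : 2 * z ≤ θ₁ * k / 8 := by
    have : 16 / θ₁ * z = 16 * z / θ₁ := by ring
    rw [this, div_le_iff₀ h0] at hzk
    linarith
  have h2 : 2 * (V * lk) ≤ θ₁ * k / 8 := by
    have : 16 / θ₁ * (V * lk) = 16 * (V * lk) / θ₁ := by ring
    rw [this, div_le_iff₀ h0] at hV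
    linarith
  have hMe : M ≤ Real.exp (θ₁ * k / 8) := by
    rw [← Real.log_le_iff_le_exp hM0]
    linarith
  have hlz0 : 0 ≤ Real.log z := Real.log_nonneg hz
  have hlz : 2 * Real.log z ≤ Real.exp (θ₁ * k / 8) := by
    have h3 := Real.log_le_sub_one_of_pos (x := z) (by linarith)
    have h4 := Real.add_one_le_exp (θ₁ * k / 8)
    linarith
  have hEe : Real.exp E ≤ Real.exp (θ₁ * k / 8) := Real.exp_le_exp.mpr (by linarith)
  have hθk : 0 ≤ θ₁ * k := mul_nonneg h0.le hk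
  calc M * S ≤ M * (2 * Real.log z * Real.exp E) := mul_le_mul_of_nonneg_left hS hM0.le
    _ ≤ Real.exp (θ₁ * k / 8) * (Real.exp (θ₁ * k / 8) * Real.exp (θ₁ * k / 8)) := by
        apply mul_le_mul hMe _ (by positivity) (Real.exp_pos _).le
        exact mul_le_mul hlz hEe (Real.exp_pos _).le (Real.exp_pos _).le
    _ = Real.exp (θ₁ * k / 8 + (θ₁ * k / 8 + θ₁ * k / 8)) := by
        rw [← Real.exp_add, ← Real.exp_add]
    _ ≤ Real.exp (θ₁ * k / 2) := by
        apply Real.exp_le_exp.mpr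
        linarith

private lemma F5a_sing_nonneg (m : ℕ) : 0 ≤ sing m := by
  unfold sing
  apply mul_nonneg
  · have := twinConst_pos.1
    linarith
  · apply Finset.prod_nonneg
    intro p hp
    rw [Finset.mem_erase] at hp
    have hpp := Nat.prime_of_mem_primeFactors hp.2
    have h2 := hpp.two_le
    have h3 : 3 ≤ p := by
      have := hp.1
      omega
    have h3' : (3 : ℝ) ≤ (p : ℝ) := by exact_mod_cast h3
    apply div_nonneg <;> linarith

private lemma F5a_exp_nonneg (m : ℕ) (y : ℝ) : 0 ≤ expected m y := by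
  unfold expected
  apply div_nonneg
  · apply mul_nonneg (F5a_sing_nonneg m)
    unfold piR
    exact Nat.cast_nonneg _
  · exact Real.log_natCast_nonneg m

private lemma F5a_pow1 (z k V δ e₀ : ℝ) (hz : 1 ≤ z) (hzk : z ≤ k) (hV : 0 ≤ V) (hδ : 0 < δ)
    (hδ1 : δ ≤ 1 / 100) (he : 0 < e₀) (h : 2 / e₀ * (V * Real.log k) ≤ k) :
    z ^ ((1 + δ) * V) ≤ Real.exp (e₀ * k) := by
  have hz0 : 0 < z := by linarith
  rw [Real.rpow_def_of_pos hz0]
  apply Real.exp_le_exp.mpr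
  have h1 : Real.log z ≤ Real.log k := Real.log_le_log hz0 hzk
  have h2 : 0 ≤ Real.log z := Real.log_nonneg hz
  have h3 : 2 * (V * Real.log k) ≤ e₀ * k := by
    have : 2 / e₀ * (V * Real.log k) = 2 * (V * Real.log k) / e₀ := by ring
    rw [this, div_le_iff₀ he] at h
    linarith
  have h4 : V * Real.log z ≤ V * Real.log k := mul_le_mul_of_nonneg_left h1 hV
  have h5 : 0 ≤ V * Real.log z := mul_nonneg hV h2
  nlinarith

private lemma F5a_pow2 (z k V δ B : ℝ) (hk : 1 ≤ k) (hz : Real.sqrt k ≤ z) (hV : 20 ≤ V)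
    (hδ : 0 < δ) (hδ1 : δ ≤ 1 / 100) (hB : B ≤ k) : B * k ≤ z ^ ((1 - δ) * V / 2) := by
  have hs1 : 1 ≤ Real.sqrt k := by
    rw [show (1 : ℝ) = Real.sqrt 1 by simp]
    exact Real.sqrt_le_sqrt hk
  have hz1 : 1 ≤ z := le_trans hs1 hz
  have he : (4 : ℝ) ≤ (1 - δ) * V / 2 := by nlinarith
  calc B * k ≤ k * k := mul_le_mul_of_nonneg_right hB (by linarith)
    _ = Real.sqrt k ^ 4 := by
        have h1 : Real.sqrt k ^ 2 = k := Real.sq_sqrt (by linarith)
        calc k * k = Real.sqrt k ^ 2 * Real.sqrt k ^ 2 := by rw [h1]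
          _ = Real.sqrt k ^ 4 := by ring
    _ ≤ z ^ 4 := pow_le_pow_left₀ (by linarith) hz 4
    _ = z ^ (4 : ℝ) := by norm_cast
    _ ≤ z ^ ((1 - δ) * V / 2) := Real.rpow_le_rpow_of_exponent_le hz1 he

private lemma F5a_pow3 (z y V δ : ℝ) (hz : 1 ≤ z) (hy : 0 < y)
    (h : Real.log y ≤ (1 - 2 * δ) * V * Real.log z) :
    y * z ^ (δ * V) ≤ z ^ ((1 - δ) * V) := by
  have hz0 : 0 < z := by linarith
  rw [Real.rpow_def_of_pos hz0, Real.rpow_def_of_pos hz0]
  have hy' : y = Real.exp (Real.log y) := (Real.exp_log hy).symm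
  calc y * Real.exp (Real.log z * (δ * V))
      = Real.exp (Real.log y) * Real.exp (Real.log z * (δ * V)) := by rw [← hy']
    _ = Real.exp (Real.log y + Real.log z * (δ * V)) := by rw [← Real.exp_add]
    _ ≤ Real.exp (Real.log z * ((1 - δ) * V)) := by
        apply Real.exp_le_exp.mpr
        nlinarith

/-- F5a. PROOF. `δ` from `choice_delta ε θ`. Constants: `e₀, c, B, k₀, z₀` of `matrix_u θ₁ δ`, `c_A, C_A` of `ap_quant`,
`V₀` of `exists_xi δ`. Put `V₁ = max (B, V₀, 10) + 10`, `C₁ = 40/c_A + 1` (so that for `k/z ≥ C₁ (V log V + log k)` the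
number `δ₁ = C_A k^9 exp (-c_A k/z)` is at most `C_A k^9 exp (-40 (V log V + log k)) ≤ k^(-20) exp (-10 V log V)`).
With `t = log y`, `V = Vp`, `z = zp`: `choice_z` (with `B' ≥ 160, 2/e₀, ...`), `ap_quant` gives `p₁`,
`choice_y` second item and `exists_xi` give `ξ`, `ff z p₁ ξ = V`, `ξ ≤ (1+δ) log V ≤ (1/2) log z`. Check the hypotheses of
`matrix_u`: `z^((1+δ)V) ≤ exp (2 V log k) ≤ exp (e₀ k)` (`z ≤ k`, `B' V log k ≤ k`);
`B k ≤ z^((1-δ)V/2)` (`z ≥ √k`, `(1-δ) V/2 ≥ 4`, so the right side is `≥ k^2`);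
`y z^(δV) ≤ z^((1-δ)V)`: `log y = t ≤ (1-2δ) V log z`; `8 exp ((1+δ) ξ V) ≤ piR y`:
`(1+δ) ξ V ≤ (1+δ)^2 V log V ≤ t - log t - B''` (`choice_pi`) and `piR y ≥ y/(8 log y)` (`pi_lower`);
`B (δ₁ + e^(-ck)) exp ((1+δ) ξ V) ≤ 1`: `(1+δ) ξ V ≤ 2 V log V ≤ 2 V log k ≤ (c/2) k`.
Then `d = exp (-((1+δ) ξ V)) ≥ exp (-(1+δ)^2 V log V) ≥ exp (-C - (1+ε)/(1-θ) u log u)` (`choice_dev`), and
`count_large` (`s = 1`), `count_small` (`s = -1`) apply: `y ≤ exp (θ₁ k/8)` (`B' t ≤ k`),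
`M ∑ W ≤ exp (2z) 2 log z exp ((1+δ) ξ V) ≤ exp (θ₁ k/2)`. The conclusion with `c₀ = exp (-C)/2`:
`c₀ exp (-..) ≤ d/2`, and `expected m y ≥ 0` for `m ≥ 1` (all central `m` are `≥ 1`). -/
theorem scale_k (ε θ θ₁ : ℝ) (hε : 0 < ε) (hε1 : ε < 1) (hθ0 : 0 < θ) (hθ1 : θ < 1 / 3)
    (h0 : 0 < θ₁) (h1 : θ₁ < 1 / 8) : ∃ (c₀ : ℝ) (k₀ : ℕ), 0 < c₀ ∧ c₀ ≤ 1 ∧
    ∀ k : ℕ, k₀ ≤ k → ∀ L y : ℝ, (k : ℝ) ≤ L → L ≤ 2 * k → 2 ≤ y →
      Real.log L ≤ Real.log y → Real.log y ≤ 2 * (k : ℝ) ^ θ → ∀ u : ℝ,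
        u = Real.log y / Real.log L →
        Real.exp ((1 - 4 * θ₁) * k) ≤ (((cenSet θ₁ k).filter (fun m => Even m ∧
          (1 + c₀ * Real.exp (-((1 + ε) / (1 - θ) * (u * Real.log u)))) * expected m y
            ≤ (repCount m y : ℝ))).card : ℝ) ∧
        Real.exp ((1 - 4 * θ₁) * k) ≤ (((cenSet θ₁ k).filter (fun m => Even m ∧
          (repCount m y : ℝ)
            ≤ (1 - c₀ * Real.exp (-((1 + ε) / (1 - θ) * (u * Real.log u)))) * expected m y)).card
              : ℝ) := by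
  obtain ⟨δ, hδ0, hδ1, hd1, hd2, hd3⟩ := choice_delta ε θ hε hθ0 hθ1
  obtain ⟨e₀, c, B, kM, zM, he₀, hc, hB, hmat⟩ :=
    matrix_u θ₁ δ h0 (by linarith) hδ0 (by linarith)
  obtain ⟨cA, CA, kA, hcA, hCA, hap⟩ := ap_quant
  obtain ⟨V₀, zX, hV₀, hxi⟩ := exists_xi δ hδ0 (by linarith)
  set V₁ : ℝ := max B (max V₀ 10) + 10 with hV₁
  set C₁ : ℝ := 40 / cA + 1 with hC₁
  have hV₁B : B ≤ V₁ := by
    have := le_max_left B (max V₀ 10)
    linarith
  have hV₁V : V₀ ≤ V₁ := by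
    have h := le_trans (le_max_left V₀ 10) (le_max_right B (max V₀ 10))
    linarith
  have hV₁20 : 20 ≤ V₁ := by
    have h := le_trans (le_max_right V₀ 10) (le_max_right B (max V₀ 10))
    linarith
  have hC₁1 : 1 ≤ C₁ := by
    have : 0 < 40 / cA := by positivity
    linarith
  set B' : ℝ := 160 + 2 / e₀ + 4 / c + 16 / θ₁ with hB'
  have hb1 : 0 < 2 / e₀ := by positivity
  have hb2 : 0 < 4 / c := by positivity
  have hb3 : 0 < 16 / θ₁ := by positivity
  obtain ⟨kz, hcz⟩ := choice_z θ δ V₁ C₁ B' hθ0 hθ1 hδ0 hδ1 (by linarith) hC₁1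
  obtain ⟨ky, hcy⟩ := choice_y θ δ V₁ C₁ hθ0 hθ1 hδ0 hδ1 hd1 (by linarith) hC₁1
  obtain ⟨kp, hcp⟩ := choice_pi θ δ V₁ 5 hθ0 hθ1 hδ0 hδ1 hd2 (by linarith)
  obtain ⟨C, kd, hcd⟩ := choice_dev ε θ δ V₁ hε hθ0 hθ1 hδ0 hδ1 hd3 (by linarith)
  obtain ⟨kl, hcl⟩ := count_large θ₁ h0 h1
  obtain ⟨ks, hcs⟩ := count_small θ₁ h0 h1
  refine ⟨Real.exp (-(max C 0)) / 2, kM + kA + kz + ky + kp + kd + kl + ks
    + (zM + zX + 4) ^ 2 + ⌈B⌉₊ + ⌈2 * B * CA⌉₊ + ⌈4 * B / c⌉₊, by positivity, ?_, ?_⟩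
  · have h2 : Real.exp (-(max C 0)) ≤ 1 := by
      apply Real.exp_le_one_iff.mpr
      have := le_max_right C 0
      linarith
    linarith
  intro k hk L y hkL hL2 hy2 hLy hyθ u hu
  have hsq : (zM + zX + 4) ^ 2 ≤ k := by omega
  have hk16 : 16 ≤ k := by
    have : 4 ^ 2 ≤ (zM + zX + 4) ^ 2 := Nat.pow_le_pow_left (by omega) 2
    omega
  have hkB : B ≤ k := by
    have h2 : ⌈B⌉₊ ≤ k := by omega
    exact le_trans (Nat.le_ceil B) (by exact_mod_cast h2)
  have hkBC : 2 * B * CA ≤ k := by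
    have h2 : ⌈2 * B * CA⌉₊ ≤ k := by omega
    exact le_trans (Nat.le_ceil _) (by exact_mod_cast h2)
  have hkBc : 4 * B / c ≤ k := by
    have h2 : ⌈4 * B / c⌉₊ ≤ k := by omega
    exact le_trans (Nat.le_ceil _) (by exact_mod_cast h2)
  have hkR : (16 : ℝ) ≤ (k : ℝ) := by exact_mod_cast hk16
  have hk0 : (0 : ℝ) < (k : ℝ) := by linarith
  have hlk : 0 < Real.log k := Real.log_pos (by linarith)
  have hL0 : 0 < L := by linarith
  have hy0 : 0 < y := by linarith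
  have hkt : Real.log k ≤ Real.log y := le_trans (Real.log_le_log hk0 hkL) hLy
  have hLy' : L ≤ y := (Real.log_le_log_iff hL0 hy0).mp hLy
  have hy16 : 16 ≤ y := by linarith
  obtain ⟨hVa, hVb, hzs, hzB, hlz, hzq, hVB, htB⟩ := hcz k (by omega) (Real.log y) hkt hyθ
  obtain ⟨hya, hyb⟩ := hcy k (by omega) (Real.log y) hkt hyθ
  have hpi := hcp k (by omega) (Real.log y) hkt hyθ
  have hdev := hcd k (by omega) L (Real.log y) hkL hL2 hLy
  rw [← hu] at hdev
  set V : ℝ := Vp θ δ V₁ k (Real.log y) with hVdef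
  set z : ℕ := zp θ δ V₁ C₁ k (Real.log y) with hzdef
  have hV20 : 20 ≤ V := le_trans hV₁20 hVa
  have hlV : 0 < Real.log V := Real.log_pos (by linarith)
  have hW0 : 0 ≤ V * Real.log V := mul_nonneg (by linarith) hlV.le
  have hVk : V ≤ k := by
    refine le_trans hVb ?_
    calc (k : ℝ) ^ θ ≤ (k : ℝ) ^ (1 : ℝ) :=
          Real.rpow_le_rpow_of_exponent_le (by linarith) (by linarith)
      _ = k := Real.rpow_one _
  have hlVk : Real.log V ≤ Real.log k := Real.log_le_log (by linarith) hVk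
  have hVV : V * Real.log V ≤ V * Real.log k := mul_le_mul_of_nonneg_left hlVk (by linarith)
  have hVlk0 : 0 ≤ V * Real.log k := mul_nonneg (by linarith) hlk.le
  -- z is large
  have hz4 : zM + zX + 4 ≤ z := by
    have h2 : ((zM + zX + 4 : ℕ) : ℝ) ≤ Real.sqrt k := by
      apply Real.le_sqrt_of_sq_le
      exact_mod_cast hsq
    exact_mod_cast le_trans h2 hzs
  have hzM : zM ≤ z := by omega
  have hzX : zX ≤ z := by omega
  have hz4' : 4 ≤ z := by omega
  have hzR : (4 : ℝ) ≤ (z : ℝ) := by exact_mod_cast hz4'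
  have hz0 : (0 : ℝ) < (z : ℝ) := by linarith
  have hzk160 : 160 * (z : ℝ) ≤ k := by
    refine le_trans (mul_le_mul_of_nonneg_right ?_ hz0.le) hzB
    linarith
  have hzk : (z : ℝ) ≤ k := by linarith
  have hbound : ∀ b x : ℝ, b ≤ B' → 0 ≤ x → B' * x ≤ k → b * x ≤ k := by
    intro b x hb hx hx2
    exact le_trans (mul_le_mul_of_nonneg_right hb hx) hx2
  have ht0 : 0 ≤ Real.log y := by linarith
  obtain ⟨p₁, hp₁, hgood⟩ := hap k (by omega) z hzs (by linarith)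
  obtain ⟨ξ, hξ1, -, hξ2, hff⟩ := hxi z hzX p₁ V (by linarith) (by
    have : 0 < Real.log z := Real.log_pos (by linarith)
    linarith)
  have hξV : (1 + δ) * ξ * V ≤ (1 + δ) ^ 2 * (V * Real.log V) := by
    have h2 : (1 + δ) * V * ξ ≤ (1 + δ) * V * ((1 + δ) * Real.log V) :=
      mul_le_mul_of_nonneg_left hξ2 (mul_nonneg (by linarith) (by linarith))
    calc (1 + δ) * ξ * V = (1 + δ) * V * ξ := by ring
      _ ≤ (1 + δ) * V * ((1 + δ) * Real.log V) := h2
      _ = (1 + δ) ^ 2 * (V * Real.log V) := by ring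
  have hδ2 : (1 + δ) ^ 2 ≤ 2 := by nlinarith
  have hξV2 : (1 + δ) * ξ * V ≤ 2 * (V * Real.log V) :=
    le_trans hξV (mul_le_mul_of_nonneg_right hδ2 hW0)
  have hξV3 : (1 + δ) * ξ * V ≤ 2 * (V * Real.log k) := by linarith
  have hξV0 : 0 ≤ (1 + δ) * ξ * V :=
    mul_nonneg (mul_nonneg (by linarith) (by linarith)) (by linarith)
  have hcV : (1 + δ) * ξ * V ≤ c / 2 * k := by
    have h2 : 4 / c * (V * Real.log k) ≤ k := hbound _ _ (by linarith) hVlk0 hVB
    have h3 : 4 / c * (V * Real.log k) = 4 * (V * Real.log k) / c := by ring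
    rw [h3, div_le_iff₀ hc] at h2
    linarith
  have hδ₁0 : 0 ≤ CA * (k : ℝ) ^ 9 * Real.exp (-(cA * k / z)) := by
    have : 0 ≤ CA := by linarith
    positivity
  have hmain := hmat k (by omega) z hzM (by
      have h2 : 2 / e₀ * (z : ℝ) ≤ k := hbound _ _ (by linarith) hz0.le hzB
      have h3 : 2 / e₀ * (z : ℝ) = 2 * (z : ℝ) / e₀ := by ring
      rw [h3, div_le_iff₀ he₀] at h2
      linarith) p₁ _ hδ₁0 hgood ξ hξ1 (by linarith) (by rw [hff]; linarith)
    (by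
      rw [hff]
      exact F5a_pow1 z k V δ e₀ (by linarith) hzk (by linarith) hδ0 hδ1 he₀
        (hbound _ _ (by linarith) hVlk0 hVB))
    (by
      rw [hff]
      exact F5a_pow2 z k V δ B (by linarith) hzs hV20 hδ0 hδ1 hkB)
    y hy2
    (by
      rw [hff]
      exact F5a_pow3 z y V δ (by linarith) hy0 hya)
    (by
      rw [hff]
      apply F5a_piR y hy16
      linarith)
    (by
      rw [hff]
      exact F5a_small B c cA CA k z (V * Real.log V) _ hB hc hcA hCA (by linarith) hW0 hzq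
        hξV2 hcV hkBC hkBc)
  rw [hff] at hmain
  have hM1 : 1 ≤ MM z p₁ := MM_pos z p₁
  have hM0 : (0 : ℝ) < (MM z p₁ : ℝ) := by exact_mod_cast hM1
  have hyexp : y ≤ Real.exp (θ₁ * k / 8) := by
    rw [← Real.log_le_iff_le_exp hy0]
    have h2 : 16 / θ₁ * Real.log y ≤ k := hbound _ _ (by linarith) ht0 htB
    have h3 : 16 / θ₁ * Real.log y = 16 * Real.log y / θ₁ := by ring
    rw [h3, div_le_iff₀ h0] at h2
    linarith
  have htot : ∀ S : ℝ, S ≤ 2 * Real.log z * Real.exp ((1 + δ) * ξ * V) →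
      (MM z p₁ : ℝ) * S ≤ Real.exp (θ₁ * k / 2) := by
    intro S hS
    exact F5a_total θ₁ k z V (Real.log k) S (MM z p₁) _ h0 hk0.le (by linarith) hM0
      (log_MM_le z p₁ hz4') (hbound _ _ (by linarith) hz0.le hzB)
      (hbound _ _ (by linarith) hVlk0 hVB) hξV3 hS
  set d : ℝ := Real.exp (-((1 + δ) * ξ * V)) with hd
  have hdpos : 0 < d := Real.exp_pos _
  have hdle : d ≤ 1 := by
    rw [hd]
    apply Real.exp_le_one_iff.mpr
    linarith
  have hdd : Real.exp (-(max C 0)) / 2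
      * Real.exp (-((1 + ε) / (1 - θ) * (u * Real.log u))) ≤ d / 2 := by
    have h2 : Real.exp (-(max C 0)) * Real.exp (-((1 + ε) / (1 - θ) * (u * Real.log u)))
        ≤ d := by
      rw [hd, ← Real.exp_add]
      apply Real.exp_le_exp.mpr
      have := le_max_left C 0
      linarith
    linarith
  constructor
  · obtain ⟨I, W, hI, hW, hm1, hm2, hm3⟩ := hmain 1 (Or.inl rfl)
    rw [one_mul] at hm1 hm2
    have hres := hcl k (by omega) (MM z p₁) y d I W hM1 (two_dvd_MM z p₁) hI hW hdpos hdle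
      hy0.le hyexp (htot _ hm3) hm1 hm2
    refine le_trans hres ?_
    have hsub : (cenSet θ₁ k).filter (fun m => Even m ∧
        (1 + d / 2) * expected m y ≤ (repCount m y : ℝ)) ⊆
        (cenSet θ₁ k).filter (fun m => Even m ∧
          (1 + Real.exp (-(max C 0)) / 2
            * Real.exp (-((1 + ε) / (1 - θ) * (u * Real.log u)))) * expected m y
            ≤ (repCount m y : ℝ)) := by
      intro m hm
      rw [Finset.mem_filter] at hm ⊢
      refine ⟨hm.1, hm.2.1, le_trans ?_ hm.2.2⟩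
      exact mul_le_mul_of_nonneg_right (by linarith) (F5a_exp_nonneg m y)
    exact_mod_cast Finset.card_le_card hsub
  · obtain ⟨I, W, hI, hW, hm1, hm2, hm3⟩ := hmain (-1) (Or.inr rfl)
    rw [neg_one_mul] at hm1 hm2
    have hres := hcs k (by omega) (MM z p₁) y d I W hM1 (two_dvd_MM z p₁) hI hW hdpos hdle
      hy0.le hyexp (htot _ hm3) hm1 hm2
    refine le_trans hres ?_
    have hsub : (cenSet θ₁ k).filter (fun m => Even m ∧
        (repCount m y : ℝ) ≤ (1 - d / 2) * expected m y) ⊆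
        (cenSet θ₁ k).filter (fun m => Even m ∧
          (repCount m y : ℝ)
            ≤ (1 - Real.exp (-(max C 0)) / 2
              * Real.exp (-((1 + ε) / (1 - θ) * (u * Real.log u)))) * expected m y) := by
      intro m hm
      rw [Finset.mem_filter] at hm ⊢
      refine ⟨hm.1, hm.2.1, le_trans hm.2.2 ?_⟩
      exact mul_le_mul_of_nonneg_right (by linarith) (F5a_exp_nonneg m y)
    exact_mod_cast Finset.card_le_card hsub

end Pool.Agent.MU
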