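import Mathlib
import Pool.Agent.Lib.MP_bae66e_nt.MU.F5a

/-!
# Maier matrices, uniformly in the scale: F5b, the theorem
-/

set_option autoImplicit false

namespace Pool.Agent.MU

open Pool.Agent.GM Pool.Agent.MG MeasureTheory

private lemma F5b_card (θ₁ : ℝ) (k X : ℕ) (hθ : θ₁ < 1) (hk : 1 ≤ k) (hX : 1 ≤ X)
    (h : (1 + θ₁) * k ≤ Real.log X) (P : ℕ → Prop) [DecidablePred P] :
    (((cenSet θ₁ k).filter P).card : ℝ) ≤ (((Finset.Icc 1 X).filter P).card : ℝ) := by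
  have hk' : (1 : ℝ) ≤ k := by exact_mod_cast hk
  have hXpos : (0 : ℝ) < X := by exact_mod_cast hX
  have : (cenSet θ₁ k).filter P ⊆ (Finset.Icc 1 X).filter P := by
    intro m hm
    rw [Finset.mem_filter] at hm ⊢
    refine ⟨?_, hm.2⟩
    obtain ⟨h1, h2⟩ := (mem_cenSet hk hθ).mp hm.1
    have hlm : 0 < Real.log m := lt_of_lt_of_le (by nlinarith) h1
    have hm0 : 0 < m := by
      rcases Nat.eq_zero_or_pos m with h0 | h0
      · rw [h0] at hlm; simp at hlm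
      · exact h0
    rw [Finset.mem_Icc]
    refine ⟨hm0, ?_⟩
    have hm' : (0 : ℝ) < m := by exact_mod_cast hm0
    have h3 : Real.log m ≤ Real.log X := le_trans h2 h
    have h4 : (m : ℝ) ≤ X := (Real.log_le_log_iff hm' hXpos).mp h3
    exact_mod_cast h4
  exact_mod_cast Finset.card_le_card this

/-- F5b. PROOF. `θ₁ = ε/16`, `L = log X`, `k = ⌊L/(1+θ₁)⌋`; `k ≤ L ≤ (1+θ₁)(k+1) ≤ 2 k` for large `X`. `y ≥ log X`
gives `log y ≥ log L` and `y ≥ 2`; `y ≤ exp ((log X)^θ)` gives `log y ≤ L^θ ≤ (2k)^θ ≤ 2 k^θ`. The elements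
of `cenSet θ₁ k` are in `[1, X]`: `log m ≤ (1+θ₁) k ≤ log X`. `exp ((1-4θ₁) k) ≥ X^(1-ε)`: `log X ≤ (1+θ₁)(k+1)` and
`(1-ε)(1+θ₁)(k+1) ≤ (1-4θ₁) k` for large `k`. -/
theorem maier_uniform (ε θ : ℝ) (hε : 0 < ε) (hε1 : ε < 1) (hθ0 : 0 < θ) (hθ1 : θ < 1 / 3) :
    ∃ c : ℝ, 0 < c ∧ ∃ X₀ : ℕ, ∀ X : ℕ, X₀ ≤ X → ∀ y u : ℝ,
      Real.log X ≤ y → y ≤ Real.exp ((Real.log X) ^ θ) →
      u = Real.log y / Real.log (Real.log X) →
      (X : ℝ) ^ (1 - ε) ≤ (((Finset.Icc 1 X).filter (fun m => Even m ∧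
        (1 + c * Real.exp (-((1 + ε) / (1 - θ) * (u * Real.log u)))) * expected m y
          ≤ (repCount m y : ℝ))).card : ℝ) ∧
      (X : ℝ) ^ (1 - ε) ≤ (((Finset.Icc 1 X).filter (fun m => Even m ∧
        (repCount m y : ℝ)
          ≤ (1 - c * Real.exp (-((1 + ε) / (1 - θ) * (u * Real.log u)))) * expected m y)).card
            : ℝ) := by
  obtain ⟨c₀, k₀, hc0, hc1, H⟩ := scale_k ε θ (ε / 16) hε hε1 hθ0 hθ1 (by linarith) (by linarith)
  set θ₁ : ℝ := ε / 16 with hθ₁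
  obtain ⟨K, hK⟩ := exists_nat_ge (max (k₀ : ℝ) (max 2 (2 / ε)))
  refine ⟨c₀, hc0, ⌈Real.exp (2 * K)⌉₊, fun X hX y u hy1 hy2 hu => ?_⟩
  have hK1 : (k₀ : ℝ) ≤ K := le_trans (le_max_left _ _) hK
  have hK2 : (2 : ℝ) ≤ K := le_trans (le_trans (le_max_left _ _) (le_max_right _ _)) hK
  have hK3 : 2 / ε ≤ K := le_trans (le_trans (le_max_right _ _) (le_max_right _ _)) hK
  have hXe : Real.exp (2 * K) ≤ X := le_trans (Nat.le_ceil _) (by exact_mod_cast hX)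
  have hXpos : (0 : ℝ) < X := lt_of_lt_of_le (Real.exp_pos _) hXe
  have hX1 : 1 ≤ X := by
    have : (0 : ℝ) < X := hXpos
    have h' : 0 < X := by exact_mod_cast this
    exact h'
  set L : ℝ := Real.log X with hL
  have hL2 : 2 * (K : ℝ) ≤ L := by
    rw [hL, Real.le_log_iff_exp_le hXpos]
    exact hXe
  have hθpos : 0 < θ₁ := by rw [hθ₁]; linarith
  have hθle : θ₁ < 1 / 16 := by rw [hθ₁]; linarith
  set k : ℕ := ⌊L / (1 + θ₁)⌋₊ with hk
  have h1θ : (0 : ℝ) < 1 + θ₁ := by linarith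
  have hkK : (K : ℝ) ≤ k := by
    have : K ≤ k := by
      rw [hk]
      apply Nat.le_floor
      rw [le_div_iff₀ h1θ]
      nlinarith
    exact_mod_cast this
  have hLnn : 0 ≤ L / (1 + θ₁) := by
    apply div_nonneg _ h1θ.le
    linarith
  have hkle : (k : ℝ) ≤ L / (1 + θ₁) := Nat.floor_le hLnn
  have hkl : (1 + θ₁) * k ≤ L := by
    rw [le_div_iff₀ h1θ] at hkle
    linarith
  have hklt : L < (1 + θ₁) * (k + 1) := by
    have := Nat.lt_floor_add_one (L / (1 + θ₁))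
    rw [← hk, div_lt_iff₀ h1θ] at this
    linarith
  have hk0 : k₀ ≤ k := by
    have : (k₀ : ℝ) ≤ k := le_trans hK1 hkK
    exact_mod_cast this
  have hk2 : (2 : ℝ) ≤ k := le_trans hK2 hkK
  have hkL : (k : ℝ) ≤ L := by nlinarith
  have hL2k : L ≤ 2 * k := by nlinarith
  have hLpos : 0 < L := by linarith
  have hy2' : 2 ≤ y := by linarith
  have hlog : Real.log L ≤ Real.log y := Real.log_le_log hLpos hy1
  have hly : Real.log y ≤ 2 * (k : ℝ) ^ θ := by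
    have h1 : Real.log y ≤ L ^ θ := by
      rw [Real.log_le_iff_le_exp (by linarith)]
      exact hy2
    have h2 : L ^ θ ≤ (2 * (k : ℝ)) ^ θ := Real.rpow_le_rpow hLpos.le hL2k hθ0.le
    have h3 : (2 * (k : ℝ)) ^ θ = 2 ^ θ * (k : ℝ) ^ θ :=
      Real.mul_rpow (by norm_num) (by linarith)
    have h4 : (2 : ℝ) ^ θ ≤ 2 := by
      have := Real.rpow_le_rpow_of_exponent_le (x := (2 : ℝ)) (by norm_num) (show θ ≤ 1 by linarith)
      rwa [Real.rpow_one] at this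
    have h5 : 0 ≤ (k : ℝ) ^ θ := Real.rpow_nonneg (by linarith) _
    calc Real.log y ≤ L ^ θ := h1
      _ ≤ (2 * (k : ℝ)) ^ θ := h2
      _ = 2 ^ θ * (k : ℝ) ^ θ := h3
      _ ≤ 2 * (k : ℝ) ^ θ := mul_le_mul_of_nonneg_right h4 h5
  have hmain := H k hk0 L y hkL hL2k hy2' hlog hly u hu
  have hpow : (X : ℝ) ^ (1 - ε) ≤ Real.exp ((1 - 4 * θ₁) * k) := by
    rw [Real.rpow_def_of_pos hXpos, ← hL]
    apply Real.exp_le_exp.mpr
    have hek : 2 ≤ ε * k := by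
      have : 2 / ε ≤ k := le_trans hK3 hkK
      rw [div_le_iff₀ hε] at this
      linarith
    have h1 : L * (1 - ε) ≤ (1 + θ₁) * (k + 1) * (1 - ε) :=
      mul_le_mul_of_nonneg_right hklt.le (by linarith)
    have h2 : (1 + θ₁) * (1 - ε) ≤ 1 - 15 * θ₁ := by
      rw [hθ₁]
      nlinarith
    have h3 : (1 + θ₁) * (k + 1) * (1 - ε) ≤ (1 - 15 * θ₁) * (k + 1) := by
      have : (1 + θ₁) * (k + 1) * (1 - ε) = ((1 + θ₁) * (1 - ε)) * (k + 1) := by ring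
      rw [this]
      exact mul_le_mul_of_nonneg_right h2 (by linarith)
    have h4 : (1 - 15 * θ₁) * (k + 1) ≤ (1 - 4 * θ₁) * k := by
      rw [hθ₁]
      nlinarith
    linarith
  have hk1 : 1 ≤ k := by
    have : (1 : ℝ) ≤ k := by linarith
    exact_mod_cast this
  constructor
  · refine le_trans hpow (le_trans hmain.1 ?_)
    exact F5b_card θ₁ k X (by linarith) hk1 hX1 hkl _
  · refine le_trans hpow (le_trans hmain.2 ?_)
    exact F5b_card θ₁ k X (by linarith) hk1 hX1 hkl _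

end Pool.Agent.MU
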