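import Mathlib
import Pool.Agent.Lib.MP_bae66e_nt.MU.F5b

/-!
# Maier matrices, uniformly in the scale: F6, scales exp((log X)^β)
-/

set_option autoImplicit false

namespace Pool.Agent.MU

open Pool.Agent.GM Pool.Agent.MG MeasureTheory

private lemma F6_expected_nonneg (m : ℕ) (y : ℝ) (hm : 1 ≤ m) : 0 ≤ expected m y := by
  have h1 := (sing_bounds m hm).1
  have h2 := twinConst_pos.1
  have h3 : 0 ≤ piR y := by unfold piR; positivity
  have h4 : 0 ≤ Real.log (m : ℝ) := Real.log_natCast_nonneg m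
  unfold expected
  have h5 : 0 ≤ sing m := by linarith
  positivity

/-- At the scale `y = exp ((log X)^β)`, `β < 1/3`, the relative deviation is at least
`y^(-β/(1-β)-ε)`. -/
theorem maier_beta (ε β : ℝ) (hε : 0 < ε) (hε1 : ε < 1) (hβ0 : 0 < β) (hβ1 : β < 1 / 3) :
    ∃ X₀ : ℕ, ∀ X : ℕ, X₀ ≤ X → ∀ y : ℝ, y = Real.exp ((Real.log X) ^ β) →
      (X : ℝ) ^ (1 - ε) ≤ (((Finset.Icc 1 X).filter (fun m => Even m ∧
        (1 + y ^ (-(β / (1 - β) + ε))) * expected m y ≤ (repCount m y : ℝ))).card : ℝ) ∧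
      (X : ℝ) ^ (1 - ε) ≤ (((Finset.Icc 1 X).filter (fun m => Even m ∧
        (repCount m y : ℝ) ≤ (1 - y ^ (-(β / (1 - β) + ε))) * expected m y)).card : ℝ) := by
  have hb : 0 < 1 - β := by linarith
  set e' := min ε (ε / 2) with he'
  have he0 : 0 < e' := lt_min hε (by linarith)
  have he1 : e' ≤ ε / 2 := min_le_right _ _
  have heε : e' ≤ ε := min_le_left _ _
  obtain ⟨c, hc, X₁, hX₁⟩ := maier_uniform e' β he0 (by linarith) hβ0 hβ1
  -- `β/(1-β) ≤ 1/2`
  have hbb : β / (1 - β) ≤ 1 / 2 := by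
    rw [div_le_iff₀ hb]; linarith
  have hbb0 : 0 < β / (1 - β) := by positivity
  -- large `L`
  have hlim : Filter.Tendsto (fun X : ℕ => (Real.log (X : ℝ)) ^ β) Filter.atTop Filter.atTop :=
    (tendsto_rpow_atTop hβ0).comp (Real.tendsto_log_atTop.comp tendsto_natCast_atTop_atTop)
  have hlim2 : Filter.Tendsto (fun X : ℕ => Real.log (Real.log (X : ℝ))) Filter.atTop
      Filter.atTop :=
    Real.tendsto_log_atTop.comp (Real.tendsto_log_atTop.comp tendsto_natCast_atTop_atTop)
  have hlim3 : Filter.Tendsto (fun X : ℕ => Real.log (X : ℝ)) Filter.atTop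
      Filter.atTop := Real.tendsto_log_atTop.comp tendsto_natCast_atTop_atTop
  -- `log L ≤ L^β`
  have hlim4 : ∀ᶠ X : ℕ in Filter.atTop,
      Real.log (Real.log (X : ℝ)) ≤ (Real.log (X : ℝ)) ^ β := by
    have h := (isLittleO_log_rpow_atTop hβ0).bound (show (0 : ℝ) < 1 by norm_num)
    have h2 := hlim3.eventually h
    filter_upwards [h2, hlim3.eventually_ge_atTop 1] with X h3 h4
    rw [one_mul, Real.norm_eq_abs, Real.norm_eq_abs] at h3
    have h5 : 0 ≤ (Real.log (X : ℝ)) ^ β := Real.rpow_nonneg (by linarith) _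
    rw [abs_of_nonneg h5] at h3
    exact (le_abs_self _).trans h3
  obtain ⟨X₂, hX₂⟩ := Filter.eventually_atTop.mp
    (((hlim.eventually_ge_atTop (-(Real.log c) / (ε / 4) + 1)).and
      (hlim2.eventually_ge_atTop 1)).and (hlim4.and (hlim3.eventually_ge_atTop 1)))
  refine ⟨max (max X₁ X₂) 1, ?_⟩
  intro X hX y hy
  have hXa : X₁ ≤ X := le_trans (le_trans (le_max_left _ _) (le_max_left _ _)) hX
  have hXb : X₂ ≤ X := le_trans (le_trans (le_max_right _ _) (le_max_left _ _)) hX
  have hXc : 1 ≤ X := le_trans (le_max_right _ _) hX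
  obtain ⟨⟨hA, hB⟩, hC, hD⟩ := hX₂ X hXb
  set L := Real.log (X : ℝ) with hL
  have hypos : 0 < y := by rw [hy]; exact Real.exp_pos _
  have hlogy : Real.log y = L ^ β := by rw [hy, Real.log_exp]
  have hL0 : 0 < L := by linarith
  have hLy : L ≤ y := by
    rw [hy, ← Real.exp_log hL0]
    apply Real.exp_le_exp.mpr
    rw [Real.exp_log hL0]
    exact hC
  obtain ⟨h1, h2⟩ := hX₁ X hXa y (Real.log y / Real.log L) hLy (le_of_eq hy) rfl
  set u := Real.log y / Real.log L with hu
  have hlogL : 0 < Real.log L := by linarith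
  have hLb0 : 0 < L ^ β := Real.rpow_pos_of_pos hL0 _
  -- `u log u ≤ β log y`
  have hu0 : 0 < u := by rw [hu, hlogy]; positivity
  have hlogu : Real.log u ≤ β * Real.log L := by
    rw [hu, hlogy, Real.log_div hLb0.ne' hlogL.ne', Real.log_rpow hL0]
    have : 0 ≤ Real.log (Real.log L) := Real.log_nonneg hB
    linarith
  have hul : u * Real.log u ≤ β * L ^ β := by
    calc u * Real.log u ≤ u * (β * Real.log L) := mul_le_mul_of_nonneg_left hlogu hu0.le
      _ = β * L ^ β := by rw [hu, hlogy]; field_simp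
  have hkey : y ^ (-(β / (1 - β) + ε))
      ≤ c * Real.exp (-((1 + e') / (1 - β) * (u * Real.log u))) := by
    have e1 : y ^ (-(β / (1 - β) + ε)) = Real.exp (-(β / (1 - β) + ε) * L ^ β) := by
      rw [Real.rpow_def_of_pos hypos, hlogy, mul_comm]
    have e2 : c * Real.exp (-((1 + e') / (1 - β) * (u * Real.log u)))
        = Real.exp (Real.log c + -((1 + e') / (1 - β) * (u * Real.log u))) := by
      rw [Real.exp_add, Real.exp_log hc]
    rw [e1, e2]
    apply Real.exp_le_exp.mpr
    have h3 : (1 + e') / (1 - β) * (u * Real.log u) ≤ (1 + e') * (β / (1 - β)) * L ^ β := by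
      calc (1 + e') / (1 - β) * (u * Real.log u) ≤ (1 + e') / (1 - β) * (β * L ^ β) :=
            mul_le_mul_of_nonneg_left hul (by positivity)
        _ = _ := by ring
    have h4 : (1 + e') * (β / (1 - β)) ≤ β / (1 - β) + ε / 4 := by nlinarith
    have h5 : (1 + e') * (β / (1 - β)) * L ^ β ≤ (β / (1 - β) + ε / 4) * L ^ β :=
      mul_le_mul_of_nonneg_right h4 hLb0.le
    have h6 : -(Real.log c) ≤ (ε / 4) * L ^ β := by
      have h7 : -(Real.log c) / (ε / 4) ≤ L ^ β := by linarith
      rw [div_le_iff₀ (by linarith)] at h7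
      linarith
    nlinarith
  have hpow : (X : ℝ) ^ (1 - ε) ≤ (X : ℝ) ^ (1 - e') := by
    apply Real.rpow_le_rpow_of_exponent_le
    · exact_mod_cast hXc
    · linarith
  constructor
  · refine hpow.trans (h1.trans ?_)
    have hss : ((Finset.Icc 1 X).filter (fun m => Even m ∧
        (1 + c * Real.exp (-((1 + e') / (1 - β) * (u * Real.log u)))) * expected m y
          ≤ (repCount m y : ℝ))) ⊆ ((Finset.Icc 1 X).filter (fun m => Even m ∧
        (1 + y ^ (-(β / (1 - β) + ε))) * expected m y ≤ (repCount m y : ℝ))) := by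
      intro m hm
      rw [Finset.mem_filter, Finset.mem_Icc] at hm ⊢
      refine ⟨hm.1, hm.2.1, le_trans ?_ hm.2.2⟩
      apply mul_le_mul_of_nonneg_right _ (F6_expected_nonneg m _ hm.1.1)
      linarith
    exact_mod_cast Finset.card_le_card hss
  · refine hpow.trans (h2.trans ?_)
    have hss : ((Finset.Icc 1 X).filter (fun m => Even m ∧ (repCount m y : ℝ)
        ≤ (1 - c * Real.exp (-((1 + e') / (1 - β) * (u * Real.log u)))) * expected m y))
        ⊆ ((Finset.Icc 1 X).filter (fun m => Even m ∧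
        (repCount m y : ℝ) ≤ (1 - y ^ (-(β / (1 - β) + ε))) * expected m y)) := by
      intro m hm
      rw [Finset.mem_filter, Finset.mem_Icc] at hm ⊢
      refine ⟨hm.1, hm.2.1, le_trans hm.2.2 ?_⟩
      apply mul_le_mul_of_nonneg_right _ (F6_expected_nonneg m _ hm.1.1)
      linarith
    exact_mod_cast Finset.card_le_card hss

end Pool.Agent.MU
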