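import Mathlib.NumberTheory.Harmonic.EulerMascheroni
import Mathlib.Analysis.Complex.ExponentialBounds
import Mathlib.Analysis.SpecialFunctions.Log.Deriv
import Mathlib

/-!
# Numerical bounds for Euler's constant, `e^γ` and Buchstab's function
-/

set_option autoImplicit false

noncomputable section

namespace Pool.Agent.MU

open Filter Topology Finset

lemma N1_log_le {a : ℝ} (ha : 0 < a) :
    Real.log (1 + 1 / a) ≤ (2 * a + 1) / (2 * a * (a + 1)) := by
  have h1 := Real.hasSum_log_one_add_inv ha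
  have ht0 : 0 < 1 / (2 * a + 1) := by positivity
  have ht1 : 1 / (2 * a + 1) < 1 := by
    rw [div_lt_one (by positivity)]
    linarith
  set t : ℝ := 1 / (2 * a + 1) with ht
  have ht2 : t ^ 2 < 1 := by nlinarith
  have h2 : HasSum (fun k : ℕ => 2 * t * (t ^ 2) ^ k) (2 * t * (1 - t ^ 2)⁻¹) :=
    (hasSum_geometric_of_lt_one (by positivity) ht2).mul_left (2 * t)
  have h3 : 2 * t * (1 - t ^ 2)⁻¹ = (2 * a + 1) / (2 * a * (a + 1)) := by
    have h4 : 1 - t ^ 2 = 4 * a * (a + 1) / (2 * a + 1) ^ 2 := by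
      rw [ht]
      field_simp
      ring
    rw [h4, ht]
    field_simp
    ring
  rw [← h3]
  have h1' : Real.log (1 + 1 / a) = Real.log (1 + a⁻¹) := by rw [one_div]
  rw [h1']
  refine hasSum_le (fun k => ?_) h1 h2
  have h5 : (2 : ℝ) * t * (t ^ 2) ^ k = 2 * t ^ (2 * k + 1) := by
    rw [← pow_mul, pow_succ]
    ring
  rw [h5]
  have h6 : (1 : ℝ) / (2 * k + 1) ≤ 1 := by
    rw [div_le_one (by positivity)]
    have : (0 : ℝ) ≤ k := Nat.cast_nonneg k
    linarith
  have h7 : 0 < t ^ (2 * k + 1) := by positivity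
  nlinarith

lemma N1_le_log {a : ℝ} (ha : 0 < a) : 2 / (2 * a + 1) ≤ Real.log (1 + 1 / a) := by
  have h1 := Real.hasSum_log_one_add_inv ha
  have h1' : Real.log (1 + 1 / a) = Real.log (1 + a⁻¹) := by rw [one_div]
  rw [h1']
  have h2 := le_hasSum h1 0 (fun k _ => by positivity)
  refine le_trans (le_of_eq ?_) h2
  norm_num
  ring

lemma N1_harm (n : ℕ) : ((harmonic (n + 1 + 1) : ℚ) : ℝ) =
    ((harmonic (n + 1) : ℚ) : ℝ) + 1 / ((n : ℝ) + 1 + 1) := by
  rw [harmonic_succ]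
  push_cast
  rw [one_div]

lemma N1_logsub (n : ℕ) : Real.log ((n : ℝ) + 1 + 1) =
    Real.log ((n : ℝ) + 1) + Real.log (1 + 1 / ((n : ℝ) + 1)) := by
  rw [← Real.log_mul (by positivity) (by positivity)]
  congr 1
  field_simp

/-- `H_n - log n - 1/(2n) ≤ γ`. -/
lemma N1_gamma_ge (n : ℕ) : ((harmonic (n + 1) : ℚ) : ℝ) - Real.log ((n : ℝ) + 1) -
    1 / (2 * ((n : ℝ) + 1)) ≤ Real.eulerMascheroniConstant := by
  have hm : Monotone fun n : ℕ => ((harmonic (n + 1) : ℚ) : ℝ) - Real.log ((n : ℝ) + 1) -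
      1 / (2 * ((n : ℝ) + 1)) := by
    refine monotone_nat_of_le_succ fun n => ?_
    have h1 := N1_log_le (a := (n : ℝ) + 1) (by positivity)
    have h2 : (2 * ((n : ℝ) + 1) + 1) / (2 * ((n : ℝ) + 1) * ((n : ℝ) + 1 + 1)) =
        1 / (2 * ((n : ℝ) + 1)) + 1 / (2 * ((n : ℝ) + 1 + 1)) := by
      field_simp
      ring
    have h3 : 1 / ((n : ℝ) + 1 + 1) = 2 * (1 / (2 * ((n : ℝ) + 1 + 1))) := by
      field_simp
    rw [N1_harm]
    push_cast
    rw [N1_logsub]
    linarith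
  have ht : Tendsto (fun n : ℕ => ((harmonic (n + 1) : ℚ) : ℝ) - Real.log ((n : ℝ) + 1) -
      1 / (2 * ((n : ℝ) + 1))) atTop (𝓝 Real.eulerMascheroniConstant) := by
    have h1 := Real.tendsto_harmonic_sub_log.comp (tendsto_add_atTop_nat 1)
    have h2 : Tendsto (fun n : ℕ => 1 / (2 * ((n : ℝ) + 1))) atTop (𝓝 0) := by
      have h3 := (tendsto_one_div_add_atTop_nhds_zero_nat (𝕜 := ℝ)).const_mul (1 / 2)
      rw [mul_zero] at h3
      refine h3.congr fun n => ?_
      field_simp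
    have h3 := h1.sub h2
    rw [sub_zero] at h3
    refine h3.congr fun n => ?_
    simp only [Function.comp_apply]
    push_cast
    ring
  exact hm.ge_of_tendsto ht n

/-- `γ ≤ H_n - log n - 1/(2n) + 1/(8n²)`. -/
lemma N1_gamma_le (n : ℕ) : Real.eulerMascheroniConstant ≤
    ((harmonic (n + 1) : ℚ) : ℝ) - Real.log ((n : ℝ) + 1) - 1 / (2 * ((n : ℝ) + 1)) +
      1 / (8 * ((n : ℝ) + 1) ^ 2) := by
  have hm : Antitone fun n : ℕ => ((harmonic (n + 1) : ℚ) : ℝ) - Real.log ((n : ℝ) + 1) -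
      1 / (2 * ((n : ℝ) + 1)) + 1 / (8 * ((n : ℝ) + 1) ^ 2) := by
    refine antitone_nat_of_succ_le fun n => ?_
    have h1 := N1_le_log (a := (n : ℝ) + 1) (by positivity)
    rw [N1_harm]
    push_cast
    rw [N1_logsub]
    have h4 : 1 / ((n : ℝ) + 1 + 1) - 1 / (2 * ((n : ℝ) + 1 + 1)) + 1 / (8 * ((n : ℝ) + 1 + 1) ^ 2) +
        1 / (2 * ((n : ℝ) + 1)) - 1 / (8 * ((n : ℝ) + 1) ^ 2) ≤ 2 / (2 * ((n : ℝ) + 1) + 1) := by
      have hn : (0 : ℝ) ≤ n := Nat.cast_nonneg n
      rw [← sub_nonneg]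
      have h5 : 2 / (2 * ((n : ℝ) + 1) + 1) - (1 / ((n : ℝ) + 1 + 1) - 1 / (2 * ((n : ℝ) + 1 + 1)) +
          1 / (8 * ((n : ℝ) + 1 + 1) ^ 2) + 1 / (2 * ((n : ℝ) + 1)) - 1 / (8 * ((n : ℝ) + 1) ^ 2)) =
          1 / (8 * (2 * ((n : ℝ) + 1) + 1) * ((n : ℝ) + 1 + 1) ^ 2 * ((n : ℝ) + 1) ^ 2) := by
        field_simp
        ring
      rw [h5]
      positivity
    linarith
  have ht : Tendsto (fun n : ℕ => ((harmonic (n + 1) : ℚ) : ℝ) - Real.log ((n : ℝ) + 1) -
      1 / (2 * ((n : ℝ) + 1)) + 1 / (8 * ((n : ℝ) + 1) ^ 2)) atTop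
      (𝓝 Real.eulerMascheroniConstant) := by
    have h1 := Real.tendsto_harmonic_sub_log.comp (tendsto_add_atTop_nat 1)
    have h0 := (tendsto_one_div_add_atTop_nhds_zero_nat (𝕜 := ℝ))
    have h2 : Tendsto (fun n : ℕ => 1 / (2 * ((n : ℝ) + 1))) atTop (𝓝 0) := by
      have h3 := h0.const_mul (1 / 2)
      rw [mul_zero] at h3
      refine h3.congr fun n => ?_
      field_simp
    have h2' : Tendsto (fun n : ℕ => 1 / (8 * ((n : ℝ) + 1) ^ 2)) atTop (𝓝 0) := by
      have h3 := (h0.mul h0).const_mul (1 / 8)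
      rw [mul_zero, mul_zero] at h3
      refine h3.congr fun n => ?_
      field_simp
    have h3 := (h1.sub h2).add h2'
    rw [sub_zero, add_zero] at h3
    refine h3.congr fun n => ?_
    simp only [Function.comp_apply]
    push_cast
    ring
  exact hm.le_of_tendsto ht n

lemma N1_H64 : (4.743889 : ℝ) < ((harmonic 64 : ℚ) : ℝ) ∧ ((harmonic 64 : ℚ) : ℝ) < 4.743891 := by
  have h : harmonic 64 = 623171679694215690971693339 / 131362987122535807501262400 := by
    norm_num [harmonic, Finset.sum_range_succ]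
  rw [h]
  constructor <;> norm_num

lemma N1_log64 : Real.log 64 = 6 * Real.log 2 := by
  rw [show (64 : ℝ) = 2 ^ 6 by norm_num, Real.log_pow]
  norm_num

lemma N1_gamma_gt : (0.577192 : ℝ) < Real.eulerMascheroniConstant := by
  have h1 := N1_gamma_ge 63
  have h2 := N1_H64.1
  have h3 := Real.log_two_lt_d9
  norm_num at h1
  rw [N1_log64] at h1
  norm_num at h2
  linarith

lemma N1_gamma_lt : Real.eulerMascheroniConstant < (0.577229 : ℝ) := by
  have h1 := N1_gamma_le 63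
  have h2 := N1_H64.2
  have h3 := Real.log_two_gt_d9
  norm_num at h1
  rw [N1_log64] at h1
  norm_num at h2
  linarith

lemma N1_exp_gamma_gt : (1.781025 : ℝ) < Real.exp Real.eulerMascheroniConstant := by
  have h1 : Real.exp 0.577192 < Real.exp Real.eulerMascheroniConstant :=
    Real.exp_lt_exp.2 N1_gamma_gt
  refine lt_of_lt_of_le ?_ h1.le
  refine lt_of_lt_of_le ?_ (Real.sum_le_exp_of_nonneg (by norm_num) 9)
  simp_rw [Finset.sum_range_succ, Nat.factorial_succ]
  norm_num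

lemma N1_exp_gamma_lt : Real.exp Real.eulerMascheroniConstant < (1.7811 : ℝ) := by
  have h1 : Real.exp Real.eulerMascheroniConstant < Real.exp 0.577229 :=
    Real.exp_lt_exp.2 N1_gamma_lt
  refine lt_of_lt_of_le h1 ?_
  refine (Real.exp_bound' (by norm_num) (by norm_num) (n := 9) (by norm_num)).trans ?_
  simp_rw [Finset.sum_range_succ, Nat.factorial_succ]
  norm_num

/-- The value of Buchstab's function at `25/9`. -/
lemma N1_buch {ω : ℝ → ℝ} (hc : ContinuousOn ω (Set.Ici 1))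
    (h12 : ∀ u, 1 ≤ u → u ≤ 2 → u * ω u = 1)
    (h2 : ∀ u, 2 ≤ u → u * ω u = 1 + ∫ x in (1 : ℝ)..(u - 1), ω x) :
    (0.567131 : ℝ) < ω (25 / 9) ∧ ω 2 = 1 / 2 := by
  refine ⟨?_, ?_⟩
  · have h := h2 (25 / 9) (by norm_num)
    have hi : ∫ x in (1 : ℝ)..(25 / 9 - 1), ω x = Real.log (16 / 9) := by
      have e : (25 / 9 - 1 : ℝ) = 16 / 9 := by norm_num
      rw [e]
      have h3 : ∫ x in (1 : ℝ)..(16 / 9), ω x = ∫ x in (1 : ℝ)..(16 / 9), x⁻¹ := by
        refine intervalIntegral.integral_congr fun x hx => ?_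
        rw [Set.uIcc_of_le (by norm_num)] at hx
        have h4 := h12 x hx.1 (hx.2.trans (by norm_num))
        have h5 : x ≠ 0 := by
          have := hx.1
          positivity
        show ω x = x⁻¹
        field_simp
        linarith
      rw [h3, integral_inv (by
        rw [Set.uIcc_of_le (by norm_num)]
        exact fun h => by
          have := h.1
          norm_num at this)]
      norm_num
    rw [hi] at h
    have h6 : Real.log (16 / 9) = 4 * Real.log 2 - 2 * Real.log 3 := by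
      rw [Real.log_div (by norm_num) (by norm_num), show (16 : ℝ) = 2 ^ 4 by norm_num,
        show (9 : ℝ) = 3 ^ 2 by norm_num, Real.log_pow, Real.log_pow]
      norm_num
    rw [h6] at h
    have h7 := Real.log_two_gt_d9
    have h8 := Real.log_three_lt_d9
    norm_num at h7 h8 ⊢
    linarith
  · have h := h12 2 (by norm_num) le_rfl
    linarith

end Pool.Agent.MU
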