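import Mathlib
import Pool.Agent.Lib.MP_bae66e_nt.MG.F2
import Pool.Agent.Lib.MP_bae66e_nt.MA.Iface
import Pool.Agent.Lib.MP_bae66e_nt.MU.N1

/-!
# The constants at the scale of the conjecture of Granville, van de Lune and te Riele
-/

set_option autoImplicit false

namespace Pool.Agent.MU

open Pool.Agent.GM Pool.Agent.MG

private lemma N2_expected_nonneg (m : ℕ) (y : ℝ) (hm : 1 ≤ m) : 0 ≤ expected m y := by
  have h1 := (sing_bounds m hm).1
  have h2 := twinConst_pos.1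
  have h3 : 0 ≤ piR y := by unfold piR; positivity
  have h4 : 0 ≤ Real.log (m : ℝ) := Real.log_natCast_nonneg m
  unfold expected
  have h5 : 0 ≤ sing m := by linarith
  positivity

private lemma N2_rpow (X : ℕ) (hX : 1 ≤ X) (ε ε' : ℝ) (h : ε' ≤ ε) :
    (X : ℝ) ^ (1 - ε) ≤ (X : ℝ) ^ (1 - ε') := by
  apply Real.rpow_le_rpow_of_exponent_le
  · exact_mod_cast hX
  · linarith

private lemma N2_scale (lam t : ℝ) : scale lam 2 1 t = lam * t ^ 2 * Real.log t := by
  unfold scale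
  rw [Real.rpow_one]
  norm_num

/-- At the scale `lam (log m)^2 log log m`, for every `lam > 0`: `X^(1-ε)` even `m ≤ X` have at
least `1.01` times, and `X^(1-ε)` have at most `0.8906` times the expected number. -/
theorem maier_numbers (lam ε : ℝ) (hlam : 0 < lam) (hε : 0 < ε) :
    ∃ X₀ : ℕ, ∀ X : ℕ, X₀ ≤ X →
      (X : ℝ) ^ (1 - ε) ≤ (((Finset.Icc 1 X).filter (fun m => Even m ∧
        1.01 * expected m (lam * Real.log m ^ 2 * Real.log (Real.log m)) ≤
          (repCount m (lam * Real.log m ^ 2 * Real.log (Real.log m)) : ℝ))).card : ℝ) ∧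
      (X : ℝ) ^ (1 - ε) ≤ (((Finset.Icc 1 X).filter (fun m => Even m ∧
        (repCount m (lam * Real.log m ^ 2 * Real.log (Real.log m)) : ℝ) ≤
          0.8906 * expected m (lam * Real.log m ^ 2 * Real.log (Real.log m)))).card : ℝ) := by
  obtain ⟨ω, hc, h12, h2, hgt, hlt, hlog⟩ := Pool.Agent.MA.buchstab
  obtain ⟨δ, hδ, hε1, hε2⟩ : ∃ δ : ℝ, 0 < δ ∧ δ ≤ ε ∧ δ ≤ 1 / 20000 :=
    ⟨min ε (1 / 20000), lt_min hε (by norm_num), min_le_left _ _, min_le_right _ _⟩
  have hat := fun v (hv : (2 : ℝ) ≤ v) => maier_at ω (fun v₁ v₂ h1 h => hlog v₁ v₂ h1 h) hc h12 h2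
    lam 2 1 hlam (by norm_num) v hv δ hδ
  obtain ⟨X₁, hX₁⟩ := hat (25 / 9) (by norm_num)
  obtain ⟨X₂, hX₂⟩ := hat 2 le_rfl
  obtain ⟨hb1, hb2⟩ := N1_buch hc h12 h2
  have hg1 := N1_exp_gamma_gt
  have hg2 := N1_exp_gamma_lt
  refine ⟨max 1 (max X₁ X₂), fun X hX => ⟨?_, ?_⟩⟩
  · refine (N2_rpow X ((le_max_left _ _).trans hX) ε _ hε1).trans ?_
    refine (hX₁ X (((le_max_left _ _).trans (le_max_right _ _)).trans hX)).1.trans ?_
    refine Nat.cast_le.2 (Finset.card_le_card fun m hm => ?_)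
    rw [Finset.mem_filter] at hm ⊢
    refine ⟨hm.1, hm.2.1, ?_⟩
    have h3 := hm.2.2
    rw [N2_scale] at h3
    refine le_trans (mul_le_mul_of_nonneg_right ?_
      (N2_expected_nonneg m _ (Finset.mem_Icc.1 hm.1).1)) h3
    have h4 : (1.781025 : ℝ) * 0.567131 ≤ Real.exp Real.eulerMascheroniConstant * ω (25 / 9) :=
      mul_le_mul hg1.le hb1.le (by norm_num) (Real.exp_pos _).le
    norm_num at h4 ⊢
    linarith
  · refine (N2_rpow X ((le_max_left _ _).trans hX) ε _ hε1).trans ?_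
    refine (hX₂ X (((le_max_right _ _).trans (le_max_right _ _)).trans hX)).2.trans ?_
    refine Nat.cast_le.2 (Finset.card_le_card fun m hm => ?_)
    rw [Finset.mem_filter] at hm ⊢
    refine ⟨hm.1, hm.2.1, ?_⟩
    have h3 := hm.2.2
    rw [N2_scale] at h3
    refine h3.trans (mul_le_mul_of_nonneg_right ?_
      (N2_expected_nonneg m _ (Finset.mem_Icc.1 hm.1).1))
    rw [hb2]
    norm_num at hg2 ⊢
    linarith

end Pool.Agent.MU
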